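import Pool.Agent.Helper22.AE.Defs

/-!
# AE-E0: the Gaussian measure

PROOF. `gd w = ∏_l exp(-π (w.1 l)²) ∏_l exp(-π (w.2 l)²)`. `∫ exp(-π x²) = 1`, `∫ exp(-π x²) e(x y) dx = exp(-π y²)`
(`fourierIntegral_gaussian_pi` / `integral_gaussian`), products: `MeasureTheory.integral_fintype_prod_eq_prod` (volume on `Fin L → ℝ`),
`integral_prod_mul`. `∫ f ∂(gm L) = ∫ gd w • f w` (`integral_withDensity_eq_integral_smul` with a measurable `NNReal` density, or
`integral_withDensity_eq_integral_toReal_smul`). `vol_ac`: `withDensity_absolutelyContinuous'` (the density is positive).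
-/

open MeasureTheory Real Set Filter Topology

set_option autoImplicit false

namespace Pool.Agent.Helper22.AE

private theorem e0_meas (L : ℕ) : Measurable (fun w : (Fin L → ℝ) × (Fin L → ℝ) => ENNReal.ofReal (gd w)) := by
  have h : Continuous (fun w : (Fin L → ℝ) × (Fin L → ℝ) => gd w) := by
    unfold gd
    fun_prop
  exact h.measurable.ennreal_ofReal

private theorem e0_one (x : ℝ) :
    ∫ t : ℝ, ((exp (-π * t ^ 2) : ℝ) : ℂ) * ee (t * x) = ((exp (-π * x ^ 2) : ℝ) : ℂ) := by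
  have hπ : (0 : ℝ) < (π : ℂ).re := by simpa using pi_pos
  have hπ' : (π : ℂ) ≠ 0 := by exact_mod_cast pi_pos.ne'
  have h := fourierIntegral_gaussian hπ (2 * π * x)
  have e1 : (fun t : ℝ => Complex.exp (Complex.I * (2 * π * x) * t) * Complex.exp (-π * t ^ 2)) =
      fun t : ℝ => ((exp (-π * t ^ 2) : ℝ) : ℂ) * ee (t * x) := by
    funext t
    unfold ee
    rw [mul_comm]
    push_cast
    congr 2
    ring
  rw [e1] at h
  rw [h, div_self hπ', Complex.one_cpow, one_mul]
  push_cast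
  congr 1
  field_simp
  ring

private theorem e0_prod {L : ℕ} (x : Fin L → ℝ) :
    ∫ t : Fin L → ℝ, ∏ l, (((exp (-π * t l ^ 2) : ℝ) : ℂ) * ee (t l * x l)) =
      ((exp (-π * ∑ l, x l ^ 2) : ℝ) : ℂ) := by
  have h := integral_fintype_prod_volume_eq_prod (𝕜 := ℂ)
    (fun (l : Fin L) (t : ℝ) => ((exp (-π * t ^ 2) : ℝ) : ℂ) * ee (t * x l))
  rw [h]
  rw [Finset.prod_congr rfl fun l _ => e0_one (x l)]
  rw [← Complex.ofReal_prod, ← Real.exp_sum, Finset.mul_sum]

private theorem e0_ee_sum {ι : Type*} (s : Finset ι) (f : ι → ℝ) : ee (∑ i ∈ s, f i) = ∏ i ∈ s, ee (f i) := by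
  classical
  induction s using Finset.induction_on with
  | empty => simp [ee_zero]
  | insert a s ha ih => rw [Finset.sum_insert ha, Finset.prod_insert ha, ee_add, ih]

theorem gm_char {L : ℕ} (x y : Fin L → ℝ) :
    ∫ w, ee (∑ l, (w.1 l * x l + w.2 l * y l)) ∂(gm L) =
      ((exp (-π * (∑ l, x l ^ 2 + ∑ l, y l ^ 2)) : ℝ) : ℂ) := by
  unfold gm
  rw [integral_withDensity_eq_integral_toReal_smul (e0_meas L) (Eventually.of_forall fun w => ENNReal.ofReal_lt_top)]
  have e1 : (fun w : (Fin L → ℝ) × (Fin L → ℝ) => (ENNReal.ofReal (gd w)).toReal • ee (∑ l, (w.1 l * x l + w.2 l * y l))) =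
      fun w => (∏ l, (((exp (-π * w.1 l ^ 2) : ℝ) : ℂ) * ee (w.1 l * x l))) *
        ∏ l, (((exp (-π * w.2 l ^ 2) : ℝ) : ℂ) * ee (w.2 l * y l)) := by
    funext w
    have hgd : 0 ≤ gd w := (exp_pos _).le
    rw [ENNReal.toReal_ofReal hgd, Finset.sum_add_distrib, ee_add, e0_ee_sum, e0_ee_sum, Finset.prod_mul_distrib,
      Finset.prod_mul_distrib, Complex.real_smul]
    have e2 : ((gd w : ℝ) : ℂ) = (∏ l, ((exp (-π * w.1 l ^ 2) : ℝ) : ℂ)) * ∏ l, ((exp (-π * w.2 l ^ 2) : ℝ) : ℂ) := by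
      rw [← Complex.ofReal_prod, ← Complex.ofReal_prod, ← Complex.ofReal_mul, ← Real.exp_sum, ← Real.exp_sum,
        ← Real.exp_add]
      unfold gd
      congr 2
      rw [← Finset.mul_sum, ← Finset.mul_sum]
      ring
    rw [e2]
    ring
  rw [e1, Measure.volume_eq_prod, integral_prod_mul
    (fun t : Fin L → ℝ => ∏ l, (((exp (-π * t l ^ 2) : ℝ) : ℂ) * ee (t l * x l)))
    (fun t : Fin L → ℝ => ∏ l, (((exp (-π * t l ^ 2) : ℝ) : ℂ) * ee (t l * y l))), e0_prod, e0_prod,
    ← Complex.ofReal_mul, ← Real.exp_add]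
  congr 2
  ring

theorem gm_univ (L : ℕ) : gm L univ = 1 := by
  have h := gm_char (L := L) 0 0
  simp only [Pi.zero_apply, mul_zero, add_zero, Finset.sum_const_zero, ee_zero, integral_const, ne_eq, OfNat.ofNat_ne_zero,
    not_false_eq_true, zero_pow, Real.exp_zero, Complex.ofReal_one] at h
  rw [Complex.real_smul, mul_one] at h
  have h1 : (gm L).real univ = 1 := by exact_mod_cast h
  unfold Measure.real at h1
  exact (ENNReal.toReal_eq_one_iff _).1 h1

instance gm_prob (L : ℕ) : IsProbabilityMeasure (gm L) := ⟨gm_univ L⟩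

theorem vol_ac (L : ℕ) : (volume : Measure ((Fin L → ℝ) × (Fin L → ℝ))) ≪ gm L := by
  unfold gm
  apply withDensity_absolutelyContinuous' (e0_meas L).aemeasurable
  refine Eventually.of_forall fun w => ?_
  rw [ne_eq, ENNReal.ofReal_eq_zero, not_le]
  exact exp_pos _

end Pool.Agent.Helper22.AE
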