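import Pool.Agent.Helper22.AE.G3

/-!
# AE-G6: areas

`area_scale`: `dom (R H) = R · dom H`, `Measure.addHaar_smul` on `ℝ × ℝ` (finrank 2).
`area_bound`: let `m = min H > 0` (continuous periodic function: minimum over `[0, 2π]`). For `|s| ≤ 1`, `R ≥ 1 / m`:
`dom ((R - |s|/m) H) ⊆ dom (R H + s) ⊆ dom ((R + |s|/m) H)`, so `| |dom (R H + s)| - R² area H | ≤ area H · (2 R |s| / m + s²/m²)`,
and `s² / m² ≤ R |s| / m`. (If `R - |s|/m ≥ 0`; true for `R ≥ 1/m`.)
`rho_int`: `∫_0^{2π} rho (R H + s) ≤ C R` for `R ≥ 1`, `|s| ≤ 1` (`rho (R H + s) = R rho H + s`).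
`supp_affine`: `R H + s` is a support function for `R ≥ R₁`, `|s| ≤ 1` (minima of `H` and of `rho H`).
-/

open MeasureTheory Real Set Filter Topology
open scoped Pointwise

set_option autoImplicit false

namespace Pool.Agent.Helper22.AE

private lemma h10_periodic_min {f : ℝ → ℝ} (hf : Continuous f) (hp : Function.Periodic f (2 * π))
    (hpos : ∀ θ, 0 < f θ) : ∃ m : ℝ, 0 < m ∧ ∀ θ, m ≤ f θ := by
  obtain ⟨t0, -, h0⟩ := isCompact_Icc.exists_isMinOn (s := Icc (0 : ℝ) (2 * π))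
    (nonempty_Icc.2 (by positivity)) hf.continuousOn
  refine ⟨f t0, hpos t0, fun θ => ?_⟩
  obtain ⟨y, hy, hy'⟩ := hp.exists_mem_Ico₀ (by positivity) θ
  rw [hy']
  exact h0 ⟨hy.1, hy.2.le⟩

private lemma h10_dom_smul (H : ℝ → ℝ) {R : ℝ} (hR : 0 < R) :
    dom (fun θ => R * H θ) = R • dom H := by
  ext p
  rw [Set.mem_smul_set_iff_inv_smul_mem₀ hR.ne']
  simp only [dom, Set.mem_ofPred_eq, Prod.smul_fst, Prod.smul_snd, smul_eq_mul]
  refine forall_congr' fun θ => ?_
  rw [← mul_le_mul_iff_right₀ hR (b := R⁻¹ * p.1 * cos θ + R⁻¹ * p.2 * sin θ)]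
  have h : R * (R⁻¹ * p.1 * cos θ + R⁻¹ * p.2 * sin θ) = p.1 * cos θ + p.2 * sin θ := by
    field_simp
  rw [h]

theorem area_scale {H : ℝ → ℝ} (hH : IsSupp H) {R : ℝ} (hR : 0 < R) :
    (volume (dom (fun θ => R * H θ))).toReal = R ^ 2 * area H := by
  rw [h10_dom_smul H hR, Measure.addHaar_smul, ENNReal.toReal_mul, area]
  congr 1
  rw [ENNReal.toReal_ofReal (abs_nonneg _)]
  have h2 : Module.finrank ℝ (ℝ × ℝ) = 2 := by simp
  rw [h2, abs_of_nonneg (by positivity)]

private lemma h10_dom_mono {G G' : ℝ → ℝ} (h : ∀ θ, G θ ≤ G' θ) : dom G ⊆ dom G' :=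
  fun _ hp θ => (hp θ).trans (h θ)

private lemma h10_fin {H : ℝ → ℝ} (hH : IsSupp H) {R : ℝ} (hR : 0 < R) :
    volume (dom (fun θ => R * H θ)) ≠ ⊤ := by
  rw [h10_dom_smul H hR, Measure.addHaar_smul]
  exact ENNReal.mul_ne_top ENNReal.ofReal_ne_top (dom_compact hH).measure_lt_top.ne

theorem area_bound {H : ℝ → ℝ} (hH : IsSupp H) : ∃ C R₁ : ℝ, 0 < R₁ ∧ ∀ R : ℝ, R₁ ≤ R → ∀ s : ℝ, |s| ≤ 1 →
    |(volume (dom (fun θ => R * H θ + s))).toReal - R ^ 2 * area H| ≤ C * R * |s| := by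
  obtain ⟨m, hm, hmH⟩ := h10_periodic_min hH.smooth.continuous hH.per hH.pos
  refine ⟨3 * area H / m, 2 / m, by positivity, fun R hR s hs => ?_⟩
  have hR0 : 0 < R := lt_of_lt_of_le (by positivity) hR
  have ha : 0 ≤ area H := ENNReal.toReal_nonneg
  have hq0 : 0 ≤ |s| / m := by positivity
  have hq1 : |s| / m ≤ 1 / m := div_le_div_of_nonneg_right hs hm.le
  have hq2 : 1 / m < R := lt_of_lt_of_le (by
    rw [div_lt_div_iff_of_pos_right hm]; norm_num) hR
  have hsH : ∀ θ, |s| ≤ |s| / m * H θ := by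
    intro θ
    have h1 : |s| / m * m ≤ |s| / m * H θ := mul_le_mul_of_nonneg_left (hmH θ) hq0
    rwa [div_mul_cancel₀ _ hm.ne'] at h1
  have hlo : dom (fun θ => (R - |s| / m) * H θ) ⊆ dom (fun θ => R * H θ + s) :=
    h10_dom_mono fun θ => by
      have h1 := hsH θ
      have h2 := neg_abs_le s
      change (R - |s| / m) * H θ ≤ R * H θ + s
      rw [sub_mul]
      linarith
  have hup : dom (fun θ => R * H θ + s) ⊆ dom (fun θ => (R + |s| / m) * H θ) :=
    h10_dom_mono fun θ => by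
      have h1 := hsH θ
      have h2 := le_abs_self s
      change R * H θ + s ≤ (R + |s| / m) * H θ
      rw [add_mul]
      linarith
  have hf2 := h10_fin hH (R := R + |s| / m) (by positivity)
  have hf1 : volume (dom (fun θ => R * H θ + s)) ≠ ⊤ :=
    ne_top_of_le_ne_top hf2 (measure_mono hup)
  have h1 := ENNReal.toReal_mono hf1 (measure_mono hlo)
  have h2 := ENNReal.toReal_mono hf2 (measure_mono hup)
  rw [area_scale hH (by linarith)] at h1
  rw [area_scale hH (by positivity)] at h2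
  have h3 : (|s| / m) ^ 2 ≤ R * (|s| / m) := by
    rw [pow_two]
    exact mul_le_mul_of_nonneg_right (by linarith) hq0
  have h4 : 3 * area H / m * R * |s| = area H * (3 * (R * (|s| / m))) := by ring
  rw [h4, abs_le]
  constructor
  · nlinarith [mul_le_mul_of_nonneg_left h3 ha, mul_nonneg ha (sq_nonneg (|s| / m)),
      mul_nonneg ha (mul_nonneg hR0.le hq0)]
  · nlinarith [mul_le_mul_of_nonneg_left h3 ha, mul_nonneg ha (sq_nonneg (|s| / m)),
      mul_nonneg ha (mul_nonneg hR0.le hq0)]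

private lemma h10_deriv_affine {H : ℝ → ℝ} (R s : ℝ) :
    deriv (fun θ => R * H θ + s) = fun θ => R * deriv H θ := by
  funext θ
  rw [deriv_add_const, deriv_const_mul_field]

theorem rho_affine {H : ℝ → ℝ} (hH : ContDiff ℝ 2 H) (R s θ : ℝ) :
    rho (fun θ => R * H θ + s) θ = R * rho H θ + s := by
  have h1 : deriv (deriv (fun θ => R * H θ + s)) θ = R * deriv (deriv H) θ := by
    rw [h10_deriv_affine, deriv_const_mul_field]
  simp only [rho]
  rw [h1]
  ring

private lemma h10_rho_cont {H : ℝ → ℝ} (hH : ContDiff ℝ 2 H) : Continuous (rho H) := by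
  have h1 : ContDiff ℝ 1 (deriv H) := by
    have h := (contDiff_succ_iff_deriv (n := 1) (f := H)).1 (by
      rw [one_add_one_eq_two]; exact hH)
    exact h.2.2
  have h2 : Continuous (deriv (deriv H)) := h1.continuous_deriv (le_refl _)
  exact hH.continuous.add h2

theorem rho_int {H : ℝ → ℝ} (hH : IsSupp H) : ∃ C : ℝ, ∀ R : ℝ, 1 ≤ R → ∀ s : ℝ, |s| ≤ 1 →
    ∫ t in (0 : ℝ)..(2 * π), rho (fun θ => R * H θ + s) t ≤ C * R := by
  refine ⟨|∫ t in (0 : ℝ)..(2 * π), rho H t| + 2 * π, fun R hR s hs => ?_⟩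
  simp only [rho_affine hH.smooth]
  have hc : Continuous fun t => R * rho H t := continuous_const.mul (h10_rho_cont hH.smooth)
  rw [intervalIntegral.integral_add (hc.intervalIntegrable _ _)
    (continuous_const.intervalIntegrable _ _), intervalIntegral.integral_const_mul,
    intervalIntegral.integral_const]
  have h1 := le_abs_self (∫ t in (0 : ℝ)..(2 * π), rho H t)
  have h2 := (abs_le.1 hs).2
  have h3 : 0 < π := pi_pos
  rw [smul_eq_mul, sub_zero]
  have h4 : R * (∫ t in (0 : ℝ)..(2 * π), rho H t) ≤ R * |∫ t in (0 : ℝ)..(2 * π), rho H t| :=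
    mul_le_mul_of_nonneg_left h1 (by linarith)
  nlinarith

private lemma h10_rho_per {H : ℝ → ℝ} (hH : IsSupp H) : Function.Periodic (rho H) (2 * π) := by
  have h1 : Function.Periodic (deriv H) (2 * π) := by
    intro x
    have h2 : (fun y => H (y + 2 * π)) = H := funext hH.per
    rw [← deriv_comp_add_const, h2]
  have h3 : Function.Periodic (deriv (deriv H)) (2 * π) := by
    intro x
    have h2 : (fun y => deriv H (y + 2 * π)) = deriv H := funext h1
    rw [← deriv_comp_add_const, h2]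
  intro x
  simp only [rho]
  rw [hH.per x, h3 x]

theorem supp_affine {H : ℝ → ℝ} (hH : IsSupp H) : ∃ R₁ : ℝ, 0 < R₁ ∧ ∀ R : ℝ, R₁ ≤ R → ∀ s : ℝ, |s| ≤ 1 →
    IsSupp (fun θ => R * H θ + s) := by
  obtain ⟨m, hm, hmH⟩ := h10_periodic_min hH.smooth.continuous hH.per hH.pos
  obtain ⟨m', hm', hmH'⟩ := h10_periodic_min (h10_rho_cont hH.smooth) (h10_rho_per hH) hH.rho_pos
  refine ⟨max (2 / m) (2 / m'), by positivity, fun R hR s hs => ?_⟩
  have hR1 : 2 / m ≤ R := (le_max_left _ _).trans hR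
  have hR2 : 2 / m' ≤ R := (le_max_right _ _).trans hR
  have hR0 : 0 < R := lt_of_lt_of_le (by positivity) hR1
  have hs' := (abs_le.1 hs).1
  refine ⟨(contDiff_const.mul hH.smooth).add contDiff_const, ?_, ?_, ?_⟩
  · intro θ
    change R * H (θ + 2 * π) + s = R * H θ + s
    rw [hH.per θ]
  · intro θ
    have h1 : 2 ≤ R * m := by rwa [div_le_iff₀ hm] at hR1
    have h2 : R * m ≤ R * H θ := mul_le_mul_of_nonneg_left (hmH θ) hR0.le
    change 0 < R * H θ + s
    linarith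
  · intro θ
    have h1 : 2 ≤ R * m' := by rwa [div_le_iff₀ hm'] at hR2
    have h2 : R * m' ≤ R * rho H θ := mul_le_mul_of_nonneg_left (hmH' θ) hR0.le
    have h3 := rho_affine hH.smooth R s θ
    change 0 < rho (fun θ => R * H θ + s) θ
    rw [h3]
    linarith

end Pool.Agent.Helper22.AE
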