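import Pool.Agent.Helper22.AE.P2

/-!
# AE-P3: the sandwich

Let `G θ + δ ≤ G' θ` for all `θ`, both support functions. If `p ∈ dom G` and `|v| ≤ δ` (Euclidean) then `p + v ∈ dom G'`.
* `0 ≤ smf φ δ G p ≤ 1` (`∫ δ⁻² φ ((p - q)/δ) dq = 1` over the whole plane, substitution);
* `smf φ δ G p = 0` if `p ∉ dom G'` (if `q ∈ dom G` and `φ ((p-q)/δ) ≠ 0` then `|p - q| ≤ δ`, so `p ∈ dom G'`);
* `smf φ δ G' p = 1` if `p ∈ dom G` (the ball of radius `δ` about `p` lies in `dom G'`).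
The set of lattice points of `dom G'` is finite (`dom_compact`; `|k.1|, |k.2|` bounded). Sum over `k`: `smc φ δ G ≤ #(dom G')` and
`#(dom G) ≤ smc φ δ G'` (the sum `smc φ δ G'` has finitely many nonzero terms: they vanish outside `dom (G' + δ)`, which is compact;
`tsum_eq_sum`, `Nat.card` of a finite set).
-/

open MeasureTheory Real Set Filter Topology

set_option autoImplicit false

namespace Pool.Agent.Helper22.AE

private lemma dom_closed (G : ℝ → ℝ) : IsClosed (dom G) := by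
  have h : dom G = ⋂ θ : ℝ, {p : ℝ × ℝ | p.1 * cos θ + p.2 * sin θ ≤ G θ} := by
    ext p
    simp only [dom, Set.mem_iInter]
    rfl
  rw [h]
  apply isClosed_iInter
  intro θ
  exact isClosed_le (by fun_prop) continuous_const

/-- a vector of length at most `δ` has scalar product at most `δ` with a unit vector -/
private lemma dot_le {x y δ : ℝ} (hδ : 0 < δ) (h : x ^ 2 + y ^ 2 ≤ δ ^ 2) (θ : ℝ) : x * cos θ + y * sin θ ≤ δ := by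
  have h1 := sin_sq_add_cos_sq θ
  have h2 : (x * cos θ + y * sin θ) ^ 2 ≤ δ ^ 2 := by
    have h3 : (x * cos θ + y * sin θ) ^ 2 = (x ^ 2 + y ^ 2) * (sin θ ^ 2 + cos θ ^ 2) - (x * sin θ - y * cos θ) ^ 2 := by
      ring
    rw [h3, h1]
    nlinarith [sq_nonneg (x * sin θ - y * cos θ)]
  exact (abs_le_of_sq_le_sq' h2 hδ.le).2

private lemma dom_move {G G' : ℝ → ℝ} {δ : ℝ} (hδ : 0 < δ) (h : ∀ θ, G θ + δ ≤ G' θ) {p q : ℝ × ℝ} (hq : q ∈ dom G)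
    (hpq : ((p.1 - q.1) / δ) ^ 2 + ((p.2 - q.2) / δ) ^ 2 ≤ 1) : p ∈ dom G' := by
  intro θ
  have h1 : (p.1 - q.1) ^ 2 + (p.2 - q.2) ^ 2 ≤ δ ^ 2 := by
    rw [div_pow, div_pow, ← add_div, div_le_one (by positivity)] at hpq
    exact hpq
  have h2 := dot_le hδ h1 θ
  have h3 := hq θ
  have h4 := h θ
  have h5 : p.1 * cos θ + p.2 * sin θ = (q.1 * cos θ + q.2 * sin θ) + ((p.1 - q.1) * cos θ + (p.2 - q.2) * sin θ) := by
    ring
  rw [h5]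
  linarith

private lemma bump_le {φ : ℝ × ℝ → ℝ} (hφ : IsBump φ) {x y : ℝ} (h : φ (x, y) ≠ 0) : x ^ 2 + y ^ 2 ≤ 1 := by
  by_contra hcon
  push Not at hcon
  exact h (hφ.supp (x, y) hcon)

private lemma bump_compact {φ : ℝ × ℝ → ℝ} (hφ : IsBump φ) : HasCompactSupport φ := by
  apply HasCompactSupport.intro (K := Icc (-1 : ℝ) 1 ×ˢ Icc (-1 : ℝ) 1) (isCompact_Icc.prod isCompact_Icc)
  intro p hp
  by_contra hne
  apply hp
  have h := bump_le hφ (x := p.1) (y := p.2) hne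
  rw [Set.mem_prod, Set.mem_Icc, Set.mem_Icc]
  refine ⟨⟨?_, ?_⟩, ?_, ?_⟩ <;> nlinarith [sq_nonneg p.1, sq_nonneg p.2, sq_nonneg (p.1 - 1), sq_nonneg (p.2 - 1)]

/-- the kernel around the point `p` -/
private lemma kern_eq (φ : ℝ × ℝ → ℝ) (δ : ℝ) (p q : ℝ × ℝ) :
    (δ ^ 2)⁻¹ * φ ((p.1 - q.1) / δ, (p.2 - q.2) / δ) = (δ ^ 2)⁻¹ * φ (δ⁻¹ • (p - q)) := by
  congr 2
  ext
  · simp [div_eq_inv_mul]
  · simp [div_eq_inv_mul]

private lemma kern_int {φ : ℝ × ℝ → ℝ} (hφ : IsBump φ) {δ : ℝ} (hδ : 0 < δ) (p : ℝ × ℝ) :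
    ∫ q : ℝ × ℝ, (δ ^ 2)⁻¹ * φ ((p.1 - q.1) / δ, (p.2 - q.2) / δ) = 1 := by
  simp_rw [kern_eq φ δ p]
  rw [MeasureTheory.integral_sub_left_eq_self (fun q : ℝ × ℝ => (δ ^ 2)⁻¹ * φ (δ⁻¹ • q)) volume p,
    integral_const_mul, MeasureTheory.Measure.integral_comp_smul, hφ.int_one]
  simp
  field_simp

private lemma kern_integrable {φ : ℝ × ℝ → ℝ} (hφ : IsBump φ) {δ : ℝ} (hδ : 0 < δ) (p : ℝ × ℝ) :
    Integrable (fun q : ℝ × ℝ => (δ ^ 2)⁻¹ * φ ((p.1 - q.1) / δ, (p.2 - q.2) / δ)) := by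
  by_contra hcon
  have h1 := kern_int hφ hδ p
  rw [integral_undef hcon] at h1
  exact zero_ne_one h1

private lemma kern_nonneg {φ : ℝ × ℝ → ℝ} (hφ : IsBump φ) {δ : ℝ} (hδ : 0 < δ) (p q : ℝ × ℝ) :
    0 ≤ (δ ^ 2)⁻¹ * φ ((p.1 - q.1) / δ, (p.2 - q.2) / δ) :=
  mul_nonneg (by positivity) (hφ.nonneg _)

private lemma smf_nonneg {φ : ℝ × ℝ → ℝ} (hφ : IsBump φ) {δ : ℝ} (hδ : 0 < δ) (G : ℝ → ℝ) (p : ℝ × ℝ) :
    0 ≤ smf φ δ G p :=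
  integral_nonneg (fun q => kern_nonneg hφ hδ p q)

private lemma smf_le_one {φ : ℝ × ℝ → ℝ} (hφ : IsBump φ) {δ : ℝ} (hδ : 0 < δ) (G : ℝ → ℝ) (p : ℝ × ℝ) :
    smf φ δ G p ≤ 1 := by
  rw [← kern_int hφ hδ p]
  exact setIntegral_le_integral (kern_integrable hφ hδ p) (Filter.Eventually.of_forall (fun q => kern_nonneg hφ hδ p q))

private lemma smf_zero {G G' : ℝ → ℝ} {φ : ℝ × ℝ → ℝ} (hφ : IsBump φ) {δ : ℝ} (hδ : 0 < δ)
    (h : ∀ θ, G θ + δ ≤ G' θ) {p : ℝ × ℝ} (hp : p ∉ dom G') : smf φ δ G p = 0 := by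
  apply setIntegral_eq_zero_of_forall_eq_zero
  intro q hq
  by_contra hne
  have h1 : φ ((p.1 - q.1) / δ, (p.2 - q.2) / δ) ≠ 0 := fun h0 => hne (by rw [h0, mul_zero])
  exact hp (dom_move hδ h hq (bump_le hφ h1))

private lemma smf_one {G G' : ℝ → ℝ} {φ : ℝ × ℝ → ℝ} (hφ : IsBump φ) {δ : ℝ} (hδ : 0 < δ)
    (h : ∀ θ, G θ + δ ≤ G' θ) {p : ℝ × ℝ} (hp : p ∈ dom G) : smf φ δ G' p = 1 := by
  rw [← kern_int hφ hδ p]
  apply setIntegral_eq_integral_of_forall_compl_eq_zero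
  intro q hq
  by_contra hne
  have h1 : φ ((p.1 - q.1) / δ, (p.2 - q.2) / δ) ≠ 0 := fun h0 => hne (by rw [h0, mul_zero])
  apply hq
  refine dom_move hδ h hp ?_
  have h2 := bump_le hφ h1
  have e1 : ((q.1 - p.1) / δ) ^ 2 = ((p.1 - q.1) / δ) ^ 2 := by ring
  have e2 : ((q.2 - p.2) / δ) ^ 2 = ((p.2 - q.2) / δ) ^ 2 := by ring
  rw [e1, e2]
  exact h2

private lemma lat_finite (G : ℝ → ℝ) : {k : ℤ × ℤ | ((k.1 : ℝ), (k.2 : ℝ)) ∈ dom G}.Finite := by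
  apply Set.Finite.subset (Set.Finite.prod (Set.finite_Icc (-⌈G π⌉) ⌈G 0⌉) (Set.finite_Icc (-⌈G (-(π / 2))⌉) ⌈G (π / 2)⌉))
  intro k hk
  have hk' : ∀ θ : ℝ, (k.1 : ℝ) * cos θ + (k.2 : ℝ) * sin θ ≤ G θ := hk
  have h1 := hk' 0
  have h2 := hk' π
  have h3 := hk' (π / 2)
  have h4 := hk' (-(π / 2))
  simp only [cos_zero, sin_zero, cos_pi, sin_pi, cos_pi_div_two, sin_pi_div_two, cos_neg, sin_neg, mul_one,
    mul_zero, add_zero, zero_add, mul_neg] at h1 h2 h3 h4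
  rw [Set.mem_prod, Set.mem_Icc, Set.mem_Icc]
  refine ⟨⟨?_, ?_⟩, ?_, ?_⟩
  · have : (-(⌈G π⌉ : ℝ)) ≤ k.1 := by linarith [Int.le_ceil (G π)]
    exact_mod_cast this
  · have : (k.1 : ℝ) ≤ ⌈G 0⌉ := by linarith [Int.le_ceil (G 0)]
    exact_mod_cast this
  · have : (-(⌈G (-(π / 2))⌉ : ℝ)) ≤ k.2 := by linarith [Int.le_ceil (G (-(π / 2)))]
    exact_mod_cast this
  · have : (k.2 : ℝ) ≤ ⌈G (π / 2)⌉ := by linarith [Int.le_ceil (G (π / 2))]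
    exact_mod_cast this

private lemma lat_card (G : ℝ → ℝ) : (Nat.card {k : ℤ × ℤ // ((k.1 : ℝ), (k.2 : ℝ)) ∈ dom G} : ℝ)
    = ∑ k ∈ (lat_finite G).toFinset, (1 : ℝ) := by
  rw [Finset.sum_const, nsmul_eq_mul, mul_one]
  have h : Nat.card {k : ℤ × ℤ // ((k.1 : ℝ), (k.2 : ℝ)) ∈ dom G} = (lat_finite G).toFinset.card := by
    rw [← Set.ncard_eq_toFinset_card _ (lat_finite G)]
    exact Nat.card_coe_set_eq {k : ℤ × ℤ | ((k.1 : ℝ), (k.2 : ℝ)) ∈ dom G}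
  rw [h]

theorem smc_le {G G' : ℝ → ℝ} (hG : IsSupp G) (hG' : IsSupp G') {φ : ℝ × ℝ → ℝ} (hφ : IsBump φ) {δ : ℝ}
    (hδ : 0 < δ) (h : ∀ θ, G θ + δ ≤ G' θ) :
    smc φ δ G ≤ (Nat.card {k : ℤ × ℤ // ((k.1 : ℝ), (k.2 : ℝ)) ∈ dom G'} : ℝ) := by
  rw [lat_card, smc, tsum_eq_sum (s := (lat_finite G').toFinset)]
  · exact Finset.sum_le_sum fun k _ => smf_le_one hφ hδ G _
  · intro k hk
    apply smf_zero hφ hδ h
    intro hmem
    exact hk ((lat_finite G').mem_toFinset.2 hmem)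

theorem le_smc {G G' : ℝ → ℝ} (hG : IsSupp G) (hG' : IsSupp G') {φ : ℝ × ℝ → ℝ} (hφ : IsBump φ) {δ : ℝ}
    (hδ : 0 < δ) (h : ∀ θ, G θ + δ ≤ G' θ) :
    (Nat.card {k : ℤ × ℤ // ((k.1 : ℝ), (k.2 : ℝ)) ∈ dom G} : ℝ) ≤ smc φ δ G' := by
  have h1 : ∑ k ∈ (lat_finite G).toFinset, (1 : ℝ) =
      ∑ k ∈ (lat_finite G).toFinset, smf φ δ G' ((k.1 : ℝ), (k.2 : ℝ)) := by
    apply Finset.sum_congr rfl
    intro k hk
    exact (smf_one hφ hδ h ((lat_finite G).mem_toFinset.1 hk)).symm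
  rw [lat_card, h1, smc]
  apply Summable.sum_le_tsum
  · intro k _
    exact smf_nonneg hφ hδ G' _
  · apply summable_of_ne_finset_zero (s := (lat_finite (fun θ => G' θ + δ)).toFinset)
    intro k hk
    apply smf_zero hφ hδ (G' := fun θ => G' θ + δ) (fun θ => le_refl _)
    intro hmem
    exact hk ((lat_finite (fun θ => G' θ + δ)).mem_toFinset.2 hmem)

end Pool.Agent.Helper22.AE
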