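import Pool.Agent.Helper22.AE.P4

/-!
# AE-P5: dyadic decomposition of the Poisson sum and its tail (paper (2.1))

PROOF. Every `k ≠ 0` lies in exactly one `blk n` (`2^n ≤ nk k < 2^(n+1)`, `nk k ≥ 1`; membership in the box `box (2^(n+1))` is automatic
because `|k.i| ≤ nk k`). So the norm of the sum over `k ≠ 0` (absolutely convergent by `ft_fhat_summable`) is at most
`∑_{n < n1} ‖VK n‖ + ∑_{k : nk k ≥ 2^n1} ‖ft · fhat‖`. For `nk k ≥ 2^n1 ≥ R₀^(1/2+e2)`: `‖ft G k‖ ≤ C R₀ / nk k` (`ft_norm`, `rho_int`),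
and `‖fhat φ (δ k.1) (δ k.2)‖ ≤ C_A (1 + δ nk k)^(-A)` with `δ = R₀^(-1/2)`, so that `δ nk k ≥ R₀^(e2)` and
`(1 + δ nk k)^(-A) ≤ R₀^(-e2 (A - 4)) (δ nk k)^(-4)`. The tail is `≤ C R₀ R₀^(-e2 (A-4)) R₀^2 ∑_{k ≠ 0} (nk k)^(-5) ≤ C` for
`A ≥ 4 + 3/e2`. (`∑_{k ≠ 0} nk k^(-5) < ∞`: compare with `(1+|k.1|)^(-2) (1+|k.2|)^(-2)`: `nk k ≥ (1+|k.1|)/2, (1+|k.2|)/2` for `k ≠ 0`.)
-/

open MeasureTheory Real Set Filter Topology

set_option autoImplicit false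

namespace Pool.Agent.Helper22.AE

private lemma p5_nat : Summable (fun n : ℕ => ((1 + |((n : ℤ) : ℝ)|) ^ 2)⁻¹) := by
  have h0 : Summable (fun n : ℕ => 1 / ((n + 1 : ℕ) : ℝ) ^ 2) :=
    (summable_nat_add_iff 1).mpr (Real.summable_one_div_nat_pow.mpr (by norm_num : 1 < 2))
  refine h0.congr (fun n => ?_)
  have hn : (0 : ℝ) ≤ n := Nat.cast_nonneg n
  rw [Int.cast_natCast, abs_of_nonneg hn, one_div]
  push_cast
  rw [add_comm]

private lemma p5_int : Summable (fun n : ℤ => ((1 + |(n : ℝ)|) ^ 2)⁻¹) := by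
  apply Summable.of_nat_of_neg
  · exact p5_nat
  · refine p5_nat.congr (fun n => ?_)
    push_cast
    rw [abs_neg]

/-- the majorant of the tail -/
private noncomputable def p5m (k : ℤ × ℤ) : ℝ := ((1 + |(k.1 : ℝ)|) ^ 2)⁻¹ * ((1 + |(k.2 : ℝ)|) ^ 2)⁻¹

private lemma p5_sum : Summable p5m :=
  Summable.mul_of_nonneg p5_int p5_int (fun n => by positivity) (fun n => by positivity)

private lemma p5_nk (k : ℤ × ℤ) : nk k = sqrt ((k.1 : ℝ) ^ 2 + (k.2 : ℝ) ^ 2) := by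
  unfold nk cz
  rw [Complex.norm_def, Complex.normSq_mk]
  congr 1
  ring

private lemma p5_abs (k : ℤ × ℤ) : |(k.1 : ℝ)| ≤ nk k ∧ |(k.2 : ℝ)| ≤ nk k := by
  rw [p5_nk]
  constructor
  · apply Real.le_sqrt_of_sq_le
    rw [sq_abs]
    nlinarith [sq_nonneg (k.2 : ℝ)]
  · apply Real.le_sqrt_of_sq_le
    rw [sq_abs]
    nlinarith [sq_nonneg (k.1 : ℝ)]

private lemma p5_one {k : ℤ × ℤ} (hk : k ≠ 0) : 1 ≤ nk k := by
  rw [p5_nk]
  apply Real.le_sqrt_of_sq_le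
  have h1 : (1 : ℤ) ≤ k.1 ^ 2 + k.2 ^ 2 := by
    by_contra hn
    push Not at hn
    apply hk
    have h2 : k.1 ^ 2 = 0 := by nlinarith [sq_nonneg k.1, sq_nonneg k.2]
    have h3 : k.2 ^ 2 = 0 := by nlinarith [sq_nonneg k.1, sq_nonneg k.2]
    ext
    · exact pow_eq_zero_iff (two_ne_zero) |>.mp h2
    · exact pow_eq_zero_iff (two_ne_zero) |>.mp h3
  have h2 : (1 : ℝ) ≤ (k.1 : ℝ) ^ 2 + (k.2 : ℝ) ^ 2 := by exact_mod_cast h1
  rw [one_pow]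
  exact h2

private lemma p5_blk {n : ℕ} {k : ℤ × ℤ} : k ∈ blk n ↔ (2 : ℝ) ^ n ≤ nk k ∧ nk k < 2 ^ (n + 1) := by
  unfold blk
  rw [Finset.mem_filter]
  constructor
  · exact fun h => h.2
  · intro h
    refine ⟨?_, h⟩
    unfold box
    obtain ⟨h1, h2⟩ := p5_abs k
    have h3 : |k.1| ≤ 2 ^ (n + 1) := by
      have : |(k.1 : ℝ)| ≤ 2 ^ (n + 1) := h1.trans h.2.le
      exact_mod_cast this
    have h4 : |k.2| ≤ 2 ^ (n + 1) := by
      have : |(k.2 : ℝ)| ≤ 2 ^ (n + 1) := h2.trans h.2.le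
      exact_mod_cast this
    rw [Finset.mem_product, Finset.mem_Icc, Finset.mem_Icc]
    push_cast
    exact ⟨abs_le.mp h3, abs_le.mp h4⟩

private lemma p5_disj (n1 : ℕ) : (Finset.range n1 : Set ℕ).PairwiseDisjoint blk := by
  intro m _ n _ hmn
  rw [Function.onFun, Finset.disjoint_left]
  intro k h1 h2
  rw [p5_blk] at h1 h2
  rcases lt_or_gt_of_ne hmn with h | h
  · have h3 : (2 : ℝ) ^ (m + 1) ≤ 2 ^ n := pow_le_pow_right₀ (by norm_num) h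
    linarith [h1.2, h2.1]
  · have h3 : (2 : ℝ) ^ (n + 1) ≤ 2 ^ m := pow_le_pow_right₀ (by norm_num) h
    linarith [h1.1, h2.2]

/-- the frequencies outside the first blocks are large -/
private lemma p5_out {n1 : ℕ} {k : ℤ × ℤ} (hk : k ≠ 0) (h : ∀ n < n1, k ∉ blk n) : (2 : ℝ) ^ n1 ≤ nk k := by
  induction n1 with
  | zero => simpa using p5_one hk
  | succ n ih =>
    have h1 := ih (fun m hm => h m (by omega))
    have h2 := h n (by omega)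
    rw [p5_blk] at h2
    by_contra hn
    push Not at hn
    exact h2 ⟨h1, hn⟩

/-- comparison with the majorant -/
private lemma p5_major {k : ℤ × ℤ} (hk : k ≠ 0) : (nk k ^ 4)⁻¹ ≤ 16 * p5m k := by
  have h0 := p5_one hk
  obtain ⟨h1, h2⟩ := p5_abs k
  have h3 : (1 + |(k.1 : ℝ)|) ^ 2 ≤ (2 * nk k) ^ 2 := pow_le_pow_left₀ (by positivity) (by linarith) 2
  have h4 : (1 + |(k.2 : ℝ)|) ^ 2 ≤ (2 * nk k) ^ 2 := pow_le_pow_left₀ (by positivity) (by linarith) 2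
  have h5 : (1 + |(k.1 : ℝ)|) ^ 2 * (1 + |(k.2 : ℝ)|) ^ 2 ≤ 16 * nk k ^ 4 := by
    have := mul_le_mul h3 h4 (by positivity) (by positivity)
    refine this.trans (le_of_eq ?_)
    ring
  unfold p5m
  rw [← mul_inv, ← div_eq_mul_inv, inv_eq_one_div, div_le_div_iff₀ (by positivity) (by positivity)]
  linarith

/-- a term of the tail -/
private lemma p5_term {G : ℝ → ℝ} (hG : IsSupp G) {φ : ℝ × ℝ → ℝ} {e2 C1 CA R₀ : ℝ} (he2 : 0 < e2)
    {A : ℕ} (hA : 3 ≤ e2 * A) (hR : 1 ≤ R₀)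
    (h1 : ∫ t in (0 : ℝ)..(2 * π), rho G t ≤ C1 * (2 * R₀)) (hC1 : 0 ≤ C1)
    (h2 : ∀ x y : ℝ, ‖fhat φ x y‖ * (1 + sqrt (x ^ 2 + y ^ 2)) ^ (A + 4) ≤ CA) (hCA : 0 ≤ CA)
    {k : ℤ × ℤ} (hk : k ≠ 0) {n1 : ℕ} (hn : R₀ ^ (1 / 2 + e2) ≤ 2 ^ n1) (hk1 : (2 : ℝ) ^ n1 ≤ nk k) :
    ‖ft G k * fhat φ (R₀ ^ (-(1 / 2) : ℝ) * k.1) (R₀ ^ (-(1 / 2) : ℝ) * k.2)‖ ≤ 16 * C1 * CA * p5m k := by
  have hR0 : 0 < R₀ := by linarith
  have h0 := p5_one hk
  set δ : ℝ := R₀ ^ (-(1 / 2) : ℝ) with hδ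
  have hδ0 : 0 < δ := Real.rpow_pos_of_pos hR0 _
  -- the first factor
  have h3 : ‖ft G k‖ ≤ C1 * R₀ / nk k := by
    refine (ft_norm hG hk).trans ?_
    have h4 : (∫ t in (0 : ℝ)..(2 * π), rho G t) / (2 * π * nk k) ≤ C1 * (2 * R₀) / (2 * π * nk k) :=
      div_le_div_of_nonneg_right h1 (by positivity)
    refine h4.trans ?_
    rw [div_le_div_iff₀ (by positivity) (by positivity)]
    have h5 : 1 ≤ π := by linarith [Real.pi_gt_three]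
    have h6 : 0 ≤ C1 * R₀ * nk k := by positivity
    nlinarith
  -- the second factor
  have h4 : sqrt ((δ * (k.1 : ℝ)) ^ 2 + (δ * (k.2 : ℝ)) ^ 2) = δ * nk k := by
    rw [p5_nk, mul_pow, mul_pow, ← mul_add, Real.sqrt_mul (by positivity), Real.sqrt_sq hδ0.le]
  have h5 := h2 (δ * k.1) (δ * k.2)
  rw [h4] at h5
  have h6 : R₀ ^ e2 ≤ δ * nk k := by
    have h7 : R₀ ^ e2 = δ * R₀ ^ (1 / 2 + e2) := by
      rw [hδ, ← Real.rpow_add hR0]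
      congr 1
      ring
    rw [h7]
    exact mul_le_mul_of_nonneg_left (hn.trans hk1) hδ0.le
  have h7 : R₀ ^ 3 ≤ (δ * nk k) ^ A := by
    have h8 : (R₀ ^ e2) ^ A ≤ (δ * nk k) ^ A := pow_le_pow_left₀ (by positivity) h6 A
    refine le_trans ?_ h8
    rw [← Real.rpow_natCast (R₀ ^ e2) A, ← Real.rpow_mul hR0.le, ← Real.rpow_natCast R₀ 3]
    exact Real.rpow_le_rpow_of_exponent_le hR (by exact_mod_cast hA)
  have h8 : δ ^ 4 = (R₀ ^ 2)⁻¹ := by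
    rw [hδ, ← Real.rpow_natCast (R₀ ^ (-(1 / 2) : ℝ)) 4, ← Real.rpow_mul hR0.le, ← Real.rpow_natCast R₀ 2,
      ← Real.rpow_neg hR0.le]
    congr 1
    norm_num
  have h9 : R₀ * nk k ^ 4 ≤ (1 + δ * nk k) ^ (A + 4) := by
    have g1 : (δ * nk k) ^ (A + 4) ≤ (1 + δ * nk k) ^ (A + 4) :=
      pow_le_pow_left₀ (by positivity) (by linarith) _
    refine le_trans ?_ g1
    rw [pow_add]
    have g2 : (δ * nk k) ^ 4 = (R₀ ^ 2)⁻¹ * nk k ^ 4 := by rw [mul_pow, h8]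
    rw [g2]
    have g3 : R₀ ^ 3 * ((R₀ ^ 2)⁻¹ * nk k ^ 4) ≤ (δ * nk k) ^ A * ((R₀ ^ 2)⁻¹ * nk k ^ 4) :=
      mul_le_mul_of_nonneg_right h7 (by positivity)
    refine le_trans (le_of_eq ?_) g3
    field_simp
  have h10 : ‖fhat φ (δ * k.1) (δ * k.2)‖ ≤ CA / (R₀ * nk k ^ 4) := by
    rw [le_div_iff₀ (by positivity)]
    exact (mul_le_mul_of_nonneg_left h9 (norm_nonneg _)).trans h5
  rw [norm_mul]
  calc ‖ft G k‖ * ‖fhat φ (δ * k.1) (δ * k.2)‖ ≤ (C1 * R₀ / nk k) * (CA / (R₀ * nk k ^ 4)) :=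
        mul_le_mul h3 h10 (norm_nonneg _) (by positivity)
    _ = C1 * CA * ((nk k)⁻¹ * (nk k ^ 4)⁻¹) := by field_simp
    _ ≤ C1 * CA * (1 * (16 * p5m k)) := by
        apply mul_le_mul_of_nonneg_left _ (by positivity)
        exact mul_le_mul (inv_le_one_of_one_le₀ h0) (p5_major hk) (by positivity) (by positivity)
    _ = 16 * C1 * CA * p5m k := by ring

theorem err_le_blocks {H : ℝ → ℝ} (hH : IsSupp H) {φ : ℝ × ℝ → ℝ} (hφ : IsBump φ) {e2 : ℝ} (he2 : 0 < e2) :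
    ∃ C R₁ : ℝ, 0 < R₁ ∧ ∀ R₀ : ℝ, R₁ ≤ R₀ → ∀ R ∈ Icc R₀ (2 * R₀), ∀ n1 : ℕ, R₀ ^ (1 / 2 + e2) ≤ 2 ^ n1 →
      ∃ σ : ℝ, (σ = 1 ∨ σ = -1) ∧ IsSupp (fun θ => R * H θ + σ * R₀ ^ (-(1 / 2) : ℝ)) ∧
        |cnt H R - area H * R ^ 2| ≤ C * R₀ ^ (1 / 2 : ℝ) +
          ∑ n ∈ Finset.range n1, ‖VK φ (fun θ => R * H θ + σ * R₀ ^ (-(1 / 2) : ℝ)) (R₀ ^ (-(1 / 2) : ℝ)) n‖ := by
  classical
  obtain ⟨C, R₁, hR₁, hC⟩ := err_le_poisson hH hφ
  obtain ⟨C1, hC1⟩ := rho_int hH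
  obtain ⟨A, hA⟩ : ∃ A : ℕ, 3 ≤ e2 * A := by
    obtain ⟨A, hA⟩ := exists_nat_ge (3 / e2)
    refine ⟨A, ?_⟩
    rw [div_le_iff₀ he2] at hA
    linarith
  obtain ⟨CA, hCA⟩ := hφ.decay (A + 4)
  have hCA0 : 0 ≤ CA := le_trans (by positivity) (hCA 0 0)
  set T0 : ℝ := 16 * |C1| * CA * ∑' k, p5m k with hT0
  have hT0' : 0 ≤ T0 := by
    have h1 : 0 ≤ ∑' k, p5m k := tsum_nonneg (fun k => by unfold p5m; positivity)
    rw [hT0]
    positivity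
  refine ⟨C + T0, max R₁ 1, lt_max_of_lt_left hR₁, ?_⟩
  intro R₀ hR₀ R hR n1 hn1
  have hR1 : R₁ ≤ R₀ := (le_max_left _ _).trans hR₀
  have hR2 : 1 ≤ R₀ := (le_max_right _ _).trans hR₀
  have hR0 : 0 < R₀ := by linarith
  obtain ⟨σ, hσ, hS, hb⟩ := hC R₀ hR1 R hR
  refine ⟨σ, hσ, hS, hb.trans ?_⟩
  set δ : ℝ := R₀ ^ (-(1 / 2) : ℝ) with hδ
  have hδ0 : 0 < δ := Real.rpow_pos_of_pos hR0 _
  have hδ1 : δ ≤ 1 := Real.rpow_le_one_of_one_le_of_nonpos hR2 (by norm_num)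
  set G : ℝ → ℝ := fun θ => R * H θ + σ * δ with hG
  set T : ℤ × ℤ → ℂ := fun k => ft G k * fhat φ (δ * k.1) (δ * k.2) with hT
  have hrho : ∫ t in (0 : ℝ)..(2 * π), rho G t ≤ |C1| * (2 * R₀) := by
    have h1 := hC1 R (hR2.trans hR.1) (σ * δ) (by
      rcases hσ with rfl | rfl
      · rw [one_mul, abs_of_pos hδ0]
        exact hδ1
      · rw [neg_one_mul, abs_neg, abs_of_pos hδ0]
        exact hδ1)
    refine h1.trans ?_
    exact mul_le_mul (le_abs_self C1) hR.2 (by linarith [hR.1]) (abs_nonneg _)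
  set B : Finset (ℤ × ℤ) := (Finset.range n1).biUnion blk with hB
  have hsum : Summable (fun k => ‖T k‖) := ft_fhat_summable hS hφ hδ0
  -- the rest
  set g : ℤ × ℤ → ℂ := fun k => if k = 0 ∨ k ∈ B then 0 else T k with hg
  have hgle : ∀ k, ‖g k‖ ≤ 16 * |C1| * CA * p5m k := by
    intro k
    by_cases hk : k = 0 ∨ k ∈ B
    · rw [hg]
      simp only [hk, if_true, norm_zero]
      unfold p5m
      positivity
    · rw [hg]
      simp only [hk, if_false]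
      push Not at hk
      obtain ⟨hk0, hkB⟩ := hk
      refine p5_term hS he2 hA hR2 hrho (abs_nonneg _) hCA hCA0 hk0 hn1 (p5_out hk0 ?_)
      intro n hn hmem
      exact hkB (Finset.mem_biUnion.mpr ⟨n, Finset.mem_range.mpr hn, hmem⟩)
  have hmaj : Summable (fun k => 16 * |C1| * CA * p5m k) := p5_sum.mul_left _
  have hgs : Summable (fun k => ‖g k‖) := Summable.of_nonneg_of_le (fun k => norm_nonneg _) hgle hmaj
  have hB0 : (0 : ℤ × ℤ) ∉ B := by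
    intro h
    obtain ⟨n, -, h1⟩ := Finset.mem_biUnion.mp h
    rw [p5_blk] at h1
    have h2 : nk (0 : ℤ × ℤ) = 0 := by
      rw [p5_nk]
      simp
    rw [h2] at h1
    have h3 : (0 : ℝ) < 2 ^ n := by positivity
    linarith [h1.1]
  have hsplit : ∑' k : {k : ℤ × ℤ // k ≠ 0}, T k = ∑ k ∈ B, T k + ∑' k, g k := by
    have e1 : ∑' k : {k : ℤ × ℤ // k ≠ 0}, T k = ∑' k, ({k : ℤ × ℤ | k ≠ 0}).indicator T k :=
      tsum_subtype {k : ℤ × ℤ | k ≠ 0} T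
    have e2 : ∀ k, ({k : ℤ × ℤ | k ≠ 0}).indicator T k = (if k ∈ B then T k else 0) + g k := by
      intro k
      by_cases h1 : k = 0
      · subst h1
        simp [hg, hB0]
      · by_cases h2 : k ∈ B
        · simp [hg, h1, h2, Set.indicator]
        · simp [hg, h1, h2, Set.indicator]
    rw [e1, tsum_congr e2, Summable.tsum_add]
    · congr 1
      rw [tsum_eq_sum (s := B) (fun k hk => by simp [hk])]
      exact Finset.sum_congr rfl (fun k hk => by simp [hk])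
    · exact summable_of_finite_support (B.finite_toSet.subset (fun k hk => by
        by_contra h1
        rw [Function.mem_support] at hk
        apply hk
        have : k ∉ B := h1
        simp [this]))
    · exact hgs.of_norm
  have hsumB : ∑ k ∈ B, T k = ∑ n ∈ Finset.range n1, VK φ G δ n := by
    rw [hB, Finset.sum_biUnion (p5_disj n1)]
    rfl
  have htail : ‖∑' k, g k‖ ≤ T0 := by
    refine (norm_tsum_le_tsum_norm hgs).trans ?_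
    refine (Summable.tsum_le_tsum hgle hgs hmaj).trans (le_of_eq ?_)
    rw [hT0, tsum_mul_left]
  have hroot : 1 ≤ R₀ ^ (1 / 2 : ℝ) := Real.one_le_rpow hR2 (by norm_num)
  have hfin : ‖∑' k : {k : ℤ × ℤ // k ≠ 0}, T k‖ ≤ ∑ n ∈ Finset.range n1, ‖VK φ G δ n‖ + T0 := by
    rw [hsplit, hsumB]
    exact (norm_add_le _ _).trans (add_le_add (norm_sum_le _ _) htail)
  have hfin2 : T0 ≤ T0 * R₀ ^ (1 / 2 : ℝ) := by nlinarith
  have hfin3 : (C + T0) * R₀ ^ (1 / 2 : ℝ) = C * R₀ ^ (1 / 2 : ℝ) + T0 * R₀ ^ (1 / 2 : ℝ) := by ring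
  rw [hfin3]
  linarith

end Pool.Agent.Helper22.AE
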