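import Pool.Agent.Helper22.AE.Defs

/-!
# AE-D4: broad-narrow decomposition over `m` generations of arcs (paper 4e)

`bn_one`. PROOF. Let `Z = ∑ z i`, `T = {i : ‖z i‖ ≥ ‖Z‖/(2M)}`. `∑_{i ∉ T} ‖z i‖ ≤ ‖Z‖/2`, so `∑_{T} ‖z i‖ ≥ ‖Z‖/2`. Greedy: choose
`i₁ = min T`, `i₂ = min {i ∈ T, i ≥ i₁ + 2}`, ... If `J` indices can be chosen, they give `I ∈ gapT J M` with
`∏_t ‖z (I t)‖² ≥ (‖Z‖/(2M))^(2J)`, so `‖Z‖ ≤ 2M (∏ ‖z (I t)‖²)^(1/(2J)) ≤ 2M (∑_I ...)^(1/(2J))`. Otherwise `T` is covered by at most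
`J - 1` pairs `{i, i+1}`, `|T| ≤ 2(J-1)`, `‖Z‖/2 ≤ 2(J-1) max ‖z i‖ ≤ 2 J D`. (A clean way for the greedy part: prove by induction on `J`:
for a finite set `T` of naturals with `|T| ≥ 2J - 1` (`J ≥ 1`) there is a strictly increasing `I : Fin J → T` with gaps `≥ 2`: take every second
element of `T` in increasing order, `I t = orderEmbOfFin T (2t)`: consecutive chosen elements differ by at least 2.)

`multiscale`. PROOF. Let `W s = max_j ‖∑_{arcSet B (8M^s) j} f‖` (over `j < 8M^s`; other arcs are empty because `xk < 1`). `arcSet B (8M^s) j`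
is the disjoint union of `arcSet B (8M^(s+1)) (M j + i)`, `i < M` (`⌊8M^s x⌋ = ⌊8M^(s+1) x⌋ / M`, `Nat.floor_div_natCast`). By `bn_one`
`W s ≤ 4 Jm W (s+1) + 2 M (X s)^(1/(2 J s))`, where `X s` is the sum over `j < 8M^s` and `I` (monotonicity: one `j` is at most the sum).
Iterate (induction on `m`, or a descending induction), and `‖∑_B f‖ ≤ ∑_{j<8} ‖arc 0 j‖ ≤ 8 W 0`, `W m ≤ D`.
-/

open Real Set Filter Topology

set_option autoImplicit false

namespace Pool.Agent.Helper22.AE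

lemma d4_pick {M J : ℕ} (hJ : 1 ≤ J) (T : Finset (Fin M)) (hT : 2 * J - 1 ≤ T.card) :
    ∃ I : Fin J → Fin M, I ∈ gapT J M ∧ ∀ t, I t ∈ T := by
  classical
  have hlt : ∀ t : Fin J, 2 * (t : ℕ) < T.card := fun t => by
    have := t.2
    omega
  refine ⟨fun t => T.orderEmbOfFin rfl ⟨2 * (t : ℕ), hlt t⟩, ?_, fun t => T.orderEmbOfFin_mem rfl _⟩
  have key : ∀ a b : Fin J, (a : ℕ) < b → ((T.orderEmbOfFin rfl ⟨2 * (a : ℕ), hlt a⟩ : Fin M) : ℕ) + 2 ≤
      ((T.orderEmbOfFin rfl ⟨2 * (b : ℕ), hlt b⟩ : Fin M) : ℕ) := by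
    intro a b hab
    have hmid : 2 * (a : ℕ) + 1 < T.card := by
      have := hlt b
      omega
    have h1 : T.orderEmbOfFin rfl ⟨2 * (a : ℕ), hlt a⟩ < T.orderEmbOfFin rfl ⟨2 * (a : ℕ) + 1, hmid⟩ := by
      apply (T.orderEmbOfFin rfl).strictMono
      rw [Fin.lt_def]
      simp
    have h2 : T.orderEmbOfFin rfl ⟨2 * (a : ℕ) + 1, hmid⟩ < T.orderEmbOfFin rfl ⟨2 * (b : ℕ), hlt b⟩ := by
      apply (T.orderEmbOfFin rfl).strictMono
      rw [Fin.lt_def]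
      simp only
      omega
    have h1' := Fin.lt_def.1 h1
    have h2' := Fin.lt_def.1 h2
    omega
  simp only [gapT, Finset.mem_filter, Finset.mem_univ, true_and]
  intro a b hab
  have hne : (a : ℕ) ≠ b := fun h => hab (Fin.ext h)
  rcases Nat.lt_or_gt_of_ne hne with h | h
  · exact Or.inl (key a b h)
  · exact Or.inr (key b a h)

theorem bn_one {M J : ℕ} (hM : 1 ≤ M) (hJ : 1 ≤ J) (z : ℕ → ℂ) {D : ℝ} (hD : ∀ i < M, ‖z i‖ ≤ D) :
    ‖∑ i ∈ Finset.range M, z i‖ ≤ 4 * J * D +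
      2 * M * (∑ I ∈ gapT J M, ∏ t, ‖z (I t)‖ ^ 2) ^ (1 / (2 * (J : ℝ))) := by
  classical
  have hD0 : 0 ≤ D := (norm_nonneg _).trans (hD 0 hM)
  have hMpos : (0 : ℝ) < M := by exact_mod_cast hM
  have hJpos : (0 : ℝ) < J := by exact_mod_cast hJ
  set Z : ℂ := ∑ i ∈ Finset.range M, z i with hZ
  set X : ℝ := ∑ I ∈ gapT J M, ∏ t, ‖z (I t)‖ ^ 2 with hX
  have hX0 : 0 ≤ X := Finset.sum_nonneg fun I _ => Finset.prod_nonneg fun t _ => by positivity
  set T : Finset (Fin M) := Finset.univ.filter (fun i => ‖Z‖ / (2 * M) ≤ ‖z i‖) with hTdef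
  rcases le_or_gt (2 * J - 1) T.card with hc | hc
  · obtain ⟨I, hI, hIT⟩ := d4_pick hJ T hc
    have hge : ∀ t, ‖Z‖ / (2 * M) ≤ ‖z (I t)‖ := fun t => (Finset.mem_filter.1 (hIT t)).2
    have hz0 : 0 ≤ ‖Z‖ / (2 * M) := by positivity
    have h1 : (‖Z‖ / (2 * M)) ^ (2 * J) ≤ X := by
      calc (‖Z‖ / (2 * M)) ^ (2 * J) = ∏ _t : Fin J, (‖Z‖ / (2 * M)) ^ 2 := by
            rw [Finset.prod_const, Finset.card_univ, Fintype.card_fin, ← pow_mul]
        _ ≤ ∏ t, ‖z (I t)‖ ^ 2 := by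
            apply Finset.prod_le_prod
            · intro t _
              positivity
            · intro t _
              exact pow_le_pow_left₀ hz0 (hge t) 2
        _ ≤ X := Finset.single_le_sum (f := fun I : Fin J → Fin M => ∏ t, ‖z (I t)‖ ^ 2)
            (fun I _ => Finset.prod_nonneg fun t _ => by positivity) hI
    have h2 : ‖Z‖ / (2 * M) ≤ X ^ (1 / (2 * (J : ℝ))) := by
      have h3 : ((‖Z‖ / (2 * M)) ^ (2 * J)) ^ (1 / (2 * (J : ℝ))) = ‖Z‖ / (2 * M) := by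
        rw [← Real.rpow_natCast, ← Real.rpow_mul hz0]
        have : ((2 * J : ℕ) : ℝ) * (1 / (2 * (J : ℝ))) = 1 := by
          push_cast
          field_simp
        rw [this, Real.rpow_one]
      rw [← h3]
      exact Real.rpow_le_rpow (by positivity) h1 (by positivity)
    have h4 : ‖Z‖ ≤ 2 * M * X ^ (1 / (2 * (J : ℝ))) := by
      rw [div_le_iff₀ (by positivity)] at h2
      linarith [h2, mul_comm (X ^ (1 / (2 * (J : ℝ)))) (2 * (M : ℝ))]
    have h5 : 0 ≤ 4 * (J : ℝ) * D := by positivity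
    linarith
  · have hT : (T.card : ℝ) ≤ 2 * J := by
      have : T.card ≤ 2 * J := by omega
      exact_mod_cast this
    have hsum : ‖Z‖ ≤ ∑ i : Fin M, ‖z i‖ := by
      rw [hZ, ← Fin.sum_univ_eq_sum_range (fun i => z i) M]
      exact norm_sum_le _ _
    have hsplit : ∑ i : Fin M, ‖z i‖ = ∑ i ∈ T, ‖z i‖ + ∑ i ∈ Finset.univ.filter (fun i : Fin M =>
        ¬ ‖Z‖ / (2 * M) ≤ ‖z i‖), ‖z i‖ := by
      rw [hTdef, Finset.sum_filter_add_sum_filter_not]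
    have hA : ∑ i ∈ T, ‖z i‖ ≤ T.card * D := by
      have := Finset.sum_le_card_nsmul T (fun i : Fin M => ‖z i‖) D (fun i _ => hD i i.2)
      simpa [nsmul_eq_mul] using this
    have hB : ∑ i ∈ Finset.univ.filter (fun i : Fin M => ¬ ‖Z‖ / (2 * M) ≤ ‖z i‖), ‖z i‖ ≤ ‖Z‖ / 2 := by
      have h1 := Finset.sum_le_card_nsmul (Finset.univ.filter (fun i : Fin M => ¬ ‖Z‖ / (2 * M) ≤ ‖z i‖))
        (fun i : Fin M => ‖z i‖) (‖Z‖ / (2 * M)) (fun i hi => (not_le.1 (Finset.mem_filter.1 hi).2).le)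
      have h2 : ((Finset.univ.filter (fun i : Fin M => ¬ ‖Z‖ / (2 * M) ≤ ‖z i‖)).card : ℝ) ≤ M := by
        have := Finset.card_filter_le (Finset.univ : Finset (Fin M)) (fun i => ¬ ‖Z‖ / (2 * M) ≤ ‖z i‖)
        rw [Finset.card_univ, Fintype.card_fin] at this
        exact_mod_cast this
      rw [nsmul_eq_mul] at h1
      refine h1.trans ?_
      calc _ ≤ (M : ℝ) * (‖Z‖ / (2 * M)) := mul_le_mul_of_nonneg_right h2 (by positivity)
        _ = ‖Z‖ / 2 := by field_simp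
    have hfin : ‖Z‖ ≤ 4 * J * D := by
      have : (T.card : ℝ) * D ≤ 2 * J * D := mul_le_mul_of_nonneg_right hT hD0
      linarith
    have h6 : 0 ≤ 2 * (M : ℝ) * X ^ (1 / (2 * (J : ℝ))) := by positivity
    linarith

lemma d4_xk_nonneg (k : ℤ × ℤ) : 0 ≤ xk k := Int.fract_nonneg _

lemma d4_xk_lt (k : ℤ × ℤ) : xk k < 1 := Int.fract_lt_one _

lemma d4_floor {M : ℕ} (hM : 1 ≤ M) (N : ℕ) (k : ℤ × ℤ) :
    ⌊((N * M : ℕ) : ℝ) * xk k⌋₊ / M = ⌊(N : ℝ) * xk k⌋₊ := by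
  have hMpos : (0 : ℝ) < M := by exact_mod_cast hM
  rw [← Nat.floor_div_natCast]
  congr 1
  push_cast
  field_simp

lemma d4_arc_empty (B : Finset (ℤ × ℤ)) {N j : ℕ} (hN : 1 ≤ N) (hj : N ≤ j) : arcSet B N j = ∅ := by
  classical
  unfold arcSet
  rw [Finset.filter_eq_empty_iff]
  intro k _ hk
  have hNpos : (0 : ℝ) < N := by exact_mod_cast hN
  have h1 : (N : ℝ) * xk k < N := by
    have := d4_xk_lt k
    nlinarith
  have h2 : ⌊(N : ℝ) * xk k⌋₊ < N := by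
    rw [Nat.floor_lt (by have := d4_xk_nonneg k; positivity)]
    exact h1
  omega

lemma d4_arc_split (B : Finset (ℤ × ℤ)) (f : ℤ × ℤ → ℂ) {M : ℕ} (hM : 1 ≤ M) (N j : ℕ) :
    ∑ k ∈ arcSet B N j, f k = ∑ i ∈ Finset.range M, ∑ k ∈ arcSet B (N * M) (M * j + i), f k := by
  classical
  have hmap : ∀ k ∈ arcSet B N j, ⌊((N * M : ℕ) : ℝ) * xk k⌋₊ % M ∈ Finset.range M := fun k _ =>
    Finset.mem_range.2 (Nat.mod_lt _ hM)
  rw [← Finset.sum_fiberwise_of_maps_to hmap]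
  refine Finset.sum_congr rfl fun i hi => ?_
  refine Finset.sum_congr ?_ fun _ _ => rfl
  ext k
  simp only [arcSet, Finset.mem_filter]
  have hfl := d4_floor hM N k
  have hi' := Finset.mem_range.1 hi
  set q := ⌊((N * M : ℕ) : ℝ) * xk k⌋₊ with hq
  have hdm := Nat.div_add_mod q M
  constructor
  · rintro ⟨⟨hB, h1⟩, h2⟩
    refine ⟨hB, ?_⟩
    rw [hfl, h1] at hdm
    rw [h2] at hdm
    exact hdm.symm
  · rintro ⟨hB, h1⟩
    have e1 : q / M = j := by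
      rw [h1, Nat.mul_add_div hM, Nat.div_eq_of_lt hi', add_zero]
    have e2 : q % M = i := by
      rw [h1, Nat.mul_add_mod, Nat.mod_eq_of_lt hi']
    exact ⟨⟨hB, by rw [← hfl, e1]⟩, e2⟩

theorem multiscale (B : Finset (ℤ × ℤ)) (f : ℤ × ℤ → ℂ) {M m Jm : ℕ} (hM : 1 ≤ M) (J : ℕ → ℕ)
    (hJ : ∀ s, 1 ≤ J s ∧ J s ≤ Jm) {D : ℝ} (hD : ∀ j, ‖∑ k ∈ arcSet B (8 * M ^ m) j, f k‖ ≤ D) :
    ‖∑ k ∈ B, f k‖ ≤ 8 * (4 * (Jm : ℝ)) ^ m * D + ∑ s ∈ Finset.range m, 8 * (4 * (Jm : ℝ)) ^ s * (2 * M) *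
      (∑ j ∈ Finset.range (8 * M ^ s), ∑ I ∈ gapT (J s) M,
        ∏ t, ‖∑ k ∈ arcSet B (8 * M ^ (s + 1)) (M * j + I t), f k‖ ^ 2) ^ (1 / (2 * (J s : ℝ))) := by
  classical
  induction m generalizing D with
  | zero =>
    simp only [pow_zero, mul_one, Finset.range_zero, Finset.sum_empty, add_zero] at hD ⊢
    have hmap : ∀ k ∈ B, ⌊((8 : ℕ) : ℝ) * xk k⌋₊ ∈ Finset.range 8 := by
      intro k _
      rw [Finset.mem_range, Nat.floor_lt (by have := d4_xk_nonneg k; positivity)]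
      have := d4_xk_lt k
      push_cast
      linarith
    have h1 : ∑ k ∈ B, f k = ∑ j ∈ Finset.range 8, ∑ k ∈ arcSet B 8 j, f k := by
      rw [← Finset.sum_fiberwise_of_maps_to hmap]
      rfl
    rw [h1]
    refine (norm_sum_le _ _).trans ?_
    refine (Finset.sum_le_card_nsmul _ _ D fun j _ => hD j).trans ?_
    rw [Finset.card_range, nsmul_eq_mul]
    push_cast
    exact le_refl _
  | succ m ih =>
    set X : ℝ := ∑ j ∈ Finset.range (8 * M ^ m), ∑ I ∈ gapT (J m) M,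
        ∏ t, ‖∑ k ∈ arcSet B (8 * M ^ (m + 1)) (M * j + I t), f k‖ ^ 2 with hXdef
    have hX0 : 0 ≤ X := Finset.sum_nonneg fun j _ => Finset.sum_nonneg fun I _ =>
      Finset.prod_nonneg fun t _ => by positivity
    have hD0 : 0 ≤ D := (norm_nonneg _).trans (hD 0)
    have hMpos : (0 : ℝ) < M := by exact_mod_cast hM
    have hNe : 8 * M ^ m * M = 8 * M ^ (m + 1) := by ring
    have hN1 : 1 ≤ 8 * M ^ m := by
      have : 0 < M ^ m := pow_pos hM m
      omega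
    have hJm : ((J m : ℕ) : ℝ) ≤ Jm := by exact_mod_cast (hJ m).2
    have hJ1 : (1 : ℝ) ≤ (J m : ℕ) := by exact_mod_cast (hJ m).1
    have hD' : ∀ j, ‖∑ k ∈ arcSet B (8 * M ^ m) j, f k‖ ≤ 4 * Jm * D + 2 * M * X ^ (1 / (2 * (J m : ℝ))) := by
      intro j
      rcases le_or_gt (8 * M ^ m) j with hj | hj
      · rw [d4_arc_empty B hN1 hj]
        simp only [Finset.sum_empty, norm_zero]
        positivity
      · have h1 := bn_one hM (hJ m).1 (fun i => ∑ k ∈ arcSet B (8 * M ^ (m + 1)) (M * j + i), f k)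
          (D := D) (fun i _ => hD _)
        rw [d4_arc_split B f hM (8 * M ^ m) j, hNe]
        refine h1.trans ?_
        have h2 : 4 * ((J m : ℕ) : ℝ) * D ≤ 4 * Jm * D := by
          have := mul_le_mul_of_nonneg_right hJm hD0
          linarith
        have h3 : (∑ I ∈ gapT (J m) M, ∏ t, ‖∑ k ∈ arcSet B (8 * M ^ (m + 1)) (M * j + I t), f k‖ ^ 2) ≤ X :=
          Finset.single_le_sum (f := fun j => ∑ I ∈ gapT (J m) M,
            ∏ t, ‖∑ k ∈ arcSet B (8 * M ^ (m + 1)) (M * j + I t), f k‖ ^ 2)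
            (fun j _ => Finset.sum_nonneg fun I _ => Finset.prod_nonneg fun t _ => by positivity)
            (Finset.mem_range.2 hj)
        have h4 : (∑ I ∈ gapT (J m) M, ∏ t, ‖∑ k ∈ arcSet B (8 * M ^ (m + 1)) (M * j + I t), f k‖ ^ 2) ^
            (1 / (2 * (J m : ℝ))) ≤ X ^ (1 / (2 * (J m : ℝ))) := by
          apply Real.rpow_le_rpow _ h3 (by positivity)
          exact Finset.sum_nonneg fun I _ => Finset.prod_nonneg fun t _ => by positivity
        have h5 := mul_le_mul_of_nonneg_left h4 (by positivity : (0 : ℝ) ≤ 2 * M)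
        linarith
    have h := ih hD'
    refine h.trans (le_of_eq ?_)
    rw [Finset.sum_range_succ, ← hXdef]
    ring

end Pool.Agent.Helper22.AE
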