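import Pool.Agent.Helper22.AE.C3

/-!
# AE-D3: lattice points in sectors and separation of arcs (paper 4c, 4g)

`arc_card`. PROOF. `zk k = exp (2 π i xk k)` (`zk_xk`; `xk = fract (tk/(2π))`). Let `k, k'` be in the same arc, `φ = 2π/N ≤ π/4`:
`|xk k - xk k'| < 1/N`, so `|k.1 k'.2 - k.2 k'.1| = nk k nk k' |sin (2π (xk k' - xk k))| ≤ (2·2^n)² φ` (`nk < 2^(n+1)`).
Part 1: the points with `|k.2| ≤ |k.1|`. Then `|k.1| ≥ 2^n/√2`, and two points with the same `k.1` satisfy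
`|k.1| |k'.2 - k.2| ≤ 4·4^n φ`, so `|k'.2 - k.2| ≤ 4 √2 2^n φ ≤ 6·2^n φ`: at most `6·2^n φ + 1` points for each of the at most
`2·2^(n+1) + 1 ≤ 4·2^n + 1` values of `k.1` (`Finset.card_le_mul_card_image` with the projection, or `Finset.card_eq_sum_card_fiberwise`).
Part 2: `|k.1| < |k.2|`, the same with the coordinates exchanged. Total `≤ 2 (4·2^n+1)(6·2^n φ + 1)`.

`arc_sep`. PROOF. `N = 8M^(s+1)`. From the floors `M j + a ≤ N xk k < M j + a + 1`, `M j + b ≤ N xk k' < M j + b + 1`, `a + 2 ≤ b < M`: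
`1/N ≤ xk k' - xk k ≤ M/N = 1/(8 M^s) ≤ 1/8`; `‖exp(2πix) - exp(2πix')‖ = 2 |sin (π (x' - x))| ≥ 4 (x' - x) ≥ 4/N`
(`Real.mul_le_sin : 2/π * x ≤ sin x` on `[0, π/2]`).
`blk_card`: `blk n ⊆ box (2^(n+1))`, cardinality `≤ (2·2^(n+1)+1)² ≤ 25·4^n`.
-/

open Real Set Filter Topology

set_option autoImplicit false

namespace Pool.Agent.Helper22.AE

theorem zk_xk (k : ℤ × ℤ) : zk k = Complex.exp (((2 * π * xk k : ℝ) : ℂ) * Complex.I) := by
  unfold zk xk
  have hpi : (π : ℂ) ≠ 0 := by exact_mod_cast Real.pi_ne_zero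
  have h1 : Int.fract (tk k / (2 * π)) = tk k / (2 * π) - (⌊tk k / (2 * π)⌋ : ℝ) := rfl
  rw [h1]
  have h2 : (2 * π * (tk k / (2 * π) - (⌊tk k / (2 * π)⌋ : ℝ)) : ℝ) = tk k - (⌊tk k / (2 * π)⌋ : ℝ) * (2 * π) := by
    field_simp
  rw [h2]
  rw [Complex.exp_eq_exp_iff_exists_int]
  refine ⟨⌊tk k / (2 * π)⌋, ?_⟩
  push_cast
  ring

private lemma d3_xk_nonneg (k : ℤ × ℤ) : 0 ≤ xk k := Int.fract_nonneg _

private lemma d3_xk_lt (k : ℤ × ℤ) : xk k < 1 := Int.fract_lt_one _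

theorem blk_card (n : ℕ) : ((blk n).card : ℝ) ≤ 25 * 4 ^ n := by
  have h1 : (blk n).card ≤ (box (2 ^ (n + 1))).card := Finset.card_filter_le _ _
  have h2 : (box (2 ^ (n + 1))).card = (2 * 2 ^ (n + 1) + 1) ^ 2 := by
    unfold box
    rw [Finset.card_product, Int.card_Icc]
    have : (((2 ^ (n + 1) : ℕ) : ℤ) + 1 - -((2 ^ (n + 1) : ℕ) : ℤ)).toNat = 2 * 2 ^ (n + 1) + 1 := by
      have : (((2 ^ (n + 1) : ℕ) : ℤ) + 1 - -((2 ^ (n + 1) : ℕ) : ℤ)) = ((2 * 2 ^ (n + 1) + 1 : ℕ) : ℤ) := by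
        push_cast
        ring
      rw [this]
      exact Int.toNat_natCast _
    rw [this]
    ring
  rw [h2] at h1
  have h3 : ((blk n).card : ℝ) ≤ (((2 * 2 ^ (n + 1) + 1) ^ 2 : ℕ) : ℝ) := by exact_mod_cast h1
  refine h3.trans ?_
  push_cast
  have h4 : (1 : ℝ) ≤ 2 ^ n := one_le_pow₀ (by norm_num)
  have h5 : (4 : ℝ) ^ n = 2 ^ n * 2 ^ n := by
    rw [← mul_pow]; norm_num
  have h6 : (2 : ℝ) ^ (n + 1) = 2 ^ n * 2 := pow_succ _ _
  rw [h5, h6]
  nlinarith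

private lemma d3_nk_zk (k : ℤ × ℤ) : (nk k : ℂ) * zk k = cz k := by
  unfold nk zk tk
  exact Complex.norm_mul_exp_arg_mul_I (cz k)

/-- cross product -/
private lemma d3_cross (k k' : ℤ × ℤ) :
    ((k.1 : ℝ) * k'.2 - k.2 * k'.1) = nk k * nk k' * sin (2 * π * (xk k' - xk k)) := by
  have h1 := d3_nk_zk k
  have h2 := d3_nk_zk k'
  rw [zk_xk] at h1 h2
  have e1 : (k.1 : ℝ) = nk k * cos (2 * π * xk k) := by
    have := congrArg Complex.re h1
    rw [Complex.re_ofReal_mul, Complex.exp_ofReal_mul_I_re] at this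
    simpa [cz] using this.symm
  have e2 : (k.2 : ℝ) = nk k * sin (2 * π * xk k) := by
    have := congrArg Complex.im h1
    rw [Complex.im_ofReal_mul, Complex.exp_ofReal_mul_I_im] at this
    simpa [cz] using this.symm
  have e3 : (k'.1 : ℝ) = nk k' * cos (2 * π * xk k') := by
    have := congrArg Complex.re h2
    rw [Complex.re_ofReal_mul, Complex.exp_ofReal_mul_I_re] at this
    simpa [cz] using this.symm
  have e4 : (k'.2 : ℝ) = nk k' * sin (2 * π * xk k') := by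
    have := congrArg Complex.im h2
    rw [Complex.im_ofReal_mul, Complex.exp_ofReal_mul_I_im] at this
    simpa [cz] using this.symm
  rw [e1, e2, e3, e4]
  have : 2 * π * (xk k' - xk k) = 2 * π * xk k' - 2 * π * xk k := by ring
  rw [this, sin_sub]
  ring

private lemma d3_sq (k : ℤ × ℤ) : nk k ^ 2 = (k.1 : ℝ) ^ 2 + (k.2 : ℝ) ^ 2 := by
  unfold nk
  rw [Complex.sq_norm, Complex.normSq_apply]
  simp only [cz]
  ring

private lemma d3_cross_le {n N j : ℕ} (hN : 8 ≤ N) {k k' : ℤ × ℤ} (hk : k ∈ arcSet (blk n) N j)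
    (hk' : k' ∈ arcSet (blk n) N j) :
    |(k.1 : ℝ) * k'.2 - k.2 * k'.1| ≤ 4 * 4 ^ n * (2 * π / N) := by
  have hN0 : (0 : ℝ) < N := by exact_mod_cast (by omega : 0 < N)
  unfold arcSet at hk hk'
  rw [Finset.mem_filter] at hk hk'
  unfold blk at hk hk'
  rw [Finset.mem_filter] at hk hk'
  obtain ⟨⟨-, -, h1⟩, h2⟩ := hk
  obtain ⟨⟨-, -, h1'⟩, h2'⟩ := hk'
  have hx0 := d3_xk_nonneg k
  have hx0' := d3_xk_nonneg k'
  have f1 := Nat.floor_le (mul_nonneg hN0.le hx0)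
  have f2 := Nat.lt_floor_add_one ((N : ℝ) * xk k)
  have f1' := Nat.floor_le (mul_nonneg hN0.le hx0')
  have f2' := Nat.lt_floor_add_one ((N : ℝ) * xk k')
  rw [h2] at f1 f2
  rw [h2'] at f1' f2'
  rw [d3_cross]
  have g1 : |xk k' - xk k| ≤ 1 / N := by
    rw [le_div_iff₀ hN0, ← abs_of_pos hN0, ← abs_mul, abs_le]
    constructor <;> nlinarith
  have g2 : |sin (2 * π * (xk k' - xk k))| ≤ 2 * π / N := by
    refine (abs_sin_le_abs).trans ?_
    rw [abs_mul, abs_of_pos Real.two_pi_pos]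
    calc 2 * π * |xk k' - xk k| ≤ 2 * π * (1 / N) := by
          apply mul_le_mul_of_nonneg_left g1 Real.two_pi_pos.le
      _ = 2 * π / N := by ring
  have n0 : 0 ≤ nk k := norm_nonneg _
  have n0' : 0 ≤ nk k' := norm_nonneg _
  rw [abs_mul, abs_of_nonneg (mul_nonneg n0 n0')]
  have h4 : nk k * nk k' ≤ 4 * 4 ^ n := by
    calc nk k * nk k' ≤ 2 ^ (n + 1) * 2 ^ (n + 1) := mul_le_mul h1.le h1'.le n0' (by positivity)
      _ = 4 * 4 ^ n := by
        rw [← mul_pow]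
        norm_num
        ring
  exact mul_le_mul h4 g2 (abs_nonneg _) (by positivity)

/-- a finite set of integers of diameter at most `D` -/
private lemma d3_diam (S : Finset ℤ) (D : ℝ) (hD : 0 ≤ D) (h : ∀ a ∈ S, ∀ b ∈ S, |(a : ℝ) - b| ≤ D) :
    (S.card : ℝ) ≤ D + 1 := by
  rcases S.eq_empty_or_nonempty with h0 | h0
  · rw [h0]
    simp
    linarith
  · set m := S.min' h0 with hm
    set M := S.max' h0 with hM
    have h1 : S ⊆ Finset.Icc m M := by
      intro a ha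
      rw [Finset.mem_Icc]
      exact ⟨Finset.min'_le _ _ ha, Finset.le_max' _ _ ha⟩
    have h2 := Finset.card_le_card h1
    rw [Int.card_Icc] at h2
    have h3 : m ≤ M := Finset.min'_le _ _ (Finset.max'_mem _ _)
    have h4 : ((M + 1 - m).toNat : ℤ) = M + 1 - m := Int.toNat_of_nonneg (by omega)
    have h5 : ((M + 1 - m).toNat : ℝ) = (M : ℝ) + 1 - m := by exact_mod_cast h4
    have h6 : (S.card : ℝ) ≤ (M : ℝ) + 1 - m := by
      rw [← h5]
      exact_mod_cast h2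
    have h7 := h M (Finset.max'_mem _ _) m (Finset.min'_mem _ _)
    have h8 := le_abs_self ((M : ℝ) - m)
    linarith

/-- counting by fibres -/
private lemma d3_count (n : ℕ) (S : Finset (ℤ × ℤ)) (f g : ℤ × ℤ → ℤ)
    (hfg : ∀ k k' : ℤ × ℤ, f k = f k' → g k = g k' → k = k') (D : ℝ) (hD : 0 ≤ D)
    (hf : ∀ k ∈ S, |f k| ≤ 2 ^ (n + 1))
    (hg : ∀ k ∈ S, ∀ k' ∈ S, f k = f k' → |(g k : ℝ) - g k'| ≤ D) :
    (S.card : ℝ) ≤ (4 * 2 ^ n + 1) * (D + 1) := by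
  classical
  have h1 : S.card ≤ ⌊D + 1⌋₊ * (S.image f).card := by
    apply Finset.card_le_mul_card_image
    intro a _
    rw [← Finset.card_image_of_injOn (f := g)
      (s := S.filter (fun x => f x = a))]
    · apply Nat.le_floor
      apply d3_diam _ _ hD
      intro x hx y hy
      rw [Finset.mem_image] at hx hy
      obtain ⟨k, hk, rfl⟩ := hx
      obtain ⟨k', hk', rfl⟩ := hy
      rw [Finset.mem_filter] at hk hk'
      exact hg k hk.1 k' hk'.1 (hk.2.trans hk'.2.symm)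
    · intro x hx y hy hxy
      rw [Finset.mem_coe, Finset.mem_filter] at hx hy
      exact hfg x y (hx.2.trans hy.2.symm) hxy
  have h2 : (S.image f).card ≤ 4 * 2 ^ n + 1 := by
    have h3 : S.image f ⊆ Finset.Icc (-(2 ^ (n + 1) : ℤ)) (2 ^ (n + 1)) := by
      intro a ha
      rw [Finset.mem_image] at ha
      obtain ⟨k, hk, rfl⟩ := ha
      rw [Finset.mem_Icc]
      exact abs_le.1 (hf k hk)
    refine (Finset.card_le_card h3).trans ?_
    rw [Int.card_Icc]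
    have : ((2 ^ (n + 1) : ℤ) + 1 - -(2 ^ (n + 1) : ℤ)) = ((4 * 2 ^ n + 1 : ℕ) : ℤ) := by
      push_cast
      ring
    rw [this, Int.toNat_natCast]
  have h4 : (S.card : ℝ) ≤ (⌊D + 1⌋₊ : ℝ) * ((S.image f).card : ℝ) := by exact_mod_cast h1
  have h5 : (⌊D + 1⌋₊ : ℝ) ≤ D + 1 := Nat.floor_le (by linarith)
  have h6 : ((S.image f).card : ℝ) ≤ 4 * 2 ^ n + 1 := by exact_mod_cast h2
  calc (S.card : ℝ) ≤ (⌊D + 1⌋₊ : ℝ) * ((S.image f).card : ℝ) := h4
    _ ≤ (D + 1) * (4 * 2 ^ n + 1) := mul_le_mul h5 h6 (by positivity) (by linarith)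
    _ = _ := by ring

/-- gap estimate -/
private lemma d3_gap (n : ℕ) (x y d φ : ℝ) (h1 : (2 : ℝ) ^ n ≤ sqrt (x ^ 2 + y ^ 2)) (h2 : |y| ≤ |x|)
    (h3 : |x| * |d| ≤ 4 * 4 ^ n * φ) : |d| ≤ 6 * 2 ^ n * φ := by
  have hp : (0 : ℝ) < 2 ^ n := by positivity
  have h4 : (4 : ℝ) ^ n = 2 ^ n * 2 ^ n := by
    rw [← mul_pow]; norm_num
  rw [h4] at h3
  have h5 : ((2 : ℝ) ^ n) ^ 2 ≤ x ^ 2 + y ^ 2 := by
    exact (Real.le_sqrt' hp).1 h1
  have h6 : y ^ 2 ≤ x ^ 2 := sq_le_sq.2 h2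
  have h7 : ((2 : ℝ) ^ n) ^ 2 ≤ 2 * |x| ^ 2 := by rw [sq_abs]; linarith
  have h8 : (2 / 3) * (2 : ℝ) ^ n ≤ |x| := by
    apply le_of_sq_le_sq _ (abs_nonneg x)
    nlinarith
  have h9 : (2 / 3) * (2 : ℝ) ^ n * |d| ≤ (2 / 3) * (2 : ℝ) ^ n * (6 * 2 ^ n * φ) := by
    calc (2 / 3) * (2 : ℝ) ^ n * |d| ≤ |x| * |d| := mul_le_mul_of_nonneg_right h8 (abs_nonneg d)
      _ ≤ 4 * (2 ^ n * 2 ^ n) * φ := h3
      _ = (2 / 3) * (2 : ℝ) ^ n * (6 * 2 ^ n * φ) := by ring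
  exact le_of_mul_le_mul_left h9 (by positivity)

theorem arc_card (n : ℕ) {N : ℕ} (hN : 8 ≤ N) (j : ℕ) :
    ((arcSet (blk n) N j).card : ℝ) ≤ 2 * (4 * 2 ^ n + 1) * (6 * 2 ^ n * (2 * π / N) + 1) := by
  classical
  set S := arcSet (blk n) N j with hS
  have hφ : 0 ≤ 2 * π / (N : ℝ) := by positivity
  have hmem : ∀ k ∈ S, (2 : ℝ) ^ n ≤ nk k ∧ nk k < 2 ^ (n + 1) := by
    intro k hk
    rw [hS] at hk
    unfold arcSet at hk
    rw [Finset.mem_filter] at hk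
    have := hk.1
    unfold blk at this
    rw [Finset.mem_filter] at this
    exact this.2
  have hbox : ∀ k ∈ S, |k.1| ≤ 2 ^ (n + 1) ∧ |k.2| ≤ 2 ^ (n + 1) := by
    intro k hk
    rw [hS] at hk
    unfold arcSet at hk
    rw [Finset.mem_filter] at hk
    have := hk.1
    unfold blk at this
    rw [Finset.mem_filter] at this
    have h2 := this.1
    unfold box at h2
    rw [Finset.mem_product, Finset.mem_Icc, Finset.mem_Icc] at h2
    push_cast at h2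
    exact ⟨abs_le.2 h2.1, abs_le.2 h2.2⟩
  have hsqrt : ∀ k : ℤ × ℤ, nk k = sqrt ((k.1 : ℝ) ^ 2 + (k.2 : ℝ) ^ 2) := by
    intro k
    have h0 : 0 ≤ nk k := norm_nonneg _
    rw [← d3_sq, Real.sqrt_sq h0]
  have hcard : S.card = (S.filter (fun k => |k.2| ≤ |k.1|)).card + (S.filter (fun k => ¬ |k.2| ≤ |k.1|)).card :=
    (Finset.card_filter_add_card_filter_not _).symm
  have hA : ((S.filter (fun k => |k.2| ≤ |k.1|)).card : ℝ) ≤
      (4 * 2 ^ n + 1) * (6 * 2 ^ n * (2 * π / N) + 1) := by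
    apply d3_count n _ (fun k => k.1) (fun k => k.2) (fun k k' h1 h2 => Prod.ext h1 h2) _ (by positivity)
    · intro k hk
      exact (hbox k (Finset.mem_filter.1 hk).1).1
    · intro k hk k' hk' hkk
      rw [Finset.mem_filter] at hk hk'
      have hc := d3_cross_le hN hk.1 hk'.1
      have hkk' : (k.1 : ℝ) = k'.1 := by exact_mod_cast hkk
      apply d3_gap n k.1 k.2 _ _
      · rw [← hsqrt]
        exact (hmem k hk.1).1
      · exact_mod_cast hk.2
      · rw [← abs_mul]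
        rw [← hkk', abs_sub_comm] at hc
        have e : (k.1 : ℝ) * ((k.2 : ℝ) - k'.2) = (k.2 : ℝ) * k.1 - k.1 * k'.2 := by ring
        rw [← e] at hc
        exact hc
  have hB : ((S.filter (fun k => ¬ |k.2| ≤ |k.1|)).card : ℝ) ≤
      (4 * 2 ^ n + 1) * (6 * 2 ^ n * (2 * π / N) + 1) := by
    apply d3_count n _ (fun k => k.2) (fun k => k.1) (fun k k' h1 h2 => Prod.ext h2 h1) _ (by positivity)
    · intro k hk
      exact (hbox k (Finset.mem_filter.1 hk).1).2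
    · intro k hk k' hk' hkk
      rw [Finset.mem_filter] at hk hk'
      have hc := d3_cross_le hN hk.1 hk'.1
      have hkk' : (k.2 : ℝ) = k'.2 := by exact_mod_cast hkk
      apply d3_gap n k.2 k.1 _ _
      · rw [add_comm, ← hsqrt]
        exact (hmem k hk.1).1
      · have := (not_le.1 hk.2).le
        exact_mod_cast this
      · rw [← abs_mul]
        rw [← hkk'] at hc
        have e : (k.2 : ℝ) * ((k.1 : ℝ) - k'.1) = (k.1 : ℝ) * k.2 - k.2 * k'.1 := by ring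
        rw [← e] at hc
        exact hc
  have : (S.card : ℝ) = ((S.filter (fun k => |k.2| ≤ |k.1|)).card : ℝ) +
      ((S.filter (fun k => ¬ |k.2| ≤ |k.1|)).card : ℝ) := by exact_mod_cast hcard
  rw [this]
  linarith

theorem arc_sep {B : Finset (ℤ × ℤ)} {M s j : ℕ} (hM : 1 ≤ M) {a b : ℕ} (hb : b < M) (hab : a + 2 ≤ b)
    {k k' : ℤ × ℤ} (hk : k ∈ arcSet B (8 * M ^ (s + 1)) (M * j + a))
    (hk' : k' ∈ arcSet B (8 * M ^ (s + 1)) (M * j + b)) :
    1 / (2 * (M : ℝ) ^ (s + 1)) ≤ ‖zk k - zk k'‖ := by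
  have hM0 : (1 : ℝ) ≤ M := by exact_mod_cast hM
  have hMs : (1 : ℝ) ≤ (M : ℝ) ^ s := one_le_pow₀ hM0
  have hMs1 : (1 : ℝ) ≤ (M : ℝ) ^ (s + 1) := one_le_pow₀ hM0
  have hN0 : (0 : ℝ) < 8 * (M : ℝ) ^ (s + 1) := by positivity
  unfold arcSet at hk hk'
  rw [Finset.mem_filter] at hk hk'
  have h2 := hk.2
  have h2' := hk'.2
  push_cast at h2 h2'
  have hx0 := d3_xk_nonneg k
  have hx0' := d3_xk_nonneg k'
  have f1 := Nat.floor_le (mul_nonneg hN0.le hx0)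
  have f2 := Nat.lt_floor_add_one (8 * (M : ℝ) ^ (s + 1) * xk k)
  have f1' := Nat.floor_le (mul_nonneg hN0.le hx0')
  have f2' := Nat.lt_floor_add_one (8 * (M : ℝ) ^ (s + 1) * xk k')
  rw [h2] at f1 f2
  rw [h2'] at f1' f2'
  push_cast at f1 f2 f1' f2'
  have hb' : (b : ℝ) + 1 ≤ M := by exact_mod_cast hb
  have hab' : (a : ℝ) + 2 ≤ b := by exact_mod_cast hab
  have ha0 : (0 : ℝ) ≤ a := Nat.cast_nonneg _
  set d := xk k' - xk k with hd
  have g1 : 1 ≤ 8 * (M : ℝ) ^ (s + 1) * d := by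
    rw [hd, mul_sub]
    linarith
  have g2 : 8 * (M : ℝ) ^ (s + 1) * d ≤ M := by
    rw [hd, mul_sub]
    linarith
  have g3 : d ≤ 1 / 8 := by
    have e : 8 * (M : ℝ) ^ (s + 1) * d = M * (8 * (M : ℝ) ^ s * d) := by
      rw [pow_succ]; ring
    rw [e] at g2
    have g4 : 8 * (M : ℝ) ^ s * d ≤ 1 := by
      by_contra hcon
      push Not at hcon
      nlinarith
    have d0 : 0 ≤ d := by
      by_contra hcon
      push Not at hcon
      nlinarith
    nlinarith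
  have g0 : 0 < d := by
    by_contra hcon
    push Not at hcon
    nlinarith
  have hnorm : ‖zk k - zk k'‖ = 2 * |sin (π * d)| := by
    rw [zk_xk, zk_xk]
    have e1 : Complex.exp (((2 * π * xk k : ℝ) : ℂ) * Complex.I) - Complex.exp (((2 * π * xk k' : ℝ) : ℂ) * Complex.I)
        = -(Complex.exp (((2 * π * xk k : ℝ) : ℂ) * Complex.I) *
          (Complex.exp (Complex.I * ((2 * π * d : ℝ) : ℂ)) - 1)) := by
      rw [mul_sub, ← Complex.exp_add]
      have : ((2 * π * xk k : ℝ) : ℂ) * Complex.I + Complex.I * ((2 * π * d : ℝ) : ℂ) =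
          ((2 * π * xk k' : ℝ) : ℂ) * Complex.I := by
        rw [hd]
        push_cast
        ring
      rw [this]
      ring
    rw [e1, norm_neg, norm_mul, Complex.norm_exp_ofReal_mul_I, one_mul, Complex.norm_exp_I_mul_ofReal_sub_one]
    rw [norm_mul, Real.norm_eq_abs, Real.norm_eq_abs]
    have : 2 * π * d / 2 = π * d := by ring
    rw [this]
    norm_num
  rw [hnorm]
  have hs : 2 / π * (π * d) ≤ sin (π * d) := by
    apply Real.mul_le_sin
    · positivity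
    · have := Real.pi_pos
      nlinarith
  have hs' : 2 / π * (π * d) = 2 * d := by
    have := Real.pi_ne_zero
    field_simp
  rw [hs'] at hs
  have h10 : 1 / (2 * (M : ℝ) ^ (s + 1)) ≤ 4 * d := by
    rw [div_le_iff₀ (by positivity)]
    linarith
  have := le_abs_self (sin (π * d))
  linarith

end Pool.Agent.Helper22.AE
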