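import Pool.Agent.Helper22.AE.G4

/-!
# AE-G5: polar form of the boundary integral

PROOF of `ft_polar`. In `ft_boundary` substitute `t = tk k + α`; the integrand is `2π`-periodic (`G`, `deriv G`, `deriv (deriv G)` are), so the
integral over `[0, 2π]` equals the one over `α ∈ [-π, π]` (`Function.Periodic.intervalIntegral_add_eq`). `k.1 = nk k cos (tk k)`,
`k.2 = nk k sin (tk k)` (`lem_cos`, `lem_sin` below: `Complex.norm_mul_cos_arg`, `Complex.norm_mul_sin_arg`), so
`k.1 cos t + k.2 sin t = nk k cos α` and `k · bx G t = nk k (G t cos α - G' t sin α) = nk k * gph G k α`.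
`ft_norm`: from `ft_boundary`, `|k · u| ≤ nk k`, `‖ee‖ = 1`.
-/

open MeasureTheory Real Set Filter Topology

set_option autoImplicit false

namespace Pool.Agent.Helper22.AE

theorem nk_pos {k : ℤ × ℤ} (hk : k ≠ 0) : 0 < nk k := by
  unfold nk
  rw [norm_pos_iff]
  intro h
  apply hk
  have h1 : ((k.1 : ℝ)) = 0 := by
    have := congrArg Complex.re h
    simpa [cz] using this
  have h2 : ((k.2 : ℝ)) = 0 := by
    have := congrArg Complex.im h
    simpa [cz] using this
  ext
  · exact_mod_cast h1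
  · exact_mod_cast h2

theorem lem_cos (k : ℤ × ℤ) : (k.1 : ℝ) = nk k * cos (tk k) := (Complex.norm_mul_cos_arg (cz k)).symm

theorem lem_sin (k : ℤ × ℤ) : (k.2 : ℝ) = nk k * sin (tk k) := (Complex.norm_mul_sin_arg (cz k)).symm

private lemma h24_per_deriv {G : ℝ → ℝ} {c : ℝ} (h : Function.Periodic G c) :
    Function.Periodic (deriv G) c := by
  intro x
  have e : (fun y => G (y + c)) = G := by
    funext y
    exact h y
  have h2 := deriv_comp_add_const G c x
  rw [e] at h2
  exact h2.symm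

private lemma h24_lin (k : ℤ × ℤ) (α : ℝ) :
    (k.1 : ℝ) * cos (tk k + α) + (k.2 : ℝ) * sin (tk k + α) = nk k * cos α := by
  rw [cos_add, sin_add]
  have h := sin_sq_add_cos_sq (tk k)
  have h1 := lem_cos k
  have h2 := lem_sin k
  linear_combination (cos (tk k) * cos α - sin (tk k) * sin α) * h1 +
    (sin (tk k) * cos α + cos (tk k) * sin α) * h2 + (nk k * cos α) * h

private lemma h24_lin2 (k : ℤ × ℤ) (α : ℝ) :
    -((k.1 : ℝ) * sin (tk k + α)) + (k.2 : ℝ) * cos (tk k + α) = -(nk k * sin α) := by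
  rw [cos_add, sin_add]
  have h := sin_sq_add_cos_sq (tk k)
  have h1 := lem_cos k
  have h2 := lem_sin k
  linear_combination (-(sin (tk k) * cos α + cos (tk k) * sin α)) * h1 +
    (cos (tk k) * cos α - sin (tk k) * sin α) * h2 + (-(nk k * sin α)) * h

private lemma h24_phase (G : ℝ → ℝ) (k : ℤ × ℤ) (α : ℝ) :
    (k.1 : ℝ) * (bx G (tk k + α)).1 + (k.2 : ℝ) * (bx G (tk k + α)).2 = nk k * gph G k α := by
  simp only [bx, gph]
  have h1 := h24_lin k α
  have h2 := h24_lin2 k α
  linear_combination (G (tk k + α)) * h1 + (deriv G (tk k + α)) * h2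

theorem ft_polar {G : ℝ → ℝ} (hG : IsSupp G) {k : ℤ × ℤ} (hk : k ≠ 0) :
    ft G k = -(1 / (2 * π * Complex.I * (nk k : ℂ))) * ∫ α in (-π)..π,
      ((cos α * rho G (tk k + α) : ℝ) : ℂ) * ee (-(nk k * gph G k α)) := by
  rw [ft_boundary hG hk]
  have hG1 := h24_per_deriv hG.per
  have hG2 := h24_per_deriv hG1
  set F : ℝ → ℂ := fun t => ((((k.1 : ℝ) * cos t + (k.2 : ℝ) * sin t) * rho G t : ℝ) : ℂ) *
        ee (-((k.1 : ℝ) * (bx G t).1 + (k.2 : ℝ) * (bx G t).2)) with hF
  have hFper : Function.Periodic F (2 * π) := by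
    intro t
    simp only [hF, bx, rho]
    rw [cos_add_two_pi, sin_add_two_pi, hG.per t, hG1 t, hG2 t]
  have hshift : ∫ t in (0 : ℝ)..(2 * π), F t = ∫ α in (-π)..π, F (tk k + α) := by
    rw [intervalIntegral.integral_comp_add_left]
    have h1 := hFper.intervalIntegral_add_eq 0 (tk k + -π)
    rw [zero_add] at h1
    rw [h1]
    congr 1
    ring
  rw [hshift]
  have hFeq : ∀ α : ℝ, F (tk k + α) = (nk k : ℂ) *
      (((cos α * rho G (tk k + α) : ℝ) : ℂ) * ee (-(nk k * gph G k α))) := by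
    intro α
    simp only [hF]
    rw [h24_lin, h24_phase]
    push_cast
    ring
  simp only [hFeq]
  rw [intervalIntegral.integral_const_mul]
  have hn : (nk k : ℂ) ≠ 0 := by
    exact_mod_cast (nk_pos hk).ne'
  have hpi : (2 * (π : ℂ) * Complex.I) ≠ 0 := by
    have e1 : (π : ℂ) ≠ 0 := by exact_mod_cast Real.pi_ne_zero
    exact mul_ne_zero (mul_ne_zero two_ne_zero e1) Complex.I_ne_zero
  generalize (∫ α in (-π)..π,
      ((cos α * rho G (tk k + α) : ℝ) : ℂ) * ee (-(nk k * gph G k α))) = J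
  generalize (2 * (π : ℂ) * Complex.I) = P at hpi
  field_simp

theorem ft_norm {G : ℝ → ℝ} (hG : IsSupp G) {k : ℤ × ℤ} (hk : k ≠ 0) :
    ‖ft G k‖ ≤ (∫ t in (0 : ℝ)..(2 * π), rho G t) / (2 * π * nk k) := by
  have hs2 : ContDiff ℝ (1 + 1) G := by
    have h := hG.smooth
    have e : (2 : WithTop ℕ∞) = 1 + 1 := by norm_num
    rw [e] at h
    exact h
  have h1 := (contDiff_succ_iff_deriv.1 hs2)
  have hs1 : ContDiff ℝ (0 + 1) (deriv G) := by
    have h := h1.2.2
    rw [zero_add]
    exact h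
  have hG''c : Continuous (deriv (deriv G)) := (contDiff_succ_iff_deriv.1 hs1).2.2.continuous
  have hρc : Continuous (rho G) := by
    unfold rho
    exact h1.1.continuous.add hG''c
  have hn := nk_pos hk
  rw [ft_boundary hG hk]
  have hpt : ∀ t : ℝ, ‖((((k.1 : ℝ) * cos t + (k.2 : ℝ) * sin t) * rho G t : ℝ) : ℂ) *
        ee (-((k.1 : ℝ) * (bx G t).1 + (k.2 : ℝ) * (bx G t).2))‖ ≤ nk k * rho G t := by
    intro t
    rw [norm_mul, ee_norm, mul_one, Complex.norm_real, Real.norm_eq_abs, abs_mul]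
    have hr : 0 < rho G t := hG.rho_pos t
    rw [abs_of_pos hr]
    refine mul_le_mul_of_nonneg_right ?_ hr.le
    have h := h24_lin k (t - tk k)
    rw [add_sub_cancel] at h
    rw [h, abs_mul, abs_of_pos hn]
    have hc := abs_cos_le_one (t - tk k)
    nlinarith
  have hI : ‖∫ t in (0 : ℝ)..(2 * π),
      ((((k.1 : ℝ) * cos t + (k.2 : ℝ) * sin t) * rho G t : ℝ) : ℂ) *
        ee (-((k.1 : ℝ) * (bx G t).1 + (k.2 : ℝ) * (bx G t).2))‖ ≤
      nk k * ∫ t in (0 : ℝ)..(2 * π), rho G t := by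
    rw [← intervalIntegral.integral_const_mul]
    refine intervalIntegral.norm_integral_le_of_norm_le (by positivity) ?_ ?_
    · exact Filter.Eventually.of_forall fun t _ => hpt t
    · exact (continuous_const.mul hρc).intervalIntegrable _ _
  rw [norm_mul]
  have hc : ‖-(1 / (2 * (π : ℂ) * Complex.I * (nk k : ℂ) ^ 2))‖ = 1 / (2 * π * nk k ^ 2) := by
    rw [norm_neg, norm_div, norm_one, norm_mul, norm_mul, norm_mul, norm_pow, Complex.norm_I,
      Complex.norm_real, Complex.norm_real, Real.norm_eq_abs, Real.norm_eq_abs,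
      abs_of_pos Real.pi_pos, abs_of_pos hn]
    norm_num
  rw [hc]
  calc 1 / (2 * π * nk k ^ 2) * _ ≤ 1 / (2 * π * nk k ^ 2) *
        (nk k * ∫ t in (0 : ℝ)..(2 * π), rho G t) :=
        mul_le_mul_of_nonneg_left hI (by positivity)
    _ = (∫ t in (0 : ℝ)..(2 * π), rho G t) / (2 * π * nk k) := by
        generalize (∫ t in (0 : ℝ)..(2 * π), rho G t) = J
        have hpi := Real.pi_pos
        field_simp

end Pool.Agent.Helper22.AE
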