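import Pool.Agent.Helper22.AE.Defs

/-!
# AE-C3: linearity of the phase in the coefficients (paper (0.1), (0.2))

PROOF. `gph` and `rho` are linear in the function. For `h = cos (l ·)`: `h (t + α) cos α - h' (t + α) sin α =
cos (l (t+α)) cos α + l sin (l (t+α)) sin α = Re (c_l(α) e^{i l t})` because `c_l(α) e^{ilt} = e^{il(t+α)} (cos α - i l sin α)`;
for `h = sin (l ·)`: `sin (l (t+α)) cos α - l cos (l (t+α)) sin α = Im (c_l(α) e^{ilt})`. `zk k ^ l = e^{i l tk k}`.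
`rho` of `cos (l ·)` is `(1 - l²) cos (l ·)`. `‖c_l α‖² = cos² α + l² sin² α ≥ cos² α`.
-/

open MeasureTheory Real Set Filter Topology

set_option autoImplicit false

namespace Pool.Agent.Helper22.AE

private lemma c3_diff {H : ℝ → ℝ} (h : ContDiff ℝ 2 H) : Differentiable ℝ H :=
  h.differentiable (by norm_num)

private lemma c3_cd {H : ℝ → ℝ} (h : ContDiff ℝ 2 H) : ContDiff ℝ 1 (deriv H) :=
  ((contDiff_succ_iff_deriv (n := 1)).1 (by simpa [one_add_one_eq_two] using h)).2.2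

private lemma c3_diff' {H : ℝ → ℝ} (h : ContDiff ℝ 2 H) : Differentiable ℝ (deriv H) :=
  (c3_cd h).differentiable (by norm_num)

private lemma c3_deriv {L : ℕ} {H₀ : ℝ → ℝ} (h0 : ContDiff ℝ 2 H₀) (w : (Fin L → ℝ) × (Fin L → ℝ)) :
    deriv (Hw H₀ w) = fun θ => deriv H₀ θ +
      ∑ l : Fin L, (w.1 l * (-(((l : ℕ) : ℝ) * sin ((l : ℕ) * θ))) + w.2 l * (((l : ℕ) : ℝ) * cos ((l : ℕ) * θ))) := by
  funext θ
  apply HasDerivAt.deriv
  unfold Hw
  refine (c3_diff h0 θ).hasDerivAt.add ?_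
  apply HasDerivAt.fun_sum
  intro l _
  have hl : HasDerivAt (fun θ : ℝ => ((l : ℕ) : ℝ) * θ) ((l : ℕ) : ℝ) θ := by
    simpa using (hasDerivAt_id θ).const_mul ((l : ℕ) : ℝ)
  have h1 : HasDerivAt (fun θ : ℝ => cos (((l : ℕ) : ℝ) * θ)) (-(((l : ℕ) : ℝ) * sin ((l : ℕ) * θ))) θ := by
    refine hl.cos.congr_deriv ?_
    ring
  have h2 : HasDerivAt (fun θ : ℝ => sin (((l : ℕ) : ℝ) * θ)) (((l : ℕ) : ℝ) * cos ((l : ℕ) * θ)) θ := by
    refine hl.sin.congr_deriv ?_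
    ring
  exact (h1.const_mul _).add (h2.const_mul _)

private lemma c3_deriv2 {L : ℕ} {H₀ : ℝ → ℝ} (h0 : ContDiff ℝ 2 H₀) (w : (Fin L → ℝ) × (Fin L → ℝ)) (θ : ℝ) :
    deriv (deriv (Hw H₀ w)) θ = deriv (deriv H₀) θ +
      ∑ l : Fin L, (w.1 l * (-(((l : ℕ) : ℝ) ^ 2 * cos ((l : ℕ) * θ))) + w.2 l * (-(((l : ℕ) : ℝ) ^ 2 * sin ((l : ℕ) * θ)))) := by
  rw [c3_deriv h0]
  apply HasDerivAt.deriv
  refine (c3_diff' h0 θ).hasDerivAt.add ?_
  apply HasDerivAt.fun_sum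
  intro l _
  have hl : HasDerivAt (fun θ : ℝ => ((l : ℕ) : ℝ) * θ) ((l : ℕ) : ℝ) θ := by
    simpa using (hasDerivAt_id θ).const_mul ((l : ℕ) : ℝ)
  have h1 : HasDerivAt (fun θ : ℝ => ((l : ℕ) : ℝ) * cos (((l : ℕ) : ℝ) * θ)) (-(((l : ℕ) : ℝ) ^ 2 * sin ((l : ℕ) * θ))) θ := by
    refine (hl.cos.const_mul _).congr_deriv ?_
    ring
  have h2 : HasDerivAt (fun θ : ℝ => -(((l : ℕ) : ℝ) * sin (((l : ℕ) : ℝ) * θ))) (-(((l : ℕ) : ℝ) ^ 2 * cos ((l : ℕ) * θ))) θ := by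
    refine (hl.sin.const_mul _).neg.congr_deriv ?_
    ring
  exact (h2.const_mul _).add (h1.const_mul _)

private lemma c3_key (k : ℤ × ℤ) (l : ℕ) (α : ℝ) :
    cl l α * zk k ^ l = ⟨cos (l * (tk k + α)) * cos α + l * sin (l * (tk k + α)) * sin α,
      sin (l * (tk k + α)) * cos α - l * cos (l * (tk k + α)) * sin α⟩ := by
  have h1 : cl l α * zk k ^ l = Complex.exp (((l * (tk k + α) : ℝ) : ℂ) * Complex.I) *
      (((cos α : ℝ) : ℂ) - ((l * sin α : ℝ) : ℂ) * Complex.I) := by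
    unfold cl zk
    rw [← Complex.exp_nat_mul, mul_right_comm, ← Complex.exp_add]
    congr 2
    push_cast
    ring
  rw [h1, Complex.exp_mul_I]
  apply Complex.ext
  · simp only [Complex.mul_re, Complex.mul_im, Complex.add_re, Complex.add_im, Complex.sub_re, Complex.sub_im,
      Complex.I_re, Complex.I_im, Complex.cos_ofReal_re, Complex.cos_ofReal_im, Complex.sin_ofReal_re,
      Complex.sin_ofReal_im, Complex.ofReal_re, Complex.ofReal_im]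
    ring
  · simp only [Complex.mul_re, Complex.mul_im, Complex.add_re, Complex.add_im, Complex.sub_re, Complex.sub_im,
      Complex.I_re, Complex.I_im, Complex.cos_ofReal_re, Complex.cos_ofReal_im, Complex.sin_ofReal_re,
      Complex.sin_ofReal_im, Complex.ofReal_re, Complex.ofReal_im]
    ring

theorem gph_Hw {L : ℕ} {H₀ : ℝ → ℝ} (h0 : ContDiff ℝ 2 H₀) (w : (Fin L → ℝ) × (Fin L → ℝ)) (k : ℤ × ℤ) (α : ℝ) :
    gph (Hw H₀ w) k α = gph H₀ k α + lform k α w := by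
  unfold gph lform
  rw [c3_deriv h0]
  unfold Hw
  simp only [c3_key]
  rw [add_mul, add_mul, Finset.sum_mul, Finset.sum_mul]
  have : ∀ a b c d : ℝ, a + b - (c + d) = a - c + (b - d) := by intros; ring
  rw [this, ← Finset.sum_sub_distrib]
  congr 1
  apply Finset.sum_congr rfl
  intro l _
  ring

theorem rho_Hw {L : ℕ} {H₀ : ℝ → ℝ} (h0 : ContDiff ℝ 2 H₀) (w : (Fin L → ℝ) × (Fin L → ℝ)) (θ : ℝ) :
    rho (Hw H₀ w) θ = rho H₀ θ +
      ∑ l : Fin L, (1 - ((l : ℕ) : ℝ) ^ 2) * (w.1 l * cos ((l : ℕ) * θ) + w.2 l * sin ((l : ℕ) * θ)) := by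
  unfold rho
  rw [c3_deriv2 h0]
  unfold Hw
  have : ∀ a b c d : ℝ, a + b + (c + d) = a + c + (b + d) := by intros; ring
  rw [this, ← Finset.sum_add_distrib]
  congr 1
  apply Finset.sum_congr rfl
  intro l _
  ring

theorem gph_affine {H : ℝ → ℝ} (hH : ContDiff ℝ 2 H) (R s : ℝ) (k : ℤ × ℤ) (α : ℝ) :
    gph (fun θ => R * H θ + s) k α = R * gph H k α + s * cos α := by
  unfold gph
  have h1 : deriv (fun θ => R * H θ + s) (tk k + α) = R * deriv H (tk k + α) := by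
    apply HasDerivAt.deriv
    exact (((c3_diff hH (tk k + α)).hasDerivAt).const_mul R).add_const s
  rw [h1]
  ring

theorem Hw_smooth {L : ℕ} {H₀ : ℝ → ℝ} (h0 : ContDiff ℝ 2 H₀) (w : (Fin L → ℝ) × (Fin L → ℝ)) :
    ContDiff ℝ 2 (Hw H₀ w) := by
  unfold Hw
  refine h0.add ?_
  apply ContDiff.sum
  intro l _
  fun_prop

theorem Hw_per {L : ℕ} {H₀ : ℝ → ℝ} (hp : Function.Periodic H₀ (2 * π)) (w : (Fin L → ℝ) × (Fin L → ℝ)) :
    Function.Periodic (Hw H₀ w) (2 * π) := by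
  intro θ
  unfold Hw
  rw [hp θ]
  congr 1
  apply Finset.sum_congr rfl
  intro l _
  have h1 : ((l : ℕ) : ℝ) * (θ + 2 * π) = ((l : ℕ) : ℝ) * θ + ((l : ℕ) : ℝ) * (2 * π) := by ring
  rw [h1, Real.cos_add_nat_mul_two_pi, Real.sin_add_nat_mul_two_pi]

private lemma c3_cl_sq (l : ℕ) (α : ℝ) : ‖cl l α‖ ^ 2 = cos α ^ 2 + (l * sin α) ^ 2 := by
  unfold cl
  rw [norm_mul, Complex.norm_exp_ofReal_mul_I, one_mul, ← Complex.normSq_eq_norm_sq, Complex.normSq_apply]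
  simp only [Complex.mul_re, Complex.mul_im, Complex.sub_re, Complex.sub_im,
      Complex.I_re, Complex.I_im, Complex.ofReal_re, Complex.ofReal_im]
  ring

theorem cl_norm_ge (l : ℕ) (α : ℝ) : |cos α| ≤ ‖cl l α‖ := by
  have h1 := c3_cl_sq l α
  apply abs_le_of_sq_le_sq _ (norm_nonneg _)
  rw [h1]
  nlinarith [sq_nonneg ((l : ℝ) * sin α)]

theorem cl_norm_le (l : ℕ) (α : ℝ) : ‖cl l α‖ ≤ 1 + l := by
  have h1 := c3_cl_sq l α
  have h2 := Real.cos_sq_add_sin_sq α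
  have h3 : (0 : ℝ) ≤ l := Nat.cast_nonneg l
  have h4 : sin α ^ 2 ≤ 1 := by nlinarith [sq_nonneg (cos α)]
  have h5 : cos α ^ 2 ≤ 1 := by nlinarith [sq_nonneg (sin α)]
  have h6 : ‖cl l α‖ ^ 2 ≤ (1 + l) ^ 2 := by
    rw [h1, mul_pow]
    nlinarith [mul_le_mul_of_nonneg_left h4 (sq_nonneg (l : ℝ))]
  exact (pow_le_pow_iff_left₀ (norm_nonneg _) (by linarith) (by norm_num)).1 h6

theorem zk_norm (k : ℤ × ℤ) : ‖zk k‖ = 1 := Complex.norm_exp_ofReal_mul_I _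

theorem nk_zk (k : ℤ × ℤ) : (nk k : ℂ) * zk k = cz k := by
  unfold nk zk tk
  exact Complex.norm_mul_exp_arg_mul_I (cz k)

/-- `lform` is continuous jointly in `(α, w)` -/
theorem lform_cont {L : ℕ} (k : ℤ × ℤ) :
    Continuous (fun q : ℝ × ((Fin L → ℝ) × (Fin L → ℝ)) => lform k q.1 q.2) := by
  unfold lform
  simp only [c3_key]
  fun_prop

end Pool.Agent.Helper22.AE
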