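import Pool.Agent.Helper22.AE.Defs

/-!
# AE-P1: a smoothing function with rapidly decreasing Fourier transform

PROOF. One dimension: there is a smooth `ψ ≥ 0`, even or not, supported in `[-1/2, 1/2]`, `∫ ψ = 1` (`ContDiffBump` on `ℝ` at `0`,
`.normed`). `φ p = ψ p.1 * ψ p.2`: continuous, `≥ 0`, zero if `p.1² + p.2² > 1` (then some `|p.i| > 1/2`), integral `1`
(`integral_prod_mul`). `fhat φ x y = ψ^ x * ψ^ y`, `ψ^ x = ∫ ee (-(x t)) ψ t dt = 𝓕 ψ x`; `ψ` (complex valued) is a Schwartz function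
(`HasCompactSupport.toSchwartzMap` or build it), so is its Fourier transform, hence `|ψ^ x| (1 + |x|)^A ≤ C_A`
(`SchwartzMap.one_add_le_sup_seminorm_apply` / `SchwartzMap.decay`). Finally `1 + sqrt (x² + y²) ≤ (1 + |x|) (1 + |y|)`.
-/

open MeasureTheory Real Set Filter Topology

set_option autoImplicit false

namespace Pool.Agent.Helper22.AE

private lemma p1_exists_psi : ∃ ψ : ℝ → ℝ, ContDiff ℝ (⊤ : ℕ∞) ψ ∧ HasCompactSupport ψ ∧ (∀ t, 0 ≤ ψ t) ∧
    (∀ t, 1 / 2 < |t| → ψ t = 0) ∧ ∫ t, ψ t = 1 := by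
  let f : ContDiffBump (0 : ℝ) := ⟨1 / 4, 1 / 2, by norm_num, by norm_num⟩
  refine ⟨f.normed volume, f.contDiff_normed, f.hasCompactSupport_normed, f.nonneg_normed, ?_,
    f.integral_normed⟩
  intro t ht
  have h : t ∉ Function.support (f.normed volume) := by
    rw [f.support_normed_eq]
    intro hm
    rw [Metric.mem_ball, Real.dist_eq, sub_zero] at hm
    have : f.rOut = 1 / 2 := rfl
    rw [this] at hm
    linarith
  simpa [Function.mem_support] using h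

private lemma p1_decay (ψ : ℝ → ℝ) (h1 : ContDiff ℝ (⊤ : ℕ∞) ψ) (h2 : HasCompactSupport ψ) (A : ℕ) :
    ∃ C : ℝ, ∀ x : ℝ, ‖∫ t : ℝ, ee (-(x * t)) * (ψ t : ℂ)‖ * (1 + |x|) ^ A ≤ C := by
  have hs : HasCompactSupport (fun t : ℝ => (ψ t : ℂ)) := by
    refine h2.comp_left (g := fun r : ℝ => (r : ℂ)) ?_
    simp
  have hc : ContDiff ℝ (⊤ : ℕ∞) (fun t : ℝ => (ψ t : ℂ)) := Complex.ofRealCLM.contDiff.comp h1
  let g : SchwartzMap ℝ ℂ := hs.toSchwartzMap hc
  have hg : ∀ t, g t = (ψ t : ℂ) := fun t => rfl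
  let F : SchwartzMap ℝ ℂ := SchwartzMap.fourierTransformCLM ℂ g
  have hF : ∀ x : ℝ, F x = ∫ t : ℝ, ee (-(x * t)) * (ψ t : ℂ) := by
    intro x
    have h3 : F x = FourierTransform.fourier (g : ℝ → ℂ) x := rfl
    rw [h3, Real.fourier_real_eq_integral_exp_smul]
    refine integral_congr_ae (Eventually.of_forall fun t => ?_)
    simp only [hg, smul_eq_mul, ee]
    congr 2
    push_cast
    ring
  refine ⟨2 ^ A * (Finset.Iic ((A, 0) : ℕ × ℕ)).sup
    (fun m => SchwartzMap.seminorm ℝ m.1 m.2) F, fun x => ?_⟩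
  have h := SchwartzMap.one_add_le_sup_seminorm_apply (𝕜 := ℝ) (m := (A, 0)) (k := A) (n := 0)
    le_rfl le_rfl F x
  rw [norm_iteratedFDeriv_zero, Real.norm_eq_abs] at h
  rw [← hF x, mul_comm]
  exact h

private lemma p1_prod (ψ : ℝ → ℝ) (x y : ℝ) :
    fhat (fun p => ψ p.1 * ψ p.2) x y =
      (∫ t : ℝ, ee (-(x * t)) * (ψ t : ℂ)) * ∫ t : ℝ, ee (-(y * t)) * (ψ t : ℂ) := by
  unfold fhat
  rw [← integral_prod_mul]
  refine integral_congr_ae (Eventually.of_forall fun p => ?_)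
  simp only [Complex.ofReal_mul]
  rw [show -(x * p.1 + y * p.2) = -(x * p.1) + -(y * p.2) by ring, ee_add]
  ring

theorem exists_bump : ∃ φ : ℝ × ℝ → ℝ, IsBump φ := by
  obtain ⟨ψ, hψ1, hψ2, hψ3, hψ4, hψ5⟩ := p1_exists_psi
  refine ⟨fun p => ψ p.1 * ψ p.2, ⟨?_, ?_, ?_, ?_, ?_⟩⟩
  · have := hψ1.continuous
    fun_prop
  · intro p
    exact mul_nonneg (hψ3 _) (hψ3 _)
  · intro p hp
    by_cases h1 : 1 / 2 < |p.1|
    · simp [hψ4 _ h1]
    · have h2 : 1 / 2 < |p.2| := by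
        by_contra h2
        push Not at h1 h2
        have e1 : p.1 ^ 2 ≤ (1 / 2) ^ 2 := by
          rw [← sq_abs p.1]
          gcongr
        have e2 : p.2 ^ 2 ≤ (1 / 2) ^ 2 := by
          rw [← sq_abs p.2]
          gcongr
        norm_num at e1 e2
        linarith
      simp [hψ4 _ h2]
  · have h := integral_prod_mul (μ := (volume : Measure ℝ)) (ν := (volume : Measure ℝ)) ψ ψ
    rw [hψ5, one_mul] at h
    exact h
  · intro A
    obtain ⟨C, hC⟩ := p1_decay ψ hψ1 hψ2 A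
    refine ⟨C * C, fun x y => ?_⟩
    rw [p1_prod, norm_mul]
    have hsq : sqrt (x ^ 2 + y ^ 2) ≤ |x| + |y| := by
      rw [Real.sqrt_le_left (by positivity)]
      nlinarith [sq_abs x, sq_abs y, mul_nonneg (abs_nonneg x) (abs_nonneg y)]
    have h1 : 1 + sqrt (x ^ 2 + y ^ 2) ≤ (1 + |x|) * (1 + |y|) := by
      nlinarith [mul_nonneg (abs_nonneg x) (abs_nonneg y)]
    have h2 : (1 + sqrt (x ^ 2 + y ^ 2)) ^ A ≤ (1 + |x|) ^ A * (1 + |y|) ^ A := by
      rw [← mul_pow]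
      gcongr
    have hx := hC x
    have hy := hC y
    set a := ‖∫ t : ℝ, ee (-(x * t)) * (ψ t : ℂ)‖
    set b := ‖∫ t : ℝ, ee (-(y * t)) * (ψ t : ℂ)‖
    calc a * b * (1 + sqrt (x ^ 2 + y ^ 2)) ^ A
        ≤ a * b * ((1 + |x|) ^ A * (1 + |y|) ^ A) := by gcongr
      _ = (a * (1 + |x|) ^ A) * (b * (1 + |y|) ^ A) := by ring
      _ ≤ C * C := by
        have hC0 : 0 ≤ C := le_trans (by positivity) hx
        gcongr

/-- trivial bound -/
theorem fhat_le_one {φ : ℝ × ℝ → ℝ} (hφ : IsBump φ) (x y : ℝ) : ‖fhat φ x y‖ ≤ 1 := by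
  unfold fhat
  refine (norm_integral_le_integral_norm _).trans ?_
  have h : ∀ p : ℝ × ℝ, ‖ee (-(x * p.1 + y * p.2)) * (φ p : ℂ)‖ = φ p := by
    intro p
    rw [norm_mul, ee_norm, one_mul, Complex.norm_real, Real.norm_of_nonneg (hφ.nonneg p)]
  simp_rw [h]
  exact hφ.int_one.le

end Pool.Agent.Helper22.AE
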