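import Pool.Agent.Helper22.AE.G5

/-!
# AE-C1: one periodic integration by parts removes the radius of curvature (paper (3.1))

`fd β α` is the derivative of `f α = sin α cos α / (sin² α + β²)`.

PROOF of `polar_ibp`. `E α = ee (-(nk k * gph G k α))` has derivative `2 π i nk k rho G (tk k + α) sin α E α`, because
`d/dα gph G k α = - rho G (tk k + α) sin α` (`gph_hasDerivAt`, `G` is `C²`). `cos α = β k0 cos α + f α sin α` (`1 - β²/(sin²+β²) =
sin²/(sin²+β²)`). So the left side is the first term on the right plus `∫ f sin ρ E = (1/(2πi nk)) ∫ f E' = -(1/(2πi nk)) ∫ f' E`: the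
boundary terms at `±π` vanish as `f (±π) = 0`. (`intervalIntegral.integral_mul_deriv_eq_deriv_mul`.)
`fd_le`: `|f'| ≤ (|cos 2α| (sin²+β²) + 2 sin² cos²)/(sin²+β²)² ≤ 3/(sin²+β²)`.
`k0_int`: `∫_{-π}^{π} β/(sin²+β²) ≤ 20`: on `[0, π/2]`, `sin α ≥ 2α/π`, `∫_0^∞ β/((2α/π)²+β²) dα = π²/4`; by symmetry four such
pieces: total `≤ π² ≤ 20` (`integral_univ_inv_one_add_sq` or `arctan`).
-/

open MeasureTheory Real Set Filter Topology

set_option autoImplicit false

namespace Pool.Agent.Helper22.AE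

/-- derivative of `sin α cos α / (sin² α + β²)` -/
noncomputable def fd (β α : ℝ) : ℝ :=
  (cos (2 * α) * (sin α ^ 2 + β ^ 2) - 2 * sin α ^ 2 * cos α ^ 2) / (sin α ^ 2 + β ^ 2) ^ 2

theorem gph_hasDerivAt {G : ℝ → ℝ} (hG : ContDiff ℝ 2 G) (k : ℤ × ℤ) (α : ℝ) :
    HasDerivAt (gph G k) (-(rho G (tk k + α) * sin α)) α := by
  have hG1 : ContDiff ℝ 1 (deriv G) := by
    have h : ContDiff ℝ (1 + 1) G := by
      have e : (1 + 1 : WithTop ℕ∞) = 2 := by norm_num
      rw [e]
      exact hG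
    exact (contDiff_succ_iff_deriv.1 h).2.2
  have hd : Differentiable ℝ G := hG.differentiable (by norm_num)
  have hd1 : Differentiable ℝ (deriv G) := hG1.differentiable (by norm_num)
  have h1 : HasDerivAt (fun x => G (tk k + x)) (deriv G (tk k + α)) α :=
    (hd (tk k + α)).hasDerivAt.comp_const_add (tk k) α
  have h2 : HasDerivAt (fun x => deriv G (tk k + x)) (deriv (deriv G) (tk k + α)) α :=
    (hd1 (tk k + α)).hasDerivAt.comp_const_add (tk k) α
  have h3 := (h1.mul (hasDerivAt_cos α)).sub (h2.mul (hasDerivAt_sin α))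
  unfold gph rho
  refine h3.congr_deriv ?_
  ring

private theorem den_pos {β : ℝ} (hβ : 0 < β) (α : ℝ) : 0 < sin α ^ 2 + β ^ 2 := by positivity

theorem fd_le {β : ℝ} (hβ : 0 < β) (α : ℝ) : |fd β α| ≤ 3 / β * k0 β α := by
  have hd := den_pos hβ α
  have e : 3 / β * k0 β α = 3 * (sin α ^ 2 + β ^ 2) / (sin α ^ 2 + β ^ 2) ^ 2 := by
    unfold k0
    field_simp
  rw [e]
  unfold fd
  rw [abs_div, abs_of_pos (pow_pos hd 2)]
  apply div_le_div_of_nonneg_right _ (pow_pos hd 2).le
  have h1 : |cos (2 * α)| ≤ 1 := abs_cos_le_one _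
  have h2 : cos α ^ 2 ≤ 1 := by
    have := sin_sq_add_cos_sq α
    nlinarith [sq_nonneg (sin α)]
  have h3 : 0 ≤ sin α ^ 2 := sq_nonneg _
  have h4 : |cos (2 * α) * (sin α ^ 2 + β ^ 2)| ≤ sin α ^ 2 + β ^ 2 := by
    rw [abs_mul, abs_of_pos hd]
    exact mul_le_of_le_one_left hd.le h1
  have h5 : |2 * sin α ^ 2 * cos α ^ 2| ≤ 2 * sin α ^ 2 := by
    rw [abs_of_nonneg (by positivity)]
    nlinarith
  have h6 := abs_sub (cos (2 * α) * (sin α ^ 2 + β ^ 2)) (2 * sin α ^ 2 * cos α ^ 2)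
  nlinarith [sq_nonneg β]

private theorem k0_cont {β : ℝ} (hβ : 0 < β) : Continuous (fun α => k0 β α) := by
  unfold k0
  exact continuous_const.div (by fun_prop) (fun α => (den_pos hβ α).ne')

private theorem k0_per (β : ℝ) : Function.Periodic (fun α => k0 β α) π := by
  intro α
  show β / (sin (α + π) ^ 2 + β ^ 2) = β / (sin α ^ 2 + β ^ 2)
  rw [sin_add_pi, neg_sq]

private theorem maj_deriv {β : ℝ} (hβ : 0 < β) (α : ℝ) :
    HasDerivAt (fun x => π / 2 * arctan (2 / (π * β) * x)) (β / ((2 / π * α) ^ 2 + β ^ 2)) α := by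
  have hπ := pi_pos
  have h1 : HasDerivAt (fun x : ℝ => 2 / (π * β) * x) (2 / (π * β)) α := by
    simpa using (hasDerivAt_id α).const_mul (2 / (π * β))
  have h2 := (h1.arctan).const_mul (π / 2)
  refine h2.congr_deriv ?_
  have h3 : (0 : ℝ) < 1 + (2 / (π * β) * α) ^ 2 := by positivity
  have h4 : (0 : ℝ) < (2 / π * α) ^ 2 + β ^ 2 := by positivity
  have e : (2 / π * α) ^ 2 + β ^ 2 = β ^ 2 * (1 + (2 / (π * β) * α) ^ 2) := by
    field_simp
    ring
  rw [e]
  field_simp

theorem k0_int {β : ℝ} (hβ : 0 < β) : ∫ α in (-π)..π, k0 β α ≤ 20 := by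
  have hπ := pi_pos
  have hc := k0_cont hβ
  have hi : ∀ a b : ℝ, IntervalIntegrable (fun α => k0 β α) volume a b := fun a b => hc.intervalIntegrable a b
  have e1 : ∫ α in (-π)..π, k0 β α = (∫ α in (-π)..0, k0 β α) + ∫ α in (0 : ℝ)..π, k0 β α :=
    (intervalIntegral.integral_add_adjacent_intervals (hi _ _) (hi _ _)).symm
  have e2 : ∫ α in (-π)..0, k0 β α = ∫ α in (-(π / 2))..(π / 2), k0 β α := by
    have h := (k0_per β).intervalIntegral_add_eq (-π) (-(π / 2))
    have h1 : -π + π = 0 := by ring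
    have h2 : -(π / 2) + π = π / 2 := by ring
    rw [h1, h2] at h
    exact h
  have e3 : ∫ α in (0 : ℝ)..π, k0 β α = ∫ α in (-(π / 2))..(π / 2), k0 β α := by
    have h := (k0_per β).intervalIntegral_add_eq 0 (-(π / 2))
    have h2 : -(π / 2) + π = π / 2 := by ring
    rw [zero_add, h2] at h
    exact h
  have hmc : Continuous (fun α : ℝ => β / ((2 / π * α) ^ 2 + β ^ 2)) := by
    refine continuous_const.div (by fun_prop) (fun α => ?_)
    positivity
  have e4 : ∫ α in (-(π / 2))..(π / 2), k0 β α ≤ ∫ α in (-(π / 2))..(π / 2), β / ((2 / π * α) ^ 2 + β ^ 2) := by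
    apply intervalIntegral.integral_mono_on (by linarith) (hi _ _) (hmc.intervalIntegrable _ _)
    intro α hα
    unfold k0
    apply div_le_div_of_nonneg_left hβ.le (by positivity)
    have h1 : |2 / π * α| ≤ |sin α| := by
      rcases le_total 0 α with h | h
      · rw [abs_of_nonneg (by positivity)]
        exact (mul_le_sin h hα.2).trans (le_abs_self _)
      · have h2 := mul_le_sin (neg_nonneg.2 h) (by linarith [hα.1] : -α ≤ π / 2)
        rw [sin_neg] at h2
        have h3 : |2 / π * α| = 2 / π * -α := by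
          rw [abs_of_nonpos (mul_nonpos_of_nonneg_of_nonpos (by positivity) h)]
          ring
        rw [h3]
        exact h2.trans (neg_le_abs _)
    have h2 := sq_le_sq.2 h1
    linarith
  have e5 : ∫ α in (-(π / 2))..(π / 2), β / ((2 / π * α) ^ 2 + β ^ 2) ≤ π ^ 2 / 2 := by
    rw [intervalIntegral.integral_eq_sub_of_hasDerivAt (fun α _ => maj_deriv hβ α) (hmc.intervalIntegrable _ _)]
    have h1 := arctan_lt_pi_div_two (2 / (π * β) * (π / 2))
    have h2 := neg_pi_div_two_lt_arctan (2 / (π * β) * -(π / 2))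
    nlinarith
  have h6 : π ^ 2 ≤ 10 := by
    have h7 : π < 3.15 := pi_lt_d2
    nlinarith
  rw [e1, e2, e3]
  linarith

private theorem f_hasDerivAt {β : ℝ} (hβ : 0 < β) (α : ℝ) :
    HasDerivAt (fun x => sin x * cos x / (sin x ^ 2 + β ^ 2)) (fd β α) α := by
  have hd := den_pos hβ α
  have h1 := ((hasDerivAt_sin α).mul (hasDerivAt_cos α)).div (((hasDerivAt_sin α).pow 2).add_const (β ^ 2)) hd.ne'
  refine h1.congr_deriv ?_
  simp only [Pi.mul_apply, Pi.pow_apply]
  unfold fd
  rw [cos_two_mul']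
  push_cast
  ring

theorem polar_ibp {G : ℝ → ℝ} (hG : IsSupp G) {k : ℤ × ℤ} (hk : k ≠ 0) {β : ℝ} (hβ : 0 < β) :
    ∫ α in (-π)..π, ((cos α * rho G (tk k + α) : ℝ) : ℂ) * ee (-(nk k * gph G k α)) =
      (∫ α in (-π)..π, ((β * k0 β α * cos α * rho G (tk k + α) : ℝ) : ℂ) * ee (-(nk k * gph G k α))) -
      1 / (2 * π * Complex.I * (nk k : ℂ)) * ∫ α in (-π)..π, ((fd β α : ℝ) : ℂ) * ee (-(nk k * gph G k α)) := by
  have hn := nk_pos hk
  have hn' : (nk k : ℂ) ≠ 0 := by exact_mod_cast hn.ne'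
  have hπ' : (π : ℂ) ≠ 0 := by exact_mod_cast pi_pos.ne'
  have hI := Complex.I_ne_zero
  have hG2 := hG.smooth
  have hGc : Continuous G := hG2.continuous
  have hG1 : ContDiff ℝ 1 (deriv G) := by
    have h : ContDiff ℝ (1 + 1) G := by
      have e : (1 + 1 : WithTop ℕ∞) = 2 := by norm_num
      rw [e]
      exact hG2
    exact (contDiff_succ_iff_deriv.1 h).2.2
  have hG1c : Continuous (deriv G) := hG1.continuous
  have hG2c : Continuous (deriv (deriv G)) := hG1.continuous_deriv (by norm_num)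
  have hrc : Continuous (fun α => rho G (tk k + α)) := by
    unfold rho
    exact (hGc.comp (by fun_prop)).add (hG2c.comp (by fun_prop))
  have hgc : Continuous (fun α => gph G k α) := by
    unfold gph
    exact ((hGc.comp (by fun_prop)).mul continuous_cos).sub ((hG1c.comp (by fun_prop)).mul continuous_sin)
  have hEc : Continuous (fun α => ee (-(nk k * gph G k α))) := ee_cont.comp (by fun_prop)
  have hkc := k0_cont hβ
  have hfdc : Continuous (fun α => fd β α) := by
    unfold fd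
    exact Continuous.div (by fun_prop) (by fun_prop) (fun α => (pow_pos (den_pos hβ α) 2).ne')
  -- the derivative of `E`
  have hE : ∀ α, HasDerivAt (fun x => ee (-(nk k * gph G k x)))
      (2 * π * Complex.I * (nk k : ℂ) * (((rho G (tk k + α) * sin α : ℝ) : ℂ) * ee (-(nk k * gph G k α)))) α := by
    intro α
    have h1 := ((gph_hasDerivAt hG2 k α).const_mul (nk k)).neg
    have h2 := (ee_hasDerivAt (-(nk k * gph G k α))).scomp α h1
    refine h2.congr_deriv ?_
    rw [Complex.real_smul]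
    push_cast
    ring
  have hf : ∀ α, HasDerivAt (fun x : ℝ => ((sin x * cos x / (sin x ^ 2 + β ^ 2) : ℝ) : ℂ)) ((fd β α : ℝ) : ℂ) α :=
    fun α => (f_hasDerivAt hβ α).ofReal_comp
  have hE'c : Continuous (fun α => 2 * π * Complex.I * (nk k : ℂ) *
      (((rho G (tk k + α) * sin α : ℝ) : ℂ) * ee (-(nk k * gph G k α)))) := by
    refine continuous_const.mul (Continuous.mul ?_ hEc)
    exact Complex.continuous_ofReal.comp (hrc.mul continuous_sin)
  have hibp := intervalIntegral.integral_mul_deriv_eq_deriv_mul (a := -π) (b := π)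
    (fun α _ => hf α) (fun α _ => hE α)
    ((Complex.continuous_ofReal.comp hfdc).intervalIntegrable _ _) (hE'c.intervalIntegrable _ _)
  have hb1 : (((sin π * cos π / (sin π ^ 2 + β ^ 2) : ℝ)) : ℂ) = 0 := by
    rw [sin_pi]
    simp
  have hb2 : (((sin (-π) * cos (-π) / (sin (-π) ^ 2 + β ^ 2) : ℝ)) : ℂ) = 0 := by
    rw [sin_neg, sin_pi]
    simp
  rw [hb1, hb2, zero_mul, zero_mul, sub_zero, zero_sub] at hibp
  -- the splitting
  have hsplit : ∀ α, ((cos α * rho G (tk k + α) : ℝ) : ℂ) * ee (-(nk k * gph G k α)) =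
      ((β * k0 β α * cos α * rho G (tk k + α) : ℝ) : ℂ) * ee (-(nk k * gph G k α)) +
      1 / (2 * π * Complex.I * (nk k : ℂ)) * ((((sin α * cos α / (sin α ^ 2 + β ^ 2) : ℝ)) : ℂ) *
        (2 * π * Complex.I * (nk k : ℂ) * (((rho G (tk k + α) * sin α : ℝ) : ℂ) * ee (-(nk k * gph G k α))))) := by
    intro α
    have hd := den_pos hβ α
    have e1 : 1 / (2 * π * Complex.I * (nk k : ℂ)) * ((((sin α * cos α / (sin α ^ 2 + β ^ 2) : ℝ)) : ℂ) *
        (2 * π * Complex.I * (nk k : ℂ) * (((rho G (tk k + α) * sin α : ℝ) : ℂ) * ee (-(nk k * gph G k α))))) =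
        ((sin α * cos α / (sin α ^ 2 + β ^ 2) * (rho G (tk k + α) * sin α) : ℝ) : ℂ) * ee (-(nk k * gph G k α)) := by
      have hne : 2 * (π : ℂ) * Complex.I * (nk k : ℂ) ≠ 0 :=
        mul_ne_zero (mul_ne_zero (mul_ne_zero two_ne_zero hπ') hI) hn'
      rw [Complex.ofReal_mul (sin α * cos α / (sin α ^ 2 + β ^ 2))]
      generalize (((sin α * cos α / (sin α ^ 2 + β ^ 2) : ℝ)) : ℂ) = A
      generalize (((rho G (tk k + α) * sin α : ℝ)) : ℂ) = B
      generalize ee (-(nk k * gph G k α)) = D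
      generalize 2 * (π : ℂ) * Complex.I * (nk k : ℂ) = M at hne
      field_simp
    rw [e1, ← add_mul, ← Complex.ofReal_add]
    congr 2
    unfold k0
    field_simp
    ring
  have hi1 : IntervalIntegrable (fun α => ((β * k0 β α * cos α * rho G (tk k + α) : ℝ) : ℂ) * ee (-(nk k * gph G k α)))
      volume (-π) π := by
    apply Continuous.intervalIntegrable
    refine Continuous.mul ?_ hEc
    exact Complex.continuous_ofReal.comp (((continuous_const.mul hkc).mul continuous_cos).mul hrc)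
  have hfc : Continuous (fun x : ℝ => ((sin x * cos x / (sin x ^ 2 + β ^ 2) : ℝ) : ℂ)) :=
    continuous_iff_continuousAt.2 fun α => (hf α).continuousAt
  have hi2 : IntervalIntegrable (fun α => 1 / (2 * π * Complex.I * (nk k : ℂ)) * ((((sin α * cos α / (sin α ^ 2 + β ^ 2) : ℝ)) : ℂ) *
        (2 * π * Complex.I * (nk k : ℂ) * (((rho G (tk k + α) * sin α : ℝ) : ℂ) * ee (-(nk k * gph G k α))))))
      volume (-π) π := by
    apply Continuous.intervalIntegrable
    exact continuous_const.mul (hfc.mul hE'c)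
  rw [intervalIntegral.integral_congr (g := fun α => ((β * k0 β α * cos α * rho G (tk k + α) : ℝ) : ℂ) * ee (-(nk k * gph G k α)) +
      1 / (2 * π * Complex.I * (nk k : ℂ)) * ((((sin α * cos α / (sin α ^ 2 + β ^ 2) : ℝ)) : ℂ) *
        (2 * π * Complex.I * (nk k : ℂ) * (((rho G (tk k + α) * sin α : ℝ) : ℂ) * ee (-(nk k * gph G k α)))))) (fun α _ => hsplit α),
    intervalIntegral.integral_add hi1 hi2, intervalIntegral.integral_const_mul, hibp, mul_neg, ← sub_eq_add_neg]

end Pool.Agent.Helper22.AE
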