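import Pool.Agent.Helper22.AE.F1

/-!
# AE-F2: the random series

`Hx H₀ s x θ = H₀ θ + ∑' l, s l ((x l).1 cos(lθ) + (x l).2 sin(lθ))`, `x l ∈ I × I`, `∑ l² |s l| < ∞`.

`Hx_smooth`: `contDiff_tsum` with `v k l = 2 |s l| l^k` (`k ≤ 2`; `Summable`: `|s l| l^k ≤ l² |s l|` for `l ≥ 1`, one term `l = 0`); derivatives of
`cos (l ·)`: `iteratedFDeriv`/`iteratedDeriv` bounds `l^k`.
`Hx_cont`, `rho_cont`: jointly continuous in `(x, θ)` (`continuous_tsum` with the bound `2 |s l|`, resp. for the second derivative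
`deriv (deriv (Hx ..)) θ = deriv (deriv H₀) θ - ∑' l, l² s l (...)` (`hasDerivAt_tsum` / `deriv_tsum` twice)).
`Hx_cmb`: for `x = cmb L h t`: `Hx H₀ s x = Hw (Hx H₀ s' t') w`-type identity: the first `L` terms are the trigonometric polynomial, the
tail `T θ = ∑' l, s (l + L) ((t l).1 cos((l+L)θ) + ...)` is `C²` and periodic; `H₁ = H₀ + T` (`Summable.sum_add_tsum_nat_add`).
-/

open MeasureTheory Real Set Filter Topology unitInterval

set_option autoImplicit false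

namespace Pool.Agent.Helper22.AE

/-- the random support function -/
noncomputable def Hx (H₀ : ℝ → ℝ) (s : ℕ → ℝ) (x : ℕ → I × I) (θ : ℝ) : ℝ :=
  H₀ θ + ∑' l : ℕ, s l * (((x l).1 : ℝ) * cos (l * θ) + ((x l).2 : ℝ) * sin (l * θ))

/-! ### trigonometric series -/

private lemma ab2 (l : ℕ) (a b : ℝ) : |(l : ℝ) * -((l : ℝ) * a)| + |-((l : ℝ) * ((l : ℝ) * b))| =
    (l : ℝ) ^ 2 * |a| + (l : ℝ) ^ 2 * |b| := by
  rw [mul_neg, abs_neg, abs_neg, abs_mul, abs_mul, abs_mul, abs_mul, Nat.abs_cast]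
  ring

/-- the terms -/
private noncomputable def tm (α β : ℕ → ℝ) (l : ℕ) (θ : ℝ) : ℝ := α l * cos (l * θ) + β l * sin (l * θ)

private lemma tm_le (α β : ℕ → ℝ) (l : ℕ) (θ : ℝ) : ‖tm α β l θ‖ ≤ |α l| + |β l| := by
  unfold tm
  rw [Real.norm_eq_abs]
  refine (abs_add_le _ _).trans ?_
  rw [abs_mul, abs_mul]
  have h1 := mul_le_mul_of_nonneg_left (abs_cos_le_one (l * θ)) (abs_nonneg (α l))
  have h2 := mul_le_mul_of_nonneg_left (abs_sin_le_one (l * θ)) (abs_nonneg (β l))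
  linarith

private lemma tm_deriv (α β : ℕ → ℝ) (l : ℕ) (θ : ℝ) :
    HasDerivAt (tm α β l) (tm (fun l => l * β l) (fun l => -(l * α l)) l θ) θ := by
  have h0 : HasDerivAt (fun θ : ℝ => (l : ℝ) * θ) (l : ℝ) θ := by
    simpa using (hasDerivAt_id θ).const_mul (l : ℝ)
  have h1 := (h0.cos.const_mul (α l)).add (h0.sin.const_mul (β l))
  refine h1.congr_deriv ?_
  unfold tm
  ring

/-- the sum of the series -/
private noncomputable def ts (α β : ℕ → ℝ) (θ : ℝ) : ℝ := ∑' l : ℕ, tm α β l θ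

private lemma ts_deriv {α β : ℕ → ℝ} (h0 : Summable fun l => |α l| + |β l|)
    (h1 : Summable fun l : ℕ => |(l : ℝ) * β l| + |-((l : ℝ) * α l)|) (θ : ℝ) :
    HasDerivAt (ts α β) (ts (fun l => l * β l) (fun l => -(l * α l)) θ) θ := by
  unfold ts
  exact hasDerivAt_tsum (y₀ := 0) h1 (fun l y => tm_deriv α β l y)
    (fun l y => tm_le (fun l => l * β l) (fun l => -(l * α l)) l y) (Summable.of_norm_bounded h0 fun l => tm_le α β l 0) θ

private lemma ts_cont {α β : ℕ → ℝ} (h0 : Summable fun l => |α l| + |β l|) : Continuous (ts α β) := by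
  unfold ts
  refine continuous_tsum (fun l => ?_) h0 (fun l y => tm_le α β l y)
  unfold tm
  fun_prop

section series
variable {s : ℕ → ℝ} (hs : Summable (fun l : ℕ => (l : ℝ) ^ 2 * |s l|))
include hs

private lemma sum1 : Summable (fun l : ℕ => (l : ℝ) * |s l|) := by
  refine Summable.of_nonneg_of_le (fun l => by positivity) (fun l => ?_) hs
  apply mul_le_mul_of_nonneg_right _ (abs_nonneg _)
  rcases Nat.eq_zero_or_pos l with rfl | h
  · simp
  · have : (1 : ℝ) ≤ l := by exact_mod_cast h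
    nlinarith

private lemma sum0 : Summable (fun l : ℕ => |s l|) := by
  rw [← summable_nat_add_iff 1]
  refine Summable.of_nonneg_of_le (fun l => abs_nonneg _) (fun l => ?_) ((summable_nat_add_iff 1).2 hs)
  have h1 : (1 : ℝ) ≤ (((l + 1 : ℕ) : ℝ)) ^ 2 := by
    have : (1 : ℝ) ≤ ((l + 1 : ℕ) : ℝ) := by push_cast; linarith [(Nat.cast_nonneg l : (0 : ℝ) ≤ l)]
    nlinarith
  have h2 := mul_le_mul_of_nonneg_right h1 (abs_nonneg (s (l + 1)))
  linarith

end series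

/-- the coefficients -/
private noncomputable def ca (s : ℕ → ℝ) (x : ℕ → I × I) (l : ℕ) : ℝ := s l * ((x l).1 : ℝ)
private noncomputable def cb (s : ℕ → ℝ) (x : ℕ → I × I) (l : ℕ) : ℝ := s l * ((x l).2 : ℝ)

private lemma ca_le (s : ℕ → ℝ) (x : ℕ → I × I) (l : ℕ) : |ca s x l| ≤ |s l| := by
  unfold ca
  rw [abs_mul, abs_of_nonneg (x l).1.2.1]
  have := mul_le_mul_of_nonneg_left (x l).1.2.2 (abs_nonneg (s l))
  linarith

private lemma cb_le (s : ℕ → ℝ) (x : ℕ → I × I) (l : ℕ) : |cb s x l| ≤ |s l| := by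
  unfold cb
  rw [abs_mul, abs_of_nonneg (x l).2.2.1]
  have := mul_le_mul_of_nonneg_left (x l).2.2.2 (abs_nonneg (s l))
  linarith

private lemma Hx_eq (H₀ : ℝ → ℝ) (s : ℕ → ℝ) (x : ℕ → I × I) (θ : ℝ) :
    Hx H₀ s x θ = H₀ θ + ts (ca s x) (cb s x) θ := by
  unfold Hx ts tm ca cb
  congr 1
  apply tsum_congr
  intro l
  ring

section series
variable {s : ℕ → ℝ} (hs : Summable (fun l : ℕ => (l : ℝ) ^ 2 * |s l|)) (x : ℕ → I × I)
include hs

private lemma S0 : Summable fun l => |ca s x l| + |cb s x l| :=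
  Summable.of_nonneg_of_le (fun l => by positivity) (fun l => add_le_add (ca_le s x l) (cb_le s x l))
    ((sum0 hs).add (sum0 hs))

private lemma S1 : Summable fun l : ℕ => |(l : ℝ) * cb s x l| + |-((l : ℝ) * ca s x l)| := by
  refine Summable.of_nonneg_of_le (fun l => by positivity) (fun l => ?_) ((sum1 hs).add (sum1 hs))
  rw [abs_neg, abs_mul, abs_mul, abs_of_nonneg (Nat.cast_nonneg l : (0 : ℝ) ≤ l)]
  exact add_le_add (mul_le_mul_of_nonneg_left (cb_le s x l) (Nat.cast_nonneg l))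
    (mul_le_mul_of_nonneg_left (ca_le s x l) (Nat.cast_nonneg l))

private lemma S2 : Summable fun l : ℕ => |(l : ℝ) * -((l : ℝ) * ca s x l)| + |-((l : ℝ) * ((l : ℝ) * cb s x l))| := by
  refine Summable.of_nonneg_of_le (fun l => by positivity) (fun l => ?_) (hs.add hs)
  rw [ab2]
  exact add_le_add (mul_le_mul_of_nonneg_left (ca_le s x l) (sq_nonneg _))
    (mul_le_mul_of_nonneg_left (cb_le s x l) (sq_nonneg _))

private lemma D1 (θ : ℝ) : HasDerivAt (ts (ca s x) (cb s x))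
    (ts (fun l => l * cb s x l) (fun l => -(l * ca s x l)) θ) θ :=
  ts_deriv (S0 hs x) (S1 hs x) θ

private lemma D2 (θ : ℝ) : HasDerivAt (ts (fun l => l * cb s x l) (fun l => -(l * ca s x l)))
    (ts (fun l => l * -(l * ca s x l)) (fun l => -(l * (l * cb s x l))) θ) θ :=
  ts_deriv (S1 hs x) (S2 hs x) θ

private lemma ts_smooth : ContDiff ℝ 2 (ts (ca s x) (cb s x)) := by
  have h1 : deriv (ts (ca s x) (cb s x)) = ts (fun l => l * cb s x l) (fun l => -(l * ca s x l)) :=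
    funext fun θ => (D1 hs x θ).deriv
  have h2 : deriv (ts (fun l => l * cb s x l) (fun l => -(l * ca s x l))) =
      ts (fun l => l * -(l * ca s x l)) (fun l => -(l * (l * cb s x l))) :=
    funext fun θ => (D2 hs x θ).deriv
  have e : (2 : WithTop ℕ∞) = 1 + 1 := by norm_num
  rw [e, contDiff_succ_iff_deriv]
  refine ⟨fun θ => (D1 hs x θ).differentiableAt, by simp, ?_⟩
  rw [h1, contDiff_one_iff_deriv]
  refine ⟨fun θ => (D2 hs x θ).differentiableAt, ?_⟩
  rw [h2]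
  exact ts_cont (S2 hs x)

end series

theorem Hx_smooth {H₀ : ℝ → ℝ} (h0 : ContDiff ℝ 2 H₀) {s : ℕ → ℝ} (hs : Summable (fun l : ℕ => (l : ℝ) ^ 2 * |s l|))
    (x : ℕ → I × I) : ContDiff ℝ 2 (Hx H₀ s x) := by
  have h : Hx H₀ s x = fun θ => H₀ θ + ts (ca s x) (cb s x) θ := funext fun θ => Hx_eq H₀ s x θ
  rw [h]
  exact h0.add (ts_smooth hs x)

theorem Hx_per {H₀ : ℝ → ℝ} (hp : Function.Periodic H₀ (2 * π)) (s : ℕ → ℝ) (x : ℕ → I × I) :
    Function.Periodic (Hx H₀ s x) (2 * π) := by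
  intro θ
  unfold Hx
  rw [hp θ]
  congr 1
  apply tsum_congr
  intro l
  have e : (l : ℝ) * (θ + 2 * π) = l * θ + l * (2 * π) := by ring
  rw [e, Real.cos_add_nat_mul_two_pi, Real.sin_add_nat_mul_two_pi]

theorem Hx_cont {H₀ : ℝ → ℝ} (h0 : ContDiff ℝ 2 H₀) {s : ℕ → ℝ} (hs : Summable (fun l : ℕ => (l : ℝ) ^ 2 * |s l|)) :
    Continuous (fun q : (ℕ → I × I) × ℝ => Hx H₀ s q.1 q.2) := by
  simp_rw [Hx_eq]
  unfold ts
  refine (h0.continuous.comp continuous_snd).add ?_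
  refine continuous_tsum (fun l => ?_) ((sum0 hs).add (sum0 hs)) (fun l q => ?_)
  · unfold tm ca cb
    fun_prop
  · exact (tm_le _ _ l q.2).trans (add_le_add (ca_le s q.1 l) (cb_le s q.1 l))

theorem Hx_rho_cont {H₀ : ℝ → ℝ} (h0 : ContDiff ℝ 2 H₀) {s : ℕ → ℝ}
    (hs : Summable (fun l : ℕ => (l : ℝ) ^ 2 * |s l|)) :
    Continuous (fun q : (ℕ → I × I) × ℝ => Hx H₀ s q.1 q.2 + deriv (deriv (Hx H₀ s q.1)) q.2) := by
  refine (Hx_cont h0 hs).add ?_
  have e : (2 : WithTop ℕ∞) = 1 + 1 := by norm_num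
  have h0' := h0
  rw [e, contDiff_succ_iff_deriv] at h0'
  obtain ⟨hd0, -, hd1⟩ := h0'
  rw [contDiff_one_iff_deriv] at hd1
  obtain ⟨hd1, hc2⟩ := hd1
  have key : ∀ (x : ℕ → I × I) (θ : ℝ), deriv (deriv (Hx H₀ s x)) θ =
      deriv (deriv H₀) θ + ts (fun l => l * -(l * ca s x l)) (fun l => -(l * (l * cb s x l))) θ := by
    intro x θ
    have h1 : deriv (Hx H₀ s x) = fun θ => deriv H₀ θ + ts (fun l => l * cb s x l) (fun l => -(l * ca s x l)) θ := by
      funext θ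
      have h : Hx H₀ s x = fun θ => H₀ θ + ts (ca s x) (cb s x) θ := funext fun θ => Hx_eq H₀ s x θ
      rw [h]
      exact ((hd0 θ).hasDerivAt.add (D1 hs x θ)).deriv
    rw [h1]
    exact ((hd1 θ).hasDerivAt.add (D2 hs x θ)).deriv
  simp_rw [key]
  refine (hc2.comp continuous_snd).add ?_
  unfold ts
  refine continuous_tsum (fun l => ?_) (hs.add hs) (fun l q => ?_)
  · unfold tm ca cb
    fun_prop
  · refine (tm_le _ _ l q.2).trans ?_
    rw [ab2]
    exact add_le_add (mul_le_mul_of_nonneg_left (ca_le s q.1 l) (sq_nonneg _))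
      (mul_le_mul_of_nonneg_left (cb_le s q.1 l) (sq_nonneg _))

theorem Hx_cmb {H₀ : ℝ → ℝ} (h0 : ContDiff ℝ 2 H₀) (hp : Function.Periodic H₀ (2 * π)) {s : ℕ → ℝ}
    (hs : Summable (fun l : ℕ => (l : ℝ) ^ 2 * |s l|)) (L : ℕ) (t : ℕ → I × I) :
    ∃ H₁ : ℝ → ℝ, ContDiff ℝ 2 H₁ ∧ Function.Periodic H₁ (2 * π) ∧ ∀ h : Fin L → I × I,
      Hx H₀ s (cmb L h t) = Hw H₁ (fun l : Fin L => s l * ((h l).1 : ℝ), fun l : Fin L => s l * ((h l).2 : ℝ)) := by
  classical
  set s' : ℕ → ℝ := fun l => if l < L then 0 else s l with hs'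
  have hs2 : Summable (fun l : ℕ => (l : ℝ) ^ 2 * |s' l|) := by
    refine Summable.of_nonneg_of_le (fun l => by positivity) (fun l => ?_) hs
    apply mul_le_mul_of_nonneg_left _ (sq_nonneg _)
    simp only [hs']
    split_ifs
    · simp
    · exact le_rfl
  set x₀ : ℕ → I × I := cmb L (fun _ => (0, 0)) t with hx₀
  refine ⟨Hx H₀ s' x₀, Hx_smooth h0 hs2 x₀, Hx_per hp s' x₀, fun h => ?_⟩
  funext θ
  unfold Hw Hx
  rw [add_assoc]
  congr 1
  set A : ℕ → ℝ := fun l => s l * (((cmb L h t l).1 : ℝ) * cos (l * θ) + ((cmb L h t l).2 : ℝ) * sin (l * θ)) with hA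
  set B : ℕ → ℝ := fun l => s' l * (((x₀ l).1 : ℝ) * cos (l * θ) + ((x₀ l).2 : ℝ) * sin (l * θ)) with hB
  set C : ℕ → ℝ := fun l => if l < L then A l else 0 with hC
  have hAB : ∀ l, A l = B l + C l := by
    intro l
    simp only [hA, hB, hC, hs', hx₀, cmb]
    by_cases hl : l < L
    · simp [hl]
    · simp [hl]
  have hBs : Summable B := by
    refine Summable.of_norm_bounded (S0 hs2 x₀) fun l => ?_
    have := tm_le (ca s' x₀) (cb s' x₀) l θ
    have e : B l = tm (ca s' x₀) (cb s' x₀) l θ := by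
      simp only [hB, tm, ca, cb]
      ring
    rwa [e]
  have hC0 : ∀ l ∉ Finset.range L, C l = 0 := by
    intro l hl
    rw [Finset.mem_range] at hl
    simp only [hC]
    rw [if_neg hl]
  have hCs : Summable C := summable_of_ne_finset_zero hC0
  rw [tsum_congr hAB, hBs.tsum_add hCs, tsum_eq_sum hC0, Finset.sum_range]
  congr 1
  apply Finset.sum_congr rfl
  intro l _
  simp only [hC, hA, cmb]
  simp only [l.2, if_true, dif_pos]
  ring

end Pool.Agent.Helper22.AE
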