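import Pool.Agent.Helper22.AE.C4
import Pool.Agent.Helper22.AE.G6
import Pool.Agent.Helper22.AE.P1

/-!
# AE-C5: the two sums of `vk_bound` in terms of sums with deterministic weights (paper (3.3))

PROOF. `G = R Hw + σ δ`. `gph G k α = R gph (Hw) k α + σ δ cos α` (`gph_affine`), `rho G = R rho (Hw) + σ δ` (`rho_affine`), and `rho (Hw)` is
`rho H₀ + ∑_l (1 - l²)(w.1 l cos(lθ) + w.2 l sin(lθ))` (`rho_Hw`), at `θ = tk k + α`. Put
`q α k = (2^n / nk k) fhat φ (δ k.1) (δ k.2) ee (-(nk k σ δ cos α))` for `k ∈ blk n` (norm `≤ 1`: `nk k ≥ 2^n`, `fhat_le_one`), zero otherwise.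
Then `2^n ∑ (fhat/nk) rho G E = R (C₀ Sb[q rho H₀ / C₀] + ∑_l (1-l²)(w.1 l Sb[q cos(l(tk+α))] + w.2 l Sb[q sin(l(tk+α))])) + σ δ Sb[q]`
(`C₀ ≥ |rho H₀|` from `gph_bdd`), and `|σ δ| ≤ 1 ≤ R`; `4^n ∑ (fhat/nk²) E = Sb[q (2^n/nk)]`. `nT = 2L + 3`. All weights are continuous in `α`
(`rho H₀` is continuous since `H₀` is `C²`).
-/

open MeasureTheory Real Set Filter Topology

set_option autoImplicit false

namespace Pool.Agent.Helper22.AE

private lemma h35_rho_cont {H : ℝ → ℝ} (hH : ContDiff ℝ 2 H) : Continuous (rho H) := by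
  have h1 : ContDiff ℝ 1 (deriv H) := by
    have h := (contDiff_succ_iff_deriv (n := 1) (f := H)).1 (by
      rw [one_add_one_eq_two]; exact hH)
    exact h.2.2
  have h2 : Continuous (deriv (deriv H)) := h1.continuous_deriv (le_refl _)
  exact hH.continuous.add h2

open Classical in
/-- the common weight -/
private noncomputable def h35q (φ : ℝ × ℝ → ℝ) (n : ℕ) (δ σ α : ℝ) (k : ℤ × ℤ) : ℂ :=
  if k ∈ blk n then ((2 ^ n / nk k : ℝ) : ℂ) * fhat φ (δ * k.1) (δ * k.2) * ee (-(nk k * (σ * δ * cos α))) else 0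

open Classical in
/-- the real multipliers -/
private noncomputable def h35m {L : ℕ} (H₀ : ℝ → ℝ) (C₀ : ℝ) (n : ℕ) (x : Fin 3 ⊕ (Fin L ⊕ Fin L)) (α : ℝ)
    (k : ℤ × ℤ) : ℝ :=
  match x with
  | Sum.inl 0 => rho H₀ (tk k + α) / C₀
  | Sum.inl 1 => 1
  | Sum.inl 2 => if k ∈ blk n then 2 ^ n / nk k else 0
  | Sum.inr (Sum.inl l) => cos ((l : ℕ) * (tk k + α))
  | Sum.inr (Sum.inr l) => sin ((l : ℕ) * (tk k + α))

private lemma h35_blk {n : ℕ} {k : ℤ × ℤ} (hk : k ∈ blk n) : (2 : ℝ) ^ n ≤ nk k := by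
  unfold blk at hk
  rw [Finset.mem_filter] at hk
  exact hk.2.1

private lemma h35_ratio {n : ℕ} {k : ℤ × ℤ} (hk : k ∈ blk n) : 0 ≤ (2 : ℝ) ^ n / nk k ∧ (2 : ℝ) ^ n / nk k ≤ 1 := by
  have h1 := h35_blk hk
  have h2 : (0 : ℝ) < 2 ^ n := by positivity
  exact ⟨div_nonneg h2.le (h2.le.trans h1), (div_le_one (h2.trans_le h1)).2 h1⟩

private lemma h35q_norm {φ : ℝ × ℝ → ℝ} (hφ : IsBump φ) (n : ℕ) (δ σ α : ℝ) (k : ℤ × ℤ) :
    ‖h35q φ n δ σ α k‖ ≤ 1 := by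
  unfold h35q
  split_ifs with hk
  · obtain ⟨h1, h2⟩ := h35_ratio hk
    rw [norm_mul, norm_mul, ee_norm, mul_one, Complex.norm_real, Real.norm_eq_abs, abs_of_nonneg h1]
    exact mul_le_one₀ h2 (norm_nonneg _) (fhat_le_one hφ _ _)
  · rw [norm_zero]; exact zero_le_one

private lemma h35q_cont (φ : ℝ × ℝ → ℝ) (n : ℕ) (δ σ : ℝ) (k : ℤ × ℤ) :
    Continuous (fun α => h35q φ n δ σ α k) := by
  unfold h35q
  split_ifs with hk
  · exact continuous_const.mul (ee_cont.comp (by fun_prop))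
  · exact continuous_const

private lemma h35m_le {L : ℕ} {H₀ : ℝ → ℝ} {C₀ : ℝ} (hC : 0 < C₀) (hb : ∀ θ, |rho H₀ θ| ≤ C₀) (n : ℕ)
    (x : Fin 3 ⊕ (Fin L ⊕ Fin L)) (α : ℝ) (k : ℤ × ℤ) : |h35m H₀ C₀ n x α k| ≤ 1 := by
  rcases x with i | l | l
  · fin_cases i
    · show |rho H₀ (tk k + α) / C₀| ≤ 1
      rw [abs_div, abs_of_pos hC]
      exact (div_le_one hC).2 (hb _)
    · show |(1 : ℝ)| ≤ 1
      rw [abs_one]
    · show |(if k ∈ blk n then 2 ^ n / nk k else 0 : ℝ)| ≤ 1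
      split_ifs with hk
      · obtain ⟨h1, h2⟩ := h35_ratio hk
        rw [abs_of_nonneg h1]
        exact h2
      · rw [abs_zero]; exact zero_le_one
  · exact abs_cos_le_one _
  · exact abs_sin_le_one _

private lemma h35m_cont {L : ℕ} {H₀ : ℝ → ℝ} (h0 : ContDiff ℝ 2 H₀) (C₀ : ℝ) (n : ℕ)
    (x : Fin 3 ⊕ (Fin L ⊕ Fin L)) (k : ℤ × ℤ) : Continuous (fun α => h35m H₀ C₀ n x α k) := by
  rcases x with i | l | l
  · fin_cases i
    · show Continuous (fun α => rho H₀ (tk k + α) / C₀)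
      exact ((h35_rho_cont h0).comp (by fun_prop)).div_const _
    · exact continuous_const
    · exact continuous_const
  · show Continuous (fun α => cos ((l : ℕ) * (tk k + α)))
    fun_prop
  · show Continuous (fun α => sin ((l : ℕ) * (tk k + α)))
    fun_prop

theorem base_types (L : ℕ) {H₀ : ℝ → ℝ} (h0 : ContDiff ℝ 2 H₀) (hp : Function.Periodic H₀ (2 * π)) (Bd : ℝ) :
    ∃ (nT : ℕ) (C : ℝ), 0 ≤ C ∧ ∀ (φ : ℝ × ℝ → ℝ), IsBump φ → ∀ (n : ℕ) (δ σ : ℝ), 0 < δ → δ ≤ 1 → |σ| ≤ 1 →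
      ∃ b : Fin nT → ℝ → ℤ × ℤ → ℂ, (∀ i k, Continuous (fun α => b i α k)) ∧ (∀ i α k, ‖b i α k‖ ≤ 1) ∧
        ∀ w : (Fin L → ℝ) × (Fin L → ℝ), ‖w‖ ≤ Bd → ∀ R : ℝ, 1 ≤ R → ∀ α : ℝ,
          2 ^ n * ‖∑ k ∈ blk n, fhat φ (δ * k.1) (δ * k.2) / (nk k : ℂ) *
            ((rho (fun θ => R * Hw H₀ w θ + σ * δ) (tk k + α) : ℝ) : ℂ) *
            ee (-(nk k * gph (fun θ => R * Hw H₀ w θ + σ * δ) k α))‖ ≤ C * R * ∑ i, ‖Sb H₀ n (b i) R α w‖ ∧
          4 ^ n * ‖∑ k ∈ blk n, fhat φ (δ * k.1) (δ * k.2) / (nk k : ℂ) ^ 2 *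
            ee (-(nk k * gph (fun θ => R * Hw H₀ w θ + σ * δ) k α))‖ ≤ C * ∑ i, ‖Sb H₀ n (b i) R α w‖ := by
  obtain ⟨C₀, hC₀, hbd⟩ := gph_bdd h0 hp
  have hrho : ∀ θ, |rho H₀ θ| ≤ C₀ := fun θ => (hbd θ).2.2.1
  set M : ℝ := (1 + (L : ℝ) ^ 2) * |Bd| with hM
  have hM0 : 0 ≤ M := by positivity
  set D : ℝ := C₀ + 1 + M with hD
  have hD0 : 0 ≤ D := by positivity
  refine ⟨Fintype.card (Fin 3 ⊕ (Fin L ⊕ Fin L)), D, hD0, ?_⟩
  intro φ hφ n δ σ hδ hδ1 hσ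
  let e := (Fintype.equivFin (Fin 3 ⊕ (Fin L ⊕ Fin L))).symm
  let bb : Fin 3 ⊕ (Fin L ⊕ Fin L) → ℝ → ℤ × ℤ → ℂ := fun x α k =>
    h35q φ n δ σ α k * ((h35m H₀ C₀ n x α k : ℝ) : ℂ)
  refine ⟨fun i => bb (e i), ?_, ?_, ?_⟩
  · intro i k
    exact (h35q_cont φ n δ σ k).mul (Complex.continuous_ofReal.comp (h35m_cont h0 C₀ n (e i) k))
  · intro i α k
    show ‖h35q φ n δ σ α k * ((h35m H₀ C₀ n (e i) α k : ℝ) : ℂ)‖ ≤ 1
    rw [norm_mul, Complex.norm_real, Real.norm_eq_abs]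
    exact mul_le_one₀ (h35q_norm hφ n δ σ α k) (abs_nonneg _) (h35m_le hC₀ hrho n (e i) α k)
  intro w hw R hR α
  have hR0 : 0 ≤ R := by linarith
  set S : Fin 3 ⊕ (Fin L ⊕ Fin L) → ℝ := fun x => ‖Sb H₀ n (bb x) R α w‖ with hS
  have hS0 : ∀ x, 0 ≤ S x := fun x => norm_nonneg _
  have hsum : ∑ i, ‖Sb H₀ n (bb (e i)) R α w‖ = ∑ x, S x := Equiv.sum_comp e S
  have hsum2 : ∑ x, S x = S (Sum.inl 0) + S (Sum.inl 1) + S (Sum.inl 2) +
      (∑ l, S (Sum.inr (Sum.inl l)) + ∑ l, S (Sum.inr (Sum.inr l))) := by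
    rw [Fintype.sum_sum_type, Fintype.sum_sum_type, Fin.sum_univ_three]
  have hHw := Hw_smooth h0 w
  have hE : ∀ k, ee (-(nk k * gph (fun θ => R * Hw H₀ w θ + σ * δ) k α)) =
      ee (-(nk k * (σ * δ * cos α))) * ee (-(R * nk k * gph (Hw H₀ w) k α)) := by
    intro k
    rw [gph_affine hHw, ← ee_add]
    congr 1
    ring
  have hnk : ∀ k ∈ blk n, (nk k : ℂ) ≠ 0 := by
    intro k hk
    have h1 := h35_blk hk
    have h2 : (0 : ℝ) < 2 ^ n := by positivity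
    exact_mod_cast (h2.trans_le h1).ne'
  show _ ≤ D * R * ∑ i, ‖Sb H₀ n (bb (e i)) R α w‖ ∧ _ ≤ D * ∑ i, ‖Sb H₀ n (bb (e i)) R α w‖
  rw [hsum]
  constructor
  · -- first sum
    have key : (2 : ℂ) ^ n * ∑ k ∈ blk n, fhat φ (δ * k.1) (δ * k.2) / (nk k : ℂ) *
            ((rho (fun θ => R * Hw H₀ w θ + σ * δ) (tk k + α) : ℝ) : ℂ) *
            ee (-(nk k * gph (fun θ => R * Hw H₀ w θ + σ * δ) k α)) =
        ((R * C₀ : ℝ) : ℂ) * Sb H₀ n (bb (Sum.inl 0)) R α w +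
        (∑ l : Fin L, ((R * ((1 - ((l : ℕ) : ℝ) ^ 2) * w.1 l) : ℝ) : ℂ) * Sb H₀ n (bb (Sum.inr (Sum.inl l))) R α w +
        ∑ l : Fin L, ((R * ((1 - ((l : ℕ) : ℝ) ^ 2) * w.2 l) : ℝ) : ℂ) * Sb H₀ n (bb (Sum.inr (Sum.inr l))) R α w) +
        ((σ * δ : ℝ) : ℂ) * Sb H₀ n (bb (Sum.inl 1)) R α w := by
      unfold Sb
      simp only [Finset.mul_sum]
      rw [Finset.sum_comm (s := Finset.univ), Finset.sum_comm (s := Finset.univ)]
      rw [← Finset.sum_add_distrib, ← Finset.sum_add_distrib, ← Finset.sum_add_distrib]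
      refine Finset.sum_congr rfl fun k hk => ?_
      rw [hE k]
      have hrw : rho (fun θ => R * Hw H₀ w θ + σ * δ) (tk k + α) =
          R * C₀ * h35m (L := L) H₀ C₀ n (Sum.inl 0) α k +
          (∑ l : Fin L, R * ((1 - ((l : ℕ) : ℝ) ^ 2) * w.1 l) * h35m H₀ C₀ n (Sum.inr (Sum.inl l)) α k +
           ∑ l : Fin L, R * ((1 - ((l : ℕ) : ℝ) ^ 2) * w.2 l) * h35m H₀ C₀ n (Sum.inr (Sum.inr l)) α k) +
          σ * δ * h35m (L := L) H₀ C₀ n (Sum.inl 1) α k := by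
        rw [rho_affine hHw, rho_Hw h0, ← Finset.sum_add_distrib, mul_add, Finset.mul_sum]
        have e1 : R * C₀ * h35m (L := L) H₀ C₀ n (Sum.inl 0) α k = R * rho H₀ (tk k + α) := by
          show R * C₀ * (rho H₀ (tk k + α) / C₀) = _
          field_simp
        have e2 : σ * δ * h35m (L := L) H₀ C₀ n (Sum.inl 1) α k = σ * δ := by
          show σ * δ * 1 = _
          ring
        rw [e1, e2]
        congr 2
        refine Finset.sum_congr rfl fun l _ => ?_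
        show _ = R * ((1 - ((l : ℕ) : ℝ) ^ 2) * w.1 l) * cos ((l : ℕ) * (tk k + α)) +
          R * ((1 - ((l : ℕ) : ℝ) ^ 2) * w.2 l) * sin ((l : ℕ) * (tk k + α))
        ring
      rw [hrw]
      have hqk : h35q φ n δ σ α k = ((2 ^ n / nk k : ℝ) : ℂ) * fhat φ (δ * k.1) (δ * k.2) *
          ee (-(nk k * (σ * δ * cos α))) := by
        unfold h35q
        rw [if_pos hk]
      have hq2 : (2 : ℂ) ^ n * (fhat φ (δ * k.1) (δ * k.2) / (nk k : ℂ)) * ee (-(nk k * (σ * δ * cos α))) =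
          h35q φ n δ σ α k := by
        rw [hqk]
        push_cast
        ring
      have hfac : ∀ x y : ℂ, (2 : ℂ) ^ n * (fhat φ (δ * k.1) (δ * k.2) / (nk k : ℂ) * x *
          (ee (-(nk k * (σ * δ * cos α))) * y)) = h35q φ n δ σ α k * x * y := by
        intro x y
        rw [← hq2]
        ring
      rw [hfac]
      push_cast
      rw [mul_add, mul_add, mul_add, Finset.mul_sum, Finset.mul_sum, add_mul, add_mul, add_mul,
        Finset.sum_mul, Finset.sum_mul]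
      have t1 : ∀ a b c d : ℂ, a * (b * c) * d = b * (a * c * d) := by intros; ring
      congr 1
      · congr 1
        · show h35q φ n δ σ α k * ((R : ℂ) * (C₀ : ℂ) * ((h35m (L := L) H₀ C₀ n (Sum.inl 0) α k : ℝ) : ℂ)) * _ = _
          ring
        · congr 1
          · refine Finset.sum_congr rfl fun l _ => ?_
            show h35q φ n δ σ α k * _ * _ = _ * (h35q φ n δ σ α k *
              ((h35m H₀ C₀ n (Sum.inr (Sum.inl l)) α k : ℝ) : ℂ) * _)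
            ring
          · refine Finset.sum_congr rfl fun l _ => ?_
            show h35q φ n δ σ α k * _ * _ = _ * (h35q φ n δ σ α k *
              ((h35m H₀ C₀ n (Sum.inr (Sum.inr l)) α k : ℝ) : ℂ) * _)
            ring
      · show h35q φ n δ σ α k * _ * _ = _ * (h35q φ n δ σ α k *
              ((h35m (L := L) H₀ C₀ n (Sum.inl 1) α k : ℝ) : ℂ) * _)
        ring
    have hnorm : (2 : ℝ) ^ n * ‖∑ k ∈ blk n, fhat φ (δ * k.1) (δ * k.2) / (nk k : ℂ) *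
            ((rho (fun θ => R * Hw H₀ w θ + σ * δ) (tk k + α) : ℝ) : ℂ) *
            ee (-(nk k * gph (fun θ => R * Hw H₀ w θ + σ * δ) k α))‖ =
        ‖(2 : ℂ) ^ n * ∑ k ∈ blk n, fhat φ (δ * k.1) (δ * k.2) / (nk k : ℂ) *
            ((rho (fun θ => R * Hw H₀ w θ + σ * δ) (tk k + α) : ℝ) : ℂ) *
            ee (-(nk k * gph (fun θ => R * Hw H₀ w θ + σ * δ) k α))‖ := by
      rw [norm_mul, norm_pow, Complex.norm_two]
    rw [hnorm, key]
    have hwl : ∀ l : Fin L, |w.1 l| ≤ |Bd| ∧ |w.2 l| ≤ |Bd| := by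
      intro l
      have h1 : ‖w.1‖ ≤ ‖w‖ := norm_fst_le w
      have h2 : ‖w.2‖ ≤ ‖w‖ := norm_snd_le w
      have h3 := norm_le_pi_norm w.1 l
      have h4 := norm_le_pi_norm w.2 l
      rw [Real.norm_eq_abs] at h3 h4
      have h5 := le_abs_self Bd
      exact ⟨by linarith, by linarith⟩
    have hll : ∀ l : Fin L, |1 - ((l : ℕ) : ℝ) ^ 2| ≤ 1 + (L : ℝ) ^ 2 := by
      intro l
      have h1 : ((l : ℕ) : ℝ) ≤ L := by exact_mod_cast l.2.le
      have h0' : (0 : ℝ) ≤ ((l : ℕ) : ℝ) := Nat.cast_nonneg _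
      rw [abs_le]
      constructor <;> nlinarith
    have hco : ∀ (l : Fin L) (u : ℝ), |u| ≤ |Bd| →
        ‖((R * ((1 - ((l : ℕ) : ℝ) ^ 2) * u) : ℝ) : ℂ)‖ ≤ R * M := by
      intro l u hu
      rw [Complex.norm_real, Real.norm_eq_abs, abs_mul, abs_of_nonneg hR0, abs_mul]
      exact mul_le_mul_of_nonneg_left (mul_le_mul (hll l) hu (abs_nonneg _) (by positivity)) hR0
    have hc1 : ‖((R * C₀ : ℝ) : ℂ)‖ = R * C₀ := by
      rw [Complex.norm_real, Real.norm_eq_abs, abs_of_nonneg (by positivity)]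
    have hc2 : ‖((σ * δ : ℝ) : ℂ)‖ ≤ R := by
      rw [Complex.norm_real, Real.norm_eq_abs, abs_mul, abs_of_pos hδ]
      have : |σ| * δ ≤ 1 * 1 := mul_le_mul hσ hδ1 hδ.le zero_le_one
      linarith
    have hs1 : ‖∑ l : Fin L, ((R * ((1 - ((l : ℕ) : ℝ) ^ 2) * w.1 l) : ℝ) : ℂ) *
        Sb H₀ n (bb (Sum.inr (Sum.inl l))) R α w‖ ≤ R * M * ∑ l, S (Sum.inr (Sum.inl l)) := by
      rw [Finset.mul_sum]
      refine norm_sum_le_of_le _ fun l _ => ?_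
      rw [norm_mul]
      exact mul_le_mul_of_nonneg_right (hco l _ (hwl l).1) (norm_nonneg _)
    have hs2 : ‖∑ l : Fin L, ((R * ((1 - ((l : ℕ) : ℝ) ^ 2) * w.2 l) : ℝ) : ℂ) *
        Sb H₀ n (bb (Sum.inr (Sum.inr l))) R α w‖ ≤ R * M * ∑ l, S (Sum.inr (Sum.inr l)) := by
      rw [Finset.mul_sum]
      refine norm_sum_le_of_le _ fun l _ => ?_
      rw [norm_mul]
      exact mul_le_mul_of_nonneg_right (hco l _ (hwl l).2) (norm_nonneg _)
    have hs3 : ‖((R * C₀ : ℝ) : ℂ) * Sb H₀ n (bb (Sum.inl 0)) R α w‖ = R * C₀ * S (Sum.inl 0) := by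
      rw [norm_mul, hc1]
    have hs4 : ‖((σ * δ : ℝ) : ℂ) * Sb H₀ n (bb (Sum.inl 1)) R α w‖ ≤ R * S (Sum.inl 1) := by
      rw [norm_mul]
      exact mul_le_mul_of_nonneg_right hc2 (norm_nonneg _)
    refine (norm_add_le _ _).trans ((add_le_add_left ((norm_add_le _ _).trans
      (add_le_add_right (norm_add_le _ _) _)) _).trans ?_)
    rw [hsum2, hs3]
    have hA : 0 ≤ ∑ l, S (Sum.inr (Sum.inl l)) := Finset.sum_nonneg fun l _ => hS0 _
    have hB : 0 ≤ ∑ l, S (Sum.inr (Sum.inr l)) := Finset.sum_nonneg fun l _ => hS0 _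
    have h00 := hS0 (Sum.inl 0)
    have h01 := hS0 (Sum.inl 1)
    have h02 := hS0 (Sum.inl 2)
    generalize (∑ l, S (Sum.inr (Sum.inl l))) = A at *
    generalize (∑ l, S (Sum.inr (Sum.inr l))) = B at *
    generalize S (Sum.inl 0) = s0 at *
    generalize S (Sum.inl 1) = s1 at *
    generalize S (Sum.inl 2) = s2 at *
    have k1 : R * C₀ * s0 + (R * M * A + R * M * B) + R * s1 ≤ D * R * (s0 + s1 + s2 + (A + B)) := by
      rw [hD]
      have p1 : 0 ≤ R * M * s0 := by positivity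
      have p2 : 0 ≤ R * s0 := by positivity
      have p3 : 0 ≤ R * M * s1 := by positivity
      have p4 : 0 ≤ R * C₀ * s1 := by positivity
      have p5 : 0 ≤ R * M * s2 := by positivity
      have p6 : 0 ≤ R * C₀ * s2 := by positivity
      have p7 : 0 ≤ R * s2 := by positivity
      have p8 : 0 ≤ R * C₀ * (A + B) := by positivity
      have p9 : 0 ≤ R * (A + B) := by positivity
      nlinarith
    linarith
  · -- second sum
    have key : (4 : ℂ) ^ n * ∑ k ∈ blk n, fhat φ (δ * k.1) (δ * k.2) / (nk k : ℂ) ^ 2 *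
            ee (-(nk k * gph (fun θ => R * Hw H₀ w θ + σ * δ) k α)) = Sb H₀ n (bb (Sum.inl 2)) R α w := by
      unfold Sb
      rw [Finset.mul_sum]
      refine Finset.sum_congr rfl fun k hk => ?_
      rw [hE k]
      have h1 : bb (Sum.inl 2) α k = ((2 ^ n / nk k : ℝ) : ℂ) * fhat φ (δ * k.1) (δ * k.2) *
          ee (-(nk k * (σ * δ * cos α))) * ((2 ^ n / nk k : ℝ) : ℂ) := by
        show h35q φ n δ σ α k * ((h35m (L := L) H₀ C₀ n (Sum.inl 2) α k : ℝ) : ℂ) = _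
        have e1 : h35m (L := L) H₀ C₀ n (Sum.inl 2) α k = 2 ^ n / nk k := by
          show (if k ∈ blk n then 2 ^ n / nk k else 0 : ℝ) = _
          rw [if_pos hk]
        rw [e1]
        unfold h35q
        rw [if_pos hk]
      rw [h1]
      have h4 : (4 : ℂ) ^ n = 2 ^ n * 2 ^ n := by
        rw [← mul_pow]
        norm_num
      rw [h4]
      push_cast
      have := hnk k hk
      field_simp
    have hnorm : (4 : ℝ) ^ n * ‖∑ k ∈ blk n, fhat φ (δ * k.1) (δ * k.2) / (nk k : ℂ) ^ 2 *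
            ee (-(nk k * gph (fun θ => R * Hw H₀ w θ + σ * δ) k α))‖ =
        ‖(4 : ℂ) ^ n * ∑ k ∈ blk n, fhat φ (δ * k.1) (δ * k.2) / (nk k : ℂ) ^ 2 *
            ee (-(nk k * gph (fun θ => R * Hw H₀ w θ + σ * δ) k α))‖ := by
      rw [norm_mul, norm_pow]
      norm_num
    rw [hnorm, key]
    have h1 : S (Sum.inl 2) ≤ ∑ x, S x := Finset.single_le_sum (f := S) (fun x _ => hS0 x) (Finset.mem_univ _)
    have h2 : 0 ≤ ∑ x, S x := Finset.sum_nonneg fun x _ => hS0 x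
    have h3 : (1 : ℝ) ≤ D := by rw [hD]; linarith
    calc ‖Sb H₀ n (bb (Sum.inl 2)) R α w‖ ≤ ∑ x, S x := h1
      _ = 1 * ∑ x, S x := (one_mul _).symm
      _ ≤ D * ∑ x, S x := mul_le_mul_of_nonneg_right h3 h2

end Pool.Agent.Helper22.AE
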