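import Pool.Agent.Helper22.AE.C2
import Pool.Agent.Helper22.AE.C5
import Pool.Agent.Helper22.AE.D3

/-!
# AE-C6: the block sums are controlled by the functionals `Zf` (paper (3.5), (3.6))

PROOF. `K = 2^n`, `δ = R₀^(-1/2)`, `β = (R₀ K)^(-1/2)`, `G = R Hw + σ δ`, `R ∈ [Ra, Ra + 1/K]`, so `1 ≤ R ≤ 2R₀ + 1 ≤ 3R₀`.
`vk_bound` and `base_types`: `‖VK‖ ≤ (β 3R₀/K + 1/(β K²)) C ∑_i ∫_{-π}^{π} k0 β α ‖Sb (b i) R α w‖ dα`, and
`β R₀/K = 1/(β K²) = R₀^(1/2) K^(-3/2)`. Split the `α`-integral. On `|cos α| < 1/2`: `sin² α ≥ 3/4`, `k0 β α ≤ 2β`,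
`‖Sb‖ ≤ #blk n ≤ 25 K²` (`blk_card`): contribution `≤ C R₀^(1/2) K^(-3/2) β K² = C`. On `|cos α| ≥ 1/2`: `sobolev_b` for each `b i` (choose the
`b'`), giving `k0 β α C ∑_{i'} ∫_{R'} 2^n ‖Sb (b' i i') R' α w‖`; exchange the integrals (continuous integrand on a bounded set,
`integral_integral_swap` for the restricted measures) to get `Zf β n Ra v w` with
`v R α k = b' i i' α k * ee (-(R * nk k * gph H₀ k α))` (`Sb_eq`), continuous in `(R, α)`, norm `≤ 1`. `nT = nT₁ nT₂` (transport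
`Fin nT₁ × Fin nT₂ ≃ Fin (nT₁ * nT₂)`, `finProdFinEquiv`).
`Zf_trivial`: `‖Tsum‖ ≤ #blk n ≤ 25·4^n`, `∫ k0 ≤ 20`, the interval of `R` has length `2^(-n)`.
-/

open MeasureTheory Real Set Filter Topology

set_option autoImplicit false

namespace Pool.Agent.Helper22.AE

private lemma c6_k0_cont {β : ℝ} (hβ : 0 < β) : Continuous (k0 β) := by
  unfold k0
  exact continuous_const.div (by fun_prop) (fun α => by positivity)

private lemma c6_k0_nonneg {β : ℝ} (hβ : 0 < β) (α : ℝ) : 0 ≤ k0 β α := by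
  unfold k0
  positivity

private lemma c6_deriv_cont {G : ℝ → ℝ} (hG : ContDiff ℝ 2 G) : Continuous (deriv G) :=
  (((contDiff_succ_iff_deriv (n := 1)).1 hG).2.2).continuous

private lemma c6_gph_cont {G : ℝ → ℝ} (hG : ContDiff ℝ 2 G) (k : ℤ × ℤ) : Continuous (gph G k) := by
  have h1 := hG.continuous
  have h2 := c6_deriv_cont hG
  unfold gph
  fun_prop

/-- the set of good angles -/
private def gs : Set ℝ := Icc (-π) π ∩ {α | 1 / 2 ≤ |cos α|}

private lemma gs_compact : IsCompact gs := by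
  refine isCompact_Icc.inter_right ?_
  exact isClosed_le continuous_const (by fun_prop)

private lemma gs_meas : MeasurableSet gs := gs_compact.measurableSet

private lemma k0_gs {β : ℝ} (hβ : 0 < β) : ∫ α in gs, k0 β α ≤ 20 := by
  have hpi := Real.pi_pos
  refine le_trans ?_ (k0_int hβ)
  rw [intervalIntegral.integral_of_le (by linarith), ← integral_Icc_eq_integral_Ioc]
  refine setIntegral_mono_set ((c6_k0_cont hβ).continuousOn.integrableOn_compact isCompact_Icc) ?_ ?_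
  · exact ae_of_all _ (fun α => c6_k0_nonneg hβ α)
  · exact (inter_subset_left (s := Icc (-π) π)).eventuallyLE

private lemma Tsum_norm_card {L : ℕ} (A : Finset (ℤ × ℤ)) (v : ℤ × ℤ → ℂ) (hv1 : ∀ k, ‖v k‖ ≤ 1) (R α : ℝ)
    (w : (Fin L → ℝ) × (Fin L → ℝ)) : ‖Tsum A v R α w‖ ≤ A.card := by
  unfold Tsum
  refine (norm_sum_le _ _).trans ?_
  refine (Finset.sum_le_card_nsmul _ _ 1 (fun k _ => ?_)).trans ?_
  · rw [norm_mul, ee_norm, mul_one]
    exact hv1 k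
  · simp

theorem Zf_trivial {L : ℕ} {β : ℝ} (hβ : 0 < β) (n : ℕ) (Ra : ℝ) (v : ℝ → ℝ → ℤ × ℤ → ℂ)
    (hv : ∀ k, Continuous (fun p : ℝ × ℝ => v p.1 p.2 k)) (hv1 : ∀ R α k, ‖v R α k‖ ≤ 1)
    (w : (Fin L → ℝ) × (Fin L → ℝ)) : Zf β n Ra v w ≤ 500 * 4 ^ n := by
  have hK : (0 : ℝ) < 2 ^ n := by positivity
  have h1 : ∀ R ∈ Icc Ra (Ra + 1 / 2 ^ n),
      ‖∫ α in gs, 2 ^ n * k0 β α * ‖Tsum (blk n) (v R α) R α w‖‖ ≤ 2 ^ n * (25 * 4 ^ n) * 20 := by
    intro R _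
    have hnn : 0 ≤ ∫ α in gs, 2 ^ n * k0 β α * ‖Tsum (blk n) (v R α) R α w‖ :=
      integral_nonneg (fun α => by have := c6_k0_nonneg hβ α; positivity)
    rw [Real.norm_of_nonneg hnn]
    have hi : IntegrableOn (fun α => 2 ^ n * (25 * 4 ^ n) * k0 β α) gs :=
      (continuous_const.mul (c6_k0_cont hβ)).continuousOn.integrableOn_compact gs_compact
    calc ∫ α in gs, 2 ^ n * k0 β α * ‖Tsum (blk n) (v R α) R α w‖
        ≤ ∫ α in gs, 2 ^ n * (25 * 4 ^ n) * k0 β α := by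
          refine integral_mono_of_nonneg (ae_of_all _ (fun α => ?_)) hi (ae_of_all _ (fun α => ?_))
          · have := c6_k0_nonneg hβ α
            show (0 : ℝ) ≤ 2 ^ n * k0 β α * ‖Tsum (blk n) (v R α) R α w‖
            positivity
          · have h2 := c6_k0_nonneg hβ α
            have h3 : ‖Tsum (blk n) (v R α) R α w‖ ≤ 25 * 4 ^ n :=
              (Tsum_norm_card _ _ (fun k => hv1 R α k) R α w).trans (blk_card n)
            show 2 ^ n * k0 β α * ‖Tsum (blk n) (v R α) R α w‖ ≤ 2 ^ n * (25 * 4 ^ n) * k0 β α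
            calc 2 ^ n * k0 β α * ‖Tsum (blk n) (v R α) R α w‖ ≤ 2 ^ n * k0 β α * (25 * 4 ^ n) :=
                  mul_le_mul_of_nonneg_left h3 (by positivity)
              _ = _ := by ring
      _ = 2 ^ n * (25 * 4 ^ n) * ∫ α in gs, k0 β α := integral_const_mul _ _
      _ ≤ 2 ^ n * (25 * 4 ^ n) * 20 := mul_le_mul_of_nonneg_left (k0_gs hβ) (by positivity)
  have h2 := norm_setIntegral_le_of_norm_le_const (μ := volume) (s := Icc Ra (Ra + 1 / 2 ^ n))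
    measure_Icc_lt_top h1
  have h3 : volume.real (Icc Ra (Ra + 1 / 2 ^ n)) = 1 / 2 ^ n := by
    rw [Real.volume_real_Icc_of_le (by have : (0 : ℝ) ≤ 1 / 2 ^ n := by positivity
                                       linarith)]
    ring
  rw [h3] at h2
  have h4 : Zf β n Ra v w = ∫ R in Icc Ra (Ra + 1 / 2 ^ n), ∫ α in gs, 2 ^ n * k0 β α * ‖Tsum (blk n) (v R α) R α w‖ := rfl
  rw [h4]
  refine (le_norm_self _).trans (h2.trans (le_of_eq ?_))
  field_simp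
  ring

private lemma Sb_cont {L : ℕ} {H₀ : ℝ → ℝ} (h0 : ContDiff ℝ 2 H₀) (n : ℕ) (b : ℝ → ℤ × ℤ → ℂ)
    (hb : ∀ k, Continuous (fun α => b α k)) (w : (Fin L → ℝ) × (Fin L → ℝ)) :
    Continuous (fun p : ℝ × ℝ => Sb H₀ n b p.1 p.2 w) := by
  unfold Sb
  refine continuous_finsetSum _ (fun k _ => ?_)
  have h1 := c6_gph_cont (Hw_smooth h0 w) k
  have h2 := ee_cont
  have h3 := (hb k).comp (continuous_snd (X := ℝ) (Y := ℝ))
  refine Continuous.mul h3 (h2.comp ?_)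
  fun_prop

private lemma Sb_norm {L : ℕ} (H₀ : ℝ → ℝ) (n : ℕ) (b : ℝ → ℤ × ℤ → ℂ)
    (hb : ∀ α k, ‖b α k‖ ≤ 1) (R α : ℝ) (w : (Fin L → ℝ) × (Fin L → ℝ)) :
    ‖Sb H₀ n b R α w‖ ≤ 25 * 4 ^ n := by
  refine le_trans ?_ (blk_card n)
  unfold Sb
  refine (norm_sum_le _ _).trans ?_
  refine (Finset.sum_le_card_nsmul _ _ 1 (fun k _ => ?_)).trans ?_
  · rw [norm_mul, ee_norm, mul_one]
    exact hb α k
  · simp

/-- exchange of the two integrals -/
private lemma Zf_swap {L : ℕ} {H₀ : ℝ → ℝ} (h0 : ContDiff ℝ 2 H₀) {β : ℝ} (hβ : 0 < β) (n : ℕ) (Ra : ℝ)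
    (b : ℝ → ℤ × ℤ → ℂ) (hb : ∀ k, Continuous (fun α => b α k)) (w : (Fin L → ℝ) × (Fin L → ℝ)) :
    ∫ α in gs, k0 β α * ∫ R' in Icc Ra (Ra + 1 / 2 ^ n), 2 ^ n * ‖Sb H₀ n b R' α w‖ =
      Zf β n Ra (fun R α k => b α k * ee (-(R * nk k * gph H₀ k α))) w := by
  have hc := Sb_cont h0 n b hb w
  have hkc := c6_k0_cont hβ
  have e1 : ∀ α, k0 β α * ∫ R' in Icc Ra (Ra + 1 / 2 ^ n), 2 ^ n * ‖Sb H₀ n b R' α w‖ =
      ∫ R' in Icc Ra (Ra + 1 / 2 ^ n), 2 ^ n * k0 β α * ‖Sb H₀ n b R' α w‖ := by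
    intro α
    rw [← integral_const_mul]
    refine integral_congr_ae (ae_of_all _ (fun R' => ?_))
    show k0 β α * (2 ^ n * ‖Sb H₀ n b R' α w‖) = 2 ^ n * k0 β α * ‖Sb H₀ n b R' α w‖
    ring
  simp only [e1]
  rw [integral_integral_swap]
  · show _ = ∫ R in Icc Ra (Ra + 1 / 2 ^ n), ∫ α in gs, 2 ^ n * k0 β α * ‖Tsum (blk n) _ R α w‖
    refine integral_congr_ae (ae_of_all _ (fun R' => ?_))
    refine integral_congr_ae (ae_of_all _ (fun α => ?_))
    show 2 ^ n * k0 β α * ‖Sb H₀ n b R' α w‖ = 2 ^ n * k0 β α * ‖Tsum (blk n) _ R' α w‖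
    rw [Sb_eq h0]
  · rw [Measure.prod_restrict]
    have hcc : Continuous (Function.uncurry (fun α R' => 2 ^ n * k0 β α * ‖Sb H₀ n b R' α w‖)) := by
      show Continuous (fun p : ℝ × ℝ => 2 ^ n * k0 β p.1 * ‖Sb H₀ n b p.2 p.1 w‖)
      refine Continuous.mul (continuous_const.mul (hkc.comp continuous_fst)) ?_
      exact (hc.comp (continuous_snd.prodMk continuous_fst)).norm
    exact hcc.continuousOn.integrableOn_compact (gs_compact.prod isCompact_Icc)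

private lemma pow_id1 {R₀ K : ℝ} (hR : 0 < R₀) (hK : 0 < K) :
    (R₀ * K) ^ (-(1 / 2) : ℝ) * R₀ / K = R₀ ^ (1 / 2 : ℝ) * K ^ (-(3 / 2) : ℝ) := by
  rw [mul_rpow hR.le hK.le]
  have e1 : R₀ ^ (-(1 / 2) : ℝ) * R₀ = R₀ ^ (1 / 2 : ℝ) := by
    nth_rewrite 2 [← rpow_one R₀]
    rw [← rpow_add hR]
    norm_num
  have e2 : K ^ (-(1 / 2) : ℝ) / K = K ^ (-(3 / 2) : ℝ) := by
    nth_rewrite 2 [← rpow_one K]
    rw [← rpow_sub hK]
    norm_num
  calc R₀ ^ (-(1 / 2) : ℝ) * K ^ (-(1 / 2) : ℝ) * R₀ / K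
      = (R₀ ^ (-(1 / 2) : ℝ) * R₀) * (K ^ (-(1 / 2) : ℝ) / K) := by ring
    _ = _ := by rw [e1, e2]

private lemma pow_id2 {R₀ K : ℝ} (hR : 0 < R₀) (hK : 0 < K) :
    1 / ((R₀ * K) ^ (-(1 / 2) : ℝ) * K ^ 2) = R₀ ^ (1 / 2 : ℝ) * K ^ (-(3 / 2) : ℝ) := by
  rw [mul_rpow hR.le hK.le]
  have e1 : 1 / R₀ ^ (-(1 / 2) : ℝ) = R₀ ^ (1 / 2 : ℝ) := by
    rw [rpow_neg hR.le, one_div, inv_inv]
  have e2 : 1 / (K ^ (-(1 / 2) : ℝ) * K ^ 2) = K ^ (-(3 / 2) : ℝ) := by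
    rw [← rpow_natCast K 2, ← rpow_add hK, one_div, ← rpow_neg hK.le]
    norm_num
  calc 1 / (R₀ ^ (-(1 / 2) : ℝ) * K ^ (-(1 / 2) : ℝ) * K ^ 2)
      = (1 / R₀ ^ (-(1 / 2) : ℝ)) * (1 / (K ^ (-(1 / 2) : ℝ) * K ^ 2)) := by
        rw [mul_assoc]
        field_simp
    _ = _ := by rw [e1, e2]

private lemma pow_id3 {R₀ K : ℝ} (hR : 0 < R₀) (hK : 0 < K) :
    R₀ ^ (1 / 2 : ℝ) * K ^ (-(3 / 2) : ℝ) * ((R₀ * K) ^ (-(1 / 2) : ℝ) * K ^ 2) = 1 := by
  rw [← pow_id2 hR hK]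
  have : 0 < (R₀ * K) ^ (-(1 / 2) : ℝ) * K ^ 2 := by positivity
  field_simp

theorem types (L : ℕ) {H₀ : ℝ → ℝ} (h0 : ContDiff ℝ 2 H₀) (hp : Function.Periodic H₀ (2 * π)) (Bd : ℝ) :
    ∃ (nT : ℕ) (C : ℝ), 0 ≤ C ∧ ∀ (φ : ℝ × ℝ → ℝ), IsBump φ → ∀ R₀ : ℝ, 1 ≤ R₀ → ∀ (n : ℕ) (σ : ℝ),
      (σ = 1 ∨ σ = -1) → ∀ Ra ∈ Icc R₀ (2 * R₀), ∃ v : Fin nT → ℝ → ℝ → ℤ × ℤ → ℂ,
        (∀ i k, Continuous (fun p : ℝ × ℝ => v i p.1 p.2 k)) ∧ (∀ i R α k, ‖v i R α k‖ ≤ 1) ∧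
        ∀ w : (Fin L → ℝ) × (Fin L → ℝ), ‖w‖ ≤ Bd → ∀ R ∈ Icc Ra (Ra + 1 / 2 ^ n),
          IsSupp (fun θ => R * Hw H₀ w θ + σ * R₀ ^ (-(1 / 2) : ℝ)) →
          ‖VK φ (fun θ => R * Hw H₀ w θ + σ * R₀ ^ (-(1 / 2) : ℝ)) (R₀ ^ (-(1 / 2) : ℝ)) n‖ ≤
            C * R₀ ^ (1 / 2 : ℝ) * ((2 : ℝ) ^ n) ^ (-(3 / 2) : ℝ) *
              (∑ i, Zf ((R₀ * 2 ^ n) ^ (-(1 / 2) : ℝ)) n Ra (v i) w) + C := by
  obtain ⟨nT₁, C₁, hC₁, h₁⟩ := base_types L h0 hp Bd
  obtain ⟨nT₂, C₂, hC₂, h₂⟩ := sobolev_b L h0 hp Bd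
  have hC1600 : 0 ≤ C₁ * nT₁ * 1600 := by positivity
  refine ⟨nT₁ * nT₂, 4 * C₁ * C₂ + C₁ * nT₁ * 1600, by positivity, ?_⟩
  intro φ hφ R₀ hR₀ n σ hσ Ra hRa
  have hR₀' : 0 < R₀ := by linarith
  have hK : (0 : ℝ) < 2 ^ n := by positivity
  have hK1 : (1 : ℝ) ≤ 2 ^ n := one_le_pow₀ (by norm_num)
  set δ : ℝ := R₀ ^ (-(1 / 2) : ℝ) with hδ
  set β : ℝ := (R₀ * 2 ^ n) ^ (-(1 / 2) : ℝ) with hβd
  have hδ0 : 0 < δ := by positivity
  have hδ1 : δ ≤ 1 := rpow_le_one_of_one_le_of_nonpos hR₀ (by norm_num)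
  have hβ : 0 < β := by positivity
  have hσ1 : |σ| ≤ 1 := by rcases hσ with h | h <;> simp [h]
  obtain ⟨b, hbc, hb1, hb⟩ := h₁ φ hφ n δ σ hδ0 hδ1 hσ1
  choose b' hbc' hb1' hb' using fun i => h₂ n (b i) (hbc i) (hb1 i)
  refine ⟨fun p R α k => b' (finProdFinEquiv.symm p).1 (finProdFinEquiv.symm p).2 α k *
    ee (-(R * nk k * gph H₀ k α)), ?_, ?_, ?_⟩
  · intro i k
    have h1 := c6_gph_cont h0 k
    have h3 := (hbc' (finProdFinEquiv.symm i).1 (finProdFinEquiv.symm i).2 k).comp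
      (continuous_snd (X := ℝ) (Y := ℝ))
    refine Continuous.mul h3 (ee_cont.comp ?_)
    fun_prop
  · intro i R α k
    rw [norm_mul, ee_norm, mul_one]
    exact hb1' _ _ α k
  intro w hw R hR hsupp
  have hR1 : 1 ≤ R := by linarith [hRa.1, hR.1]
  have hR3 : R ≤ 3 * R₀ := by
    have : (1 : ℝ) / 2 ^ n ≤ 1 := by
      rw [div_le_one hK]
      exact hK1
    linarith [hRa.2, hR.2]
  have hpi := Real.pi_pos
  -- the sum over the types
  set F : ℝ → ℝ := fun α => ∑ i, ‖Sb H₀ n (b i) R α w‖ with hF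
  have hFc : Continuous F := by
    refine continuous_finsetSum _ (fun i _ => ?_)
    exact ((Sb_cont h0 n (b i) (hbc i) w).comp (continuous_const.prodMk continuous_id)).norm
  have hF0 : ∀ α, 0 ≤ F α := fun α => Finset.sum_nonneg (fun i _ => norm_nonneg _)
  have hFle : ∀ α, F α ≤ nT₁ * (25 * 4 ^ n) := by
    intro α
    refine (Finset.sum_le_card_nsmul _ _ (25 * 4 ^ n) (fun i _ => Sb_norm H₀ n (b i) (hb1 i) R α w)).trans ?_
    simp
  have hkc := c6_k0_cont hβ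
  set A : ℝ := ∫ α in (-π)..π, k0 β α * F α with hA
  have hA0 : 0 ≤ A := intervalIntegral.integral_nonneg (by linarith)
    (fun α _ => mul_nonneg (c6_k0_nonneg hβ α) (hF0 α))
  have hAi : IntervalIntegrable (fun α => k0 β α * F α) volume (-π) π := (hkc.mul hFc).intervalIntegrable _ _
  -- step 1
  have hvk := vk_bound hsupp φ δ n hβ
  have step1 : ‖VK φ (fun θ => R * Hw H₀ w θ + σ * δ) δ n‖ ≤
      4 * C₁ * (R₀ ^ (1 / 2 : ℝ) * ((2 : ℝ) ^ n) ^ (-(3 / 2) : ℝ)) * A := by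
    have hI1 : (∫ α in (-π)..π, k0 β α * ‖∑ k ∈ blk n, fhat φ (δ * k.1) (δ * k.2) / (nk k : ℂ) *
        ((rho (fun θ => R * Hw H₀ w θ + σ * δ) (tk k + α) : ℝ) : ℂ) *
        ee (-(nk k * gph (fun θ => R * Hw H₀ w θ + σ * δ) k α))‖) ≤ C₁ * R / 2 ^ n * A := by
      rw [hA, ← intervalIntegral.integral_const_mul]
      rw [intervalIntegral.integral_of_le (by linarith), intervalIntegral.integral_of_le (by linarith)]
      refine integral_mono_of_nonneg (ae_of_all _ (fun α => ?_)) ?_ (ae_of_all _ (fun α => ?_))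
      · exact mul_nonneg (c6_k0_nonneg hβ α) (norm_nonneg _)
      · exact ((hAi.const_mul _).1)
      · have h3 := (hb w hw R hR1 α).1
        have h4 := c6_k0_nonneg hβ α
        have h5 : ‖∑ k ∈ blk n, fhat φ (δ * k.1) (δ * k.2) / (nk k : ℂ) *
            ((rho (fun θ => R * Hw H₀ w θ + σ * δ) (tk k + α) : ℝ) : ℂ) *
            ee (-(nk k * gph (fun θ => R * Hw H₀ w θ + σ * δ) k α))‖ ≤ C₁ * R / 2 ^ n * F α := by
          rw [div_mul_eq_mul_div, le_div_iff₀ hK]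
          linarith
        calc _ ≤ k0 β α * (C₁ * R / 2 ^ n * F α) := mul_le_mul_of_nonneg_left h5 h4
          _ = _ := by ring
    have hI2 : (∫ α in (-π)..π, k0 β α * ‖∑ k ∈ blk n, fhat φ (δ * k.1) (δ * k.2) / (nk k : ℂ) ^ 2 *
        ee (-(nk k * gph (fun θ => R * Hw H₀ w θ + σ * δ) k α))‖) ≤ C₁ / 4 ^ n * A := by
      rw [hA, ← intervalIntegral.integral_const_mul]
      rw [intervalIntegral.integral_of_le (by linarith), intervalIntegral.integral_of_le (by linarith)]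
      refine integral_mono_of_nonneg (ae_of_all _ (fun α => ?_)) ?_ (ae_of_all _ (fun α => ?_))
      · exact mul_nonneg (c6_k0_nonneg hβ α) (norm_nonneg _)
      · exact ((hAi.const_mul _).1)
      · have h3 := (hb w hw R hR1 α).2
        have h4 := c6_k0_nonneg hβ α
        have h5 : ‖∑ k ∈ blk n, fhat φ (δ * k.1) (δ * k.2) / (nk k : ℂ) ^ 2 *
            ee (-(nk k * gph (fun θ => R * Hw H₀ w θ + σ * δ) k α))‖ ≤ C₁ / 4 ^ n * F α := by
          rw [div_mul_eq_mul_div, le_div_iff₀ (by positivity)]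
          linarith
        calc _ ≤ k0 β α * (C₁ / 4 ^ n * F α) := mul_le_mul_of_nonneg_left h5 h4
          _ = _ := by ring
    have hp1 := pow_id1 hR₀' hK
    have hp2 := pow_id2 hR₀' hK
    rw [← hβd] at hp1 hp2
    have h44 : (4 : ℝ) ^ n = (2 ^ n) ^ 2 := by
      rw [← pow_mul, mul_comm, pow_mul]
      norm_num
    refine hvk.trans ?_
    calc _ ≤ β * (C₁ * R / 2 ^ n * A) + 1 / β * (C₁ / 4 ^ n * A) :=
          add_le_add (mul_le_mul_of_nonneg_left hI1 hβ.le) (mul_le_mul_of_nonneg_left hI2 (by positivity))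
      _ ≤ β * (C₁ * (3 * R₀) / 2 ^ n * A) + 1 / β * (C₁ / 4 ^ n * A) := by
          gcongr
      _ = 3 * C₁ * (β * R₀ / 2 ^ n) * A + C₁ * (1 / (β * (2 ^ n) ^ 2)) * A := by
          rw [h44]
          field_simp
      _ = 4 * C₁ * (R₀ ^ (1 / 2 : ℝ) * ((2 : ℝ) ^ n) ^ (-(3 / 2) : ℝ)) * A := by
          rw [hp1, hp2]
          ring
  -- step 2: splitting of the integral
  have hAint : IntegrableOn (fun α => k0 β α * F α) (Icc (-π) π) :=
    (hkc.mul hFc).continuousOn.integrableOn_compact isCompact_Icc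
  have hsplit : A = (∫ α in gs, k0 β α * F α) + ∫ α in Icc (-π) π \ {α | 1 / 2 ≤ |cos α|}, k0 β α * F α := by
    rw [hA, intervalIntegral.integral_of_le (by linarith), ← integral_Icc_eq_integral_Ioc]
    have hms : MeasurableSet {α : ℝ | 1 / 2 ≤ |cos α|} :=
      (isClosed_le continuous_const (by fun_prop)).measurableSet
    exact (integral_inter_add_sdiff hms hAint).symm
  have hbad : ∫ α in Icc (-π) π \ {α | 1 / 2 ≤ |cos α|}, k0 β α * F α ≤ 2 * β * (nT₁ * (25 * 4 ^ n)) * (2 * π) := by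
    have h1 : ∀ α ∈ Icc (-π) π \ {α | 1 / 2 ≤ |cos α|}, ‖k0 β α * F α‖ ≤ 2 * β * (nT₁ * (25 * 4 ^ n)) := by
      intro α hα
      have h4 := c6_k0_nonneg hβ α
      rw [Real.norm_of_nonneg (mul_nonneg h4 (hF0 α))]
      have h5 : |cos α| < 1 / 2 := not_le.1 hα.2
      have h6 : 3 / 4 ≤ sin α ^ 2 := by
        have h7 := sin_sq_add_cos_sq α
        have h8 : cos α ^ 2 ≤ 1 / 4 := by
          rw [← sq_abs]
          have := abs_nonneg (cos α)
          nlinarith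
        linarith
      have h9 : k0 β α ≤ 2 * β := by
        unfold k0
        rw [div_le_iff₀ (by positivity)]
        nlinarith [sq_nonneg β]
      exact mul_le_mul h9 (hFle α) (hF0 α) (by positivity)
    have hvol : volume (Icc (-π) π \ {α | 1 / 2 ≤ |cos α|}) < ⊤ :=
      (measure_mono sdiff_subset).trans_lt (by simp [Real.volume_Icc])
    have h2 := norm_setIntegral_le_of_norm_le_const (μ := volume) hvol h1
    have h3 : volume.real (Icc (-π) π \ {α | 1 / 2 ≤ |cos α|}) ≤ 2 * π := by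
      refine (measureReal_mono sdiff_subset (by simp [Real.volume_Icc])).trans ?_
      rw [Real.volume_real_Icc_of_le (by linarith)]
      linarith
    refine (le_norm_self _).trans (h2.trans ?_)
    exact mul_le_mul_of_nonneg_left h3 (by positivity)
  have hgood : ∫ α in gs, k0 β α * F α ≤ C₂ * ∑ p : Fin (nT₁ * nT₂), Zf β n Ra
      (fun R α k => b' (finProdFinEquiv.symm p).1 (finProdFinEquiv.symm p).2 α k *
        ee (-(R * nk k * gph H₀ k α))) w := by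
    have hin : ∀ i i', IntegrableOn (fun α => k0 β α *
        ∫ R' in Icc Ra (Ra + 1 / 2 ^ n), 2 ^ n * ‖Sb H₀ n (b' i i') R' α w‖) gs := by
      intro i i'
      have hcont : Continuous (fun α => k0 β α *
          ∫ R' in Icc Ra (Ra + 1 / 2 ^ n), 2 ^ n * ‖Sb H₀ n (b' i i') R' α w‖) := by
        refine hkc.mul ?_
        refine continuous_parametric_integral_of_continuous ?_ isCompact_Icc
        show Continuous (fun p : ℝ × ℝ => 2 ^ n * ‖Sb H₀ n (b' i i') p.2 p.1 w‖)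
        exact continuous_const.mul
          ((Sb_cont h0 n (b' i i') (hbc' i i') w).comp (continuous_snd.prodMk continuous_fst)).norm
      exact hcont.continuousOn.integrableOn_compact gs_compact
    calc ∫ α in gs, k0 β α * F α
        ≤ ∫ α in gs, ∑ i, ∑ i', C₂ * (k0 β α *
            ∫ R' in Icc Ra (Ra + 1 / 2 ^ n), 2 ^ n * ‖Sb H₀ n (b' i i') R' α w‖) := by
          refine integral_mono_of_nonneg (ae_of_all _ (fun α => ?_)) ?_ (ae_of_all _ (fun α => ?_))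
          · exact mul_nonneg (c6_k0_nonneg hβ α) (hF0 α)
          · refine integrable_finsetSum _ (fun i _ => integrable_finsetSum _ (fun i' _ => ?_))
            exact (hin i i').const_mul C₂
          · have h4 := c6_k0_nonneg hβ α
            show k0 β α * F α ≤ ∑ i, ∑ i', C₂ * (k0 β α *
              ∫ R' in Icc Ra (Ra + 1 / 2 ^ n), 2 ^ n * ‖Sb H₀ n (b' i i') R' α w‖)
            rw [hF]
            simp only [Finset.mul_sum]
            refine Finset.sum_le_sum (fun i _ => ?_)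
            have h5 := hb' i Ra w hw α R hR
            calc k0 β α * ‖Sb H₀ n (b i) R α w‖
                ≤ k0 β α * (C₂ * ∑ i', ∫ R' in Icc Ra (Ra + 1 / 2 ^ n), 2 ^ n * ‖Sb H₀ n (b' i i') R' α w‖) :=
                  mul_le_mul_of_nonneg_left h5 h4
              _ = _ := by
                  rw [Finset.mul_sum, Finset.mul_sum]
                  refine Finset.sum_congr rfl (fun i' _ => ?_)
                  ring
      _ = ∑ i, ∑ i', C₂ * Zf β n Ra (fun R α k => b' i i' α k * ee (-(R * nk k * gph H₀ k α))) w := by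
          rw [integral_finsetSum _ (fun i _ => integrable_finsetSum _ (fun i' _ => (hin i i').const_mul C₂))]
          refine Finset.sum_congr rfl (fun i _ => ?_)
          rw [integral_finsetSum _ (fun i' _ => (hin i i').const_mul C₂)]
          refine Finset.sum_congr rfl (fun i' _ => ?_)
          rw [integral_const_mul, Zf_swap h0 hβ n Ra (b' i i') (hbc' i i') w]
      _ = _ := by
          rw [Finset.mul_sum, ← Fintype.sum_prod_type', ← finProdFinEquiv.symm.sum_comp]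
  set Z : ℝ := ∑ p : Fin (nT₁ * nT₂), Zf β n Ra
      (fun R α k => b' (finProdFinEquiv.symm p).1 (finProdFinEquiv.symm p).2 α k *
        ee (-(R * nk k * gph H₀ k α))) w with hZ
  have hZ0 : 0 ≤ Z := by
    refine Finset.sum_nonneg (fun p _ => ?_)
    unfold Zf
    refine integral_nonneg (fun R => integral_nonneg (fun α => ?_))
    have := c6_k0_nonneg hβ α
    show (0 : ℝ) ≤ 2 ^ n * k0 β α * ‖_‖
    positivity
  set P : ℝ := R₀ ^ (1 / 2 : ℝ) * ((2 : ℝ) ^ n) ^ (-(3 / 2) : ℝ) with hP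
  have hP0 : 0 < P := by positivity
  have hp3 : P * (β * (2 ^ n) ^ 2) = 1 := pow_id3 hR₀' hK
  have h44 : (4 : ℝ) ^ n = (2 ^ n) ^ 2 := by
    rw [← pow_mul, mul_comm, pow_mul]
    norm_num
  have hA2 : A ≤ C₂ * Z + 2 * β * (nT₁ * (25 * 4 ^ n)) * (2 * π) := by
    rw [hsplit]
    exact add_le_add hgood hbad
  calc ‖VK φ (fun θ => R * Hw H₀ w θ + σ * δ) δ n‖ ≤ 4 * C₁ * P * A := step1
    _ ≤ 4 * C₁ * P * (C₂ * Z + 2 * β * (nT₁ * (25 * 4 ^ n)) * (2 * π)) :=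
        mul_le_mul_of_nonneg_left hA2 (by positivity)
    _ = 4 * C₁ * C₂ * P * Z + C₁ * nT₁ * (400 * π) * (P * (β * (2 ^ n) ^ 2)) := by
        rw [h44]
        ring
    _ = 4 * C₁ * C₂ * P * Z + C₁ * nT₁ * (400 * π) := by rw [hp3, mul_one]
    _ ≤ (4 * C₁ * C₂ + C₁ * nT₁ * 1600) * P * Z + (4 * C₁ * C₂ + C₁ * nT₁ * 1600) := by
        have h5 : C₁ * nT₁ * (400 * π) ≤ C₁ * nT₁ * 1600 := by
          refine mul_le_mul_of_nonneg_left ?_ (by positivity)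
          linarith [Real.pi_le_four]
        have h6 : 0 ≤ C₁ * nT₁ * 1600 * (P * Z) := by positivity
        have h7 : 0 ≤ 4 * C₁ * C₂ := by positivity
        nlinarith
    _ = _ := by
        rw [hP]
        ring

end Pool.Agent.Helper22.AE
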