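import Pool.Agent.Helper22.AE.Defs

/-!
# AE-D1: the separation lemma (paper 4a)

PROOF. Fix `i`. `p(x) = ∏_{j ≠ i} (x - z j) (x - z' j)`, a polynomial of degree `2J - 2`, `p(x) = ∑_{l ≤ 2J-2} p_l x^l` with
`∑ |p_l| ≤ P := 4^(J-1)` (each factor has coefficient sum `2`; induct over the product, e.g. with `Polynomial` and the norm
`∑ ‖coeff‖`, or avoid coefficients: prove by induction on a finset `S` not containing `i` the statement: for every `a` with
`a + 2 |S| ≤ 2J - 1`: `‖∑_m (r m z m^a ∏_{j∈S}(z m - z j)(z m - z' j) - r' m z' m^a ∏_{j∈S} (z' m - z j)(z' m - z' j))‖ ≤ 4^|S| η`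
(one new factor `(x - c)`, `|c| = 1`, doubles the bound, uses `a` and `a + 1`)). With `S = univ \ {i}` only the term `m = i` survives:
`A = r i p(z i)`, `A' = r' i p(z' i)`: `‖A - A'‖ ≤ P η` (`a = 0`), `‖z i A - z' i A'‖ ≤ P η` (`a = 1`).
Hence `‖A‖ ‖z i - z' i‖ ≤ 2 P η`; `‖A‖ ≥ K ‖p(z i)‖`, `‖p(z i)‖ ≥ τ^(2J-2)`, so `‖z i - z' i‖ ≤ 2 P η / (K τ^(2J-2)) ≤ τ / (2J)` by `hH`.
`p(z i) (r i z i - r' i z' i) = (z i A - z' i A') + z' i r' i (p(z' i) - p(z i))`. Telescoping over the `2J - 2` factors `(x - c)`: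
`‖p(z' i) - p(z i)‖ ≤ ‖z i - z' i‖ ∑_c ∏_{others} (1 + 1/(2J)) ‖z i - c'‖ ≤ ‖z i - z' i‖ (2J) e ‖p(z i)‖ / τ`
(`‖z' i - c‖ ≤ ‖z i - c‖ + τ/(2J) ≤ (1 + 1/(2J)) ‖z i - c‖`, `(1 + 1/(2J))^(2J) ≤ e ≤ 3`). A convenient form: for complex `a_c ≠ 0`, `b`,
`‖b‖ ≤ τ/(2J)`, `‖a_c‖ ≥ τ`, at most `2J` factors: `‖∏ (a_c + b) - ∏ a_c‖ ≤ 6 J ‖b‖ / τ * ∏ ‖a_c‖` (induction).
Since `‖p(z i)‖ K ‖z i - z' i‖ ≤ 2 P η` and `r' i ≤ 2K`: `‖p(z i)‖ ‖r i z i - r' i z' i‖ ≤ P η + 2 (6J/τ) 2 P η ≤ 25 J P η / τ`; divide by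
`‖p(z i)‖ ≥ τ^(2J-2)` and use `P = 4^(J-1) ≤ 4^J`.
-/

open Real Set Filter Topology

set_option autoImplicit false

namespace Pool.Agent.Helper22.AE

/-- a product of perturbed factors (helper52) -/
private lemma prod_pert {ι : Type*} [DecidableEq ι] (A B : ι → ℂ) {δ : ℝ} (hδ : 0 ≤ δ) (S : Finset ι)
    (h : ∀ j ∈ S, ‖A j - B j‖ ≤ δ * ‖B j‖) :
    ‖∏ j ∈ S, A j‖ ≤ (1 + δ) ^ S.card * ∏ j ∈ S, ‖B j‖ ∧
      ‖∏ j ∈ S, A j - ∏ j ∈ S, B j‖ ≤ ((1 + δ) ^ S.card - 1) * ∏ j ∈ S, ‖B j‖ := by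
  induction S using Finset.induction_on with
  | empty => simp
  | insert j S hj ih =>
    obtain ⟨h1, h2⟩ := ih (fun k hk => h k (Finset.mem_insert_of_mem hk))
    have hj' := h j (Finset.mem_insert_self j S)
    have hA : ‖A j‖ ≤ (1 + δ) * ‖B j‖ := by
      calc ‖A j‖ = ‖(A j - B j) + B j‖ := by rw [sub_add_cancel]
        _ ≤ ‖A j - B j‖ + ‖B j‖ := norm_add_le _ _
        _ ≤ _ := by linarith
    have hP : 0 ≤ ∏ j ∈ S, ‖B j‖ := Finset.prod_nonneg fun _ _ => norm_nonneg _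
    have hB : 0 ≤ ‖B j‖ := norm_nonneg _
    rw [Finset.prod_insert hj, Finset.prod_insert hj, Finset.prod_insert hj,
      Finset.card_insert_of_notMem hj]
    constructor
    · rw [norm_mul]
      calc ‖A j‖ * ‖∏ j ∈ S, A j‖ ≤ ((1 + δ) * ‖B j‖) * ((1 + δ) ^ S.card * ∏ j ∈ S, ‖B j‖) :=
            mul_le_mul hA h1 (norm_nonneg _) (by positivity)
        _ = _ := by rw [pow_succ]; ring
    · have e : A j * ∏ j ∈ S, A j - B j * ∏ j ∈ S, B j =
          B j * (∏ j ∈ S, A j - ∏ j ∈ S, B j) + (A j - B j) * ∏ j ∈ S, A j := by ring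
      rw [e]
      calc ‖B j * (∏ j ∈ S, A j - ∏ j ∈ S, B j) + (A j - B j) * ∏ j ∈ S, A j‖
          ≤ ‖B j‖ * ‖∏ j ∈ S, A j - ∏ j ∈ S, B j‖ + ‖A j - B j‖ * ‖∏ j ∈ S, A j‖ := by
            refine (norm_add_le _ _).trans ?_
            rw [norm_mul, norm_mul]
        _ ≤ ‖B j‖ * (((1 + δ) ^ S.card - 1) * ∏ j ∈ S, ‖B j‖) +
            (δ * ‖B j‖) * ((1 + δ) ^ S.card * ∏ j ∈ S, ‖B j‖) :=
            add_le_add (mul_le_mul_of_nonneg_left h2 hB)
              (mul_le_mul hj' h1 (norm_nonneg _) (by positivity))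
        _ = _ := by rw [pow_succ]; ring

/-- the moment bound for products (helper52) -/
private lemma mom_prod {J : ℕ} {η : ℝ} (r r' : Fin J → ℝ) (z z' : Fin J → ℂ)
    (hz : ∀ i, ‖z i‖ = 1) (hz' : ∀ i, ‖z' i‖ = 1)
    (hM : ∀ l < 2 * J, ‖∑ i, ((r i : ℂ) * z i ^ l - (r' i : ℂ) * z' i ^ l)‖ ≤ η) (S : Finset (Fin J)) :
    ∀ a : ℕ, a + 2 * S.card < 2 * J →
      ‖∑ m, ((r m : ℂ) * z m ^ a * ∏ j ∈ S, ((z m - z j) * (z m - z' j)) -
        (r' m : ℂ) * z' m ^ a * ∏ j ∈ S, ((z' m - z j) * (z' m - z' j)))‖ ≤ 4 ^ S.card * η := by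
  induction S using Finset.induction_on with
  | empty =>
    intro a ha
    have := hM a (by simpa using ha)
    simpa using this
  | insert j S hj ih =>
    intro a ha
    rw [Finset.card_insert_of_notMem hj] at ha ⊢
    set f : ℕ → ℂ := fun a => ∑ m, ((r m : ℂ) * z m ^ a * ∏ j ∈ S, ((z m - z j) * (z m - z' j)) -
        (r' m : ℂ) * z' m ^ a * ∏ j ∈ S, ((z' m - z j) * (z' m - z' j))) with hf
    have h0 : ‖f a‖ ≤ 4 ^ S.card * η := ih a (by omega)
    have h1 : ‖f (a + 1)‖ ≤ 4 ^ S.card * η := ih (a + 1) (by omega)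
    have h2 : ‖f (a + 2)‖ ≤ 4 ^ S.card * η := ih (a + 2) (by omega)
    have e : ∑ m, ((r m : ℂ) * z m ^ a * ∏ k ∈ insert j S, ((z m - z k) * (z m - z' k)) -
        (r' m : ℂ) * z' m ^ a * ∏ k ∈ insert j S, ((z' m - z k) * (z' m - z' k))) =
        f (a + 2) - (z j + z' j) * f (a + 1) + z j * z' j * f a := by
      simp only [hf]
      rw [Finset.mul_sum, Finset.mul_sum, ← Finset.sum_sub_distrib, ← Finset.sum_add_distrib]
      refine Finset.sum_congr rfl fun m _ => ?_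
      rw [Finset.prod_insert hj, Finset.prod_insert hj, pow_succ, pow_succ, pow_succ]
      ring
    rw [e]
    have hη' : 0 ≤ 4 ^ S.card * η := (norm_nonneg _).trans h0
    have hs : ‖z j + z' j‖ ≤ 2 := by
      calc ‖z j + z' j‖ ≤ ‖z j‖ + ‖z' j‖ := norm_add_le _ _
        _ = 2 := by rw [hz, hz']; norm_num
    calc ‖f (a + 2) - (z j + z' j) * f (a + 1) + z j * z' j * f a‖
        ≤ ‖f (a + 2) - (z j + z' j) * f (a + 1)‖ + ‖z j * z' j * f a‖ := norm_add_le _ _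
      _ ≤ (‖f (a + 2)‖ + ‖(z j + z' j) * f (a + 1)‖) + ‖z j * z' j * f a‖ := by
          gcongr
          exact norm_sub_le _ _
      _ = (‖f (a + 2)‖ + ‖z j + z' j‖ * ‖f (a + 1)‖) + ‖f a‖ := by
          rw [norm_mul, norm_mul, norm_mul, hz, hz', one_mul, one_mul]
      _ ≤ (4 ^ S.card * η + 2 * (4 ^ S.card * η)) + 4 ^ S.card * η := by
          gcongr
      _ = 4 ^ (S.card + 1) * η := by rw [pow_succ]; ring

private lemma pow_sub_one_le {x : ℝ} (hx : 0 ≤ x) {n : ℕ} (hn : n * x ≤ 1) :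
    (1 + x) ^ n - 1 ≤ 2 * (n * x) := by
  have h0 : 0 ≤ (n : ℝ) * x := by positivity
  have h1 : (1 + x) ^ n ≤ Real.exp (n * x) := by
    rw [Real.exp_nat_mul]
    apply pow_le_pow_left₀ (by linarith)
    have := Real.add_one_le_exp x
    linarith
  have h2 := Real.abs_exp_sub_one_sub_id_le (x := (n : ℝ) * x) (by rw [abs_of_nonneg h0]; exact hn)
  have h3 := (abs_le.1 h2).2
  have h4 : ((n : ℝ) * x) ^ 2 ≤ n * x := by nlinarith
  linarith

theorem separation {J : ℕ} (hJ : 1 ≤ J) {K η τ : ℝ} (hK : 0 < K) (hη : 0 ≤ η) (hτ : 0 < τ) (hτ1 : τ ≤ 1)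
    (r r' : Fin J → ℝ) (z z' : Fin J → ℂ) (hz : ∀ i, ‖z i‖ = 1) (hz' : ∀ i, ‖z' i‖ = 1)
    (hr : ∀ i, K ≤ r i ∧ r i ≤ 2 * K) (hr' : ∀ i, K ≤ r' i ∧ r' i ≤ 2 * K)
    (hs : ∀ i j, i ≠ j → τ ≤ ‖z i - z j‖ ∧ τ ≤ ‖z i - z' j‖ ∧ τ ≤ ‖z' i - z j‖ ∧ τ ≤ ‖z' i - z' j‖)
    (hM : ∀ l < 2 * J, ‖∑ i, ((r i : ℂ) * z i ^ l - (r' i : ℂ) * z' i ^ l)‖ ≤ η)
    (hH : J * 4 ^ J * η ≤ K * τ ^ (2 * J - 1)) (i : Fin J) :
    ‖(r i : ℂ) * z i - (r' i : ℂ) * z' i‖ ≤ 25 * J * 4 ^ J * η / τ ^ (2 * J - 1) := by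
  have hη0 : 0 ≤ η := hη
  set S : Finset (Fin J) := Finset.univ.erase i with hS
  have hcard : S.card = J - 1 := by
    rw [hS, Finset.card_erase_of_mem (Finset.mem_univ i), Finset.card_univ, Fintype.card_fin]
  set p : ℂ → ℂ := fun x => ∏ j ∈ S, ((x - z j) * (x - z' j)) with hp
  have hzero : ∀ m, m ≠ i → p (z m) = 0 ∧ p (z' m) = 0 := by
    intro m hm
    have hmS : m ∈ S := Finset.mem_erase.2 ⟨hm, Finset.mem_univ m⟩
    exact ⟨Finset.prod_eq_zero hmS (by simp), Finset.prod_eq_zero hmS (by simp)⟩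
  have hmom : ∀ a, a ≤ 1 → ‖(r i : ℂ) * z i ^ a * p (z i) - (r' i : ℂ) * z' i ^ a * p (z' i)‖ ≤
      4 ^ (J - 1) * η := by
    intro a ha
    have h := mom_prod r r' z z' hz hz' hM S a (by rw [hcard]; omega)
    rw [hcard] at h
    have e : ∑ m, ((r m : ℂ) * z m ^ a * ∏ j ∈ S, ((z m - z j) * (z m - z' j)) -
        (r' m : ℂ) * z' m ^ a * ∏ j ∈ S, ((z' m - z j) * (z' m - z' j))) =
        (r i : ℂ) * z i ^ a * p (z i) - (r' i : ℂ) * z' i ^ a * p (z' i) := by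
      rw [Finset.sum_eq_single i]
      · intro m _ hm
        have := hzero m hm
        have h1 : ∏ j ∈ S, ((z m - z j) * (z m - z' j)) = 0 := this.1
        have h2 : ∏ j ∈ S, ((z' m - z j) * (z' m - z' j)) = 0 := this.2
        rw [h1, h2]; simp
      · intro h0; exact absurd (Finset.mem_univ i) h0
    rwa [e] at h
  set P : ℝ := 4 ^ (J - 1) with hP
  have hP4 : (4 : ℝ) ^ J = 4 * P := by
    rw [hP, ← pow_succ']
    congr 1
    omega
  have hPpos : 0 < P := by positivity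
  have hJ1 : (1 : ℝ) ≤ J := by exact_mod_cast hJ
  set A : ℂ := (r i : ℂ) * p (z i) with hA
  set A' : ℂ := (r' i : ℂ) * p (z' i) with hA'
  have h0 : ‖A - A'‖ ≤ P * η := by
    have := hmom 0 (by norm_num)
    simpa using this
  have h1 : ‖z i * A - z' i * A'‖ ≤ P * η := by
    have := hmom 1 le_rfl
    have e : (r i : ℂ) * z i ^ 1 * p (z i) - (r' i : ℂ) * z' i ^ 1 * p (z' i) =
        z i * A - z' i * A' := by rw [hA, hA']; ring
    rwa [e] at this
  set Q : ℝ := ‖p (z i)‖ with hQ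
  set d : ℝ := ‖z i - z' i‖ with hd
  have hd0 : 0 ≤ d := norm_nonneg _
  have hAn : ‖A‖ = r i * Q := by
    rw [hA, norm_mul, Complex.norm_real, Real.norm_of_nonneg (hK.le.trans (hr i).1)]
  have h2 : K * Q * d ≤ 2 * (P * η) := by
    have e : (z i - z' i) * A = (z i * A - z' i * A') - z' i * (A - A') := by ring
    have h3 : ‖(z i - z' i) * A‖ ≤ P * η + P * η := by
      rw [e]
      refine (norm_sub_le _ _).trans (add_le_add h1 ?_)
      rw [norm_mul, hz', one_mul]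
      exact h0
    rw [norm_mul, hAn] at h3
    have hQ0 : 0 ≤ Q := norm_nonneg _
    have h4 : K * Q * d ≤ d * (r i * Q) := by
      have := mul_le_mul_of_nonneg_right (hr i).1 (mul_nonneg hQ0 hd0)
      nlinarith
    linarith
  have hQlow : τ ^ (2 * J - 2) ≤ Q := by
    rw [hQ, hp]
    simp only
    rw [norm_prod]
    have e : τ ^ (2 * J - 2) = ∏ j ∈ S, (τ * τ) := by
      rw [Finset.prod_const, hcard, ← pow_two, ← pow_mul]
      congr 1
      omega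
    rw [e]
    refine Finset.prod_le_prod (fun j _ => by positivity) (fun j hj => ?_)
    have hij : i ≠ j := fun h => (Finset.mem_erase.1 hj).1 h.symm
    rw [norm_mul]
    exact mul_le_mul (hs i j hij).1 (hs i j hij).2.1 hτ.le (norm_nonneg _)
  have hτp : 0 < τ ^ (2 * J - 2) := by positivity
  have hQpos : 0 < Q := lt_of_lt_of_le hτp hQlow
  have hτs : τ ^ (2 * J - 1) = τ ^ (2 * J - 2) * τ := by
    rw [← pow_succ]
    congr 1
    omega
  -- `d ≤ τ / (2 J)`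
  have hdJ : 2 * J * d ≤ τ := by
    have h3 : 2 * J * (K * Q * d) ≤ K * Q * τ := by
      calc 2 * J * (K * Q * d) ≤ 2 * J * (2 * (P * η)) := by gcongr
        _ = J * 4 ^ J * η := by rw [hP4]; ring
        _ ≤ K * τ ^ (2 * J - 1) := hH
        _ = K * τ ^ (2 * J - 2) * τ := by rw [hτs]; ring
        _ ≤ K * Q * τ := by gcongr
    have h4 : K * Q * (2 * J * d) ≤ K * Q * τ := by linarith
    exact le_of_mul_le_mul_left h4 (by positivity)
  -- the perturbation of the product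
  have hpert : ‖p (z' i) - p (z i)‖ ≤ 4 * J * (d / τ) * Q := by
    set ε : ℝ := d / τ with hε
    have hε0 : 0 ≤ ε := by positivity
    have hετ : d = ε * τ := by rw [hε]; field_simp
    have hb : ∀ c : ℂ, τ ≤ ‖z i - c‖ → ‖z' i - z i‖ ≤ ε * ‖z i - c‖ := by
      intro c hc
      rw [norm_sub_rev, ← hd, hετ]
      exact mul_le_mul_of_nonneg_left hc hε0
    have h5 := prod_pert (fun j => (z' i - z j) * (z' i - z' j))
      (fun j => (z i - z j) * (z i - z' j)) (δ := (1 + ε) ^ 2 - 1) (by nlinarith) S (by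
        intro j hj
        have hij : i ≠ j := fun h => (Finset.mem_erase.1 hj).1 h.symm
        have hu := hb (z j) (hs i j hij).1
        have hv := hb (z' j) (hs i j hij).2.1
        have e : (z' i - z j) * (z' i - z' j) - (z i - z j) * (z i - z' j) =
            (z i - z j) * (z' i - z i) + (z' i - z i) * (z i - z' j) + (z' i - z i) * (z' i - z i) := by
          ring
        rw [e, norm_mul (z i - z j) (z i - z' j)]
        have hu0 := norm_nonneg (z i - z j)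
        have hv0 := norm_nonneg (z i - z' j)
        have hb0 := norm_nonneg (z' i - z i)
        calc ‖(z i - z j) * (z' i - z i) + (z' i - z i) * (z i - z' j) + (z' i - z i) * (z' i - z i)‖
            ≤ ‖z i - z j‖ * ‖z' i - z i‖ + ‖z' i - z i‖ * ‖z i - z' j‖ + ‖z' i - z i‖ * ‖z' i - z i‖ := by
              refine (norm_add₃_le).trans ?_
              rw [norm_mul, norm_mul, norm_mul]
          _ ≤ ‖z i - z j‖ * (ε * ‖z i - z' j‖) + (ε * ‖z i - z j‖) * ‖z i - z' j‖ +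
              (ε * ‖z i - z j‖) * (ε * ‖z i - z' j‖) := by gcongr
          _ = _ := by ring)
    have h6 := h5.2
    have e1 : 1 + ((1 + ε) ^ 2 - 1) = (1 + ε) ^ 2 := by ring
    rw [e1, hcard, ← pow_mul] at h6
    have e2 : ∏ j ∈ S, ‖(z i - z j) * (z i - z' j)‖ = Q := by
      rw [hQ, hp]; simp only; rw [norm_prod]
    rw [e2] at h6
    have hn : ((2 * (J - 1) : ℕ) : ℝ) ≤ 2 * J := by
      have : 2 * (J - 1) ≤ 2 * J := by omega
      exact_mod_cast this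
    have hnε : ((2 * (J - 1) : ℕ) : ℝ) * ε ≤ 1 := by
      have h7 : 2 * J * ε ≤ 1 := by
        rw [hε, ← mul_div_assoc, div_le_one hτ]
        exact hdJ
      exact (mul_le_mul_of_nonneg_right hn hε0).trans h7
    have h8 := pow_sub_one_le hε0 hnε
    calc ‖p (z' i) - p (z i)‖ ≤ ((1 + ε) ^ (2 * (J - 1)) - 1) * Q := h6
      _ ≤ (2 * (((2 * (J - 1) : ℕ) : ℝ) * ε)) * Q := by gcongr
      _ ≤ (2 * ((2 * J) * ε)) * Q := by gcongr
      _ = _ := by ring
  have hr'0 : 0 ≤ r' i := hK.le.trans (hr' i).1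
  have hfin : Q * ‖(r i : ℂ) * z i - (r' i : ℂ) * z' i‖ ≤ 17 * J * (P * η) / τ := by
    have e : p (z i) * ((r i : ℂ) * z i - (r' i : ℂ) * z' i) =
        (z i * A - z' i * A') + z' i * (r' i : ℂ) * (p (z' i) - p (z i)) := by
      rw [hA, hA']; ring
    rw [hQ, ← norm_mul, e]
    calc ‖(z i * A - z' i * A') + z' i * (r' i : ℂ) * (p (z' i) - p (z i))‖
        ≤ P * η + r' i * (4 * J * (d / τ) * Q) := by
          refine (norm_add_le _ _).trans (add_le_add h1 ?_)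
          rw [norm_mul, norm_mul, hz', one_mul, Complex.norm_real, Real.norm_of_nonneg hr'0]
          exact mul_le_mul_of_nonneg_left hpert hr'0
      _ ≤ P * η + (2 * K) * (4 * J * (d / τ) * Q) := by
          gcongr
          exact (hr' i).2
      _ = P * η + 8 * J / τ * (K * Q * d) := by ring
      _ ≤ P * η + 8 * J / τ * (2 * (P * η)) := by gcongr
      _ = (P * η) * 1 + 16 * J * (P * η) / τ := by ring
      _ ≤ (P * η) * (J / τ) + 16 * J * (P * η) / τ := by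
          have : 1 ≤ (J : ℝ) / τ := by
            rw [le_div_iff₀ hτ]; linarith
          gcongr
      _ = _ := by ring
  have hx0 := norm_nonneg ((r i : ℂ) * z i - (r' i : ℂ) * z' i)
  have h9 : τ ^ (2 * J - 2) * ‖(r i : ℂ) * z i - (r' i : ℂ) * z' i‖ ≤ 17 * J * (P * η) / τ :=
    (mul_le_mul_of_nonneg_right hQlow hx0).trans hfin
  rw [le_div_iff₀ (by positivity), hτs, hP4]
  have h10 : ‖(r i : ℂ) * z i - (r' i : ℂ) * z' i‖ * (τ ^ (2 * J - 2) * τ) ≤ 17 * J * (P * η) := by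
    have := mul_le_mul_of_nonneg_right h9 hτ.le
    rw [div_mul_cancel₀ _ hτ.ne'] at this
    linarith
  have h11 : 0 ≤ (J : ℝ) * (P * η) := by positivity
  nlinarith

end Pool.Agent.Helper22.AE
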