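import Pool.Agent.Helper22.AE.D1
import Pool.Agent.Helper22.AE.C3

/-!
# AE-D2: the number of collisions (paper 4b)

`Mom k k' l = ∑ i, nk (k i) zk (k i)^l - nk (k' i) zk (k' i)^l`.

PROOF of `collisions`. Let `S` be the set of solutions `k'`. (a) Every `k' ∈ S` satisfies, by `separation` applied to
`r i = nk (k i)`, `z i = zk (k i)` (note `(nk k : ℂ) * zk k = cz k`, lemma `nk_zk` of C3), `‖cz (k 0) - cz (k' 0)‖ ≤ ρ := 25 J 4^J η/τ^(2J-1)`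
(index `0 : Fin J`), so `|k 0 .1 - k' 0 .1| ≤ ρ` and the same for `.2`: at most `(2ρ+1)²` values of `k' 0` (`Int` intervals).
(b) `k' ↦ k' 0` is injective on `S`: let `k', k'' ∈ S` with `k' 0 = k'' 0`. The remaining `J - 1` indices (`Fin.succ`, write `J = J' + 1`)
satisfy the hypotheses of `separation` with `J'`, `2η`: the moments `Mom k' k'' l = Mom k k'' l - Mom k k' l` have norm `≤ 2η` for
`l < 2J`, and the term of index `0` is zero. `hH` for `J'`: from `h1`, as `τ ≤ 1`. So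
`‖cz (k' i) - cz (k'' i)‖ ≤ 25 J' 4^J' (2η)/τ^(2J'-1) < 1` by `h2` (`2J' - 1 = 2J - 3`), hence `k' i = k'' i` (integer coordinates).
Conclude with `Finset.card_le_card_of_injOn` into a product of two integer intervals `Finset.Icc ⌈a - ρ⌉ ⌊a + ρ⌋`, of cardinality `≤ 2ρ+1`.
-/

open Real Set Filter Topology

set_option autoImplicit false

namespace Pool.Agent.Helper22.AE

private lemma int_int_card (a : ℤ) {ρ : ℝ} (hρ : 0 ≤ ρ) :
    ((Finset.Icc ⌈(a : ℝ) - ρ⌉ ⌊(a : ℝ) + ρ⌋).card : ℝ) ≤ 2 * ρ + 1 := by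
  rw [Int.card_Icc]
  have h1 : (⌊(a : ℝ) + ρ⌋ : ℝ) ≤ a + ρ := Int.floor_le _
  have h2 : (a : ℝ) - ρ ≤ ⌈(a : ℝ) - ρ⌉ := Int.le_ceil _
  rcases le_or_gt 0 (⌊(a : ℝ) + ρ⌋ + 1 - ⌈(a : ℝ) - ρ⌉) with h | h
  · have h3 : (((⌊(a : ℝ) + ρ⌋ + 1 - ⌈(a : ℝ) - ρ⌉).toNat : ℕ) : ℝ) =
        ((⌊(a : ℝ) + ρ⌋ + 1 - ⌈(a : ℝ) - ρ⌉ : ℤ) : ℝ) := by
      have := Int.toNat_of_nonneg h
      exact_mod_cast this
    rw [h3]
    push_cast
    linarith
  · rw [Int.toNat_of_nonpos h.le]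
    push_cast
    linarith

private lemma cz_fst (k q : ℤ × ℤ) : |(k.1 : ℝ) - q.1| ≤ ‖cz k - cz q‖ := by
  have h := Complex.abs_re_le_norm (cz k - cz q)
  simpa [cz] using h

private lemma cz_snd (k q : ℤ × ℤ) : |(k.2 : ℝ) - q.2| ≤ ‖cz k - cz q‖ := by
  have h := Complex.abs_im_le_norm (cz k - cz q)
  simpa [cz] using h

theorem int_box_card (k : ℤ × ℤ) {ρ : ℝ} (hρ : 0 ≤ ρ) (S : Finset (ℤ × ℤ)) (hS : ∀ q ∈ S, ‖cz k - cz q‖ ≤ ρ) :
    (S.card : ℝ) ≤ (2 * ρ + 1) ^ 2 := by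
  have hsub : S ⊆ Finset.Icc ⌈(k.1 : ℝ) - ρ⌉ ⌊(k.1 : ℝ) + ρ⌋ ×ˢ
      Finset.Icc ⌈(k.2 : ℝ) - ρ⌉ ⌊(k.2 : ℝ) + ρ⌋ := by
    intro q hq
    have h1 := abs_le.mp ((cz_fst k q).trans (hS q hq))
    have h2 := abs_le.mp ((cz_snd k q).trans (hS q hq))
    rw [Finset.mem_product, Finset.mem_Icc, Finset.mem_Icc]
    refine ⟨⟨?_, ?_⟩, ⟨?_, ?_⟩⟩
    · exact Int.ceil_le.mpr (by linarith [h1.1, h1.2])
    · exact Int.le_floor.mpr (by linarith [h1.1, h1.2])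
    · exact Int.ceil_le.mpr (by linarith [h2.1, h2.2])
    · exact Int.le_floor.mpr (by linarith [h2.1, h2.2])
  have hc := Finset.card_le_card hsub
  rw [Finset.card_product] at hc
  have hc' : (S.card : ℝ) ≤ ((Finset.Icc ⌈(k.1 : ℝ) - ρ⌉ ⌊(k.1 : ℝ) + ρ⌋).card : ℝ) *
      ((Finset.Icc ⌈(k.2 : ℝ) - ρ⌉ ⌊(k.2 : ℝ) + ρ⌋).card : ℝ) := by exact_mod_cast hc
  refine hc'.trans ?_
  rw [sq]
  exact mul_le_mul (int_int_card k.1 hρ) (int_int_card k.2 hρ) (Nat.cast_nonneg _) (by linarith)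

private lemma cz_lt_one {k q : ℤ × ℤ} (h : ‖cz k - cz q‖ < 1) : k = q := by
  have h1 := abs_lt.mp ((cz_fst k q).trans_lt h)
  have h2 := abs_lt.mp ((cz_snd k q).trans_lt h)
  have e : ∀ a b : ℤ, -1 < (a : ℝ) - b → (a : ℝ) - b < 1 → a = b := by
    intro a b ha hb
    have h3 : -1 < a - b := by exact_mod_cast ha
    have h4 : a - b < 1 := by exact_mod_cast hb
    omega
  exact Prod.ext (e _ _ h1.1 h1.2) (e _ _ h2.1 h2.2)

open Classical in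
theorem collisions {J n : ℕ} (hJ : 2 ≤ J) {η τ : ℝ} (hη : 0 < η) (hτ : 0 < τ) (hτ1 : τ ≤ 1)
    (A : Fin J → Finset (ℤ × ℤ)) (hA : ∀ i, ∀ k ∈ A i, (2 : ℝ) ^ n ≤ nk k ∧ nk k ≤ 2 ^ (n + 1))
    (hs : ∀ i j, i ≠ j → ∀ k ∈ A i, ∀ k' ∈ A j, τ ≤ ‖zk k - zk k'‖)
    (h1 : J * 4 ^ J * (2 * η) ≤ 2 ^ n * τ ^ (2 * J - 1)) (h2 : 50 * J * 4 ^ J * η < τ ^ (2 * J - 3))
    (k : Fin J → ℤ × ℤ) (hk : k ∈ Fintype.piFinset A) :
    (((Fintype.piFinset A).filter (fun k' => ∀ l < 2 * J, ‖Mom k k' l‖ ≤ η)).card : ℝ) ≤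
      (2 * (25 * J * 4 ^ J * η / τ ^ (2 * J - 1)) + 1) ^ 2 := by
  obtain ⟨J', rfl⟩ : ∃ J', J = J' + 1 := ⟨J - 1, by omega⟩
  have hJ' : 1 ≤ J' := by omega
  set S := (Fintype.piFinset A).filter (fun k' => ∀ l < 2 * (J' + 1), ‖Mom k k' l‖ ≤ η) with hSdef
  have hK : (0 : ℝ) < 2 ^ n := by positivity
  have h2K : (2 : ℝ) ^ (n + 1) = 2 * 2 ^ n := by ring
  have hkA : ∀ i, k i ∈ A i := Fintype.mem_piFinset.mp hk
  have hSA : ∀ k' ∈ S, ∀ i, k' i ∈ A i := by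
    intro k' hk'
    exact Fintype.mem_piFinset.mp (Finset.mem_filter.mp hk').1
  have hSM : ∀ k' ∈ S, ∀ l < 2 * (J' + 1), ‖Mom k k' l‖ ≤ η := fun k' hk' =>
    (Finset.mem_filter.mp hk').2
  have hρ0 : 0 ≤ 25 * ((J' + 1 : ℕ) : ℝ) * 4 ^ (J' + 1) * η / τ ^ (2 * (J' + 1) - 1) := by positivity
  -- (a)
  have ha : ∀ k' ∈ S, ‖cz (k 0) - cz (k' 0)‖ ≤
      25 * ((J' + 1 : ℕ) : ℝ) * 4 ^ (J' + 1) * η / τ ^ (2 * (J' + 1) - 1) := by
    intro k' hk'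
    have h := separation (J := J' + 1) (by omega) hK hη.le hτ hτ1 (fun i => nk (k i))
      (fun i => nk (k' i)) (fun i => zk (k i)) (fun i => zk (k' i)) (fun i => zk_norm _)
      (fun i => zk_norm _) (fun i => by rw [← h2K]; exact hA i _ (hkA i))
      (fun i => by rw [← h2K]; exact hA i _ (hSA k' hk' i))
      (fun i j hij => ⟨hs i j hij _ (hkA i) _ (hkA j), hs i j hij _ (hkA i) _ (hSA k' hk' j),
        hs i j hij _ (hSA k' hk' i) _ (hkA j), hs i j hij _ (hSA k' hk' i) _ (hSA k' hk' j)⟩)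
      (fun l hl => hSM k' hk' l hl) (by
        refine le_trans ?_ h1
        have : 0 ≤ ((J' + 1 : ℕ) : ℝ) * 4 ^ (J' + 1) := by positivity
        nlinarith) 0
    rw [nk_zk, nk_zk] at h
    exact h
  -- (b)
  have hinj : Set.InjOn (fun k' : Fin (J' + 1) → ℤ × ℤ => k' 0) (S : Set (Fin (J' + 1) → ℤ × ℤ)) := by
    intro k' hk' k'' hk'' he
    rw [Finset.mem_coe] at hk' hk''
    have he' : k' 0 = k'' 0 := he
    have hM2 : ∀ l < 2 * J', ‖∑ i : Fin J', ((nk (k' i.succ) : ℂ) * zk (k' i.succ) ^ l -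
        (nk (k'' i.succ) : ℂ) * zk (k'' i.succ) ^ l)‖ ≤ 2 * η := by
      intro l hl
      have e1 : (∑ i : Fin J', ((nk (k' i.succ) : ℂ) * zk (k' i.succ) ^ l -
          (nk (k'' i.succ) : ℂ) * zk (k'' i.succ) ^ l)) = Mom k k'' l - Mom k k' l := by
        unfold Mom
        rw [← Finset.sum_sub_distrib, Fin.sum_univ_succ, he']
        have e2 : ((nk (k 0) : ℂ) * zk (k 0) ^ l - (nk (k'' 0) : ℂ) * zk (k'' 0) ^ l -
            ((nk (k 0) : ℂ) * zk (k 0) ^ l - (nk (k'' 0) : ℂ) * zk (k'' 0) ^ l)) = 0 := by ring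
        rw [e2, zero_add]
        refine Finset.sum_congr rfl fun i _ => ?_
        ring
      rw [e1]
      refine (norm_sub_le _ _).trans ?_
      have h3 := hSM k'' hk'' l (by omega)
      have h4 := hSM k' hk' l (by omega)
      linarith
    have hjj : ((J' : ℕ) : ℝ) * 4 ^ J' ≤ ((J' + 1 : ℕ) : ℝ) * 4 ^ (J' + 1) := by
      have h5 : ((J' : ℕ) : ℝ) ≤ ((J' + 1 : ℕ) : ℝ) := by push_cast; linarith
      have h6 : (4 : ℝ) ^ J' ≤ 4 ^ (J' + 1) := pow_le_pow_right₀ (by norm_num) (by omega)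
      exact mul_le_mul h5 h6 (by positivity) (by positivity)
    have hH2 : ((J' : ℕ) : ℝ) * 4 ^ J' * (2 * η) ≤ 2 ^ n * τ ^ (2 * J' - 1) := by
      calc ((J' : ℕ) : ℝ) * 4 ^ J' * (2 * η) ≤ ((J' + 1 : ℕ) : ℝ) * 4 ^ (J' + 1) * (2 * η) :=
            mul_le_mul_of_nonneg_right hjj (by positivity)
        _ ≤ 2 ^ n * τ ^ (2 * (J' + 1) - 1) := h1
        _ ≤ 2 ^ n * τ ^ (2 * J' - 1) :=
            mul_le_mul_of_nonneg_left (pow_le_pow_of_le_one hτ.le hτ1 (by omega)) hK.le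
    have hsucc : ∀ i j : Fin J', i ≠ j → i.succ ≠ j.succ := fun i j hij h =>
      hij (Fin.succ_injective _ h)
    funext i
    refine Fin.cases he' (fun i => ?_) i
    have h := separation (J := J') hJ' hK (by positivity : (0 : ℝ) ≤ 2 * η) hτ hτ1
      (fun i => nk (k' i.succ)) (fun i => nk (k'' i.succ)) (fun i => zk (k' i.succ))
      (fun i => zk (k'' i.succ)) (fun i => zk_norm _)
      (fun i => zk_norm _) (fun i => by rw [← h2K]; exact hA _ _ (hSA k' hk' _))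
      (fun i => by rw [← h2K]; exact hA _ _ (hSA k'' hk'' _))
      (fun i j hij => ⟨hs _ _ (hsucc i j hij) _ (hSA k' hk' _) _ (hSA k' hk' _),
        hs _ _ (hsucc i j hij) _ (hSA k' hk' _) _ (hSA k'' hk'' _),
        hs _ _ (hsucc i j hij) _ (hSA k'' hk'' _) _ (hSA k' hk' _),
        hs _ _ (hsucc i j hij) _ (hSA k'' hk'' _) _ (hSA k'' hk'' _)⟩)
      hM2 hH2 i
    rw [nk_zk, nk_zk] at h
    apply cz_lt_one
    refine h.trans_lt ?_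
    rw [div_lt_one (by positivity)]
    have e3 : 2 * (J' + 1) - 3 = 2 * J' - 1 := by omega
    rw [e3] at h2
    refine lt_of_le_of_lt ?_ h2
    have : 25 * ((J' : ℕ) : ℝ) * 4 ^ J' * (2 * η) = 50 * η * (((J' : ℕ) : ℝ) * 4 ^ J') := by ring
    rw [this]
    have h7 : 50 * ((J' + 1 : ℕ) : ℝ) * 4 ^ (J' + 1) * η =
        50 * η * (((J' + 1 : ℕ) : ℝ) * 4 ^ (J' + 1)) := by ring
    rw [h7]
    exact mul_le_mul_of_nonneg_left hjj (by positivity)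
  have hcard : S.card = (S.image (fun k' : Fin (J' + 1) → ℤ × ℤ => k' 0)).card :=
    (Finset.card_image_of_injOn hinj).symm
  rw [hcard]
  apply int_box_card (k 0) hρ0
  intro q hq
  obtain ⟨k', hk', rfl⟩ := Finset.mem_image.mp hq
  exact ha k' hk'

end Pool.Agent.Helper22.AE
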