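import Mathlib

/-!
# AE-D5: choice of the multilinearity (paper 4f)

PROOF. Case 1: `r ≤ 9/4` and `2/5 ≤ d`: take `J = 3`. `3d ≤ 3/2 ≤ 2 - e - 1/10 ≤ r - 1/10` (`e ≤ 1/10`);
`3(1+d) - d = 3 + 2d ≥ 3.8 ≥ 1 + r`... (`1 + r ≤ 3.25`); `3 + 2d - 2(5d - r) = 3 - 8d + 2r ≥ 1 + r - e` iff `2 - 8d + r + e ≥ 0`: true.
Case 2: otherwise `J = ⌈1 + r/(1+d)⌉₊`, so `1 + r/(1+d) ≤ J < 2 + r/(1+d)`; `J ≥ 2` since `r/(1+d) > 0`.
(ii) `J(1+d) ≥ 1 + d + r`. (i) `(2J-3)d < d + 2rd/(1+d) ≤ r - 1/10`: `r (1-d)/(1+d) ≥ d + 1/10`; at `d ≤ 1/2`: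
`(1-d)/(1+d) ≥ 1/3`, `r/3 ≥ 0.63 ≥ 0.6`. (`r ≥ 1.9`.)
(iii) is `J(3d - 1) ≤ r + d - 1 + e`. If `d ≤ 1/3` the left side is `≤ 0`. If `d > 1/3`: `J (3d-1) ≤ (2 + r/(1+d))(3d-1)`, and
`(2 + r/(1+d))(3d-1) ≤ r + d - 1` iff `(5d-1)(1+d) ≤ 2r(1-d)`; true for `d ≤ 2/5` (`1.4 ≤ 1.2·1.9`) and for `r > 9/4`, `d ≤ 1/2`
(`(5d-1)(1+d) ≤ 9/4 ≤ r ≤ 2r(1-d)`).
-/

open Real

set_option autoImplicit false

namespace Pool.Agent.Helper22.AE

theorem choose_J {r d e : ℝ} (he : 0 ≤ e) (he1 : e ≤ 1 / 10) (hr : 2 - e ≤ r) (hd : 0 < d) (hd1 : d ≤ 1 / 2) :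
    ∃ J : ℕ, 2 ≤ J ∧ (J : ℝ) ≤ r + 3 ∧ (2 * (J : ℝ) - 3) * d ≤ r - 1 / 10 ∧ 1 + r ≤ J * (1 + d) - d ∧
      1 + r - e ≤ J * (1 + d) - d - 2 * ((2 * (J : ℝ) - 1) * d - r) := by
  have hr' : 19 / 10 ≤ r := by linarith
  by_cases hc : r ≤ 9 / 4 ∧ 2 / 5 ≤ d
  · obtain ⟨h1, h2⟩ := hc
    refine ⟨3, by norm_num, ?_, ?_, ?_, ?_⟩ <;> push_cast <;> linarith
  · have hc' : 9 / 4 < r ∨ d < 2 / 5 := by
      by_contra hcon
      push Not at hcon
      exact hc hcon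
    have hd0 : 0 < 1 + d := by linarith
    obtain ⟨x, hx⟩ : ∃ x, x = r / (1 + d) := ⟨_, rfl⟩
    have hxr : x * (1 + d) = r := by rw [hx]; field_simp
    have hx1 : 6 / 5 ≤ x := by
      rw [hx, le_div_iff₀ hd0]
      linarith
    have hx2 : x ≤ r := by
      rw [hx, div_le_iff₀ hd0]
      nlinarith
    have hJ1 : 1 + x ≤ (⌈1 + x⌉₊ : ℝ) := Nat.le_ceil _
    have hJ2 : (⌈1 + x⌉₊ : ℝ) < 1 + x + 1 := Nat.ceil_lt_add_one (by linarith)
    have hJn : 2 ≤ ⌈1 + x⌉₊ := by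
      have : (2 : ℝ) < (⌈1 + x⌉₊ : ℝ) := by linarith
      have h3 : 2 < ⌈1 + x⌉₊ := by exact_mod_cast this
      omega
    generalize ⌈1 + x⌉₊ = J at hJ1 hJ2 hJn
    refine ⟨J, hJn, by linarith, ?_, ?_, ?_⟩
    · have h1 : (2 * (J : ℝ) - 3) * d ≤ (1 + 2 * x) * d :=
        mul_le_mul_of_nonneg_right (by linarith) hd.le
      have h2 : 19 / 15 ≤ x := by
        rw [hx, le_div_iff₀ hd0]
        linarith
      have h3 : 19 / 30 ≤ x * (1 - d) := by nlinarith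
      have h4 : (1 + 2 * x) * d = x * (1 + d) - x * (1 - d) + d := by ring
      rw [h4, hxr] at h1
      linarith
    · have h1 : (1 + x) * (1 + d) ≤ J * (1 + d) := mul_le_mul_of_nonneg_right hJ1 hd0.le
      have h2 : (1 + x) * (1 + d) = 1 + d + r := by rw [add_mul, hxr]; ring
      linarith
    · have key : J * (3 * d - 1) ≤ r + d - 1 + e := by
        rcases le_or_gt d (1 / 3) with h | h
        · have : (J : ℝ) * (3 * d - 1) ≤ 0 :=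
            mul_nonpos_of_nonneg_of_nonpos (Nat.cast_nonneg J) (by linarith)
          linarith
        · have h1 : (J : ℝ) * (3 * d - 1) ≤ (2 + x) * (3 * d - 1) :=
            mul_le_mul_of_nonneg_right (by linarith) (by linarith)
          have h2 : (1 + d) * (5 * d - 1) ≤ r * (2 - 2 * d) := by
            rcases hc' with h' | h'
            · nlinarith
            · nlinarith
          have h3 : (2 + x) * (3 * d - 1) * (1 + d) ≤ (r + d - 1) * (1 + d) := by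
            have h4 : (2 + x) * (3 * d - 1) * (1 + d) = 2 * (1 + d) * (3 * d - 1) + x * (1 + d) * (3 * d - 1) := by
              ring
            rw [h4, hxr]
            nlinarith
          have h5 : (2 + x) * (3 * d - 1) ≤ r + d - 1 := le_of_mul_le_mul_right h3 hd0
          linarith
      have h6 : J * (1 + d) - d - 2 * ((2 * (J : ℝ) - 1) * d - r) = - (J * (3 * d - 1)) + d + 2 * r := by
        ring
      rw [h6]
      linarith

end Pool.Agent.Helper22.AE
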