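import Mathlib

/-!
# AlmostEveryDomain (MP_fb29e9_nt): definitions

Paper proof: /team-store/h22_AE_proof.md. `ee x = exp (2 π i x)`; the plane is `ℝ × ℝ`, the lattice `ℤ × ℤ`.
-/

open MeasureTheory Real Set Filter Topology

set_option autoImplicit false

namespace Pool.Agent.Helper22.AE

/-- `e(x) = exp (2 π i x)` -/
noncomputable def ee (x : ℝ) : ℂ := Complex.exp (((2 * π * x : ℝ) : ℂ) * Complex.I)

lemma ee_norm (x : ℝ) : ‖ee x‖ = 1 := Complex.norm_exp_ofReal_mul_I _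

lemma ee_add (x y : ℝ) : ee (x + y) = ee x * ee y := by
  unfold ee
  rw [← Complex.exp_add]
  congr 1
  push_cast
  ring

lemma ee_zero : ee 0 = 1 := by simp [ee]

lemma ee_neg (x : ℝ) : ee (-x) = (starRingEnd ℂ) (ee x) := by
  unfold ee
  rw [← Complex.exp_conj, map_mul, Complex.conj_I, Complex.conj_ofReal]
  congr 1
  push_cast
  ring

lemma ee_cont : Continuous ee := by
  unfold ee
  fun_prop

lemma ee_hasDerivAt (x : ℝ) : HasDerivAt ee (2 * π * Complex.I * ee x) x := by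
  have h3 : HasDerivAt (fun x : ℝ => 2 * π * x) (2 * π) x := by
    simpa using (hasDerivAt_id x).const_mul (2 * π)
  have h5 := (h3.ofReal_comp.mul_const Complex.I).cexp
  unfold ee
  refine h5.congr_deriv ?_
  push_cast
  ring

/-- `C²` support function of a strictly convex domain with the origin inside -/
structure IsSupp (H : ℝ → ℝ) : Prop where
  smooth : ContDiff ℝ 2 H
  per : Function.Periodic H (2 * π)
  pos : ∀ θ, 0 < H θ
  rho_pos : ∀ θ, 0 < H θ + deriv (deriv H) θ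

/-- the radius of curvature -/
noncomputable def rho (G : ℝ → ℝ) (θ : ℝ) : ℝ := G θ + deriv (deriv G) θ

/-- the convex domain with support function `G` -/
def dom (G : ℝ → ℝ) : Set (ℝ × ℝ) := {p | ∀ θ : ℝ, p.1 * cos θ + p.2 * sin θ ≤ G θ}

/-- the boundary point with outer normal `(cos θ, sin θ)` -/
noncomputable def bx (G : ℝ → ℝ) (θ : ℝ) : ℝ × ℝ :=
  (G θ * cos θ - deriv G θ * sin θ, G θ * sin θ + deriv G θ * cos θ)

/-- the Fourier transform of the indicator function of `dom G` at the integer frequency `k` -/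
noncomputable def ft (G : ℝ → ℝ) (k : ℤ × ℤ) : ℂ :=
  ∫ p in dom G, ee (-((k.1 : ℝ) * p.1 + (k.2 : ℝ) * p.2))

/-- lattice points in `R · dom H` -/
noncomputable def cnt (H : ℝ → ℝ) (R : ℝ) : ℝ :=
  (Nat.card {k : ℤ × ℤ // ∀ θ : ℝ, (k.1 : ℝ) * cos θ + (k.2 : ℝ) * sin θ ≤ R * H θ} : ℝ)

/-- the area of `dom H` -/
noncomputable def area (H : ℝ → ℝ) : ℝ := (volume (dom H)).toReal

/-- the complex number `k.1 + i k.2` -/
def cz (k : ℤ × ℤ) : ℂ := ⟨(k.1 : ℝ), (k.2 : ℝ)⟩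

/-- its absolute value -/
noncomputable def nk (k : ℤ × ℤ) : ℝ := ‖cz k‖

/-- its argument -/
noncomputable def tk (k : ℤ × ℤ) : ℝ := Complex.arg (cz k)

/-- its direction `exp (i tk)` -/
noncomputable def zk (k : ℤ × ℤ) : ℂ := Complex.exp ((tk k : ℂ) * Complex.I)

/-- the phase `g_h(k, α)`: `nk k * gph h k α = k · bx h (tk k + α)` -/
noncomputable def gph (h : ℝ → ℝ) (k : ℤ × ℤ) (α : ℝ) : ℝ :=
  h (tk k + α) * cos α - deriv h (tk k + α) * sin α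

/-- the multiplier `c_l(α) = exp (i l α) (cos α - i l sin α)` -/
noncomputable def cl (l : ℕ) (α : ℝ) : ℂ :=
  Complex.exp (((l * α : ℝ) : ℂ) * Complex.I) * (((cos α : ℝ) : ℂ) - ((l * sin α : ℝ) : ℂ) * Complex.I)

/-- the perturbed support function -/
noncomputable def Hw {L : ℕ} (H₀ : ℝ → ℝ) (w : (Fin L → ℝ) × (Fin L → ℝ)) (θ : ℝ) : ℝ :=
  H₀ θ + ∑ l : Fin L, (w.1 l * cos ((l : ℕ) * θ) + w.2 l * sin ((l : ℕ) * θ))

/-- the kernel `β / (sin² α + β²)` -/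
noncomputable def k0 (β α : ℝ) : ℝ := β / (sin α ^ 2 + β ^ 2)

/-- the random linear form `∑ l, w.1 l Re (c_l z^l) + w.2 l Im (c_l z^l)` -/
noncomputable def lform {L : ℕ} (k : ℤ × ℤ) (α : ℝ) (w : (Fin L → ℝ) × (Fin L → ℝ)) : ℝ :=
  ∑ l : Fin L, (w.1 l * (cl l α * zk k ^ (l : ℕ)).re + w.2 l * (cl l α * zk k ^ (l : ℕ)).im)

/-- the exponential sum over a finite set of lattice points -/
noncomputable def Tsum {L : ℕ} (A : Finset (ℤ × ℤ)) (v : ℤ × ℤ → ℂ) (R α : ℝ)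
    (w : (Fin L → ℝ) × (Fin L → ℝ)) : ℂ :=
  ∑ k ∈ A, v k * ee (-(R * nk k * lform k α w))

/-- the square `[-N, N]²` of the lattice -/
noncomputable def box (N : ℕ) : Finset (ℤ × ℤ) := Finset.Icc (-(N : ℤ)) N ×ˢ Finset.Icc (-(N : ℤ)) N

open Classical in
/-- the dyadic block `2^n ≤ |k| < 2^(n+1)` -/
noncomputable def blk (n : ℕ) : Finset (ℤ × ℤ) :=
  (box (2 ^ (n + 1))).filter (fun k => (2 : ℝ) ^ n ≤ nk k ∧ nk k < 2 ^ (n + 1))

/-- the Gaussian density on `ℝ^L × ℝ^L` -/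
noncomputable def gd {L : ℕ} (w : (Fin L → ℝ) × (Fin L → ℝ)) : ℝ :=
  exp (-π * (∑ l, w.1 l ^ 2 + ∑ l, w.2 l ^ 2))

/-- the Gaussian measure on `ℝ^L × ℝ^L` -/
noncomputable def gm (L : ℕ) : Measure ((Fin L → ℝ) × (Fin L → ℝ)) :=
  volume.withDensity (fun w => ENNReal.ofReal (gd w))

/-- Fourier transform of the smoothing function -/
noncomputable def fhat (φ : ℝ × ℝ → ℝ) (x y : ℝ) : ℂ :=
  ∫ p : ℝ × ℝ, ee (-(x * p.1 + y * p.2)) * (φ p : ℂ)

/-- a smoothing function -/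
structure IsBump (φ : ℝ × ℝ → ℝ) : Prop where
  cont : Continuous φ
  nonneg : ∀ p, 0 ≤ φ p
  supp : ∀ p : ℝ × ℝ, 1 < p.1 ^ 2 + p.2 ^ 2 → φ p = 0
  int_one : ∫ p, φ p = 1
  decay : ∀ A : ℕ, ∃ C : ℝ, ∀ x y : ℝ, ‖fhat φ x y‖ * (1 + sqrt (x ^ 2 + y ^ 2)) ^ A ≤ C

/-- the block sum `V_K`, `K = 2^n` -/
noncomputable def VK (φ : ℝ × ℝ → ℝ) (G : ℝ → ℝ) (δ : ℝ) (n : ℕ) : ℂ :=
  ∑ k ∈ blk n, ft G k * fhat φ (δ * k.1) (δ * k.2)

/-- the averaged exponential sum `∫ |S_w| dν₁` over the block `2^n`; `β` is the width of the kernel -/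
noncomputable def Zf {L : ℕ} (β : ℝ) (n : ℕ) (R₁ : ℝ) (v : ℝ → ℝ → ℤ × ℤ → ℂ)
    (w : (Fin L → ℝ) × (Fin L → ℝ)) : ℝ :=
  ∫ R in Icc R₁ (R₁ + 1 / 2 ^ n), ∫ α in Icc (-π) π ∩ {α | 1 / 2 ≤ |cos α|},
    2 ^ n * k0 β α * ‖Tsum (blk n) (v R α) R α w‖

/-- the moments `M_l = ∑ |k_i| z_i^l - |k'_i| z'_i^l` -/
noncomputable def Mom {J : ℕ} (k k' : Fin J → ℤ × ℤ) (l : ℕ) : ℂ :=
  ∑ i, ((nk (k i) : ℂ) * zk (k i) ^ l - (nk (k' i) : ℂ) * zk (k' i) ^ l)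

/-- the position of the direction of `k` on the circle `[0, 1)` -/
noncomputable def xk (k : ℤ × ℤ) : ℝ := Int.fract (tk k / (2 * π))

open Classical in
/-- the part of `B` in the arc number `j` of `N` equal arcs -/
noncomputable def arcSet (B : Finset (ℤ × ℤ)) (N j : ℕ) : Finset (ℤ × ℤ) :=
  B.filter (fun k => ⌊(N : ℝ) * xk k⌋₊ = j)

open Classical in
/-- index tuples with gaps at least two -/
noncomputable def gapT (J M : ℕ) : Finset (Fin J → Fin M) :=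
  Finset.univ.filter (fun I => ∀ a b, a ≠ b → (I a : ℕ) + 2 ≤ I b ∨ (I b : ℕ) + 2 ≤ I a)

/-- the multilinear square function of generation `s` -/
noncomputable def Xs {L : ℕ} (B : Finset (ℤ × ℤ)) (v : ℤ × ℤ → ℂ) (R α : ℝ) (M s J : ℕ)
    (w : (Fin L → ℝ) × (Fin L → ℝ)) : ℝ :=
  ∑ j ∈ Finset.range (8 * M ^ s), ∑ I ∈ gapT J M,
    ∏ t, ‖Tsum (arcSet B (8 * M ^ (s + 1)) (M * j + I t)) v R α w‖ ^ 2

end Pool.Agent.Helper22.AE
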