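import Pool.Agent.Helper22.AE.E0
import Pool.Agent.Helper22.AE.C3

/-!
# AE-E1: mean square of a product of exponential sums (paper 4d)

PROOF. `∏_i Tsum (A i) = ∑_{k ∈ piFinset A} (∏ v (k i)) ee (-(R ∑_i nk (k i) lform (k i) α w))` (`Finset.prod_univ_sum`). Square of the
norm: double sum over `k, k'`, the exponent of the pair is
`-R ∑_i (nk (k i) lform (k i) - nk (k' i) lform (k' i)) = -R ∑_l (w.1 l Re(c_l M_l) + w.2 l Im(c_l M_l))`, `M_l = Mom k k' l` (definition of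
`lform`, `Mom`). By `gm_char` the expectation of the pair is `exp(-π R² ∑_l ‖c_l‖² ‖M_l‖²) ∈ [0, 1]`, and it is
`≤ exp(-π R² η²/4)` if `‖M_l‖ > η` for some `l < 2J ≤ L` (`‖c_l α‖ ≥ |cos α| ≥ 1/2`, `cl_norm_ge`). Take norms of the double sum:
pairs with all `‖M_l‖ ≤ η` (`l < 2J`): at most `N` for each `k`.
-/

open MeasureTheory Real Set Filter Topology

set_option autoImplicit false

namespace Pool.Agent.Helper22.AE

theorem Tsum_cont {L : ℕ} (A : Finset (ℤ × ℤ)) (v : ℝ → ℝ → ℤ × ℤ → ℂ)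
    (hv : ∀ k, Continuous (fun p : ℝ × ℝ => v p.1 p.2 k)) :
    Continuous (fun q : (ℝ × ℝ) × ((Fin L → ℝ) × (Fin L → ℝ)) => Tsum A (v q.1.1 q.1.2) q.1.1 q.1.2 q.2) := by
  unfold Tsum
  refine continuous_finsetSum _ (fun k _ => ?_)
  refine ((hv k).comp continuous_fst).mul (ee_cont.comp ?_)
  refine Continuous.neg ?_
  refine ((continuous_fst.comp continuous_fst).mul continuous_const).mul ?_
  exact (lform_cont k).comp ((continuous_snd.comp continuous_fst).prodMk continuous_snd)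

theorem Tsum_norm_le {L : ℕ} (A : Finset (ℤ × ℤ)) (v : ℤ × ℤ → ℂ) (hv : ∀ k, ‖v k‖ ≤ 1) (R α : ℝ)
    (w : (Fin L → ℝ) × (Fin L → ℝ)) : ‖Tsum A v R α w‖ ≤ A.card := by
  unfold Tsum
  refine (norm_sum_le _ _).trans ?_
  calc ∑ k ∈ A, ‖v k * ee (-(R * nk k * lform k α w))‖ ≤ ∑ _k ∈ A, (1 : ℝ) := by
        refine Finset.sum_le_sum (fun k _ => ?_)
        rw [norm_mul, ee_norm, mul_one]
        exact hv k
    _ = A.card := by simp

/-- sum of phases -/
private theorem ee_sum {ι : Type} (s : Finset ι) (f : ι → ℝ) :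
    ee (∑ i ∈ s, f i) = ∏ i ∈ s, ee (f i) := by
  classical
  induction s using Finset.induction_on with
  | empty => simp [ee_zero]
  | insert a s ha ih => rw [Finset.sum_insert ha, Finset.prod_insert ha, ee_add, ih]

/-- the difference of the phases of two tuples -/
private theorem phase_diff {L J : ℕ} (k k' : Fin J → ℤ × ℤ) (R α : ℝ)
    (w : (Fin L → ℝ) × (Fin L → ℝ)) :
    (∑ i, -(R * nk (k i) * lform (k i) α w)) + -(∑ i, -(R * nk (k' i) * lform (k' i) α w)) =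
      ∑ l : Fin L, (w.1 l * (-R * (cl l α * Mom k k' l).re) +
        w.2 l * (-R * (cl l α * Mom k k' l).im)) := by
  have hM : ∀ l : ℕ, cl l α * Mom k k' l =
      ∑ i, (((nk (k i) : ℝ) : ℂ) * (cl l α * zk (k i) ^ l) -
        ((nk (k' i) : ℝ) : ℂ) * (cl l α * zk (k' i) ^ l)) := by
    intro l
    unfold Mom
    rw [Finset.mul_sum]
    refine Finset.sum_congr rfl (fun i _ => ?_)
    ring
  have hre : ∀ l : ℕ, (cl l α * Mom k k' l).re =
      ∑ i, (nk (k i) * (cl l α * zk (k i) ^ l).re - nk (k' i) * (cl l α * zk (k' i) ^ l).re) := by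
    intro l
    rw [hM l, Complex.re_sum]
    refine Finset.sum_congr rfl (fun i _ => ?_)
    rw [Complex.sub_re, Complex.re_ofReal_mul, Complex.re_ofReal_mul]
  have him : ∀ l : ℕ, (cl l α * Mom k k' l).im =
      ∑ i, (nk (k i) * (cl l α * zk (k i) ^ l).im - nk (k' i) * (cl l α * zk (k' i) ^ l).im) := by
    intro l
    rw [hM l, Complex.im_sum]
    refine Finset.sum_congr rfl (fun i _ => ?_)
    rw [Complex.sub_im, Complex.im_ofReal_mul, Complex.im_ofReal_mul]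
  have h1 : ∀ l : Fin L, w.1 l * (-R * (cl l α * Mom k k' l).re) +
        w.2 l * (-R * (cl l α * Mom k k' l).im) =
      ∑ i, (-R * nk (k i) * (w.1 l * (cl l α * zk (k i) ^ (l : ℕ)).re +
          w.2 l * (cl l α * zk (k i) ^ (l : ℕ)).im) +
        R * nk (k' i) * (w.1 l * (cl l α * zk (k' i) ^ (l : ℕ)).re +
          w.2 l * (cl l α * zk (k' i) ^ (l : ℕ)).im)) := by
    intro l
    rw [hre, him, Finset.mul_sum, Finset.mul_sum, Finset.mul_sum, Finset.mul_sum,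
      ← Finset.sum_add_distrib]
    refine Finset.sum_congr rfl (fun i _ => ?_)
    ring
  rw [Finset.sum_congr rfl (fun l _ => h1 l), Finset.sum_comm, ← Finset.sum_neg_distrib,
    ← Finset.sum_add_distrib]
  refine Finset.sum_congr rfl (fun i _ => ?_)
  unfold lform
  rw [neg_neg, Finset.mul_sum, Finset.mul_sum, ← Finset.sum_neg_distrib, ← Finset.sum_add_distrib]
  refine Finset.sum_congr rfl (fun l _ => ?_)
  ring

/-- the square of the norm of the product as a double sum -/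
private theorem sq_expand {L J : ℕ} (A : Fin J → Finset (ℤ × ℤ)) (v : ℤ × ℤ → ℂ) (R α : ℝ)
    (w : (Fin L → ℝ) × (Fin L → ℝ)) :
    ((∏ i, ‖Tsum (A i) v R α w‖ ^ 2 : ℝ) : ℂ) =
      ∑ k ∈ Fintype.piFinset A, ∑ k' ∈ Fintype.piFinset A,
        ((∏ i, v (k i)) * (starRingEnd ℂ) (∏ i, v (k' i))) *
          ee (∑ l : Fin L, (w.1 l * (-R * (cl l α * Mom k k' l).re) +
            w.2 l * (-R * (cl l α * Mom k k' l).im))) := by
  classical
  have h1 : ∏ i, Tsum (A i) v R α w = ∑ k ∈ Fintype.piFinset A,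
      (∏ i, v (k i)) * ee (∑ i, -(R * nk (k i) * lform (k i) α w)) := by
    unfold Tsum
    rw [Finset.prod_univ_sum]
    refine Finset.sum_congr rfl (fun k _ => ?_)
    rw [Finset.prod_mul_distrib, ee_sum]
  have h2 : ((∏ i, ‖Tsum (A i) v R α w‖ ^ 2 : ℝ) : ℂ) =
      (∏ i, Tsum (A i) v R α w) * (starRingEnd ℂ) (∏ i, Tsum (A i) v R α w) := by
    rw [Complex.mul_conj, Complex.normSq_eq_norm_sq, norm_prod, Finset.prod_pow]
  rw [h2, h1, map_sum, Finset.sum_mul_sum]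
  refine Finset.sum_congr rfl (fun k _ => Finset.sum_congr rfl (fun k' _ => ?_))
  rw [map_mul, ← ee_neg, ← phase_diff k k' R α w, ee_add]
  ring

private theorem int_ee {L : ℕ} (c : ℂ) (x y : Fin L → ℝ) :
    Integrable (fun w : (Fin L → ℝ) × (Fin L → ℝ) =>
      c * ee (∑ l : Fin L, (w.1 l * x l + w.2 l * y l))) (gm L) := by
  have hc : Continuous (fun w : (Fin L → ℝ) × (Fin L → ℝ) =>
      c * ee (∑ l : Fin L, (w.1 l * x l + w.2 l * y l))) := by
    refine continuous_const.mul (ee_cont.comp ?_)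
    fun_prop
  refine Integrable.of_bound hc.aestronglyMeasurable ‖c‖ (Filter.Eventually.of_forall fun w => ?_)
  rw [norm_mul, ee_norm, mul_one]

open Classical in
theorem mean_sq {L J : ℕ} (hJ : 2 * J ≤ L) (A : Fin J → Finset (ℤ × ℤ)) (v : ℤ × ℤ → ℂ) (hv : ∀ k, ‖v k‖ ≤ 1)
    {R α η N : ℝ} (hR : 0 < R) (hα : 1 / 2 ≤ |cos α|) (hη : 0 < η)
    (hN : ∀ k ∈ Fintype.piFinset A,
      (((Fintype.piFinset A).filter (fun k' => ∀ l < 2 * J, ‖Mom k k' l‖ ≤ η)).card : ℝ) ≤ N) :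
    ∫ w, ∏ i, ‖Tsum (A i) v R α w‖ ^ 2 ∂(gm L) ≤
      (∏ i, ((A i).card : ℝ)) * N + (∏ i, ((A i).card : ℝ)) ^ 2 * exp (-(π / 4) * R ^ 2 * η ^ 2) := by
  set S := Fintype.piFinset A with hS
  set ex := exp (-(π / 4) * R ^ 2 * η ^ 2) with hex
  have hex0 : 0 ≤ ex := (exp_pos _).le
  have hcard : (S.card : ℝ) = ∏ i, ((A i).card : ℝ) := by
    rw [hS, Fintype.card_piFinset]
    push_cast
    rfl
  rw [← hcard]
  -- the expectation of a pair
  set E : (Fin J → ℤ × ℤ) → (Fin J → ℤ × ℤ) → ℝ := fun k k' =>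
    exp (-π * (∑ l : Fin L, (-R * (cl l α * Mom k k' l).re) ^ 2 +
      ∑ l : Fin L, (-R * (cl l α * Mom k k' l).im) ^ 2)) with hE
  have hE0 : ∀ k k', 0 ≤ E k k' := fun k k' => (exp_pos _).le
  have hE1 : ∀ k k', E k k' ≤ 1 := by
    intro k k'
    rw [hE]
    refine exp_le_one_iff.mpr ?_
    have h1 : 0 ≤ ∑ l : Fin L, (-R * (cl l α * Mom k k' l).re) ^ 2 +
        ∑ l : Fin L, (-R * (cl l α * Mom k k' l).im) ^ 2 := by positivity
    have h2 := mul_nonneg pi_pos.le h1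
    linarith only [h2]
  have hE2 : ∀ k k', ¬ (∀ l < 2 * J, ‖Mom k k' l‖ ≤ η) → E k k' ≤ ex := by
    intro k k' hne
    push Not at hne
    obtain ⟨l, hl, hM⟩ := hne
    rw [hE, hex]
    refine exp_le_exp.mpr ?_
    obtain ⟨l', rfl⟩ : ∃ l' : Fin L, (l' : ℕ) = l := ⟨⟨l, lt_of_lt_of_le hl hJ⟩, rfl⟩
    clear hl
    have h1 : ∑ l : Fin L, (-R * (cl l α * Mom k k' l).re) ^ 2 +
        ∑ l : Fin L, (-R * (cl l α * Mom k k' l).im) ^ 2 =
        ∑ l : Fin L, (R ^ 2 * ‖cl l α * Mom k k' l‖ ^ 2) := by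
      rw [← Finset.sum_add_distrib]
      refine Finset.sum_congr rfl (fun l _ => ?_)
      rw [← Complex.normSq_eq_norm_sq, Complex.normSq_apply]
      ring
    have h2 : R ^ 2 * ‖cl l' α * Mom k k' l'‖ ^ 2 ≤
        ∑ l : Fin L, (R ^ 2 * ‖cl l α * Mom k k' l‖ ^ 2) :=
      Finset.single_le_sum (f := fun l : Fin L => R ^ 2 * ‖cl l α * Mom k k' l‖ ^ 2)
        (fun i _ => mul_nonneg (sq_nonneg _) (sq_nonneg _)) (Finset.mem_univ l')
    have h3 : 1 / 2 * η ≤ ‖cl l' α * Mom k k' l'‖ := by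
      rw [norm_mul]
      exact mul_le_mul (hα.trans (cl_norm_ge l' α)) hM.le hη.le (norm_nonneg _)
    have h4 : (1 / 2 * η) ^ 2 ≤ ‖cl l' α * Mom k k' l'‖ ^ 2 :=
      pow_le_pow_left₀ (by positivity) h3 2
    have h5 : R ^ 2 * (1 / 2 * η) ^ 2 ≤ R ^ 2 * ‖cl l' α * Mom k k' l'‖ ^ 2 :=
      mul_le_mul_of_nonneg_left h4 (sq_nonneg R)
    have h6 := mul_le_mul_of_nonneg_left (h5.trans h2) pi_pos.le
    rw [h1]
    linarith only [h6]
  -- the integral as a double sum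
  have hint : ((∫ w, ∏ i, ‖Tsum (A i) v R α w‖ ^ 2 ∂(gm L) : ℝ) : ℂ) =
      ∑ k ∈ S, ∑ k' ∈ S, ((∏ i, v (k i)) * (starRingEnd ℂ) (∏ i, v (k' i))) * ((E k k' : ℝ) : ℂ) := by
    rw [← integral_complex_ofReal]
    rw [integral_congr_ae (Filter.Eventually.of_forall (fun w => sq_expand A v R α w))]
    rw [integral_finsetSum _ (fun k _ => integrable_finsetSum _ (fun k' _ => int_ee _ _ _))]
    refine Finset.sum_congr rfl (fun k _ => ?_)
    rw [integral_finsetSum _ (fun k' _ => int_ee _ _ _)]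
    refine Finset.sum_congr rfl (fun k' _ => ?_)
    rw [integral_const_mul, gm_char]
  have hprod : ∀ k : Fin J → ℤ × ℤ, ‖∏ i, v (k i)‖ ≤ 1 := by
    intro k
    rw [norm_prod]
    exact Finset.prod_le_one (fun i _ => norm_nonneg _) (fun i _ => hv _)
  have hle : ∫ w, ∏ i, ‖Tsum (A i) v R α w‖ ^ 2 ∂(gm L) ≤ ∑ k ∈ S, ∑ k' ∈ S, E k k' := by
    calc ∫ w, ∏ i, ‖Tsum (A i) v R α w‖ ^ 2 ∂(gm L)
        ≤ ‖((∫ w, ∏ i, ‖Tsum (A i) v R α w‖ ^ 2 ∂(gm L) : ℝ) : ℂ)‖ := by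
          rw [Complex.norm_real]
          exact le_abs_self _
      _ ≤ ∑ k ∈ S, ∑ k' ∈ S, E k k' := by
          rw [hint]
          refine (norm_sum_le _ _).trans (Finset.sum_le_sum fun k _ => ?_)
          refine (norm_sum_le _ _).trans (Finset.sum_le_sum fun k' _ => ?_)
          rw [norm_mul, norm_mul, RCLike.norm_conj, Complex.norm_real, Real.norm_eq_abs,
            abs_of_nonneg (hE0 k k')]
          have h1 : ‖∏ i, v (k i)‖ * ‖∏ i, v (k' i)‖ ≤ 1 :=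
            mul_le_one₀ (hprod k) (norm_nonneg _) (hprod k')
          exact mul_le_of_le_one_left (hE0 k k') h1
  refine hle.trans ?_
  have hk : ∀ k ∈ S, ∑ k' ∈ S, E k k' ≤ N + S.card * ex := by
    intro k hk
    rw [← Finset.sum_filter_add_sum_filter_not S (fun k' => ∀ l < 2 * J, ‖Mom k k' l‖ ≤ η)]
    refine add_le_add ?_ ?_
    · calc ∑ k' ∈ S.filter (fun k' => ∀ l < 2 * J, ‖Mom k k' l‖ ≤ η), E k k'
          ≤ ∑ _k' ∈ S.filter (fun k' => ∀ l < 2 * J, ‖Mom k k' l‖ ≤ η), (1 : ℝ) :=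
            Finset.sum_le_sum (fun k' _ => hE1 k k')
        _ ≤ N := by
            rw [Finset.sum_const, nsmul_eq_mul, mul_one]
            exact hN k hk
    · calc ∑ k' ∈ S.filter (fun k' => ¬ ∀ l < 2 * J, ‖Mom k k' l‖ ≤ η), E k k'
          ≤ ∑ _k' ∈ S.filter (fun k' => ¬ ∀ l < 2 * J, ‖Mom k k' l‖ ≤ η), ex := by
            refine Finset.sum_le_sum (fun k' hk' => ?_)
            exact hE2 k k' (Finset.mem_filter.mp hk').2
        _ = ((S.filter (fun k' => ¬ ∀ l < 2 * J, ‖Mom k k' l‖ ≤ η)).card : ℝ) * ex := by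
            rw [Finset.sum_const, nsmul_eq_mul]
        _ ≤ S.card * ex := by
            refine mul_le_mul_of_nonneg_right ?_ hex0
            exact_mod_cast Finset.card_filter_le _ _
  calc ∑ k ∈ S, ∑ k' ∈ S, E k k' ≤ ∑ _k ∈ S, (N + S.card * ex) := Finset.sum_le_sum hk
    _ = S.card * N + (S.card : ℝ) ^ 2 * ex := by
        rw [Finset.sum_const, nsmul_eq_mul]
        ring

end Pool.Agent.Helper22.AE
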