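import Pool.Agent.Helper22.AE.E1
import Pool.Agent.Helper22.AE.D2
import Pool.Agent.Helper22.AE.D3

/-!
# AE-E2: mean of the multilinear square function (paper 4g)

PROOF. Exchange the finite sums with the integral. For fixed `j < 8M^s`, `I ∈ gapT J M` apply `mean_sq` with
`A t = arcSet (blk n) (8M^(s+1)) (M j + I t)` (elements of `blk n`: `2^n ≤ nk < 2^(n+1)`), `N = (2ρ+1)²` from `collisions` with
`τ = 1/(2 M^(s+1)) ≤ 1`, separation by `arc_sep` (for `a ≠ b`, `I a + 2 ≤ I b` or conversely, `norm_sub_rev`). `#A t ≤ Dc` by `arc_card`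
(`N = 8M^(s+1) ≥ 8`). Number of terms: `8M^s · #(gapT J M) ≤ 8M^s M^J`.
-/

open MeasureTheory Real Set Filter Topology

set_option autoImplicit false

namespace Pool.Agent.Helper22.AE

/-- bound for the number of lattice points of the block `x = 2^n` in an arc of length `1/(8 M^t)` of the circle -/
noncomputable def Dc (x M : ℝ) (t : ℕ) : ℝ := 2 * (4 * x + 1) * (6 * x * (2 * π / (8 * M ^ t)) + 1)

/-- the quantity `25 J 4^J η / τ^(2J-1)`, `τ = 1/(2 M^t)` -/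
noncomputable def rr (J : ℕ) (M η : ℝ) (t : ℕ) : ℝ := 25 * J * 4 ^ J * η / (1 / (2 * M ^ t)) ^ (2 * J - 1)

theorem Xs_mean {L J M s n : ℕ} (hJ : 2 ≤ J) (hJL : 2 * J ≤ L) (hM : 1 ≤ M) (v : ℤ × ℤ → ℂ) (hv : ∀ k, ‖v k‖ ≤ 1)
    {R α η : ℝ} (hR : 0 < R) (hα : 1 / 2 ≤ |cos α|) (hη : 0 < η)
    (h1 : J * 4 ^ J * (2 * η) ≤ 2 ^ n * (1 / (2 * (M : ℝ) ^ (s + 1))) ^ (2 * J - 1))
    (h2 : 50 * J * 4 ^ J * η < (1 / (2 * (M : ℝ) ^ (s + 1))) ^ (2 * J - 3)) :
    ∫ w : (Fin L → ℝ) × (Fin L → ℝ), Xs (blk n) v R α M s J w ∂(gm L) ≤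
      8 * (M : ℝ) ^ s * M ^ J * (Dc (2 ^ n) M (s + 1) ^ J * (2 * rr J M η (s + 1) + 1) ^ 2 +
        Dc (2 ^ n) M (s + 1) ^ (2 * J) * exp (-(π / 4) * R ^ 2 * η ^ 2)) := by
  classical
  have hMpos : (0 : ℝ) < (M : ℝ) := by exact_mod_cast hM
  have hM1 : (1 : ℝ) ≤ (M : ℝ) := by exact_mod_cast hM
  have hcont : ∀ A : Finset (ℤ × ℤ),
      Continuous (fun w : (Fin L → ℝ) × (Fin L → ℝ) => Tsum A v R α w) := by
    intro A
    have hf : Continuous (fun w : (Fin L → ℝ) × (Fin L → ℝ) => (((R, α) : ℝ × ℝ), w)) := by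
      fun_prop
    have hg := Tsum_cont (L := L) A (fun _ _ => v) (fun k => continuous_const)
    have hh := hg.comp hf
    simp only [Function.comp_def] at hh
    exact hh
  have hint : ∀ A : Fin J → Finset (ℤ × ℤ),
      Integrable (fun w : (Fin L → ℝ) × (Fin L → ℝ) => ∏ t, ‖Tsum (A t) v R α w‖ ^ 2) (gm L) := by
    intro A
    refine Integrable.of_bound (C := ∏ t, ((A t).card : ℝ) ^ 2) ?_ ?_
    · exact (continuous_finsetProd _ fun t _ => ((hcont (A t)).norm.pow 2)).aestronglyMeasurable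
    · refine ae_of_all _ fun w => ?_
      rw [Real.norm_of_nonneg (by positivity)]
      exact Finset.prod_le_prod (fun i _ => by positivity)
        (fun i _ => pow_le_pow_left₀ (norm_nonneg _) (Tsum_norm_le _ v hv R α w) 2)
  set Bd : ℝ := Dc (2 ^ n) M (s + 1) ^ J * (2 * rr J M η (s + 1) + 1) ^ 2 +
        Dc (2 ^ n) M (s + 1) ^ (2 * J) * exp (-(π / 4) * R ^ 2 * η ^ 2) with hBd
  have hDc : 0 ≤ Dc (2 ^ n) M (s + 1) := by unfold Dc; positivity
  have hBd0 : 0 ≤ Bd := by rw [hBd]; positivity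
  have hτ : (0 : ℝ) < 1 / (2 * (M : ℝ) ^ (s + 1)) := by positivity
  have hτ1 : 1 / (2 * (M : ℝ) ^ (s + 1)) ≤ 1 := by
    rw [div_le_one (by positivity)]
    have := one_le_pow₀ hM1 (n := s + 1)
    linarith
  have key : ∀ j : ℕ, ∀ I ∈ gapT J M,
      ∫ w : (Fin L → ℝ) × (Fin L → ℝ),
        ∏ t, ‖Tsum (arcSet (blk n) (8 * M ^ (s + 1)) (M * j + I t)) v R α w‖ ^ 2 ∂(gm L) ≤ Bd := by
    intro j I hI
    have hI' : ∀ a b, a ≠ b → (I a : ℕ) + 2 ≤ I b ∨ (I b : ℕ) + 2 ≤ I a :=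
      (Finset.mem_filter.mp hI).2
    set A : Fin J → Finset (ℤ × ℤ) := fun t => arcSet (blk n) (8 * M ^ (s + 1)) (M * j + I t) with hA
    have hAm : ∀ i, ∀ k ∈ A i, (2 : ℝ) ^ n ≤ nk k ∧ nk k ≤ 2 ^ (n + 1) := by
      intro i k hk
      have h3 : k ∈ blk n := (Finset.mem_filter.mp hk).1
      have h4 := (Finset.mem_filter.mp h3).2
      exact ⟨h4.1, h4.2.le⟩
    have hAs : ∀ i i', i ≠ i' → ∀ k ∈ A i, ∀ k' ∈ A i',
        1 / (2 * (M : ℝ) ^ (s + 1)) ≤ ‖zk k - zk k'‖ := by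
      intro i i' hii k hk k' hk'
      rcases hI' i i' hii with h | h
      · exact arc_sep hM (I i').isLt h hk hk'
      · rw [norm_sub_rev]
        exact arc_sep hM (I i).isLt h hk' hk
    have hcard : ∀ t, ((A t).card : ℝ) ≤ Dc (2 ^ n) M (s + 1) := by
      intro t
      have h8 : 8 ≤ 8 * M ^ (s + 1) := Nat.le_mul_of_pos_right 8 (Nat.pow_pos hM)
      have h3 := arc_card n h8 (M * j + I t)
      unfold Dc
      push_cast at h3
      exact h3
    have hprod : ∏ t, ((A t).card : ℝ) ≤ Dc (2 ^ n) M (s + 1) ^ J := by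
      calc ∏ t, ((A t).card : ℝ) ≤ ∏ _t : Fin J, Dc (2 ^ n) M (s + 1) :=
            Finset.prod_le_prod (fun i _ => Nat.cast_nonneg _) (fun i _ => hcard i)
        _ = Dc (2 ^ n) M (s + 1) ^ J := by simp
    have hprod0 : 0 ≤ ∏ t, ((A t).card : ℝ) := Finset.prod_nonneg fun i _ => Nat.cast_nonneg _
    have hms := mean_sq hJL A v hv hR hα hη (N := (2 * rr J M η (s + 1) + 1) ^ 2)
      (fun k hk => by
        have := collisions hJ hη hτ hτ1 A hAm hAs h1 h2 k hk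
        unfold rr
        exact this)
    refine hms.trans ?_
    rw [hBd]
    refine add_le_add (mul_le_mul_of_nonneg_right hprod (by positivity)) ?_
    refine mul_le_mul_of_nonneg_right ?_ (Real.exp_pos _).le
    calc (∏ t, ((A t).card : ℝ)) ^ 2 ≤ (Dc (2 ^ n) M (s + 1) ^ J) ^ 2 :=
          pow_le_pow_left₀ hprod0 hprod 2
      _ = Dc (2 ^ n) M (s + 1) ^ (2 * J) := by rw [← pow_mul, mul_comm]
  have hgap : ((gapT J M).card : ℝ) ≤ (M : ℝ) ^ J := by
    have h3 : (gapT J M).card ≤ M ^ J := by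
      calc (gapT J M).card ≤ (Finset.univ : Finset (Fin J → Fin M)).card :=
            Finset.card_filter_le _ _
        _ = M ^ J := by simp
    exact_mod_cast h3
  unfold Xs
  rw [integral_finsetSum _ (fun j _ => integrable_finsetSum _ (fun I _ => hint _))]
  have hj : ∀ j ∈ Finset.range (8 * M ^ s),
      ∫ w : (Fin L → ℝ) × (Fin L → ℝ), ∑ I ∈ gapT J M,
        ∏ t, ‖Tsum (arcSet (blk n) (8 * M ^ (s + 1)) (M * j + I t)) v R α w‖ ^ 2 ∂(gm L) ≤
      (M : ℝ) ^ J * Bd := by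
    intro j _
    rw [integral_finsetSum _ (fun I _ => hint _)]
    calc _ ≤ ∑ _I ∈ gapT J M, Bd := Finset.sum_le_sum (fun I hI => key j I hI)
      _ = ((gapT J M).card : ℝ) * Bd := by rw [Finset.sum_const, nsmul_eq_mul]
      _ ≤ (M : ℝ) ^ J * Bd := mul_le_mul_of_nonneg_right hgap hBd0
  calc _ ≤ ∑ _j ∈ Finset.range (8 * M ^ s), (M : ℝ) ^ J * Bd := Finset.sum_le_sum hj
    _ = 8 * (M : ℝ) ^ s * M ^ J * Bd := by
        rw [Finset.sum_const, nsmul_eq_mul, Finset.card_range]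
        push_cast
        ring

end Pool.Agent.Helper22.AE
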