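import Mathlib

/-!
# AE-E3: abstract Markov-Hoelder inequality

PROOF. All functions are bounded and measurable, the measures are finite, so everything is integrable. Let `w` with `∫ F a w dν > lam`.
Since `∫ c0 dν ≤ c0 Cν ≤ lam/2` (if `c0 ≥ 0`), `c1 ∑_s ∫ X s a w ^ (1/(2J s)) dν > lam/2`, so for some `s < m`
`∫ X s a w ^ (1/(2 J s)) dν > lam/(2 c1 m)`. Hoelder (Jensen, concavity of `t ^ (1/(2J))`): `∫ X^(1/(2J)) dν ≤ (∫ X dν)^(1/(2J)) Cν^(1-1/(2J))
≤ (∫ X dν)^(1/(2J)) Cν`. Hence `∫ X s a w dν > (lam/(2 c1 m Cν))^(2J)`. Union bound over `s`, Markov's inequality and Fubini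
`∫ ∫ X s a w dν dγ = ∫ (∫ X s a w dγ) dν ≤ e s Cν`.
(Hoelder: `MeasureTheory.integral_mul_le_Lp_mul_Lq_of_nonneg` with exponents `2J` and its conjugate applied to `X^(1/2J)` and `1`, or
`Real.inner_le_nnorm_mul_nnorm`-type lemmas, or `ConcaveOn.le_map_average`.)
-/

open MeasureTheory Real Set Filter Topology

set_option autoImplicit false

namespace Pool.Agent.Helper22.AE

/-- tangent line bound for a concave power -/
private theorem e3_tangent {θ x τ : ℝ} (h0 : 0 ≤ θ) (h1 : θ ≤ 1) (hx : 0 ≤ x) (hτ : 0 < τ) :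
    x ^ θ ≤ τ ^ θ * (θ * (x / τ) + (1 - θ)) := by
  have h := Real.geom_mean_le_arith_mean2_weighted h0 (by linarith : (0 : ℝ) ≤ 1 - θ) (div_nonneg hx hτ.le) zero_le_one
    (by ring : θ + (1 - θ) = 1)
  rw [Real.one_rpow, mul_one, mul_one, Real.div_rpow hx hτ.le, div_le_iff₀ (Real.rpow_pos_of_pos hτ θ)] at h
  linarith

theorem markov_holder {Ω A : Type*} [MeasurableSpace Ω] [MeasurableSpace A] (γ : Measure Ω) [IsProbabilityMeasure γ]
    (ν : Measure A) [IsFiniteMeasure ν] {Cν : ℝ} (hCν : 1 ≤ Cν) (hν : ν.real univ ≤ Cν) {m : ℕ} (hm : 1 ≤ m)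
    (F : A → Ω → ℝ) (X : ℕ → A → Ω → ℝ) (hF : Measurable (Function.uncurry F))
    (hX : ∀ s, Measurable (Function.uncurry (X s))) {Bd : ℝ} (hF0 : ∀ a w, 0 ≤ F a w ∧ F a w ≤ Bd)
    (hX0 : ∀ s a w, 0 ≤ X s a w ∧ X s a w ≤ Bd) (J : ℕ → ℕ) (hJ : ∀ s, 1 ≤ J s) {c0 c1 : ℝ} (hc0 : 0 ≤ c0)
    (hc1 : 0 < c1)
    (hFX : ∀ a w, F a w ≤ c0 + c1 * ∑ s ∈ Finset.range m, X s a w ^ (1 / (2 * (J s : ℝ)))) (e : ℕ → ℝ)
    (he : ∀ s < m, ∀ᵐ a ∂ν, ∫ w, X s a w ∂γ ≤ e s) (he0 : ∀ s < m, 0 ≤ e s)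
    {lam : ℝ} (hlam : 2 * c0 * Cν ≤ lam) (hlam0 : 0 < lam) :
    γ.real {w | lam < ∫ a, F a w ∂ν} ≤
      ∑ s ∈ Finset.range m, (2 * c1 * m * Cν / lam) ^ (2 * J s) * (Cν * e s) := by
  have hm0 : (0 : ℝ) < m := by exact_mod_cast (by omega : 0 < m)
  have hCν0 : 0 < Cν := by linarith
  obtain ⟨ρ, hρ⟩ : ∃ ρ, ρ = lam / (2 * c1 * m * Cν) := ⟨_, rfl⟩
  have hρ0 : 0 < ρ := by rw [hρ]; positivity
  -- measurability of sections and integrability
  have hXm : ∀ s w, Measurable (fun a => X s a w) := fun s w => (hX s).comp measurable_prodMk_right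
  have hXi : ∀ s w, Integrable (fun a => X s a w) ν := fun s w =>
    Integrable.of_bound (hXm s w).aestronglyMeasurable Bd (Eventually.of_forall fun a => by
      rw [Real.norm_eq_abs, abs_of_nonneg (hX0 s a w).1]
      exact (hX0 s a w).2)
  have hFi : ∀ w, Integrable (fun a => F a w) ν := fun w =>
    Integrable.of_bound (hF.comp measurable_prodMk_right).aestronglyMeasurable Bd (Eventually.of_forall fun a => by
      show |F a w| ≤ Bd
      rw [abs_of_nonneg (hF0 a w).1]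
      exact (hF0 a w).2)
  have hGi : ∀ s, Integrable (fun p : Ω × A => X s p.2 p.1) (γ.prod ν) := fun s =>
    Integrable.of_bound ((hX s).comp measurable_swap).aestronglyMeasurable Bd (Eventually.of_forall fun p => by
      show |X s p.2 p.1| ≤ Bd
      rw [abs_of_nonneg (hX0 s p.2 p.1).1]
      exact (hX0 s p.2 p.1).2)
  have hθ : ∀ s, 0 ≤ 1 / (2 * (J s : ℝ)) ∧ 1 / (2 * (J s : ℝ)) ≤ 1 := by
    intro s
    have h1 : (1 : ℝ) ≤ J s := by exact_mod_cast hJ s
    refine ⟨by positivity, ?_⟩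
    rw [div_le_one (by linarith)]
    linarith
  -- the key implication
  have hkey : ∀ w, (∀ s ∈ Finset.range m, ∫ a, X s a w ∂ν ≤ ρ ^ (2 * J s)) → ∫ a, F a w ∂ν ≤ lam := by
    intro w hw
    have hpow : ∀ s, (ρ ^ (2 * J s)) ^ (1 / (2 * (J s : ℝ))) = ρ := by
      intro s
      have h1 : (J s : ℝ) ≠ 0 := by
        have := hJ s
        exact_mod_cast (by omega : J s ≠ 0)
      rw [← Real.rpow_natCast ρ (2 * J s), ← Real.rpow_mul hρ0.le]
      push_cast
      rw [mul_one_div, div_self (by positivity), Real.rpow_one]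
    have hXr : ∀ s, Integrable (fun a => X s a w ^ (1 / (2 * (J s : ℝ)))) ν := by
      intro s
      have hm1 : Measurable (fun a => X s a w ^ (1 / (2 * (J s : ℝ)))) := (hXm s w).pow_const _
      refine Integrable.of_bound hm1.aestronglyMeasurable (Bd ^ (1 / (2 * (J s : ℝ)))) (Eventually.of_forall fun a => ?_)
      rw [Real.norm_eq_abs, abs_of_nonneg (Real.rpow_nonneg (hX0 s a w).1 _)]
      exact Real.rpow_le_rpow (hX0 s a w).1 (hX0 s a w).2 (hθ s).1
    have h1 : ∀ s ∈ Finset.range m, ∫ a, X s a w ^ (1 / (2 * (J s : ℝ))) ∂ν ≤ ρ * Cν := by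
      intro s hs
      have hτ : 0 < ρ ^ (2 * J s) := by positivity
      have h2 : ∫ a, X s a w ^ (1 / (2 * (J s : ℝ))) ∂ν ≤
          ∫ a, ρ * (1 / (2 * (J s : ℝ)) * (X s a w / ρ ^ (2 * J s)) + (1 - 1 / (2 * (J s : ℝ)))) ∂ν := by
        apply integral_mono (hXr s)
        · exact (((hXi s w).div_const _).const_mul _ |>.add (integrable_const _)).const_mul _
        · intro a
          have h3 := e3_tangent (hθ s).1 (hθ s).2 (hX0 s a w).1 hτ
          rw [hpow s] at h3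
          exact h3
      refine h2.trans ?_
      rw [integral_const_mul, integral_add (((hXi s w).div_const _).const_mul _) (integrable_const _),
        integral_const_mul, integral_div, integral_const, smul_eq_mul]
      apply mul_le_mul_of_nonneg_left _ hρ0.le
      have h4 : (∫ a, X s a w ∂ν) / ρ ^ (2 * J s) ≤ 1 := by
        rw [div_le_one hτ]
        exact hw s hs
      have h5 := mul_le_mul_of_nonneg_left h4 (hθ s).1
      have h6 : ν.real univ * (1 - 1 / (2 * (J s : ℝ))) ≤ Cν * (1 - 1 / (2 * (J s : ℝ))) :=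
        mul_le_mul_of_nonneg_right hν (by linarith [(hθ s).2])
      have h7 : 1 / (2 * (J s : ℝ)) * 1 ≤ Cν * (1 / (2 * (J s : ℝ))) := by
        have := mul_le_mul_of_nonneg_right hCν (hθ s).1
        linarith
      linarith
    have h8 : ∫ a, F a w ∂ν ≤ ∫ a, (c0 + c1 * ∑ s ∈ Finset.range m, X s a w ^ (1 / (2 * (J s : ℝ)))) ∂ν := by
      apply integral_mono (hFi w)
      · exact (integrable_const _).add ((integrable_finsetSum _ fun s _ => hXr s).const_mul _)
      · intro a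
        exact hFX a w
    refine h8.trans ?_
    rw [integral_add (integrable_const _) ((integrable_finsetSum _ fun s _ => hXr s).const_mul _),
      integral_const_mul, integral_finsetSum _ (fun s _ => hXr s), integral_const, smul_eq_mul]
    have h9 : ∑ s ∈ Finset.range m, ∫ a, X s a w ^ (1 / (2 * (J s : ℝ))) ∂ν ≤ m * (ρ * Cν) := by
      calc ∑ s ∈ Finset.range m, ∫ a, X s a w ^ (1 / (2 * (J s : ℝ))) ∂ν ≤ ∑ s ∈ Finset.range m, ρ * Cν :=
            Finset.sum_le_sum h1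
        _ = m * (ρ * Cν) := by rw [Finset.sum_const, Finset.card_range, nsmul_eq_mul]
    have h10 : c1 * (m * (ρ * Cν)) = lam / 2 := by
      rw [hρ]
      field_simp
    have h11 : ν.real univ * c0 ≤ Cν * c0 := mul_le_mul_of_nonneg_right hν hc0
    have h12 := mul_le_mul_of_nonneg_left h9 hc1.le
    linarith
  -- union bound
  have hsub : {w | lam < ∫ a, F a w ∂ν} ⊆ ⋃ s ∈ Finset.range m, {w | ρ ^ (2 * J s) ≤ ∫ a, X s a w ∂ν} := by
    intro w hw
    by_contra hcon
    simp only [mem_iUnion, mem_ofPred_eq, not_exists, not_le] at hcon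
    have := hkey w fun s hs => (hcon s hs).le
    exact absurd hw (not_lt.2 this)
  have hmk : ∀ s ∈ Finset.range m, γ.real {w | ρ ^ (2 * J s) ≤ ∫ a, X s a w ∂ν} ≤
      (2 * c1 * m * Cν / lam) ^ (2 * J s) * (Cν * e s) := by
    intro s hs
    have hs' := Finset.mem_range.1 hs
    have h1 := mul_meas_ge_le_integral_of_nonneg (μ := γ) (f := fun w => ∫ a, X s a w ∂ν)
      (Eventually.of_forall fun w => integral_nonneg fun a => (hX0 s a w).1) (hGi s).integral_prod_left (ρ ^ (2 * J s))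
    have h2 : ∫ w, ∫ a, X s a w ∂ν ∂γ = ∫ a, ∫ w, X s a w ∂γ ∂ν := integral_integral_swap (hGi s)
    have h3 : ∫ a, ∫ w, X s a w ∂γ ∂ν ≤ Cν * e s := by
      have h4 : ∫ a, ∫ w, X s a w ∂γ ∂ν ≤ ∫ _a, e s ∂ν := by
        apply integral_mono_ae _ (integrable_const _) (he s hs')
        exact (hGi s).integral_prod_right
      refine h4.trans ?_
      rw [integral_const, smul_eq_mul]
      exact mul_le_mul_of_nonneg_right hν (he0 s hs')
    rw [h2] at h1
    have h5 : (2 * c1 * m * Cν / lam) ^ (2 * J s) = (ρ ^ (2 * J s))⁻¹ := by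
      rw [← inv_pow, hρ, inv_div]
    rw [h5, inv_mul_eq_div, le_div_iff₀ (by positivity), mul_comm]
    exact h1.trans h3
  calc γ.real {w | lam < ∫ a, F a w ∂ν} ≤ γ.real (⋃ s ∈ Finset.range m, {w | ρ ^ (2 * J s) ≤ ∫ a, X s a w ∂ν}) :=
        measureReal_mono hsub (measure_ne_top _ _)
    _ ≤ ∑ s ∈ Finset.range m, γ.real {w | ρ ^ (2 * J s) ≤ ∫ a, X s a w ∂ν} := measureReal_biUnion_finset_le _ _
    _ ≤ _ := Finset.sum_le_sum hmk

end Pool.Agent.Helper22.AE
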