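import Pool.Agent.Helper22.AE.Defs

/-!
# AE-F1: splitting the infinite product measure

`cmb L h t` is the sequence with the first `L` terms `h` and the shifted tail `t`.

PROOF of `cmb_map`: `Measure.eq_infinitePi` (uniqueness): for a finite set `s` and measurable `t i`, the preimage of the box under `cmb` is the
product of a box in `Fin L → E` and a box `((s.filter (L ≤ ·)).image (· - L))` of the tail; `Measure.pi_pi`, `Measure.infinitePi_pi`.
(`cmb` is measurable: `measurable_pi_iff`, each coordinate is a coordinate of `h` or of `t`.)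
PROOF of `ae_cmb`: let `S` be the measurable set, `Sᶜ` null: `infinitePi Sᶜ = (pi × infinitePi) (cmb⁻¹ Sᶜ) = ∫ pi {h | cmb h t ∉ S} dt`
(`Measure.prod_apply_symm`) `= 0`.
PROOF of `head_ae`: the map `h ↦ (s l (h l).1, s l (h l).2)` pushes `Measure.pi volume` on `Fin L → I × I` to a measure which is absolutely
continuous w.r.t. Lebesgue measure: `volume` on `I` is the comap of Lebesgue measure on `ℝ` (`unitInterval.volume_def`), so for a Lebesgue
null set `N ⊂ (Fin L → ℝ) × (Fin L → ℝ)` its preimage is null: write the map as a composition of `Fin L → I × I → Fin L → ℝ × ℝ`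
(`Subtype.val` in each coordinate; quasi measure preserving, product of such maps: `Measure.pi` and `QuasiMeasurePreserving`, or directly:
the image of `pi volume` under the coordinatewise `Subtype.val` is `pi (volume.restrict (Icc 0 1 ×ˢ Icc 0 1))` (`Measure.pi_map_pi`), which is
`volume.restrict (pi univ ..)` (`Measure.restrict_pi_pi`)), the measure preserving `MeasurableEquiv.arrowProdEquivProdArrow`
(`volume_measurePreserving_arrowProdEquivProdArrow`), and the invertible diagonal linear map with entries `s l ≠ 0` (null sets are preserved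
by its inverse image: `MeasureTheory.Measure.quasiMeasurePreserving_smul` coordinatewise or `LinearMap.quasiMeasurePreserving`).
-/

open MeasureTheory Real Set Filter Topology unitInterval

set_option autoImplicit false

namespace Pool.Agent.Helper22.AE

/-- first `L` terms from `h`, the rest from `t` -/
def cmb (L : ℕ) (h : Fin L → I × I) (t : ℕ → I × I) : ℕ → I × I :=
  fun l => if hl : l < L then h ⟨l, hl⟩ else t (l - L)

private lemma measurable_cmb (L : ℕ) :
    Measurable (fun q : (Fin L → I × I) × (ℕ → I × I) => cmb L q.1 q.2) := by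
  refine measurable_pi_iff.2 fun l => ?_
  by_cases hl : l < L
  · have h : (fun q : (Fin L → I × I) × (ℕ → I × I) => cmb L q.1 q.2 l) = fun q => q.1 ⟨l, hl⟩ := by
      funext q
      simp only [cmb, dif_pos hl]
    rw [h]
    exact (measurable_pi_apply _).comp measurable_fst
  · have h : (fun q : (Fin L → I × I) × (ℕ → I × I) => cmb L q.1 q.2 l) = fun q => q.2 (l - L) := by
      funext q
      simp only [cmb, dif_neg hl]
    rw [h]
    exact (measurable_pi_apply _).comp measurable_snd

theorem cmb_map (L : ℕ) : Measure.map (fun q : (Fin L → I × I) × (ℕ → I × I) => cmb L q.1 q.2)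
    ((Measure.pi fun _ : Fin L => (volume : Measure (I × I))).prod
      (Measure.infinitePi fun _ : ℕ => (volume : Measure (I × I)))) =
    Measure.infinitePi fun _ : ℕ => (volume : Measure (I × I)) := by
  refine Measure.eq_infinitePi _ fun s t ht => ?_
  rw [Measure.map_apply (measurable_cmb L) (MeasurableSet.pi (Finset.countable_toSet _) fun i _ => ht i)]
  have h1 : (fun q : (Fin L → I × I) × (ℕ → I × I) => cmb L q.1 q.2) ⁻¹' Set.pi s t =
      (Set.pi univ (fun i : Fin L => if (i : ℕ) ∈ s then t i else univ)) ×ˢ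
        (Set.pi (((s.filter (L ≤ ·)).image (· - L) : Finset ℕ) : Set ℕ) (fun j => t (j + L))) := by
    ext q
    rw [Set.mem_preimage, Set.mem_prod]
    constructor
    · intro h
      refine ⟨fun i _ => ?_, fun j hj => ?_⟩
      · show q.1 i ∈ (if (i : ℕ) ∈ s then t i else univ)
        split_ifs with hi
        · have h2 := h i hi
          simpa only [cmb, dif_pos i.2] using h2
        · exact mem_univ _
      · obtain ⟨l, hl, rfl⟩ := Finset.mem_image.1 (Finset.mem_coe.1 hj)
        rw [Finset.mem_filter] at hl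
        have h2 := h l hl.1
        simp only [cmb, dif_neg (not_lt.2 hl.2)] at h2
        show q.2 (l - L) ∈ t (l - L + L)
        rw [Nat.sub_add_cancel hl.2]
        exact h2
    · rintro ⟨h1, h2⟩ l hl
      by_cases hlL : l < L
      · have h3 : q.1 ⟨l, hlL⟩ ∈ (if l ∈ s then t l else univ) := h1 ⟨l, hlL⟩ (mem_univ _)
        rw [if_pos (Finset.mem_coe.1 hl)] at h3
        simpa only [cmb, dif_pos hlL] using h3
      · have h3 : q.2 (l - L) ∈ t (l - L + L) :=
          h2 (l - L) (Finset.mem_coe.2 (Finset.mem_image.2 ⟨l, Finset.mem_filter.2 ⟨hl, not_lt.1 hlL⟩, rfl⟩))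
        rw [Nat.sub_add_cancel (not_lt.1 hlL)] at h3
        simpa only [cmb, dif_neg hlL] using h3
  rw [h1, Measure.prod_prod, Measure.pi_pi, Measure.infinitePi_pi _ (fun i _ => ht _)]
  have h2 : ∏ i : Fin L, (volume : Measure (I × I)) (if (i : ℕ) ∈ s then t i else univ) =
      ∏ i ∈ s.filter (· < L), (volume : Measure (I × I)) (t i) := by
    rw [Fin.prod_univ_eq_prod_range (fun i => (volume : Measure (I × I)) (if i ∈ s then t i else univ)) L]
    have h3 : ∀ i ∈ Finset.range L, (volume : Measure (I × I)) (if i ∈ s then t i else univ) =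
        if i ∈ s then (volume : Measure (I × I)) (t i) else 1 := by
      intro i _
      split_ifs
      · rfl
      · exact measure_univ
    rw [Finset.prod_congr rfl h3, ← Finset.prod_filter]
    refine Finset.prod_congr ?_ fun _ _ => rfl
    ext i
    simp only [Finset.mem_filter, Finset.mem_range, and_comm]
  have h4 : ∏ j ∈ (s.filter (L ≤ ·)).image (· - L), (volume : Measure (I × I)) (t (j + L)) =
      ∏ i ∈ s.filter (fun i => ¬ i < L), (volume : Measure (I × I)) (t i) := by
    rw [Finset.prod_image]
    · refine Finset.prod_congr ?_ fun i hi => ?_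
      · ext i
        simp only [Finset.mem_filter, not_lt]
      · rw [Finset.mem_filter, not_lt] at hi
        rw [Nat.sub_add_cancel hi.2]
    · intro a ha b hb hab
      simp only [Finset.coe_filter, Set.mem_ofPred_eq] at ha hb hab
      omega
  rw [h2, h4]
  exact Finset.prod_filter_mul_prod_filter_not s (· < L) _

theorem ae_cmb (L : ℕ) {S : Set (ℕ → I × I)} (hS : MeasurableSet S)
    (h : ∀ t : ℕ → I × I, ∀ᵐ q ∂(Measure.pi fun _ : Fin L => (volume : Measure (I × I))), cmb L q t ∈ S) :
    ∀ᵐ x ∂(Measure.infinitePi fun _ : ℕ => (volume : Measure (I × I))), x ∈ S := by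
  rw [← cmb_map L]
  refine (ae_map_iff (p := (· ∈ S)) (measurable_cmb L).aemeasurable hS).2 ?_
  rw [← Measure.prod_swap]
  refine (ae_map_iff (p := fun q : (Fin L → I × I) × (ℕ → I × I) => cmb L q.1 q.2 ∈ S)
    measurable_swap.aemeasurable ((measurable_cmb L) hS)).2 ?_
  refine (Measure.ae_prod_iff_ae_ae ?_).2 (Eventually.of_forall h)
  exact ((measurable_cmb L).comp measurable_swap) hS

private lemma scale_ac {L : ℕ} {s : Fin L → ℝ} (hs : ∀ l, s l ≠ 0) :
    Measure.QuasiMeasurePreserving (fun w : (Fin L → ℝ) × (Fin L → ℝ) => ((fun l => s l * w.1 l, fun l => s l * w.2 l) :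
      (Fin L → ℝ) × (Fin L → ℝ))) volume volume := by
  let e : (Fin L → ℝ) ≃L[ℝ] (Fin L → ℝ) :=
    ContinuousLinearEquiv.piCongrRight fun l => ContinuousLinearEquiv.unitsEquivAut ℝ (Units.mk0 (s l) (hs l))
  let f : ((Fin L → ℝ) × (Fin L → ℝ)) ≃L[ℝ] ((Fin L → ℝ) × (Fin L → ℝ)) := e.prodCongr e
  have hf : (fun w : (Fin L → ℝ) × (Fin L → ℝ) => ((fun l => s l * w.1 l, fun l => s l * w.2 l) :
      (Fin L → ℝ) × (Fin L → ℝ))) = f := by
    funext w
    refine Prod.ext ?_ ?_ <;>
    · funext l
      simp [f, e, mul_comm]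
  rw [hf]
  have h0 : (volume : Measure ((Fin L → ℝ) × (Fin L → ℝ))).IsAddHaarMeasure := by
    rw [Measure.volume_eq_prod]
    exact Measure.prod.instIsAddHaarMeasure _ _
  have h1 := f.isAddHaarMeasure_map (volume : Measure ((Fin L → ℝ) × (Fin L → ℝ)))
  exact ⟨f.continuous.measurable, Measure.absolutelyContinuous_isAddHaarMeasure _ _⟩

theorem head_ae {L : ℕ} {s : Fin L → ℝ} (hs : ∀ l, s l ≠ 0) {P : (Fin L → ℝ) × (Fin L → ℝ) → Prop}
    (hP : ∀ᵐ w, P w) : ∀ᵐ h ∂(Measure.pi fun _ : Fin L => (volume : Measure (I × I))),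
      P (fun l => s l * ((h l).1 : ℝ), fun l => s l * ((h l).2 : ℝ)) := by
  have h1 : MeasurePreserving (fun (q : I × I) => ((q.1 : ℝ), (q.2 : ℝ))) volume
      ((volume.restrict (Icc (0 : ℝ) 1)).prod (volume.restrict (Icc (0 : ℝ) 1))) :=
    unitInterval.measurePreserving_coe.prod unitInterval.measurePreserving_coe
  have h2 := measurePreserving_pi (fun _ : Fin L => (volume : Measure (I × I)))
    (fun _ : Fin L => ((volume.restrict (Icc (0 : ℝ) 1)).prod (volume.restrict (Icc (0 : ℝ) 1)))) (fun _ => h1)
  have h3 := measurePreserving_arrowProdEquivProdArrow ℝ ℝ (Fin L)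
    (fun _ => volume.restrict (Icc (0 : ℝ) 1)) (fun _ => volume.restrict (Icc (0 : ℝ) 1))
  have h4 := h3.comp h2
  have h5 : ((Measure.pi fun _ : Fin L => volume.restrict (Icc (0 : ℝ) 1)).prod
      (Measure.pi fun _ : Fin L => volume.restrict (Icc (0 : ℝ) 1))) ≪
      (volume : Measure ((Fin L → ℝ) × (Fin L → ℝ))) := by
    rw [← Measure.restrict_pi_pi, Measure.prod_restrict]
    exact Measure.absolutelyContinuous_of_le Measure.restrict_le_self
  have h6 : Measure.QuasiMeasurePreserving _ (Measure.pi fun _ : Fin L => (volume : Measure (I × I)))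
      (volume : Measure ((Fin L → ℝ) × (Fin L → ℝ))) := ⟨h4.measurable, h4.map_eq ▸ h5⟩
  exact ((scale_ac hs).comp h6).ae hP

end Pool.Agent.Helper22.AE
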