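import Pool.Agent.Helper22.AE.F2
import Pool.Agent.Helper22.AE.G6

/-!
# AE-F3: measurability of the exceptional set

PROOF. `supp_meas`: `{x | IsSupp (Hx H₀ s x)}` is the set of `x` with `Hx > 0` and `Hx + Hx'' > 0` for all `θ` (smooth and periodic anyway:
`Hx_smooth`, `Hx_per`); by periodicity `θ ∈ [0, 2π]`; it is open: its complement is the projection of a closed subset of
`(ℕ → I × I) × [0, 2π]` along the compact factor (`IsCompact.isClosed_image`/`isClosedMap_fst_of_compactSpace`, or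
`isOpen ... generalized tube lemma`), by `Hx_cont`, `Hx_rho_cont`.
`cnt_meas`: for fixed `R`: all `x`, `k`: the condition `∀ θ, k·u(θ) ≤ R Hx x θ` may be tested for rational `θ` (both sides continuous in `θ`),
so it is a measurable condition on `x`; points `k` with the condition satisfy `|k.1|, |k.2| ≤ |R| sup |Hx| ≤ N` with `N` independent of `x`
(`Hx` is continuous on the compact space `(ℕ → I × I) × [0, 2π]`), so `cnt` is a finite sum of indicator functions over a fixed box.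
`area_meas`: `volume (dom (Hx x))` is the measure of the section of the measurable set `{(x, p) | ∀ θ ∈ ℚ, p·u(θ) ≤ Hx x θ}`
(`measurable_measure_prodMk_left`).
`bad_meas`: for a support function `H`: `∃ C, ∀ R ≥ 1, |cnt - area R²| ≤ C R^(1/2+ε)` iff `∃ C ∈ ℕ, ∀ R ∈ ℚ, R ≥ 1 → ...` (`cnt` is monotone in
`R` since `H > 0`: approximate a real `R > 1` by rationals from both sides, the right side and `area R²` are continuous; `C` is enlarged to
a natural number). So the set is `{IsSupp} ∩ (⋃_C ⋂_R measurable)ᶜ`.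
-/

open MeasureTheory Real Set Filter Topology unitInterval

set_option autoImplicit false

namespace Pool.Agent.Helper22.AE

private lemma f3_pos_open {F : (ℕ → I × I) × ℝ → ℝ} (hF : Continuous F)
    (hp : ∀ x θ, F (x, θ + 2 * π) = F (x, θ)) : IsOpen {x : ℕ → I × I | ∀ θ, 0 < F (x, θ)} := by
  have hK : IsCompact (((univ : Set (ℕ → I × I)) ×ˢ Icc (0 : ℝ) (2 * π)) ∩ {q | F q ≤ 0}) :=
    (isCompact_univ.prod isCompact_Icc).inter_right (isClosed_le hF continuous_const)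
  have hcl : IsClosed (Prod.fst '' (((univ : Set (ℕ → I × I)) ×ˢ Icc (0 : ℝ) (2 * π)) ∩ {q | F q ≤ 0})) :=
    (hK.image continuous_fst).isClosed
  have he : {x : ℕ → I × I | ∀ θ, 0 < F (x, θ)} =
      (Prod.fst '' (((univ : Set (ℕ → I × I)) ×ˢ Icc (0 : ℝ) (2 * π)) ∩ {q | F q ≤ 0}))ᶜ := by
    ext x
    simp only [mem_ofPred_eq, mem_compl_iff, mem_image, mem_inter_iff, mem_prod, mem_univ, true_and,
      Prod.exists, exists_and_right, exists_eq_right, not_exists, not_and, not_le]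
    constructor
    · intro h θ _
      exact h θ
    · intro h θ
      have hper : Function.Periodic (fun θ => F (x, θ)) (2 * π) := fun θ => hp x θ
      obtain ⟨y, hy, hy'⟩ := hper.exists_mem_Ico₀ (by positivity) θ
      rw [hy']
      exact h y ⟨hy.1, hy.2.le⟩
  rw [he]
  exact hcl.isOpen_compl

theorem supp_meas {H₀ : ℝ → ℝ} (h0 : ContDiff ℝ 2 H₀) (hp : Function.Periodic H₀ (2 * π)) {s : ℕ → ℝ}
    (hs : Summable (fun l : ℕ => (l : ℝ) ^ 2 * |s l|)) : MeasurableSet {x : ℕ → I × I | IsSupp (Hx H₀ s x)} := by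
  have hper := fun x => Hx_per hp s x
  have hd : ∀ x, Function.Periodic (deriv (deriv (Hx H₀ s x))) (2 * π) := by
    intro x
    have h1 : Function.Periodic (deriv (Hx H₀ s x)) (2 * π) := by
      intro θ
      rw [← deriv_comp_add_const]
      congr 1
      funext y
      exact hper x y
    intro θ
    rw [← deriv_comp_add_const]
    congr 1
    funext y
    exact h1 y
  have h1 : IsOpen {x : ℕ → I × I | ∀ θ, 0 < Hx H₀ s x θ} :=
    f3_pos_open (F := fun q : (ℕ → I × I) × ℝ => Hx H₀ s q.1 q.2) (Hx_cont h0 hs) (fun x θ => hper x θ)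
  have h2 : IsOpen {x : ℕ → I × I | ∀ θ, 0 < Hx H₀ s x θ + deriv (deriv (Hx H₀ s x)) θ} :=
    f3_pos_open (F := fun q : (ℕ → I × I) × ℝ => Hx H₀ s q.1 q.2 + deriv (deriv (Hx H₀ s q.1)) q.2)
      (Hx_rho_cont h0 hs) (fun x θ => by
        have e1 := hper x θ
        have e2 := hd x θ
        simp only
        rw [e1, e2])
  have he : {x : ℕ → I × I | IsSupp (Hx H₀ s x)} = {x : ℕ → I × I | ∀ θ, 0 < Hx H₀ s x θ} ∩
      {x : ℕ → I × I | ∀ θ, 0 < Hx H₀ s x θ + deriv (deriv (Hx H₀ s x)) θ} := by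
    ext x
    constructor
    · intro h
      exact ⟨h.pos, h.rho_pos⟩
    · rintro ⟨ha, hb⟩
      exact ⟨Hx_smooth h0 hs x, hper x, ha, hb⟩
  rw [he]
  exact (h1.inter h2).measurableSet

private lemma f3_bound {F : (ℕ → I × I) × ℝ → ℝ} (hF : Continuous F)
    (hp : ∀ x θ, F (x, θ + 2 * π) = F (x, θ)) : ∃ N : ℕ, ∀ x θ, |F (x, θ)| ≤ N := by
  obtain ⟨C, hC⟩ := (isCompact_univ.prod isCompact_Icc :
    IsCompact ((univ : Set (ℕ → I × I)) ×ˢ Icc (0 : ℝ) (2 * π))).exists_bound_of_continuousOn hF.continuousOn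
  obtain ⟨N, hN⟩ := exists_nat_ge C
  refine ⟨N, fun x θ => ?_⟩
  have hper : Function.Periodic (fun θ => F (x, θ)) (2 * π) := fun θ => hp x θ
  obtain ⟨y, hy, hy'⟩ := hper.exists_mem_Ico₀ (by positivity) θ
  rw [hy']
  have := hC (x, y) ⟨mem_univ _, hy.1, hy.2.le⟩
  rw [Real.norm_eq_abs] at this
  exact this.trans hN

private lemma f3_box {G : ℝ → ℝ} {N : ℕ} (hG : ∀ θ, |G θ| ≤ N) {k : ℤ × ℤ}
    (hk : ∀ θ : ℝ, (k.1 : ℝ) * cos θ + (k.2 : ℝ) * sin θ ≤ G θ) : k ∈ box N := by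
  have a1 := (hk 0).trans ((le_abs_self _).trans (hG 0))
  have a2 := (hk π).trans ((le_abs_self _).trans (hG π))
  have a3 := (hk (π / 2)).trans ((le_abs_self _).trans (hG (π / 2)))
  have a4 := (hk (-(π / 2))).trans ((le_abs_self _).trans (hG (-(π / 2))))
  simp only [cos_zero, sin_zero, mul_one, mul_zero, add_zero, zero_add, cos_pi, sin_pi, cos_pi_div_two,
    sin_pi_div_two, cos_neg, sin_neg, mul_neg] at a1 a2 a3 a4
  simp only [box, Finset.mem_product, Finset.mem_Icc]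
  refine ⟨⟨?_, ?_⟩, ?_, ?_⟩
  · have : -(N : ℝ) ≤ (k.1 : ℝ) := by linarith
    exact_mod_cast this
  · exact_mod_cast a1
  · have : -(N : ℝ) ≤ (k.2 : ℝ) := by linarith
    exact_mod_cast this
  · exact_mod_cast a3

theorem cnt_meas {H₀ : ℝ → ℝ} (h0 : ContDiff ℝ 2 H₀) (hp : Function.Periodic H₀ (2 * π)) {s : ℕ → ℝ}
    (hs : Summable (fun l : ℕ => (l : ℝ) ^ 2 * |s l|)) (R : ℝ) :
    Measurable (fun x : ℕ → I × I => cnt (Hx H₀ s x) R) := by
  classical
  have hcont := Hx_cont h0 hs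
  obtain ⟨N, hN⟩ := f3_bound (F := fun q : (ℕ → I × I) × ℝ => R * Hx H₀ s q.1 q.2)
    (continuous_const.mul hcont) (fun x θ => by
      have := Hx_per hp s x θ
      simp only
      rw [this])
  simp only at hN
  have hcnt : ∀ x : ℕ → I × I, cnt (Hx H₀ s x) R = ∑ k ∈ box N,
      (if (∀ θ : ℝ, (k.1 : ℝ) * cos θ + (k.2 : ℝ) * sin θ ≤ R * Hx H₀ s x θ) then (1 : ℝ) else 0) := by
    intro x
    unfold cnt
    rw [Nat.subtype_card ((box N).filter fun k : ℤ × ℤ =>
      ∀ θ : ℝ, (k.1 : ℝ) * cos θ + (k.2 : ℝ) * sin θ ≤ R * Hx H₀ s x θ)]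
    · rw [Finset.sum_boole]
    · intro k
      rw [Finset.mem_filter]
      exact ⟨fun h => h.2, fun h => ⟨f3_box (G := fun θ => R * Hx H₀ s x θ) (hN x) h, h⟩⟩
  simp_rw [hcnt]
  refine Finset.measurable_sum _ fun k _ => ?_
  refine Measurable.ite ?_ measurable_const measurable_const
  have hc : {x : ℕ → I × I | ∀ θ : ℝ, (k.1 : ℝ) * cos θ + (k.2 : ℝ) * sin θ ≤ R * Hx H₀ s x θ} =
      ⋂ θ : ℝ, {x : ℕ → I × I | (k.1 : ℝ) * cos θ + (k.2 : ℝ) * sin θ ≤ R * Hx H₀ s x θ} := by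
    ext x
    simp
  rw [hc]
  refine (isClosed_iInter fun θ => ?_).measurableSet
  refine isClosed_le continuous_const (continuous_const.mul ?_)
  exact hcont.comp (continuous_id.prodMk continuous_const)

theorem area_meas {H₀ : ℝ → ℝ} (h0 : ContDiff ℝ 2 H₀) {s : ℕ → ℝ}
    (hs : Summable (fun l : ℕ => (l : ℝ) ^ 2 * |s l|)) :
    Measurable (fun x : ℕ → I × I => area (Hx H₀ s x)) := by
  have hcont := Hx_cont h0 hs
  have hD : MeasurableSet {q : (ℕ → I × I) × (ℝ × ℝ) | ∀ θ : ℝ, q.2.1 * cos θ + q.2.2 * sin θ ≤ Hx H₀ s q.1 θ} := by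
    have hc : {q : (ℕ → I × I) × (ℝ × ℝ) | ∀ θ : ℝ, q.2.1 * cos θ + q.2.2 * sin θ ≤ Hx H₀ s q.1 θ} =
        ⋂ θ : ℝ, {q : (ℕ → I × I) × (ℝ × ℝ) | q.2.1 * cos θ + q.2.2 * sin θ ≤ Hx H₀ s q.1 θ} := by
      ext q
      simp
    rw [hc]
    refine (isClosed_iInter fun θ => ?_).measurableSet
    refine isClosed_le (by fun_prop) ?_
    exact hcont.comp (continuous_fst.prodMk continuous_const)
  have h1 := measurable_measure_prodMk_left (ν := (volume : Measure (ℝ × ℝ))) hD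
  exact h1.ennreal_toReal

private lemma f3_cnt_mono {H : ℝ → ℝ} (hH : IsSupp H) {R R' : ℝ} (h : R ≤ R') : cnt H R ≤ cnt H R' := by
  classical
  obtain ⟨C, hC⟩ := (isCompact_Icc : IsCompact (Icc (0 : ℝ) (2 * π))).exists_bound_of_continuousOn
    hH.smooth.continuous.continuousOn
  obtain ⟨N, hN⟩ := exists_nat_ge (|R'| * C)
  have hb : ∀ θ, |R' * H θ| ≤ N := by
    intro θ
    obtain ⟨y, hy, hy'⟩ := hH.per.exists_mem_Ico₀ (by positivity) θ
    rw [hy', abs_mul]
    have := hC y ⟨hy.1, hy.2.le⟩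
    rw [Real.norm_eq_abs] at this
    exact (mul_le_mul_of_nonneg_left this (abs_nonneg _)).trans hN
  have hfin : {k : ℤ × ℤ | ∀ θ : ℝ, (k.1 : ℝ) * cos θ + (k.2 : ℝ) * sin θ ≤ R' * H θ}.Finite :=
    (Finset.finite_toSet (box N)).subset fun k hk => f3_box (G := fun θ => R' * H θ) hb hk
  have hsub : {k : ℤ × ℤ | ∀ θ : ℝ, (k.1 : ℝ) * cos θ + (k.2 : ℝ) * sin θ ≤ R * H θ} ⊆
      {k : ℤ × ℤ | ∀ θ : ℝ, (k.1 : ℝ) * cos θ + (k.2 : ℝ) * sin θ ≤ R' * H θ} := fun k hk θ =>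
    (hk θ).trans (mul_le_mul_of_nonneg_right h (hH.pos θ).le)
  have := Nat.card_mono hfin hsub
  unfold cnt
  exact_mod_cast this

private lemma f3_rat {H : ℝ → ℝ} (hH : IsSupp H) (ε A : ℝ) :
    (∃ C : ℝ, ∀ R : ℝ, 1 ≤ R → |cnt H R - A * R ^ 2| ≤ C * R ^ (1 / 2 + ε)) ↔
    ∃ C : ℕ, ∀ q : ℚ, (1 : ℝ) ≤ q → |cnt H q - A * (q : ℝ) ^ 2| ≤ C * (q : ℝ) ^ (1 / 2 + ε) := by
  constructor
  · rintro ⟨C, hC⟩
    obtain ⟨N, hN⟩ := exists_nat_ge C
    refine ⟨N, fun q hq => (hC q hq).trans ?_⟩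
    exact mul_le_mul_of_nonneg_right hN (Real.rpow_nonneg (by linarith) _)
  · rintro ⟨C, hC⟩
    refine ⟨C, fun R hR => ?_⟩
    have hR0 : (0 : ℝ) < R := by linarith
    rw [abs_le]
    constructor
    · -- lower bound
      rcases eq_or_lt_of_le hR with h1 | h1
      · have h2 := (abs_le.1 (hC 1 (by norm_num))).1
        rw [← h1]
        simpa using h2
      · by_contra hcon
        push Not at hcon
        have hf : ContinuousAt (fun y : ℝ => A * y ^ 2 - C * y ^ (1 / 2 + ε)) R := by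
          refine (continuousAt_const.mul (continuousAt_id.pow 2)).sub (continuousAt_const.mul ?_)
          exact continuousAt_id.rpow_const (Or.inl hR0.ne')
        have hlt : cnt H R < (fun y : ℝ => A * y ^ 2 - C * y ^ (1 / 2 + ε)) R := by
          simp only
          linarith
        have hev : ∀ᶠ y in 𝓝 R, cnt H R < (fun y : ℝ => A * y ^ 2 - C * y ^ (1 / 2 + ε)) y :=
          hf.eventually_const_lt hlt
        obtain ⟨δ, hδ, hball⟩ := Metric.eventually_nhds_iff.1 hev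
        obtain ⟨q, hq1, hq2⟩ := exists_rat_btwn (show max 1 (R - δ) < R from max_lt h1 (by linarith))
        have hq3 : (1 : ℝ) ≤ q := (le_max_left _ _).trans hq1.le
        have hq4 : R - δ < q := lt_of_le_of_lt (le_max_right _ _) hq1
        have h5 := hball (y := (q : ℝ)) (by rw [Real.dist_eq, abs_lt]; constructor <;> linarith)
        simp only at h5
        have h6 := (abs_le.1 (hC q hq3)).1
        have h7 := f3_cnt_mono hH hq2.le
        linarith
    · by_contra hcon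
      push Not at hcon
      have hf : ContinuousAt (fun y : ℝ => A * y ^ 2 + C * y ^ (1 / 2 + ε)) R := by
        refine (continuousAt_const.mul (continuousAt_id.pow 2)).add (continuousAt_const.mul ?_)
        exact continuousAt_id.rpow_const (Or.inl hR0.ne')
      have hlt : (fun y : ℝ => A * y ^ 2 + C * y ^ (1 / 2 + ε)) R < cnt H R := by
        simp only
        linarith
      have hev : ∀ᶠ y in 𝓝 R, (fun y : ℝ => A * y ^ 2 + C * y ^ (1 / 2 + ε)) y < cnt H R :=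
        hf.eventually_lt_const hlt
      obtain ⟨δ, hδ, hball⟩ := Metric.eventually_nhds_iff.1 hev
      obtain ⟨q, hq1, hq2⟩ := exists_rat_btwn (show R < R + δ by linarith)
      have hq3 : (1 : ℝ) ≤ q := hR.trans hq1.le
      have h5 := hball (y := (q : ℝ)) (by rw [Real.dist_eq, abs_lt]; constructor <;> linarith)
      simp only at h5
      have h6 := (abs_le.1 (hC q hq3)).2
      have h7 := f3_cnt_mono hH hq1.le
      linarith

theorem bad_meas {H₀ : ℝ → ℝ} (h0 : ContDiff ℝ 2 H₀) (hp : Function.Periodic H₀ (2 * π)) {s : ℕ → ℝ}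
    (hs : Summable (fun l : ℕ => (l : ℝ) ^ 2 * |s l|)) (ε : ℝ) :
    MeasurableSet {x : ℕ → I × I | IsSupp (Hx H₀ s x) → ∃ C : ℝ, ∀ R : ℝ, 1 ≤ R →
      |cnt (Hx H₀ s x) R - area (Hx H₀ s x) * R ^ 2| ≤ C * R ^ (1 / 2 + ε)} := by
  have hS := supp_meas h0 hp hs
  have hB : MeasurableSet {x : ℕ → I × I | ∃ C : ℕ, ∀ q : ℚ, (1 : ℝ) ≤ q →
      |cnt (Hx H₀ s x) q - area (Hx H₀ s x) * (q : ℝ) ^ 2| ≤ C * (q : ℝ) ^ (1 / 2 + ε)} := by
    have he : {x : ℕ → I × I | ∃ C : ℕ, ∀ q : ℚ, (1 : ℝ) ≤ q →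
        |cnt (Hx H₀ s x) q - area (Hx H₀ s x) * (q : ℝ) ^ 2| ≤ C * (q : ℝ) ^ (1 / 2 + ε)} =
        ⋃ C : ℕ, ⋂ q : ℚ, {x : ℕ → I × I | (1 : ℝ) ≤ q →
          |cnt (Hx H₀ s x) q - area (Hx H₀ s x) * (q : ℝ) ^ 2| ≤ C * (q : ℝ) ^ (1 / 2 + ε)} := by
      ext x
      simp
    rw [he]
    refine MeasurableSet.iUnion fun C => MeasurableSet.iInter fun q => ?_
    by_cases hq : (1 : ℝ) ≤ q
    · simp only [hq, true_implies]
      refine measurableSet_le ?_ measurable_const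
      exact continuous_abs.measurable.comp ((cnt_meas h0 hp hs q).sub ((area_meas h0 hs).mul_const _))
    · simp only [hq, false_implies, ofPred_true]
      exact MeasurableSet.univ
  have he : {x : ℕ → I × I | IsSupp (Hx H₀ s x) → ∃ C : ℝ, ∀ R : ℝ, 1 ≤ R →
      |cnt (Hx H₀ s x) R - area (Hx H₀ s x) * R ^ 2| ≤ C * R ^ (1 / 2 + ε)} =
      {x : ℕ → I × I | IsSupp (Hx H₀ s x)}ᶜ ∪ {x : ℕ → I × I | ∃ C : ℕ, ∀ q : ℚ, (1 : ℝ) ≤ q →
        |cnt (Hx H₀ s x) q - area (Hx H₀ s x) * (q : ℝ) ^ 2| ≤ C * (q : ℝ) ^ (1 / 2 + ε)} := by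
    ext x
    by_cases hx : IsSupp (Hx H₀ s x)
    · have h1 := f3_rat hx ε (area (Hx H₀ s x))
      constructor
      · intro h
        exact Or.inr (h1.1 (h hx))
      · rintro (h | h)
        · exact absurd hx h
        · exact fun _ => h1.2 h
    · constructor
      · intro _
        exact Or.inl hx
      · intro _ h
        exact absurd h hx
  rw [he]
  exact hS.compl.union hB

end Pool.Agent.Helper22.AE
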