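import Pool.Agent.Helper22.AE.K1
import Pool.Agent.Helper22.AE.C6
import Pool.Agent.Helper22.AE.P5

/-!
# AE-K2: conclusion (paper, section 5)

PROOF of `main_finite`. WLOG `ε ≤ 1` (replace `ε` by `min ε 1`: `2/ε + 8 ≤ L` gives `2/1 + 8 ≤ L`? use `ε' = min ε 1`; if `ε > 1` then
`2/ε' + 8 = 10` may exceed `L`: in that case `L ≥ 9` only; so assume `ε ≤ 1` in the statement). Fix a bump `φ` (`exists_bump`) and a natural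
number `Bd`. `e1 = ε`, `e2, C, R₁` from `key`. `nT, C'` from `types`.
For `R₀ = 2^N`, `n` with `R₀^ε ≤ 2^n ≤ R₀^(1/2+e2)`, `j ≤ R₀ 2^n`, `σ = ±1`, `i : Fin nT`: let `v` be the weights of `types` for
`Ra = R₀ + j/2^n ∈ [R₀, 2R₀]` and `Bad N` the union over `n, j, σ, i` of `{w | (2^n)^(3/2+e1) < Zf .. n Ra (v i) w}`. Its measure is
`≤ ∑_n 2 nT (R₀ 2^n + 1) C (R₀ 2^n)⁻¹ (2^n)^(-e1) ≤ C'' N (2^N)^(-ε e1)`, summable: Borel-Cantelli (`measure_limsup_atTop_eq_zero`,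
`ae_eventually_notMem`): for `gm L`-almost all `w`, `w ∉ Bad N` for all large `N`; `vol_ac` transfers to Lebesgue measure.
Let `w` be such a point, `‖w‖ ≤ Bd`, `H = Hw H₀ w` a support function. For `N` large, `R ∈ [2^N, 2^(N+1)]`, `R₀ = 2^N`:
`err_le_blocks` with `n1` the least natural number with `R₀^(1/2+e2') ≤ 2^n1`, where `0 < e2' < e2` (e.g. `e2/2`) so that all `n < n1`
satisfy `2^n ≤ R₀^(1/2+e2)` (for `N` large). Blocks `2^n < R₀^ε`: `types` (with `Ra = R`) and `Zf_trivial`: `‖VK‖ ≤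
C R₀^(1/2) 2^(-3n/2) nT 500·4^n + C ≤ C R₀^(1/2) 2^(n/2)`, sum `≤ C R₀^(1/2+ε/2)`·const (geometric) or `≤ C N R₀^(1/2+ε/2)`. Other blocks:
choose `j` with `R ∈ [Ra, Ra + 2^(-n)]`; `w ∉ Bad N` gives `Zf ≤ (2^n)^(3/2+e1)`, so `‖VK‖ ≤ C R₀^(1/2) (2^n)^(e1) + C ≤
C R₀^(1/2 + 3ε/4)` (`2^n ≤ R₀^(1/2+e2) ≤ R₀^(3/4)`). There are `n1 ≤ N + 1` blocks and `N ≤ C R₀^(ε/8)`: total `≤ C R₀^(1/2+ε)`.
For `1 ≤ R ≤ R₂` (compact range) `cnt` is monotone in `R` and bounded: `|cnt H R - area H R²| ≤ cnt H R₂ + area H R₂²` (finiteness of the set: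
`dom_compact`; monotone: `H > 0`). Finally take the union over `Bd ∈ ℕ`.
-/

open MeasureTheory Real Set Filter Topology

set_option autoImplicit false

namespace Pool.Agent.Helper22.AE

private lemma k2_finite (G : ℝ → ℝ) :
    {k : ℤ × ℤ | ∀ θ : ℝ, (k.1 : ℝ) * cos θ + (k.2 : ℝ) * sin θ ≤ G θ}.Finite := by
  apply Set.Finite.subset (Set.Finite.prod (Set.finite_Icc (-⌈G π⌉) ⌈G 0⌉) (Set.finite_Icc (-⌈G (-(π / 2))⌉) ⌈G (π / 2)⌉))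
  intro k hk
  have hk' : ∀ θ : ℝ, (k.1 : ℝ) * cos θ + (k.2 : ℝ) * sin θ ≤ G θ := hk
  have h1 := hk' 0
  have h2 := hk' π
  have h3 := hk' (π / 2)
  have h4 := hk' (-(π / 2))
  simp only [cos_zero, sin_zero, cos_pi, sin_pi, cos_pi_div_two, sin_pi_div_two, cos_neg, sin_neg, mul_one,
    mul_zero, add_zero, zero_add, mul_neg] at h1 h2 h3 h4
  rw [Set.mem_prod, Set.mem_Icc, Set.mem_Icc]
  refine ⟨⟨?_, ?_⟩, ?_, ?_⟩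
  · have : (-(⌈G π⌉ : ℝ)) ≤ k.1 := by linarith [Int.le_ceil (G π)]
    exact_mod_cast this
  · have : (k.1 : ℝ) ≤ ⌈G 0⌉ := by linarith [Int.le_ceil (G 0)]
    exact_mod_cast this
  · have : (-(⌈G (-(π / 2))⌉ : ℝ)) ≤ k.2 := by linarith [Int.le_ceil (G (-(π / 2)))]
    exact_mod_cast this
  · have : (k.2 : ℝ) ≤ ⌈G (π / 2)⌉ := by linarith [Int.le_ceil (G (π / 2))]
    exact_mod_cast this

private lemma k2_pow (x : ℝ) : ∃ n : ℕ, x ≤ 2 ^ n := by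
  obtain ⟨n, hn⟩ := pow_unbounded_of_one_lt x one_lt_two
  exact ⟨n, hn.le⟩

private lemma k2_cnt_nonneg (H : ℝ → ℝ) (R : ℝ) : 0 ≤ cnt H R := by
  unfold cnt
  positivity

private lemma k2_cnt_mono {H : ℝ → ℝ} (hH : IsSupp H) {R R' : ℝ} (h : R ≤ R') : cnt H R ≤ cnt H R' := by
  unfold cnt
  have hf := k2_finite (fun θ => R' * H θ)
  have h1 : Nat.card {k : ℤ × ℤ | ∀ θ : ℝ, (k.1 : ℝ) * cos θ + (k.2 : ℝ) * sin θ ≤ R * H θ} ≤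
      Nat.card {k : ℤ × ℤ | ∀ θ : ℝ, (k.1 : ℝ) * cos θ + (k.2 : ℝ) * sin θ ≤ R' * H θ} := by
    apply Nat.card_mono hf
    intro k hk θ
    exact (hk θ).trans (mul_le_mul_of_nonneg_right h (hH.pos θ).le)
  exact_mod_cast h1

theorem cnt_bdd {H : ℝ → ℝ} (hH : IsSupp H) (R₂ : ℝ) : ∃ C : ℝ, ∀ R : ℝ, 1 ≤ R → R ≤ R₂ →
    |cnt H R - area H * R ^ 2| ≤ C := by
  refine ⟨cnt H R₂ + area H * R₂ ^ 2, fun R h1 h2 => ?_⟩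
  have ha : 0 ≤ area H := ENNReal.toReal_nonneg
  have h3 := k2_cnt_nonneg H R
  have h4 := k2_cnt_mono hH h2
  have h5 : area H * R ^ 2 ≤ area H * R₂ ^ 2 :=
    mul_le_mul_of_nonneg_left (pow_le_pow_left₀ (by linarith) h2 2) ha
  have h6 : 0 ≤ area H * R ^ 2 := mul_nonneg ha (by positivity)
  rw [abs_le]
  constructor <;> linarith

/-- Borel-Cantelli for a sequence of finite unions -/
private lemma k2_bc {α : Type*} [MeasurableSpace α] {μ : Measure α} [IsFiniteMeasure μ] (s : ℕ → Set α) (b : ℕ → ℝ)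
    (hb : Summable b) (h : ∀ N, μ.real (s N) ≤ b N) : ∀ᵐ x ∂μ, ∀ᶠ N in atTop, x ∉ s N := by
  have h1 : ∑' N, μ (s N) ≠ ⊤ := by
    have h2 : ∑' N, μ (s N) ≤ ∑' N, ENNReal.ofReal (b N) := by
      apply ENNReal.tsum_le_tsum
      intro N
      rw [← ofReal_measureReal]
      exact ENNReal.ofReal_le_ofReal (h N)
    refine ne_top_of_le_ne_top ?_ h2
    exact hb.tsum_ofReal_ne_top
  exact ae_eventually_notMem h1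

/-- the arithmetic of the grid -/
private lemma k2_grid {N n : ℕ} {R : ℝ} (h1 : (2 : ℝ) ^ N ≤ R) (h2 : R ≤ 2 * 2 ^ N) :
    ∃ j : ℕ, j ≤ 2 ^ N * 2 ^ n ∧ R ∈ Icc ((2 : ℝ) ^ N + j / 2 ^ n) ((2 : ℝ) ^ N + j / 2 ^ n + 1 / 2 ^ n) ∧
      (2 : ℝ) ^ N + j / 2 ^ n ∈ Icc ((2 : ℝ) ^ N) (2 * 2 ^ N) := by
  have hn : (0 : ℝ) < 2 ^ n := by positivity
  have h0 : 0 ≤ (R - 2 ^ N) * 2 ^ n := mul_nonneg (by linarith) hn.le
  refine ⟨⌊(R - 2 ^ N) * 2 ^ n⌋₊, ?_, ⟨?_, ?_⟩, ⟨?_, ?_⟩⟩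
  · apply Nat.floor_le_of_le
    push_cast
    exact mul_le_mul_of_nonneg_right (by linarith) hn.le
  · have := Nat.floor_le h0
    have h3 : (⌊(R - 2 ^ N) * 2 ^ n⌋₊ : ℝ) / 2 ^ n ≤ R - 2 ^ N := by
      rw [div_le_iff₀ hn]
      exact this
    linarith
  · have := (Nat.lt_floor_add_one ((R - 2 ^ N) * 2 ^ n)).le
    have h3 : R - 2 ^ N ≤ (⌊(R - 2 ^ N) * 2 ^ n⌋₊ : ℝ) / 2 ^ n + 1 / 2 ^ n := by
      rw [← add_div, le_div_iff₀ hn]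
      exact this
    linarith
  · have : (0 : ℝ) ≤ (⌊(R - 2 ^ N) * 2 ^ n⌋₊ : ℝ) / 2 ^ n := by positivity
    linarith
  · have := Nat.floor_le h0
    have h3 : (⌊(R - 2 ^ N) * 2 ^ n⌋₊ : ℝ) / 2 ^ n ≤ R - 2 ^ N := by
      rw [div_le_iff₀ hn]
      exact this
    linarith

private def sgn (b : Bool) : ℝ := if b then 1 else -1

private lemma sgn_or (b : Bool) : sgn b = 1 ∨ sgn b = -1 := by
  cases b <;> simp [sgn]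

private lemma sgn_surj {σ : ℝ} (h : σ = 1 ∨ σ = -1) : ∃ b, σ = sgn b := by
  rcases h with h | h
  · exact ⟨true, by simp [sgn, h]⟩
  · exact ⟨false, by simp [sgn, h]⟩

/-- the exceptional set of generation `N` -/
private def bad {L : ℕ} (ε e2 : ℝ) {nT : ℕ} (v : ℕ → ℕ → ℕ → Bool → Fin nT → ℝ → ℝ → ℤ × ℤ → ℂ) (N : ℕ) :
    Set ((Fin L → ℝ) × (Fin L → ℝ)) :=
  ⋃ n ∈ (Finset.range (N + 1)).filter (fun n => ((2 : ℝ) ^ N) ^ ε ≤ 2 ^ n ∧ (2 : ℝ) ^ n ≤ (2 ^ N) ^ (1 / 2 + e2)),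
    ⋃ j ∈ Finset.range (2 ^ N * 2 ^ n + 1), ⋃ b ∈ (Finset.univ : Finset Bool), ⋃ i ∈ (Finset.univ : Finset (Fin nT)),
      {w | ((2 : ℝ) ^ n) ^ (3 / 2 + ε) < Zf (((2 : ℝ) ^ N * 2 ^ n) ^ (-(1 / 2) : ℝ)) n (2 ^ N + j / 2 ^ n) (v N n j b i) w}

private lemma mem_bad {L : ℕ} {ε e2 : ℝ} {nT : ℕ} {v : ℕ → ℕ → ℕ → Bool → Fin nT → ℝ → ℝ → ℤ × ℤ → ℂ} {N : ℕ}
    {w : (Fin L → ℝ) × (Fin L → ℝ)} (hw : w ∉ bad ε e2 v N) {n : ℕ} (hn : n ≤ N) (h1 : ((2 : ℝ) ^ N) ^ ε ≤ 2 ^ n)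
    (h2 : (2 : ℝ) ^ n ≤ (2 ^ N) ^ (1 / 2 + e2)) {j : ℕ} (hj : j ≤ 2 ^ N * 2 ^ n) (b : Bool) (i : Fin nT) :
    Zf (((2 : ℝ) ^ N * 2 ^ n) ^ (-(1 / 2) : ℝ)) n (2 ^ N + j / 2 ^ n) (v N n j b i) w ≤ ((2 : ℝ) ^ n) ^ (3 / 2 + ε) := by
  by_contra hcon
  rw [not_le] at hcon
  apply hw
  unfold bad
  simp only [mem_iUnion, Finset.mem_filter, Finset.mem_range, mem_setOf_eq, Finset.mem_univ, exists_prop, true_and]
  exact ⟨n, ⟨Nat.lt_succ_of_le hn, h1, h2⟩, j, Nat.lt_succ_of_le hj, b, i, hcon⟩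

private lemma bad_measure {L : ℕ} {ε e2 C R₁ : ℝ} (hε : 0 < ε) (hC : 0 < C) {nT : ℕ}
    (v : ℕ → ℕ → ℕ → Bool → Fin nT → ℝ → ℝ → ℤ × ℤ → ℂ)
    (hkey : ∀ R₀ : ℝ, R₁ ≤ R₀ → ∀ n : ℕ,
      R₀ ^ ε ≤ (2 : ℝ) ^ n → (2 : ℝ) ^ n ≤ R₀ ^ (1 / 2 + e2) → ∀ Ra : ℝ, R₀ ≤ Ra → ∀ β : ℝ, 0 < β →
      ∀ v : ℝ → ℝ → ℤ × ℤ → ℂ, (∀ k, Continuous (fun p : ℝ × ℝ => v p.1 p.2 k)) → (∀ R α k, ‖v R α k‖ ≤ 1) →
        (gm L).real {w | ((2 : ℝ) ^ n) ^ (3 / 2 + ε) < Zf β n Ra v w} ≤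
          C * (R₀ * 2 ^ n)⁻¹ * ((2 : ℝ) ^ n) ^ (-ε))
    {N : ℕ} (hN : R₁ ≤ 2 ^ N)
    (hv : ∀ n j b, j ≤ 2 ^ N * 2 ^ n → (∀ i k, Continuous (fun p : ℝ × ℝ => v N n j b i p.1 p.2 k)) ∧
      (∀ i R α k, ‖v N n j b i R α k‖ ≤ 1)) :
    (gm L).real (bad ε e2 v N) ≤ (N + 1) * (4 * nT * C * ((2 : ℝ) ^ (-(ε * ε))) ^ N) := by
  have hfin : IsFiniteMeasure (gm L) := ⟨by rw [gm_univ]; exact ENNReal.one_lt_top⟩
  unfold bad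
  refine (measureReal_biUnion_finset_le _ _).trans ?_
  have h1 : ∀ n ∈ (Finset.range (N + 1)).filter
      (fun n => ((2 : ℝ) ^ N) ^ ε ≤ 2 ^ n ∧ (2 : ℝ) ^ n ≤ (2 ^ N) ^ (1 / 2 + e2)),
      (gm L).real (⋃ j ∈ Finset.range (2 ^ N * 2 ^ n + 1), ⋃ b ∈ (Finset.univ : Finset Bool),
        ⋃ i ∈ (Finset.univ : Finset (Fin nT)),
        {w | ((2 : ℝ) ^ n) ^ (3 / 2 + ε) < Zf (((2 : ℝ) ^ N * 2 ^ n) ^ (-(1 / 2) : ℝ)) n (2 ^ N + j / 2 ^ n) (v N n j b i) w}) ≤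
        4 * nT * C * ((2 : ℝ) ^ (-(ε * ε))) ^ N := by
    intro n hn
    rw [Finset.mem_filter] at hn
    obtain ⟨_, hn1, hn2⟩ := hn
    have hA : (0 : ℝ) < 2 ^ N * 2 ^ n := by positivity
    have hp : ((2 : ℝ) ^ n) ^ (-ε) ≤ ((2 : ℝ) ^ (-(ε * ε))) ^ N := by
      have e1 : ((2 : ℝ) ^ (-(ε * ε))) ^ N = (((2 : ℝ) ^ N) ^ ε) ^ (-ε) := by
        rw [← Real.rpow_natCast ((2 : ℝ) ^ (-(ε * ε))) N, ← Real.rpow_mul (by norm_num), ← Real.rpow_natCast 2 N,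
          ← Real.rpow_mul (by norm_num), ← Real.rpow_mul (by norm_num)]
        congr 1
        ring
      rw [e1]
      exact Real.rpow_le_rpow_of_nonpos (by positivity) hn1 (by linarith)
    refine (measureReal_biUnion_finset_le _ _).trans ?_
    have h2 : ∀ j ∈ Finset.range (2 ^ N * 2 ^ n + 1),
        (gm L).real (⋃ b ∈ (Finset.univ : Finset Bool), ⋃ i ∈ (Finset.univ : Finset (Fin nT)),
        {w | ((2 : ℝ) ^ n) ^ (3 / 2 + ε) < Zf (((2 : ℝ) ^ N * 2 ^ n) ^ (-(1 / 2) : ℝ)) n (2 ^ N + j / 2 ^ n) (v N n j b i) w}) ≤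
        2 * (nT * (C * (2 ^ N * 2 ^ n)⁻¹ * ((2 : ℝ) ^ n) ^ (-ε))) := by
      intro j hj
      rw [Finset.mem_range] at hj
      refine (measureReal_biUnion_finset_le _ _).trans ?_
      have h3 : ∀ b ∈ (Finset.univ : Finset Bool), (gm L).real (⋃ i ∈ (Finset.univ : Finset (Fin nT)),
          {w | ((2 : ℝ) ^ n) ^ (3 / 2 + ε) < Zf (((2 : ℝ) ^ N * 2 ^ n) ^ (-(1 / 2) : ℝ)) n (2 ^ N + j / 2 ^ n) (v N n j b i) w}) ≤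
          nT * (C * (2 ^ N * 2 ^ n)⁻¹ * ((2 : ℝ) ^ n) ^ (-ε)) := by
        intro b _
        refine (measureReal_biUnion_finset_le _ _).trans ?_
        obtain ⟨hc, hb⟩ := hv n j b (Nat.lt_succ_iff.1 hj)
        refine (Finset.sum_le_card_nsmul _ _ (C * (2 ^ N * 2 ^ n)⁻¹ * ((2 : ℝ) ^ n) ^ (-ε)) (fun i _ => ?_)).trans
          (le_of_eq ?_)
        · refine hkey (2 ^ N) hN n hn1 hn2 (2 ^ N + j / 2 ^ n) ?_ _ ?_ (v N n j b i) (hc i) (hb i)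
          · have : (0 : ℝ) ≤ j / 2 ^ n := by positivity
            linarith
          · positivity
        · rw [Finset.card_univ, Fintype.card_fin, nsmul_eq_mul]
      refine (Finset.sum_le_card_nsmul _ _ _ h3).trans (le_of_eq ?_)
      rw [Finset.card_univ, Fintype.card_bool, nsmul_eq_mul]
      norm_num
    refine (Finset.sum_le_card_nsmul _ _ _ h2).trans ?_
    rw [Finset.card_range, nsmul_eq_mul]
    push_cast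
    have h4 : ((2 : ℝ) ^ N * 2 ^ n + 1) ≤ 2 * (2 ^ N * 2 ^ n) := by
      have a1 : (1 : ℝ) ≤ 2 ^ N := one_le_pow₀ (by norm_num)
      have a2 : (1 : ℝ) ≤ 2 ^ n := one_le_pow₀ (by norm_num)
      nlinarith
    have h5 : (0 : ℝ) ≤ ((2 : ℝ) ^ n) ^ (-ε) := by positivity
    calc ((2 : ℝ) ^ N * 2 ^ n + 1) * (2 * (nT * (C * (2 ^ N * 2 ^ n)⁻¹ * ((2 : ℝ) ^ n) ^ (-ε))))
        ≤ 2 * (2 ^ N * 2 ^ n) * (2 * (nT * (C * (2 ^ N * 2 ^ n)⁻¹ * ((2 : ℝ) ^ n) ^ (-ε)))) :=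
          mul_le_mul_of_nonneg_right h4 (by positivity)
      _ = 4 * nT * C * ((2 : ℝ) ^ n) ^ (-ε) := by
          field_simp
          ring
      _ ≤ 4 * nT * C * ((2 : ℝ) ^ (-(ε * ε))) ^ N := mul_le_mul_of_nonneg_left hp (by positivity)
  refine (Finset.sum_le_card_nsmul _ _ _ h1).trans ?_
  rw [nsmul_eq_mul]
  refine mul_le_mul_of_nonneg_right ?_ (by positivity)
  have h6 : ((Finset.range (N + 1)).filter
      (fun n => ((2 : ℝ) ^ N) ^ ε ≤ 2 ^ n ∧ (2 : ℝ) ^ n ≤ (2 ^ N) ^ (1 / 2 + e2))).card ≤ N + 1 :=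
    (Finset.card_filter_le _ _).trans (by rw [Finset.card_range])
  exact_mod_cast h6

private lemma k2_summable {q : ℝ} (hq : 0 ≤ q) (hq1 : q < 1) (A : ℝ) : Summable (fun N : ℕ => ((N : ℝ) + 1) * (A * q ^ N)) := by
  have h1 : Summable (fun N : ℕ => ((N : ℝ) ^ 1 * q ^ N : ℝ)) :=
    summable_pow_mul_geometric_of_norm_lt_one 1 (by rw [Real.norm_of_nonneg hq]; exact hq1)
  have h2 : Summable (fun N : ℕ => q ^ N) := summable_geometric_of_lt_one hq hq1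
  have h3 := (h1.add h2).mul_left A
  refine h3.congr (fun N => ?_)
  ring

/-- one block -/
private lemma block_bound {L : ℕ} {ε e2 C' : ℝ} (hε : 0 < ε) (he2 : e2 ≤ 1 / 4) (hC' : 0 ≤ C') {nT : ℕ}
    (v : Fin nT → ℝ → ℝ → ℤ × ℤ → ℂ) {N n : ℕ} {Ra x : ℝ}
    (hvc : ∀ i k, Continuous (fun p : ℝ × ℝ => v i p.1 p.2 k)) (hvb : ∀ i R α k, ‖v i R α k‖ ≤ 1)
    {w : (Fin L → ℝ) × (Fin L → ℝ)} (hn : (2 : ℝ) ^ n ≤ (2 ^ N) ^ (1 / 2 + e2))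
    (hx : x ≤ C' * ((2 : ℝ) ^ N) ^ (1 / 2 : ℝ) * ((2 : ℝ) ^ n) ^ (-(3 / 2) : ℝ) *
              (∑ i, Zf (((2 : ℝ) ^ N * 2 ^ n) ^ (-(1 / 2) : ℝ)) n Ra (v i) w) + C')
    (hZ : ((2 : ℝ) ^ N) ^ ε ≤ 2 ^ n → ∀ i, Zf (((2 : ℝ) ^ N * 2 ^ n) ^ (-(1 / 2) : ℝ)) n Ra (v i) w ≤ ((2 : ℝ) ^ n) ^ (3 / 2 + ε)) :
    x ≤ (500 * C' * nT + C') * ((2 : ℝ) ^ N) ^ (1 / 2 + 3 / 4 * ε) := by
  have hK : (0 : ℝ) < 2 ^ n := by positivity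
  have hR : (1 : ℝ) ≤ 2 ^ N := one_le_pow₀ (by norm_num)
  have hR0 : (0 : ℝ) < 2 ^ N := by positivity
  have hone : (1 : ℝ) ≤ ((2 : ℝ) ^ N) ^ (1 / 2 + 3 / 4 * ε) := Real.one_le_rpow hR (by positivity)
  have hmain : C' * ((2 : ℝ) ^ N) ^ (1 / 2 : ℝ) * ((2 : ℝ) ^ n) ^ (-(3 / 2) : ℝ) *
      (∑ i, Zf (((2 : ℝ) ^ N * 2 ^ n) ^ (-(1 / 2) : ℝ)) n Ra (v i) w) ≤
      500 * C' * nT * ((2 : ℝ) ^ N) ^ (1 / 2 + 3 / 4 * ε) := by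
    by_cases h : ((2 : ℝ) ^ N) ^ ε ≤ 2 ^ n
    · have h1 : ∑ i, Zf (((2 : ℝ) ^ N * 2 ^ n) ^ (-(1 / 2) : ℝ)) n Ra (v i) w ≤ nT * ((2 : ℝ) ^ n) ^ (3 / 2 + ε) := by
        refine (Finset.sum_le_card_nsmul _ _ _ (fun i _ => hZ h i)).trans (le_of_eq ?_)
        rw [Finset.card_univ, Fintype.card_fin, nsmul_eq_mul]
      have h2 : ((2 : ℝ) ^ n) ^ (-(3 / 2) : ℝ) * ((2 : ℝ) ^ n) ^ (3 / 2 + ε) = ((2 : ℝ) ^ n) ^ ε := by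
        rw [← Real.rpow_add hK]
        congr 1
        ring
      have h3 : ((2 : ℝ) ^ n) ^ ε ≤ ((2 : ℝ) ^ N) ^ (3 / 4 * ε) := by
        have h4 : (2 : ℝ) ^ n ≤ (2 ^ N) ^ (3 / 4 : ℝ) :=
          hn.trans (Real.rpow_le_rpow_of_exponent_le hR (by linarith))
        calc ((2 : ℝ) ^ n) ^ ε ≤ (((2 : ℝ) ^ N) ^ (3 / 4 : ℝ)) ^ ε := Real.rpow_le_rpow hK.le h4 hε.le
          _ = _ := by rw [← Real.rpow_mul hR0.le]
      calc C' * ((2 : ℝ) ^ N) ^ (1 / 2 : ℝ) * ((2 : ℝ) ^ n) ^ (-(3 / 2) : ℝ) *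
            (∑ i, Zf (((2 : ℝ) ^ N * 2 ^ n) ^ (-(1 / 2) : ℝ)) n Ra (v i) w)
          ≤ C' * ((2 : ℝ) ^ N) ^ (1 / 2 : ℝ) * ((2 : ℝ) ^ n) ^ (-(3 / 2) : ℝ) * (nT * ((2 : ℝ) ^ n) ^ (3 / 2 + ε)) :=
            mul_le_mul_of_nonneg_left h1 (by positivity)
        _ = C' * nT * (((2 : ℝ) ^ N) ^ (1 / 2 : ℝ) * (((2 : ℝ) ^ n) ^ (-(3 / 2) : ℝ) * ((2 : ℝ) ^ n) ^ (3 / 2 + ε))) := by ring
        _ = C' * nT * (((2 : ℝ) ^ N) ^ (1 / 2 : ℝ) * ((2 : ℝ) ^ n) ^ ε) := by rw [h2]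
        _ ≤ C' * nT * (((2 : ℝ) ^ N) ^ (1 / 2 : ℝ) * ((2 : ℝ) ^ N) ^ (3 / 4 * ε)) := by
            refine mul_le_mul_of_nonneg_left (mul_le_mul_of_nonneg_left h3 (by positivity)) (by positivity)
        _ = C' * nT * ((2 : ℝ) ^ N) ^ (1 / 2 + 3 / 4 * ε) := by rw [← Real.rpow_add hR0]
        _ ≤ 500 * C' * nT * ((2 : ℝ) ^ N) ^ (1 / 2 + 3 / 4 * ε) := by
            have : 0 ≤ C' * nT * ((2 : ℝ) ^ N) ^ (1 / 2 + 3 / 4 * ε) := by positivity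
            linarith
    · rw [not_le] at h
      have h1 : ∑ i, Zf (((2 : ℝ) ^ N * 2 ^ n) ^ (-(1 / 2) : ℝ)) n Ra (v i) w ≤ nT * (500 * ((2 : ℝ) ^ n) ^ (2 : ℝ)) := by
        refine (Finset.sum_le_card_nsmul _ _ (500 * ((2 : ℝ) ^ n) ^ (2 : ℝ)) (fun i _ => ?_)).trans (le_of_eq ?_)
        · have h4 := Zf_trivial (β := ((2 : ℝ) ^ N * 2 ^ n) ^ (-(1 / 2) : ℝ)) (by positivity) n Ra (v i) (hvc i) (hvb i) w
          have h5 : ((2 : ℝ) ^ n) ^ (2 : ℝ) = 4 ^ n := by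
            rw [Real.rpow_two, ← pow_mul, mul_comm n 2, pow_mul]
            norm_num
          rw [h5]
          exact h4
        · rw [Finset.card_univ, Fintype.card_fin, nsmul_eq_mul]
      have h2 : ((2 : ℝ) ^ n) ^ (-(3 / 2) : ℝ) * ((2 : ℝ) ^ n) ^ (2 : ℝ) = ((2 : ℝ) ^ n) ^ (1 / 2 : ℝ) := by
        rw [← Real.rpow_add hK]
        norm_num
      have h3 : ((2 : ℝ) ^ n) ^ (1 / 2 : ℝ) ≤ ((2 : ℝ) ^ N) ^ (3 / 4 * ε) := by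
        calc ((2 : ℝ) ^ n) ^ (1 / 2 : ℝ) ≤ (((2 : ℝ) ^ N) ^ ε) ^ (1 / 2 : ℝ) :=
              Real.rpow_le_rpow hK.le h.le (by norm_num)
          _ = ((2 : ℝ) ^ N) ^ (ε * (1 / 2)) := by rw [← Real.rpow_mul hR0.le]
          _ ≤ _ := Real.rpow_le_rpow_of_exponent_le hR (by linarith)
      calc C' * ((2 : ℝ) ^ N) ^ (1 / 2 : ℝ) * ((2 : ℝ) ^ n) ^ (-(3 / 2) : ℝ) *
            (∑ i, Zf (((2 : ℝ) ^ N * 2 ^ n) ^ (-(1 / 2) : ℝ)) n Ra (v i) w)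
          ≤ C' * ((2 : ℝ) ^ N) ^ (1 / 2 : ℝ) * ((2 : ℝ) ^ n) ^ (-(3 / 2) : ℝ) * (nT * (500 * ((2 : ℝ) ^ n) ^ (2 : ℝ))) :=
            mul_le_mul_of_nonneg_left h1 (by positivity)
        _ = 500 * C' * nT * (((2 : ℝ) ^ N) ^ (1 / 2 : ℝ) * (((2 : ℝ) ^ n) ^ (-(3 / 2) : ℝ) * ((2 : ℝ) ^ n) ^ (2 : ℝ))) := by ring
        _ = 500 * C' * nT * (((2 : ℝ) ^ N) ^ (1 / 2 : ℝ) * ((2 : ℝ) ^ n) ^ (1 / 2 : ℝ)) := by rw [h2]
        _ ≤ 500 * C' * nT * (((2 : ℝ) ^ N) ^ (1 / 2 : ℝ) * ((2 : ℝ) ^ N) ^ (3 / 4 * ε)) := by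
            refine mul_le_mul_of_nonneg_left (mul_le_mul_of_nonneg_left h3 (by positivity)) (by positivity)
        _ = 500 * C' * nT * ((2 : ℝ) ^ N) ^ (1 / 2 + 3 / 4 * ε) := by rw [← Real.rpow_add hR0]
  have hc : C' ≤ C' * ((2 : ℝ) ^ N) ^ (1 / 2 + 3 / 4 * ε) := le_mul_of_one_le_right hC' hone
  calc x ≤ _ := hx
    _ ≤ 500 * C' * nT * ((2 : ℝ) ^ N) ^ (1 / 2 + 3 / 4 * ε) + C' * ((2 : ℝ) ^ N) ^ (1 / 2 + 3 / 4 * ε) := add_le_add hmain hc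
    _ = _ := by ring

private lemma k2_log {ε : ℝ} (hε : 0 < ε) (N : ℕ) : (N : ℝ) ≤ 4 / (ε * log 2) * ((2 : ℝ) ^ N) ^ (1 / 4 * ε) := by
  have hl : 0 < log 2 := Real.log_pos (by norm_num)
  have h1 : ((2 : ℝ) ^ N) ^ (1 / 4 * ε) = exp (N * (log 2 * (1 / 4 * ε))) := by
    rw [← Real.rpow_natCast, ← Real.rpow_mul (by norm_num), Real.rpow_def_of_pos (by norm_num)]
    congr 1
    ring
  have h2 := Real.add_one_le_exp (N * (log 2 * (1 / 4 * ε)))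
  rw [h1]
  have h3 : (N : ℝ) = 4 / (ε * log 2) * (N * (log 2 * (1 / 4 * ε))) := by
    field_simp
  calc (N : ℝ) = 4 / (ε * log 2) * (N * (log 2 * (1 / 4 * ε))) := h3
    _ ≤ _ := mul_le_mul_of_nonneg_left (by linarith) (by positivity)

theorem main_finite {ε : ℝ} (hε : 0 < ε) (hε1 : ε ≤ 1) {L : ℕ} (hL : 2 / ε + 8 ≤ L) {H₀ : ℝ → ℝ}
    (h0 : ContDiff ℝ 2 H₀) (hp : Function.Periodic H₀ (2 * π)) :
    ∀ᵐ w : (Fin L → ℝ) × (Fin L → ℝ), IsSupp (Hw H₀ w) → ∃ C : ℝ, ∀ R : ℝ, 1 ≤ R →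
      |cnt (Hw H₀ w) R - area (Hw H₀ w) * R ^ 2| ≤ C * R ^ (1 / 2 + ε) := by
  obtain ⟨φ, hφ⟩ := exists_bump
  obtain ⟨e2, Ck, R₁, he2, he2', hCk, hR₁, hkey⟩ := key hε hε1 hε hε1 hL
  have hfin : IsFiniteMeasure (gm L) := ⟨by rw [gm_univ]; exact ENNReal.one_lt_top⟩
  apply (vol_ac L).ae_le
  have hq0 : (0 : ℝ) ≤ 2 ^ (-(ε * ε)) := by positivity
  have hq1 : (2 : ℝ) ^ (-(ε * ε)) < 1 := Real.rpow_lt_one_of_one_lt_of_neg (by norm_num) (by nlinarith)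
  obtain ⟨N₀, hN₀⟩ : ∃ N₀ : ℕ, R₁ ≤ 2 ^ N₀ := k2_pow R₁
  have hmain : ∀ Bd : ℕ, ∀ᵐ w ∂(gm L), ‖w‖ ≤ Bd → IsSupp (Hw H₀ w) → ∃ C : ℝ, ∀ R : ℝ, 1 ≤ R →
      |cnt (Hw H₀ w) R - area (Hw H₀ w) * R ^ 2| ≤ C * R ^ (1 / 2 + ε) := by
    intro Bd
    obtain ⟨nT, C', hC', htypes⟩ := types L h0 hp Bd
    have hex : ∀ (N n j : ℕ) (b : Bool), ∃ v : Fin nT → ℝ → ℝ → ℤ × ℤ → ℂ, j ≤ 2 ^ N * 2 ^ n →
        (∀ i k, Continuous (fun p : ℝ × ℝ => v i p.1 p.2 k)) ∧ (∀ i R α k, ‖v i R α k‖ ≤ 1) ∧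
        ∀ w : (Fin L → ℝ) × (Fin L → ℝ), ‖w‖ ≤ Bd → ∀ R ∈ Icc ((2 : ℝ) ^ N + j / 2 ^ n) ((2 : ℝ) ^ N + j / 2 ^ n + 1 / 2 ^ n),
          IsSupp (fun θ => R * Hw H₀ w θ + sgn b * ((2 : ℝ) ^ N) ^ (-(1 / 2) : ℝ)) →
          ‖VK φ (fun θ => R * Hw H₀ w θ + sgn b * ((2 : ℝ) ^ N) ^ (-(1 / 2) : ℝ)) (((2 : ℝ) ^ N) ^ (-(1 / 2) : ℝ)) n‖ ≤
            C' * ((2 : ℝ) ^ N) ^ (1 / 2 : ℝ) * ((2 : ℝ) ^ n) ^ (-(3 / 2) : ℝ) *
              (∑ i, Zf (((2 : ℝ) ^ N * 2 ^ n) ^ (-(1 / 2) : ℝ)) n ((2 : ℝ) ^ N + j / 2 ^ n) (v i) w) + C' := by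
      intro N n j b
      by_cases hj : j ≤ 2 ^ N * 2 ^ n
      · have hRa : (2 : ℝ) ^ N + j / 2 ^ n ∈ Icc ((2 : ℝ) ^ N) (2 * 2 ^ N) := by
          have h1 : (0 : ℝ) ≤ j / 2 ^ n := by positivity
          have h2 : (j : ℝ) / 2 ^ n ≤ 2 ^ N := by
            rw [div_le_iff₀ (by positivity)]
            exact_mod_cast hj
          constructor <;> linarith
        obtain ⟨v, h1, h2, h3⟩ := htypes φ hφ (2 ^ N) (one_le_pow₀ (by norm_num)) n (sgn b) (sgn_or b) _ hRa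
        exact ⟨v, fun _ => ⟨h1, h2, h3⟩⟩
      · exact ⟨fun _ _ _ _ => 0, fun h => absurd h hj⟩
    choose v hv using hex
    have hbc := k2_bc (μ := gm L) (fun N => bad ε e2 v (N + N₀))
      (fun N => (((N + N₀ : ℕ) : ℝ) + 1) * (4 * nT * Ck * ((2 : ℝ) ^ (-(ε * ε))) ^ (N + N₀)))
      ((summable_nat_add_iff (f := fun N : ℕ => ((N : ℝ) + 1) * (4 * nT * Ck * ((2 : ℝ) ^ (-(ε * ε))) ^ N)) N₀).2
        (k2_summable hq0 hq1 _))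
      (fun N => bad_measure hε hCk v hkey
        (hN₀.trans (pow_le_pow_right₀ (by norm_num) (by omega)))
        (fun n j b hj => ⟨(hv (N + N₀) n j b hj).1, (hv (N + N₀) n j b hj).2.1⟩))
    filter_upwards [hbc] with w hw hwB hS
    obtain ⟨N₁, hN₁⟩ := eventually_atTop.1 hw
    obtain ⟨C₂, R₂, hR₂, hblk⟩ := err_le_blocks hS hφ he2
    obtain ⟨N₂, hN₂⟩ : ∃ N₂ : ℕ, R₂ ≤ 2 ^ N₂ := k2_pow R₂
    obtain ⟨C₃, hC₃⟩ := cnt_bdd hS (2 ^ (N₀ + N₁ + N₂))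
    set D : ℝ := (500 * C' * nT + C') * (4 / (ε * log 2)) with hD
    have hD0 : 0 ≤ D := by
      have hl : 0 < log 2 := Real.log_pos (by norm_num)
      positivity
    refine ⟨|C₃| + |C₂| + D, fun R hR => ?_⟩
    have hRp : 1 ≤ R ^ (1 / 2 + ε) := Real.one_le_rpow hR (by positivity)
    rcases le_or_gt R (2 ^ (N₀ + N₁ + N₂)) with hcase | hcase
    · calc |cnt (Hw H₀ w) R - area (Hw H₀ w) * R ^ 2| ≤ C₃ := hC₃ R hR hcase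
        _ ≤ |C₃| + |C₂| + D := by
            have := le_abs_self C₃
            have := abs_nonneg C₂
            linarith
        _ ≤ _ := le_mul_of_one_le_right (by positivity) hRp
    · obtain ⟨N, hN1, hN2⟩ := exists_nat_pow_near hR (one_lt_two)
      have hNN : N₀ + N₁ + N₂ ≤ N := by
        by_contra hcon
        have h1 : N + 1 ≤ N₀ + N₁ + N₂ := by omega
        have h2 : (2 : ℝ) ^ (N + 1) ≤ 2 ^ (N₀ + N₁ + N₂) := pow_le_pow_right₀ (by norm_num) h1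
        linarith
      have hRmem : R ∈ Icc ((2 : ℝ) ^ N) (2 * 2 ^ N) := by
        refine ⟨hN1, ?_⟩
        rw [pow_succ] at hN2
        linarith
      have hR1 : (1 : ℝ) ≤ 2 ^ N := one_le_pow₀ (by norm_num)
      have hR0 : (0 : ℝ) < 2 ^ N := by positivity
      have hexn : ∃ n : ℕ, ((2 : ℝ) ^ N) ^ (1 / 2 + e2) ≤ 2 ^ n := k2_pow _
      classical
      set n1 := Nat.find hexn with hn1
      have hn1s : ((2 : ℝ) ^ N) ^ (1 / 2 + e2) ≤ 2 ^ n1 := Nat.find_spec hexn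
      have hn1N : n1 ≤ N := by
        apply Nat.find_min' hexn
        calc ((2 : ℝ) ^ N) ^ (1 / 2 + e2) ≤ ((2 : ℝ) ^ N) ^ (1 : ℝ) :=
              Real.rpow_le_rpow_of_exponent_le hR1 (by linarith)
          _ = 2 ^ N := Real.rpow_one _
      obtain ⟨σ, hσ, hσS, herr⟩ := hblk (2 ^ N) (hN₂.trans (pow_le_pow_right₀ (by norm_num) (by omega))) R hRmem n1 hn1s
      obtain ⟨b, rfl⟩ := sgn_surj hσ
      have hnb : w ∉ bad ε e2 v N := by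
        have h1 := hN₁ (N - N₀) (by omega)
        rwa [Nat.sub_add_cancel (by omega)] at h1
      have hsum : ∑ n ∈ Finset.range n1, ‖VK φ (fun θ => R * Hw H₀ w θ + sgn b * ((2 : ℝ) ^ N) ^ (-(1 / 2) : ℝ))
          (((2 : ℝ) ^ N) ^ (-(1 / 2) : ℝ)) n‖ ≤ N * ((500 * C' * nT + C') * ((2 : ℝ) ^ N) ^ (1 / 2 + 3 / 4 * ε)) := by
        have h1 : ∀ n ∈ Finset.range n1, ‖VK φ (fun θ => R * Hw H₀ w θ + sgn b * ((2 : ℝ) ^ N) ^ (-(1 / 2) : ℝ))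
            (((2 : ℝ) ^ N) ^ (-(1 / 2) : ℝ)) n‖ ≤ (500 * C' * nT + C') * ((2 : ℝ) ^ N) ^ (1 / 2 + 3 / 4 * ε) := by
          intro n hn
          rw [Finset.mem_range] at hn
          have hn2 : (2 : ℝ) ^ n ≤ (2 ^ N) ^ (1 / 2 + e2) := by
            have := Nat.find_min hexn hn
            rw [not_le] at this
            exact this.le
          obtain ⟨j, hj1, hj2, _⟩ := k2_grid (n := n) hRmem.1 hRmem.2
          obtain ⟨g1, g2, g3⟩ := hv N n j b hj1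
          exact block_bound hε he2' hC' (v N n j b) g1 g2 hn2 (g3 w hwB R hj2 hσS)
            (fun h i => mem_bad hnb (by omega) h hn2 hj1 b i)
        refine (Finset.sum_le_card_nsmul _ _ _ h1).trans ?_
        rw [Finset.card_range, nsmul_eq_mul]
        refine mul_le_mul_of_nonneg_right (by exact_mod_cast hn1N) (by positivity)
      have hfinal : (N : ℝ) * ((500 * C' * nT + C') * ((2 : ℝ) ^ N) ^ (1 / 2 + 3 / 4 * ε)) ≤ D * ((2 : ℝ) ^ N) ^ (1 / 2 + ε) := by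
        calc (N : ℝ) * ((500 * C' * nT + C') * ((2 : ℝ) ^ N) ^ (1 / 2 + 3 / 4 * ε))
            ≤ (4 / (ε * log 2) * ((2 : ℝ) ^ N) ^ (1 / 4 * ε)) * ((500 * C' * nT + C') * ((2 : ℝ) ^ N) ^ (1 / 2 + 3 / 4 * ε)) :=
              mul_le_mul_of_nonneg_right (k2_log hε N) (by positivity)
          _ = D * (((2 : ℝ) ^ N) ^ (1 / 4 * ε) * ((2 : ℝ) ^ N) ^ (1 / 2 + 3 / 4 * ε)) := by rw [hD]; ring
          _ = D * ((2 : ℝ) ^ N) ^ (1 / 2 + ε) := by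
              rw [← Real.rpow_add hR0]
              congr 2
              ring
      have hpow : ((2 : ℝ) ^ N) ^ (1 / 2 + ε) ≤ R ^ (1 / 2 + ε) := Real.rpow_le_rpow hR0.le hN1 (by positivity)
      have hhalf : ((2 : ℝ) ^ N) ^ (1 / 2 : ℝ) ≤ ((2 : ℝ) ^ N) ^ (1 / 2 + ε) :=
        Real.rpow_le_rpow_of_exponent_le hR1 (by linarith)
      calc |cnt (Hw H₀ w) R - area (Hw H₀ w) * R ^ 2|
          ≤ C₂ * ((2 : ℝ) ^ N) ^ (1 / 2 : ℝ) + ∑ n ∈ Finset.range n1,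
            ‖VK φ (fun θ => R * Hw H₀ w θ + sgn b * ((2 : ℝ) ^ N) ^ (-(1 / 2) : ℝ)) (((2 : ℝ) ^ N) ^ (-(1 / 2) : ℝ)) n‖ := herr
        _ ≤ |C₂| * ((2 : ℝ) ^ N) ^ (1 / 2 + ε) + D * ((2 : ℝ) ^ N) ^ (1 / 2 + ε) := by
            refine add_le_add ?_ (hsum.trans hfinal)
            exact mul_le_mul (le_abs_self _) hhalf (by positivity) (abs_nonneg _)
        _ = (|C₂| + D) * ((2 : ℝ) ^ N) ^ (1 / 2 + ε) := by ring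
        _ ≤ (|C₂| + D) * R ^ (1 / 2 + ε) := mul_le_mul_of_nonneg_left hpow (by positivity)
        _ ≤ (|C₃| + |C₂| + D) * R ^ (1 / 2 + ε) := by
            refine mul_le_mul_of_nonneg_right ?_ (by positivity)
            have := abs_nonneg C₃
            linarith
  have hall := ae_all_iff.2 hmain
  filter_upwards [hall] with w hw hS
  exact hw ⌈‖w‖⌉₊ (Nat.le_ceil _) hS

end Pool.Agent.Helper22.AE
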