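import Pool.Agent.Helper22.AE.F3
import Pool.Agent.Helper22.AE.K2

/-!
# AE-F6: the final theorem for random series (some coefficients may vanish)

PROOF. Countably many `L ≥ 10`: if `s l ≠ 0` for all `l < L` then almost surely the bound holds with `ε_L = 2 / (L - 8) ≤ 1`
(`ae_cmb` with `bad_meas`, for a fixed tail `Hx_cmb` gives `H₁`, `main_finite` for `H₁`, `head_ae` with the nonzero `s l`, `l < L`). For
`ε > 0` with `s l ≠ 0` for all `l < 2/ε + 10` take `L = ⌈2/ε + 10⌉₊`; then `ε_L ≤ ε` and the bound with `ε_L` implies the one with `ε`.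
-/

open MeasureTheory Real Set Filter Topology unitInterval

set_option autoImplicit false

namespace Pool.Agent.Helper22.AE

theorem main_series {H₀ : ℝ → ℝ} (h0 : ContDiff ℝ 2 H₀) (hp : Function.Periodic H₀ (2 * π)) {s : ℕ → ℝ}
    (hs : Summable (fun l : ℕ => (l : ℝ) ^ 2 * |s l|)) :
    ∀ᵐ x ∂(Measure.infinitePi fun _ : ℕ => (volume : Measure (I × I))), IsSupp (Hx H₀ s x) →
      ∀ ε : ℝ, 0 < ε → (∀ l : ℕ, (l : ℝ) < 2 / ε + 10 → s l ≠ 0) → ∃ C : ℝ, ∀ R : ℝ, 1 ≤ R →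
        |cnt (Hx H₀ s x) R - area (Hx H₀ s x) * R ^ 2| ≤ C * R ^ (1 / 2 + ε) := by
  have key : ∀ L : ℕ, 10 ≤ L → (∀ l < L, s l ≠ 0) →
      ∀ᵐ x ∂(Measure.infinitePi fun _ : ℕ => (volume : Measure (I × I))), IsSupp (Hx H₀ s x) → ∃ C : ℝ, ∀ R : ℝ, 1 ≤ R →
        |cnt (Hx H₀ s x) R - area (Hx H₀ s x) * R ^ 2| ≤ C * R ^ (1 / 2 + 2 / ((L : ℝ) - 8)) := by
    intro L hL hsL
    have hL' : (10 : ℝ) ≤ L := by exact_mod_cast hL
    have hL8 : (0 : ℝ) < (L : ℝ) - 8 := by linarith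
    refine ae_cmb L (bad_meas h0 hp hs (2 / ((L : ℝ) - 8))) ?_
    intro t
    obtain ⟨H₁, h1, h1p, hH⟩ := Hx_cmb h0 hp hs L t
    have hm := main_finite (ε := 2 / ((L : ℝ) - 8)) (by positivity) (by rw [div_le_one hL8]; linarith) (L := L)
      (by
        have : 2 / (2 / ((L : ℝ) - 8)) = (L : ℝ) - 8 := by field_simp
        rw [this]
        linarith) h1 h1p
    have hh := head_ae (s := fun l : Fin L => s l) (fun l => hsL l l.2) hm
    filter_upwards [hh] with q hq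
    show IsSupp (Hx H₀ s (cmb L q t)) → _
    rw [hH q]
    exact hq
  have hall : ∀ᵐ x ∂(Measure.infinitePi fun _ : ℕ => (volume : Measure (I × I))), ∀ L : ℕ, 10 ≤ L → (∀ l < L, s l ≠ 0) →
      IsSupp (Hx H₀ s x) → ∃ C : ℝ, ∀ R : ℝ, 1 ≤ R →
        |cnt (Hx H₀ s x) R - area (Hx H₀ s x) * R ^ 2| ≤ C * R ^ (1 / 2 + 2 / ((L : ℝ) - 8)) := by
    rw [ae_all_iff]
    intro L
    by_cases h1 : 10 ≤ L
    · by_cases h2 : ∀ l < L, s l ≠ 0
      · filter_upwards [key L h1 h2] with x hx _ _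
        exact hx
      · filter_upwards with x _ h
        exact absurd h h2
    · filter_upwards with x h
      exact absurd h h1
  filter_upwards [hall] with x hx hsupp ε hε hne
  have hc : 2 / ε + 10 ≤ (⌈2 / ε + 10⌉₊ : ℝ) := Nat.le_ceil _
  have hpos : 0 < 2 / ε := by positivity
  have hL10 : 10 ≤ ⌈2 / ε + 10⌉₊ := by
    have : (10 : ℝ) ≤ (⌈2 / ε + 10⌉₊ : ℝ) := by linarith
    exact_mod_cast this
  obtain ⟨C, hC⟩ := hx ⌈2 / ε + 10⌉₊ hL10 (fun l hl => hne l (Nat.lt_ceil.mp hl)) hsupp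
  refine ⟨|C|, fun R hR => (hC R hR).trans ?_⟩
  have hR0 : 0 < R := by linarith
  have h1 : C * R ^ (1 / 2 + 2 / ((⌈2 / ε + 10⌉₊ : ℝ) - 8)) ≤ |C| * R ^ (1 / 2 + 2 / ((⌈2 / ε + 10⌉₊ : ℝ) - 8)) :=
    mul_le_mul_of_nonneg_right (le_abs_self C) (Real.rpow_nonneg hR0.le _)
  refine h1.trans (mul_le_mul_of_nonneg_left ?_ (abs_nonneg C))
  apply Real.rpow_le_rpow_of_exponent_le hR
  have h2 : 2 / ((⌈2 / ε + 10⌉₊ : ℝ) - 8) ≤ ε := by
    rw [div_le_iff₀ (by linarith)]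
    have h3 : ε * (2 / ε) = 2 := by field_simp
    nlinarith
  linarith

end Pool.Agent.Helper22.AE
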