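import Pool.Agent.Helper22.AE.Defs

/-!
# AE-G1: strict support inequality (paper (1.1))

`bx_lt`. PROOF. First `0 < |s - t| ≤ π`. Put `f s = G s - ((bx G t).1 cos s + (bx G t).2 sin s)`. Then `f t = 0`, `f' t = 0` and
`f + f'' = rho G > 0` (the subtracted function solves `y + y'' = 0`). Either use the variation of constants formula
`f s = ∫_t^s sin (s - u) rho G u du > 0`, or (no integral): for `t < s ≤ t + π` the function
`W u = f u * cos (s - u) + f' u * sin (s - u)` has `W' u = (f u + f'' u) sin (s - u) > 0` on `(t, s)`, `W t = 0`, `W s = f s`, so `f s > 0`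
(`strictMonoOn_of_deriv_pos`). For `s < t` apply the same with signs: `W u` on `[s, t]`, `sin (s - u) < 0`, so `W` is strictly decreasing
in `u`, `W s = f s > W t = 0`.
If `π < |s - t| < 2π` replace `s` by `s - 2π` or `s + 2π` (everything is periodic).
-/

open MeasureTheory Real Set Filter Topology

set_option autoImplicit false

namespace Pool.Agent.Helper22.AE

lemma bx_self (G : ℝ → ℝ) (θ : ℝ) : (bx G θ).1 * cos θ + (bx G θ).2 * sin θ = G θ := by
  have h := sin_sq_add_cos_sq θ
  simp only [bx]
  linear_combination (G θ) * h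

private lemma bx_eq (G : ℝ → ℝ) (t s : ℝ) :
    (bx G t).1 * cos s + (bx G t).2 * sin s = G t * cos (s - t) + deriv G t * sin (s - t) := by
  simp only [bx]
  rw [cos_sub, sin_sub]
  ring

private lemma aux_deriv {G : ℝ → ℝ} (hG : IsSupp G) (s u : ℝ) :
    HasDerivAt (fun u => G u * cos (s - u) + deriv G u * sin (s - u))
      ((G u + deriv (deriv G) u) * sin (s - u)) u := by
  have h1 : HasDerivAt G (deriv G u) u :=
    ((hG.smooth.differentiable (by norm_num)) u).hasDerivAt
  have h2 : HasDerivAt (deriv G) (deriv (deriv G) u) u := by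
    have h3 : ContDiff ℝ 1 (deriv G) := by
      have h4 := hG.smooth
      have h5 : ContDiff ℝ (1 + 1) G := by
        convert h4 using 1
        norm_num
      exact (contDiff_succ_iff_deriv.1 h5).2.2
    exact ((h3.differentiable (by norm_num)) u).hasDerivAt
  have h6 : HasDerivAt (fun u => s - u) (-1) u := by
    simpa using (hasDerivAt_id u).const_sub s
  have h7 := (hasDerivAt_cos (s - u)).comp u h6
  have h8 := (hasDerivAt_sin (s - u)).comp u h6
  have h9 := (h1.mul h7).add (h2.mul h8)
  refine h9.congr_deriv ?_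
  simp only [Function.comp]
  ring

private lemma bx_lt_near {G : ℝ → ℝ} (hG : IsSupp G) (t s : ℝ) (h0 : 0 < |s - t|)
    (h1 : |s - t| ≤ π) : (bx G t).1 * cos s + (bx G t).2 * sin s < G s := by
  rw [bx_eq]
  have hs : G s = (fun u => G u * cos (s - u) + deriv G u * sin (s - u)) s := by simp
  rw [hs]
  change (fun u => G u * cos (s - u) + deriv G u * sin (s - u)) t < _
  have hcont : ∀ S : Set ℝ, ContinuousOn (fun u => G u * cos (s - u) + deriv G u * sin (s - u)) S :=
    fun S u _ => (aux_deriv hG s u).continuousAt.continuousWithinAt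
  rcases lt_trichotomy t s with h | h | h
  · have h2 : s - t ≤ π := by rwa [abs_of_pos (by linarith)] at h1
    have h3 : StrictMonoOn (fun u => G u * cos (s - u) + deriv G u * sin (s - u)) (Set.Icc t s) := by
      refine strictMonoOn_of_deriv_pos (convex_Icc t s) (hcont _) ?_
      intro u hu
      rw [interior_Icc] at hu
      rw [(aux_deriv hG s u).deriv]
      refine mul_pos (hG.rho_pos u) (sin_pos_of_pos_of_lt_pi ?_ ?_)
      · linarith [hu.2]
      · linarith [hu.1]
    exact h3 (Set.left_mem_Icc.2 h.le) (Set.right_mem_Icc.2 h.le) h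
  · exfalso
    rw [h, sub_self, abs_zero] at h0
    exact lt_irrefl _ h0
  · have h2 : t - s ≤ π := by
      rw [abs_of_neg (by linarith)] at h1
      linarith
    have h3 : StrictAntiOn (fun u => G u * cos (s - u) + deriv G u * sin (s - u)) (Set.Icc s t) := by
      refine strictAntiOn_of_deriv_neg (convex_Icc s t) (hcont _) ?_
      intro u hu
      rw [interior_Icc] at hu
      rw [(aux_deriv hG s u).deriv]
      refine mul_neg_of_pos_of_neg (hG.rho_pos u) (sin_neg_of_neg_of_neg_pi_lt ?_ ?_)
      · linarith [hu.1]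
      · linarith [hu.2]
    exact h3 (Set.left_mem_Icc.2 h.le) (Set.right_mem_Icc.2 h.le) h

theorem bx_lt {G : ℝ → ℝ} (hG : IsSupp G) (t s : ℝ) (h0 : 0 < |s - t|) (h1 : |s - t| < 2 * π) :
    (bx G t).1 * cos s + (bx G t).2 * sin s < G s := by
  have hpi := pi_pos
  by_cases h2 : |s - t| ≤ π
  · exact bx_lt_near hG t s h0 h2
  · push Not at h2
    rcases le_or_gt t s with h | h
    · have h3 : |s - t| = s - t := abs_of_nonneg (by linarith)
      have h4 : |s - 2 * π - t| = 2 * π - (s - t) := by
        rw [abs_of_nonpos (by linarith)]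
        ring
      have h5 := bx_lt_near hG t (s - 2 * π) (by rw [h4]; linarith) (by rw [h4]; linarith)
      rwa [cos_sub_two_pi, sin_sub_two_pi, hG.per.sub_eq] at h5
    · have h3 : |s - t| = t - s := by
        rw [abs_of_neg (by linarith)]
        ring
      have h4 : |s + 2 * π - t| = 2 * π - (t - s) := by
        rw [abs_of_nonneg (by linarith)]
        ring
      have h5 := bx_lt_near hG t (s + 2 * π) (by rw [h4]; linarith) (by rw [h4]; linarith)
      rwa [cos_add_two_pi, sin_add_two_pi, hG.per s] at h5

end Pool.Agent.Helper22.AE
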