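import Pool.Agent.Helper22.AE.G1

/-!
# AE-G2: the polar-type parametrisation of the domain (paper (1.2))

`pm G (r, t) = r · bx G t` is a bijection of `(0, 1] × [0, 2π)` onto `dom G` minus the origin.

PROOF of `pm_inj`: `r bx t = r' bx t'`, say `r' ≤ r`; then `bx t' = (r / r') bx t`; multiply by `(cos t, sin t)`: by `bx_self`
`(bx t') · u(t) = (r / r') G t ≥ G t`, so by `bx_lt` `t' = t` (both in `[0, 2π)`, `|t - t'| < 2π`), and then `r = r'` because `G t > 0`
(`bx_self`).
PROOF of `pm_image`: `⊆`: `(r bx t) · u(θ) ≤ r G θ ≤ G θ` by `bx_lt` / `bx_self` (reduce `θ` mod `2π` to `[t - π, t + π]` by periodicity),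
and `r bx t ≠ 0`. `⊇`: let `p ≠ 0` in `dom G`. The continuous `2π`-periodic function `θ ↦ (p.1 cos θ + p.2 sin θ) / G θ` has a maximum on
`[0, 2π]`, at `t ∈ [0, 2π)` (if the maximum is at `2π` take `0`); let `r` be the maximal value. `r > 0` (take `θ` the argument of `p`), `r ≤ 1`.
At the maximum the derivative vanishes: `(-p.1 sin t + p.2 cos t) G t = (p.1 cos t + p.2 sin t) G' t`, hence
`-p.1 sin t + p.2 cos t = r G' t`, `p.1 cos t + p.2 sin t = r G t`, i.e. `p = r bx G t`. (At the point `t = 0` the maximum over `[0, 2π]` is a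
maximum over `ℝ` by periodicity, so `IsLocalMax.deriv_eq_zero` applies.)
-/

open MeasureTheory Real Set Filter Topology

set_option autoImplicit false

namespace Pool.Agent.Helper22.AE

/-- `pm G (r, t) = r · bx G t` -/
noncomputable def pm (G : ℝ → ℝ) (q : ℝ × ℝ) : ℝ × ℝ := (q.1 * (bx G q.2).1, q.1 * (bx G q.2).2)

private lemma bx_le_h65 {G : ℝ → ℝ} (hG : IsSupp G) (t s : ℝ) :
    (bx G t).1 * cos s + (bx G t).2 * sin s ≤ G s := by
  have hmem := toIcoMod_mem_Ico Real.two_pi_pos t s
  have hs := toIcoMod_add_toIcoDiv_zsmul Real.two_pi_pos t s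
  set s0 := toIcoMod Real.two_pi_pos t s with hs0
  set k := toIcoDiv Real.two_pi_pos t s with hk
  have hs' : s = s0 + k * (2 * π) := by rw [← hs, zsmul_eq_mul]
  have hc : cos s = cos s0 := by rw [hs', Real.cos_add_int_mul_two_pi]
  have hsn : sin s = sin s0 := by rw [hs', Real.sin_add_int_mul_two_pi]
  have hG0 : G s = G s0 := by rw [hs']; exact (hG.per.int_mul k) s0
  rw [hc, hsn, hG0]
  rcases eq_or_lt_of_le hmem.1 with h | h
  · rw [← h]
    exact (bx_self G t).le
  · refine (bx_lt hG t s0 ?_ ?_).le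
    · exact abs_pos.mpr (by linarith)
    · rw [abs_of_pos (by linarith)]
      linarith [hmem.2]

private lemma inj_aux_h65 {G : ℝ → ℝ} (hG : IsSupp G) {r t r' t' : ℝ} (hr' : 0 < r')
    (ht : t ∈ Ico (0 : ℝ) (2 * π)) (ht' : t' ∈ Ico (0 : ℝ) (2 * π)) (hle : r' ≤ r)
    (h1 : r * (bx G t).1 = r' * (bx G t').1) (h2 : r * (bx G t).2 = r' * (bx G t').2) :
    r = r' ∧ t = t' := by
  have hself := bx_self G t
  have hGt := hG.pos t
  have hkey : r' * ((bx G t').1 * cos t + (bx G t').2 * sin t) = r * G t := by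
    rw [← hself]
    linear_combination (-cos t) * h1 - (sin t) * h2
  have htt : t = t' := by
    by_contra hne
    have hlt := bx_lt hG t' t (abs_pos.mpr (sub_ne_zero.mpr hne)) (by
      rw [abs_lt]
      constructor
      · linarith [ht.1, ht'.2]
      · linarith [ht.2, ht'.1])
    have h3 : r' * ((bx G t').1 * cos t + (bx G t').2 * sin t) < r' * G t :=
      mul_lt_mul_of_pos_left hlt hr'
    have h4 : r' * G t ≤ r * G t := mul_le_mul_of_nonneg_right hle hGt.le
    linarith
  refine ⟨?_, htt⟩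
  rw [← htt, hself] at hkey
  exact (mul_right_cancel₀ hGt.ne' hkey).symm

theorem pm_inj {G : ℝ → ℝ} (hG : IsSupp G) : InjOn (pm G) (Ioc (0 : ℝ) 1 ×ˢ Ico (0 : ℝ) (2 * π)) := by
  rintro ⟨r, t⟩ ⟨hr, ht⟩ ⟨r', t'⟩ ⟨hr', ht'⟩ h
  simp only [pm, Prod.mk.injEq] at h
  obtain ⟨h1, h2⟩ := h
  simp only at hr ht hr' ht'
  rcases le_total r' r with hle | hle
  · obtain ⟨ha, hb⟩ := inj_aux_h65 hG hr'.1 ht ht' hle h1 h2
    rw [ha, hb]
  · obtain ⟨ha, hb⟩ := inj_aux_h65 hG hr.1 ht' ht hle h1.symm h2.symm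
    rw [ha, hb]

theorem pm_image {G : ℝ → ℝ} (hG : IsSupp G) :
    pm G '' (Ioc (0 : ℝ) 1 ×ˢ Ico (0 : ℝ) (2 * π)) = dom G \ {0} := by
  apply Subset.antisymm
  · rintro _ ⟨⟨r, t⟩, ⟨hr, ht⟩, rfl⟩
    simp only at hr ht
    refine ⟨?_, ?_⟩
    · intro θ
      have h1 := bx_le_h65 hG t θ
      have h2 : r * ((bx G t).1 * cos θ + (bx G t).2 * sin θ) ≤ r * G θ :=
        mul_le_mul_of_nonneg_left h1 hr.1.le
      have h3 : r * G θ ≤ 1 * G θ := mul_le_mul_of_nonneg_right hr.2 (hG.pos θ).le
      simp only [pm]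
      linarith
    · intro h0
      have h0' : pm G (r, t) = (0, 0) := h0
      simp only [pm, Prod.mk.injEq] at h0'
      have h1 := bx_self G t
      have h2 : r * G t = 0 := by
        rw [← h1]
        linear_combination (cos t) * h0'.1 + (sin t) * h0'.2
      exact (mul_pos hr.1 (hG.pos t)).ne' h2
  · rintro ⟨x, y⟩ ⟨hp, hp0⟩
    have hdG : Differentiable ℝ G := hG.smooth.differentiable (by norm_num)
    have hcG : Continuous G := hdG.continuous
    set F : ℝ → ℝ := fun θ => (x * cos θ + y * sin θ) / G θ with hF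
    have hFc : Continuous F := by
      refine Continuous.div (by fun_prop) hcG (fun θ => (hG.pos θ).ne')
    have hFp : Function.Periodic F (2 * π) := by
      intro θ
      simp only [hF, Real.cos_add_two_pi, Real.sin_add_two_pi, hG.per θ]
    obtain ⟨t0, _, hmax⟩ := (isCompact_Icc (a := (0 : ℝ)) (b := 2 * π)).exists_isMaxOn
      (nonempty_Icc.mpr Real.two_pi_pos.le) hFc.continuousOn
    have hred : ∀ θ : ℝ, ∃ θ' ∈ Ico (0 : ℝ) (2 * π), F θ' = F θ := by
      intro θ
      refine ⟨toIcoMod Real.two_pi_pos 0 θ, ?_, ?_⟩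
      · have := toIcoMod_mem_Ico Real.two_pi_pos 0 θ
        rwa [zero_add] at this
      · have hs := toIcoMod_add_toIcoDiv_zsmul Real.two_pi_pos 0 θ
        rw [zsmul_eq_mul] at hs
        conv_rhs => rw [← hs]
        exact ((hFp.int_mul (toIcoDiv Real.two_pi_pos 0 θ)) _).symm
    obtain ⟨t, ht, htt⟩ := hred t0
    have hall : ∀ θ, F θ ≤ F t := by
      intro θ
      obtain ⟨θ', hθ', he⟩ := hred θ
      rw [← he, htt]
      exact hmax ⟨hθ'.1, hθ'.2.le⟩
    have hloc : IsLocalMax F t := Filter.Eventually.of_forall hall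
    have hd1 : HasDerivAt (fun θ => x * cos θ + y * sin θ) (x * (-sin t) + y * cos t) t :=
      ((Real.hasDerivAt_cos t).const_mul x).add ((Real.hasDerivAt_sin t).const_mul y)
    have hd : HasDerivAt F (((x * (-sin t) + y * cos t) * G t - (x * cos t + y * sin t) * deriv G t) /
        G t ^ 2) t := hd1.div (hdG t).hasDerivAt (hG.pos t).ne'
    have hz := hloc.hasDerivAt_eq_zero hd
    have hGt := hG.pos t
    have hz' : (x * (-sin t) + y * cos t) * G t - (x * cos t + y * sin t) * deriv G t = 0 := by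
      rcases div_eq_zero_iff.mp hz with h | h
      · exact h
      · exact absurd h (by positivity)
    have hr1 : F t ≤ 1 := by
      have h := hp t
      simp only at h
      exact (div_le_one hGt).mpr h
    have hr0 : 0 < F t := by
      set z : ℂ := ⟨x, y⟩ with hz0
      have hzne : z ≠ 0 := by
        intro h
        have hx : x = 0 := congrArg Complex.re h
        have hy : y = 0 := congrArg Complex.im h
        exact hp0 (by rw [hx, hy]; rfl)
      have hpos : 0 < ‖z‖ := norm_pos_iff.mpr hzne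
      have hx : ‖z‖ * cos z.arg = x := Complex.norm_mul_cos_arg z
      have hy : ‖z‖ * sin z.arg = y := Complex.norm_mul_sin_arg z
      have h1 : x * cos z.arg + y * sin z.arg = ‖z‖ := by
        have h := sin_sq_add_cos_sq z.arg
        have h2 : ‖z‖ * (sin z.arg ^ 2 + cos z.arg ^ 2) = ‖z‖ := by rw [h, mul_one]
        have h3 : x * cos z.arg + y * sin z.arg
            = ‖z‖ * cos z.arg * cos z.arg + ‖z‖ * sin z.arg * sin z.arg := by rw [hx, hy]
        linear_combination h3 + h2
      have h2 : 0 < F z.arg := by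
        simp only [hF]
        rw [h1]
        exact div_pos hpos (hG.pos _)
      exact lt_of_lt_of_le h2 (hall _)
    refine ⟨(F t, t), ⟨⟨hr0, hr1⟩, ht⟩, ?_⟩
    have hFt : F t * G t = x * cos t + y * sin t := by
      simp only [hF]
      field_simp
    have hFt' : F t * deriv G t = x * (-sin t) + y * cos t := by
      have h : G t * (F t * deriv G t) = G t * (x * (-sin t) + y * cos t) := by
        linear_combination (deriv G t) * hFt - hz'
      exact mul_left_cancel₀ hGt.ne' h
    have hsc := sin_sq_add_cos_sq t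
    simp only [pm, bx, Prod.mk.injEq]
    constructor
    · linear_combination (cos t) * hFt - (sin t) * hFt' + x * hsc
    · linear_combination (sin t) * hFt + (cos t) * hFt' + y * hsc

end Pool.Agent.Helper22.AE
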