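import Pool.Agent.Helper22.AE.G2

/-!
# AE-G3: integration over the domain (paper (1.3))

PROOF. `dom G` is bounded and closed (closed: intersection of closed half planes; bounded: `θ = 0, π/2, π, 3π/2`), so compact and measurable.
Change of variables `MeasureTheory.integral_image_eq_integral_abs_det_fderiv_smul` for `pm G` on `s = Ioc 0 1 ×ˢ Ico 0 (2π)` with `pm_inj`,
`pm_image`; the point `0` has measure zero. The derivative of `pm G` at `(r, t)` is the matrix with columns `bx G t` and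
`r (- rho G t sin t, rho G t cos t)` (derivative of `bx`: `(bx G)' = rho G · (- sin, cos)`, since `G` is `C²`), its determinant is
`r rho G t ((bx G t).1 cos t + (bx G t).2 sin t) = r rho G t G t > 0` by `bx_self` (see Mathlib's `hasFDerivAt_polarCoord_symm` for the way to
write the matrix: `LinearMap.toContinuousLinearMap (Matrix.toLin (Basis.finTwoProd ℝ) (Basis.finTwoProd ℝ) !![a, b; c, d])`,
`LinearMap.det_toLin`, `Matrix.det_fin_two_of`). Then Fubini on the product set (`setIntegral_prod`, integrability: bounded continuous on a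
bounded set).
-/

open MeasureTheory Real Set Filter Topology

set_option autoImplicit false

namespace Pool.Agent.Helper22.AE

theorem dom_compact {G : ℝ → ℝ} (hG : IsSupp G) : IsCompact (dom G) := by
  have _ := hG
  have h1 : IsClosed (dom G) := by
    have : dom G = ⋂ θ : ℝ, {p : ℝ × ℝ | p.1 * cos θ + p.2 * sin θ ≤ G θ} := by
      ext p
      simp [dom]
    rw [this]
    exact isClosed_iInter fun θ => isClosed_le (by fun_prop) continuous_const
  have h2 : dom G ⊆ Icc (-(G π)) (G 0) ×ˢ Icc (-(G (-(π / 2)))) (G (π / 2)) := by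
    intro p hp
    have a1 := hp 0
    have a2 := hp π
    have a3 := hp (π / 2)
    have a4 := hp (-(π / 2))
    rw [cos_zero, sin_zero] at a1
    rw [cos_pi, sin_pi] at a2
    rw [cos_pi_div_two, sin_pi_div_two] at a3
    rw [cos_neg, sin_neg, cos_pi_div_two, sin_pi_div_two] at a4
    refine ⟨⟨?_, ?_⟩, ⟨?_, ?_⟩⟩ <;> linarith
  exact IsCompact.of_isClosed_subset (isCompact_Icc.prod isCompact_Icc) h1 h2

private lemma dG {G : ℝ → ℝ} (hG : IsSupp G) (u : ℝ) : HasDerivAt G (deriv G u) u :=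
  ((hG.smooth.differentiable (by norm_num)) u).hasDerivAt

private lemma cdG {G : ℝ → ℝ} (hG : IsSupp G) : ContDiff ℝ 1 (deriv G) := by
  have h4 := hG.smooth
  have h5 : ContDiff ℝ (1 + 1) G := by
    convert h4 using 1
    norm_num
  exact (contDiff_succ_iff_deriv.1 h5).2.2

private lemma ddG {G : ℝ → ℝ} (hG : IsSupp G) (u : ℝ) :
    HasDerivAt (deriv G) (deriv (deriv G) u) u :=
  (((cdG hG).differentiable (by norm_num)) u).hasDerivAt

private lemma contG {G : ℝ → ℝ} (hG : IsSupp G) : Continuous G := hG.smooth.continuous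

private lemma contdG {G : ℝ → ℝ} (hG : IsSupp G) : Continuous (deriv G) := (cdG hG).continuous

private lemma contrho {G : ℝ → ℝ} (hG : IsSupp G) : Continuous (rho G) :=
  (contG hG).add ((cdG hG).continuous_deriv (le_refl _))

private lemma bx1_hasDerivAt {G : ℝ → ℝ} (hG : IsSupp G) (t : ℝ) :
    HasDerivAt (fun t => (bx G t).1) (-(rho G t * sin t)) t := by
  have h := ((dG hG t).mul (hasDerivAt_cos t)).sub ((ddG hG t).mul (hasDerivAt_sin t))
  refine h.congr_deriv ?_
  unfold rho
  ring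

private lemma bx2_hasDerivAt {G : ℝ → ℝ} (hG : IsSupp G) (t : ℝ) :
    HasDerivAt (fun t => (bx G t).2) (rho G t * cos t) t := by
  have h := ((dG hG t).mul (hasDerivAt_sin t)).add ((ddG hG t).mul (hasDerivAt_cos t))
  refine h.congr_deriv ?_
  unfold rho
  ring

theorem bx_hasDerivAt {G : ℝ → ℝ} (hG : IsSupp G) (t : ℝ) :
    HasDerivAt (bx G) (-(rho G t * sin t), rho G t * cos t) t :=
  (bx1_hasDerivAt hG t).prodMk (bx2_hasDerivAt hG t)

private lemma contbx {G : ℝ → ℝ} (hG : IsSupp G) : Continuous (bx G) :=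
  continuous_iff_continuousAt.2 fun t => (bx_hasDerivAt hG t).continuousAt

/-- The derivative of `pm G`. -/
private noncomputable def dpm (G : ℝ → ℝ) (q : ℝ × ℝ) : ℝ × ℝ →L[ℝ] ℝ × ℝ :=
  LinearMap.toContinuousLinearMap (Matrix.toLin (Module.Basis.finTwoProd ℝ) (Module.Basis.finTwoProd ℝ)
    !![(bx G q.2).1, q.1 * -(rho G q.2 * sin q.2); (bx G q.2).2, q.1 * (rho G q.2 * cos q.2)])

private lemma pm_hasFDerivAt {G : ℝ → ℝ} (hG : IsSupp G) (q : ℝ × ℝ) :
    HasFDerivAt (pm G) (dpm G q) q := by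
  unfold dpm
  rw [Matrix.toLin_finTwoProd_toContinuousLinearMap]
  have h := HasFDerivAt.prodMk (𝕜 := ℝ)
    (hasFDerivAt_fst.mul ((bx1_hasDerivAt hG q.2).comp_hasFDerivAt q hasFDerivAt_snd))
    (hasFDerivAt_fst.mul ((bx2_hasDerivAt hG q.2).comp_hasFDerivAt q hasFDerivAt_snd))
  refine h.congr_fderiv ?_
  ext <;> simp

private lemma det_dpm {G : ℝ → ℝ} (q : ℝ × ℝ) :
    (dpm G q).det = q.1 * G q.2 * rho G q.2 := by
  unfold dpm
  simp only [LinearMap.det_toContinuousLinearMap, LinearMap.det_toLin, Matrix.det_fin_two_of]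
  have h := bx_self G q.2
  linear_combination (q.1 * rho G q.2) * h

theorem dom_integral {G : ℝ → ℝ} (hG : IsSupp G) (F : ℝ × ℝ → ℂ) (hF : Continuous F) :
    ∫ p in dom G, F p = ∫ t in (0 : ℝ)..(2 * π), ∫ r in (0 : ℝ)..1,
      ((r * G t * rho G t : ℝ) : ℂ) * F (pm G (r, t)) := by
  have hpi := pi_pos
  set s : Set (ℝ × ℝ) := Ioc (0 : ℝ) 1 ×ˢ Ico (0 : ℝ) (2 * π) with hs
  have hsm : MeasurableSet s := measurableSet_Ioc.prod measurableSet_Ico
  have h1 : ∫ p in dom G, F p = ∫ p in dom G \ {0}, F p := by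
    apply setIntegral_congr_set
    exact (sdiff_null_ae_eq_self (measure_singleton 0)).symm
  have h2 := integral_image_eq_integral_abs_det_fderiv_smul volume hsm
    (fun q _ => (pm_hasFDerivAt hG q).hasFDerivWithinAt) (pm_inj hG) F
  rw [pm_image hG] at h2
  have h3 : ∫ q in s, |(dpm G q).det| • F (pm G q) =
      ∫ q in s, ((q.1 * G q.2 * rho G q.2 : ℝ) : ℂ) * F (pm G q) := by
    apply setIntegral_congr_fun hsm
    intro q hq
    have hq1 : 0 < q.1 := hq.1.1
    have h4 : 0 ≤ q.1 * G q.2 * rho G q.2 :=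
      (mul_pos (mul_pos hq1 (hG.pos q.2)) (hG.rho_pos q.2)).le
    simp only
    rw [det_dpm, abs_of_nonneg h4, Complex.real_smul]
  have hc : Continuous (fun q : ℝ × ℝ => ((q.1 * G q.2 * rho G q.2 : ℝ) : ℂ) * F (pm G q)) := by
    have c1 := contG hG
    have c2 := contrho hG
    have c3 := contbx hG
    have c4 : Continuous (pm G) := by
      have e1 : Continuous (fun q : ℝ × ℝ => bx G q.2) := c3.comp continuous_snd
      exact (continuous_fst.mul (continuous_fst.comp e1)).prodMk (continuous_fst.mul (continuous_snd.comp e1))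
    exact (Complex.continuous_ofReal.comp ((continuous_fst.mul (c1.comp continuous_snd)).mul
      (c2.comp continuous_snd))).mul (hF.comp c4)
  have hint : IntegrableOn (fun q : ℝ × ℝ => ((q.1 * G q.2 * rho G q.2 : ℝ) : ℂ) * F (pm G q)) s := by
    refine IntegrableOn.mono_set (hc.continuousOn.integrableOn_compact
      (K := Icc (0 : ℝ) 1 ×ˢ Icc (0 : ℝ) (2 * π)) (isCompact_Icc.prod isCompact_Icc)) ?_
    exact Set.prod_mono Ioc_subset_Icc_self Ico_subset_Icc_self
  rw [h1, h2, h3]
  have h5 : ∫ q in s, ((q.1 * G q.2 * rho G q.2 : ℝ) : ℂ) * F (pm G q) =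
      ∫ r in Ioc (0 : ℝ) 1, ∫ t in Ico (0 : ℝ) (2 * π), ((r * G t * rho G t : ℝ) : ℂ) * F (pm G (r, t)) := by
    have := setIntegral_prod (μ := (volume : Measure ℝ)) (ν := (volume : Measure ℝ))
      (fun q : ℝ × ℝ => ((q.1 * G q.2 * rho G q.2 : ℝ) : ℂ) * F (pm G q)) (s := Ioc (0 : ℝ) 1)
      (t := Ico (0 : ℝ) (2 * π)) hint
    exact this
  rw [h5]
  have h6 : ∫ r in Ioc (0 : ℝ) 1, ∫ t in Ico (0 : ℝ) (2 * π), ((r * G t * rho G t : ℝ) : ℂ) * F (pm G (r, t)) =
      ∫ t in Ico (0 : ℝ) (2 * π), ∫ r in Ioc (0 : ℝ) 1, ((r * G t * rho G t : ℝ) : ℂ) * F (pm G (r, t)) := by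
    apply integral_integral_swap
    rw [Measure.prod_restrict]
    exact hint
  rw [h6, intervalIntegral.integral_of_le (by linarith), integral_Ico_eq_integral_Ioc]
  refine setIntegral_congr_fun measurableSet_Ioc ?_
  intro t _
  simp only
  rw [intervalIntegral.integral_of_le zero_le_one]

end Pool.Agent.Helper22.AE
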