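import Pool.Agent.Helper22.AE.G3

/-!
# AE-G4: the Fourier transform of the domain as a boundary integral (paper (1.4))

PROOF. Write `k · p = k.1 p.1 + k.2 p.2`, `u = (cos t, sin t)`, `u' = (- sin t, cos t)`, `Φ t = k · bx G t`, so `Φ' = rho G (k · u')`
(`bx_hasDerivAt`). By `dom_integral` (with `F p = ee (-(k · p))`)
`ft G k = ∫_0^{2π} ∫_0^1 r G ρ e(-r Φ) dr dt`. Put `I r = ∫_0^{2π} (k · u) ρ e(-r Φ) dt`. CLAIM: for every `r`
`I r + r I' r = -2 π i |k|² r ∫_0^{2π} G ρ e(-r Φ) dt`, with `I' r = ∫ (k · u) ρ (-2 π i Φ) e(-r Φ) dt`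
(`hasDerivAt_integral_of_continuous_of_...` or `intervalIntegral.hasDerivAt_integral_of_dominated_loc_of_deriv_le`).
Proof of the claim: pointwise `(k·u) Φ - |k|² G = (k·u') ((k·u) G' - (k·u') G)` (`Φ = (k·u) G + (k·u') G'`, `|k|² = (k·u)² + (k·u')²`).
Hence the claim is `∫ (k·u) ρ e(-rΦ) = ∫ 2 π i r ρ (k·u') e(-rΦ) ((k·u) G' - (k·u') G)`, and `2 π i r ρ (k·u') e(-rΦ) = - d/dt e(-rΦ)`;
integrate by parts over the period (`intervalIntegral.integral_mul_deriv_eq_deriv_mul`; boundary terms cancel by periodicity), with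
`d/dt ((k·u) G' - (k·u') G) = (k·u) (G'' + G)` (`G'` is `C¹`, `u'' = -u`).
Finally integrate over `r` in `[0,1]`: `∫_0^1 (I + r I') dr = I 1` (FTC), Fubini for the right side.
-/

open MeasureTheory Real Set Filter Topology

set_option autoImplicit false

namespace Pool.Agent.Helper22.AE

theorem ft_boundary {G : ℝ → ℝ} (hG : IsSupp G) {k : ℤ × ℤ} (hk : k ≠ 0) :
    ft G k = -(1 / (2 * π * Complex.I * (nk k : ℂ) ^ 2)) * ∫ t in (0 : ℝ)..(2 * π),
      ((((k.1 : ℝ) * cos t + (k.2 : ℝ) * sin t) * rho G t : ℝ) : ℂ) *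
        ee (-((k.1 : ℝ) * (bx G t).1 + (k.2 : ℝ) * (bx G t).2)) := by
  -- smoothness of `G`
  have hs2 : ContDiff ℝ (1 + 1) G := by
    have h := hG.smooth
    have e : (2 : WithTop ℕ∞) = 1 + 1 := by norm_num
    rw [e] at h
    exact h
  have h1 := (contDiff_succ_iff_deriv.1 hs2)
  have hGd : Differentiable ℝ G := h1.1
  have hs1 : ContDiff ℝ (0 + 1) (deriv G) := by
    have h := h1.2.2
    rw [zero_add]
    exact h
  have h2 := (contDiff_succ_iff_deriv.1 hs1)
  have hG'd : Differentiable ℝ (deriv G) := h2.1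
  have hG''c : Continuous (deriv (deriv G)) := h2.2.2.continuous
  have hGc : Continuous G := hGd.continuous
  have hG'c : Continuous (deriv G) := hG'd.continuous
  have hρc : Continuous (rho G) := by
    unfold rho
    exact hGc.add hG''c
  have hbx1 : Continuous (fun t => (bx G t).1) := by
    unfold bx
    fun_prop
  have hbx2 : Continuous (fun t => (bx G t).2) := by
    unfold bx
    fun_prop
  -- periodicity of the derivative
  have hG'per : Function.Periodic (deriv G) (2 * π) := by
    intro x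
    have e : (fun y => G (y + 2 * π)) = G := by
      funext y
      exact hG.per y
    have h := deriv_comp_add_const G (2 * π) x
    rw [e] at h
    exact h.symm
  obtain ⟨k1, k2⟩ := k
  set m1 : ℝ := (k1 : ℝ) with hm1
  set m2 : ℝ := (k2 : ℝ) with hm2
  set a : ℝ → ℝ := fun t => m1 * cos t + m2 * sin t with ha
  set b : ℝ → ℝ := fun t => -m1 * sin t + m2 * cos t with hb
  set Φ : ℝ → ℝ := fun t => m1 * (bx G t).1 + m2 * (bx G t).2 with hΦ
  have hac : Continuous a := by
    rw [ha]; fun_prop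
  have hbc : Continuous b := by
    rw [hb]; fun_prop
  have hΦc : Continuous Φ := by
    rw [hΦ]; fun_prop
  have had : ∀ t, HasDerivAt a (b t) t := by
    intro t
    have h := ((hasDerivAt_cos t).const_mul m1).add ((hasDerivAt_sin t).const_mul m2)
    refine h.congr_deriv ?_
    simp only [hb]
    ring
  have hbd : ∀ t, HasDerivAt b (-a t) t := by
    intro t
    have h := ((hasDerivAt_sin t).const_mul (-m1)).add ((hasDerivAt_cos t).const_mul m2)
    refine h.congr_deriv ?_
    simp only [ha]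
    ring
  have hΦd : ∀ t, HasDerivAt Φ (rho G t * b t) t := by
    intro t
    have h := bx_hasDerivAt hG t
    have h1 : HasDerivAt (fun t => (bx G t).1) (-(rho G t * sin t)) t := by
      simpa using h.hasFDerivAt.fst.hasDerivAt
    have h2 : HasDerivAt (fun t => (bx G t).2) (rho G t * cos t) t := by
      simpa using h.hasFDerivAt.snd.hasDerivAt
    have h3 := (h1.const_mul m1).add (h2.const_mul m2)
    refine h3.congr_deriv ?_
    simp only [hb]
    ring
  set N : ℝ := m1 ^ 2 + m2 ^ 2 with hN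
  have hnk : (nk (k1, k2)) ^ 2 = N := by
    unfold nk cz
    rw [Complex.sq_norm, Complex.normSq_mk]
    rw [hN, hm1, hm2]
    ring
  have hNne : N ≠ 0 := by
    intro h0
    apply hk
    have e1 : m1 ^ 2 = 0 := by nlinarith [sq_nonneg m1, sq_nonneg m2]
    have e2 : m2 ^ 2 = 0 := by nlinarith [sq_nonneg m1, sq_nonneg m2]
    have e3 : m1 = 0 := by simpa using e1
    have e4 : m2 = 0 := by simpa using e2
    rw [hm1] at e3
    rw [hm2] at e4
    have e5 : k1 = 0 := by exact_mod_cast e3
    have e6 : k2 = 0 := by exact_mod_cast e4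
    rw [e5, e6]
    rfl
  -- the formula for `ft`
  have hft : ft G (k1, k2) = ∫ t in (0 : ℝ)..(2 * π), ∫ r in (0 : ℝ)..1,
      ((r * G t * rho G t : ℝ) : ℂ) * ee (-(r * Φ t)) := by
    unfold ft
    rw [dom_integral hG (fun p => ee (-((k1 : ℝ) * p.1 + (k2 : ℝ) * p.2)))
      (ee_cont.comp (by fun_prop))]
    refine intervalIntegral.integral_congr fun t _ => ?_
    refine intervalIntegral.integral_congr fun r _ => ?_
    simp only [pm, hΦ]
    congr 2
    ring
  -- the total derivative
  set D : ℝ → ℝ → ℂ := fun t r =>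
    ((a t * rho G t : ℝ) : ℂ) * ((1 - 2 * π * Complex.I * ((r * Φ t : ℝ) : ℂ)) * ee (-(r * Φ t)))
      + (2 * π * Complex.I * (N : ℂ)) * (((r * G t * rho G t : ℝ) : ℂ) * ee (-(r * Φ t))) with hD
  have hDc : Continuous (Function.uncurry D) := by
    have e1 : Continuous (fun q : ℝ × ℝ => a q.1 * rho G q.1) := by fun_prop
    have e2 : Continuous (fun q : ℝ × ℝ => q.2 * Φ q.1) := by fun_prop
    have e3 : Continuous (fun q : ℝ × ℝ => q.2 * G q.1 * rho G q.1) := by fun_prop
    have e4 : Continuous (fun q : ℝ × ℝ => ee (-(q.2 * Φ q.1))) := ee_cont.comp e2.neg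
    have e5 : Function.uncurry D = fun q : ℝ × ℝ =>
      ((a q.1 * rho G q.1 : ℝ) : ℂ) * ((1 - 2 * π * Complex.I * ((q.2 * Φ q.1 : ℝ) : ℂ)) *
        ee (-(q.2 * Φ q.1)))
      + (2 * π * Complex.I * (N : ℂ)) * (((q.2 * G q.1 * rho G q.1 : ℝ) : ℂ) *
        ee (-(q.2 * Φ q.1))) := by
      funext q
      rfl
    rw [e5]
    exact ((Complex.continuous_ofReal.comp e1).mul ((continuous_const.sub
      (continuous_const.mul (Complex.continuous_ofReal.comp e2))).mul e4)).add
      (continuous_const.mul ((Complex.continuous_ofReal.comp e3).mul e4))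
  have hzero : ∀ r : ℝ, ∫ t in (0 : ℝ)..(2 * π), D t r = 0 := by
    intro r
    have hder : ∀ t ∈ uIcc (0 : ℝ) (2 * π), HasDerivAt
        (fun t => ((a t * deriv G t - b t * G t : ℝ) : ℂ) * ee (-(r * Φ t))) (D t r) t := by
      intro t _
      have e1 := ((had t).mul (hG'd t).hasDerivAt).sub ((hbd t).mul (hGd t).hasDerivAt)
      have e2 := e1.ofReal_comp
      have e3 : HasDerivAt (fun t => -(r * Φ t)) (-(r * (rho G t * b t))) t :=
        ((hΦd t).const_mul r).neg
      have e4 := (ee_hasDerivAt (-(r * Φ t))).scomp t e3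
      have e5 := e2.mul e4
      refine e5.congr_deriv ?_
      have hΦ2 : Φ t = a t * G t + b t * deriv G t := by
        simp only [hΦ, ha, hb, bx]
        ring
      have hN2 : N = a t ^ 2 + b t ^ 2 := by
        simp only [hN, ha, hb]
        have := sin_sq_add_cos_sq t
        linear_combination (-(m1 ^ 2 + m2 ^ 2)) * this
      simp only [hD]
      simp only [Pi.mul_apply, Pi.sub_apply, Function.comp]
      generalize ee (-(r * Φ t)) = E
      rw [hΦ2, hN2]
      simp only [rho, Complex.real_smul]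
      push_cast
      ring
    have hpr : Continuous (fun t : ℝ => ((t, r) : ℝ × ℝ)) := by fun_prop
    have hDr : Continuous (fun t => Function.uncurry D (t, r)) :=
      Continuous.comp (g := Function.uncurry D) (f := fun t : ℝ => ((t, r) : ℝ × ℝ)) hDc hpr
    simp only [Function.uncurry] at hDr
    rw [intervalIntegral.integral_eq_sub_of_hasDerivAt hder (hDr.intervalIntegrable _ _)]
    have p1 : a (2 * π) = a 0 := by simp [ha]
    have p2 : b (2 * π) = b 0 := by simp [hb]
    have p3 : G (2 * π) = G 0 := by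
      have := hG.per 0
      rwa [zero_add] at this
    have p4 : deriv G (2 * π) = deriv G 0 := by
      have := hG'per 0
      rwa [zero_add] at this
    have p5 : Φ (2 * π) = Φ 0 := by
      simp only [hΦ, bx]
      rw [p3, p4]
      simp
    rw [p1, p2, p3, p4, p5, sub_self]
  have hswap : ∫ t in (0 : ℝ)..(2 * π), ∫ r in (0 : ℝ)..1, D t r = 0 := by
    rw [intervalIntegral_intervalIntegral_swap]
    · simp only [hzero, intervalIntegral.integral_zero]
    · have hcomp : IsCompact (uIcc (0 : ℝ) (2 * π) ×ˢ uIcc (0 : ℝ) 1) :=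
        isCompact_uIcc.prod isCompact_uIcc
      exact (hDc.continuousOn.integrableOn_compact hcomp).mono_set
        (prod_mono uIoc_subset_uIcc uIoc_subset_uIcc)
  -- the inner integral of `D`
  have hinner : ∀ t : ℝ, ∫ r in (0 : ℝ)..1, D t r =
      ((a t * rho G t : ℝ) : ℂ) * ee (-(Φ t)) + (2 * π * Complex.I * (N : ℂ)) *
        ∫ r in (0 : ℝ)..1, ((r * G t * rho G t : ℝ) : ℂ) * ee (-(r * Φ t)) := by
    intro t
    have c0 : Continuous (fun r : ℝ => ee (-(r * Φ t))) := ee_cont.comp (by fun_prop)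
    have c1 : Continuous (fun r : ℝ => (1 - 2 * π * Complex.I * ((r * Φ t : ℝ) : ℂ)) *
        ee (-(r * Φ t))) := by
      refine Continuous.mul ?_ c0
      exact continuous_const.sub (continuous_const.mul (Complex.continuous_ofReal.comp
        (by fun_prop)))
    have c2 : Continuous (fun r : ℝ => ((r * G t * rho G t : ℝ) : ℂ) * ee (-(r * Φ t))) :=
      (Complex.continuous_ofReal.comp (by fun_prop)).mul c0
    have c3 : Continuous (fun r : ℝ => ((a t * rho G t : ℝ) : ℂ) *
        ((1 - 2 * π * Complex.I * ((r * Φ t : ℝ) : ℂ)) * ee (-(r * Φ t)))) :=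
      continuous_const.mul c1
    have c4 : Continuous (fun r : ℝ => (2 * π * Complex.I * (N : ℂ)) *
        (((r * G t * rho G t : ℝ) : ℂ) * ee (-(r * Φ t)))) :=
      continuous_const.mul c2
    simp only [hD]
    rw [intervalIntegral.integral_add (c3.intervalIntegrable _ _) (c4.intervalIntegrable _ _),
      intervalIntegral.integral_const_mul, intervalIntegral.integral_const_mul]
    congr 2
    have hder : ∀ r ∈ uIcc (0 : ℝ) 1, HasDerivAt (fun r : ℝ => (r : ℂ) * ee (-(r * Φ t)))
        ((1 - 2 * π * Complex.I * ((r * Φ t : ℝ) : ℂ)) * ee (-(r * Φ t))) r := by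
      intro r _
      have e3 : HasDerivAt (fun r : ℝ => -(r * Φ t)) (-(1 * Φ t)) r :=
        ((hasDerivAt_id r).mul_const (Φ t)).neg
      have e4 := (ee_hasDerivAt (-(r * Φ t))).scomp r e3
      have e5 := (hasDerivAt_id r).ofReal_comp.mul e4
      refine e5.congr_deriv ?_
      simp only [Function.comp, id, Complex.real_smul]
      push_cast
      ring
    rw [intervalIntegral.integral_eq_sub_of_hasDerivAt hder (c1.intervalIntegrable _ _)]
    simp
  have hI : ∫ t in (0 : ℝ)..(2 * π), ∫ r in (0 : ℝ)..1, D t r =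
      (∫ t in (0 : ℝ)..(2 * π), ((a t * rho G t : ℝ) : ℂ) * ee (-(Φ t))) +
        (2 * π * Complex.I * (N : ℂ)) * ft G (k1, k2) := by
    simp only [hinner]
    rw [hft, intervalIntegral.integral_add, intervalIntegral.integral_const_mul]
    · refine Continuous.intervalIntegrable ?_ _ _
      exact (Complex.continuous_ofReal.comp (hac.mul hρc)).mul (ee_cont.comp hΦc.neg)
    · refine Continuous.intervalIntegrable ?_ _ _
      refine continuous_const.mul ?_
      refine intervalIntegral.continuous_parametric_intervalIntegral_of_continuous' ?_ 0 1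
      have e2 : Continuous (fun q : ℝ × ℝ => q.2 * Φ q.1) := by fun_prop
      have e3 : Continuous (fun q : ℝ × ℝ => q.2 * G q.1 * rho G q.1) := by fun_prop
      exact (Complex.continuous_ofReal.comp e3).mul (ee_cont.comp e2.neg)
  rw [hswap] at hI
  have hpi : (2 * (π : ℂ) * Complex.I * (N : ℂ)) ≠ 0 := by
    have e1 : (π : ℂ) ≠ 0 := by exact_mod_cast Real.pi_ne_zero
    have e2 : (N : ℂ) ≠ 0 := by exact_mod_cast hNne
    exact mul_ne_zero (mul_ne_zero (mul_ne_zero two_ne_zero e1) Complex.I_ne_zero) e2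
  have hnkC : (nk (k1, k2) : ℂ) ^ 2 = (N : ℂ) := by
    rw [← hnk]
    push_cast
    rfl
  rw [hnkC]
  have hfin : ft G (k1, k2) = -(1 / (2 * (π : ℂ) * Complex.I * (N : ℂ))) *
      ∫ t in (0 : ℝ)..(2 * π), ((a t * rho G t : ℝ) : ℂ) * ee (-(Φ t)) := by
    have h3 : ∫ t in (0 : ℝ)..(2 * π), ((a t * rho G t : ℝ) : ℂ) * ee (-(Φ t)) =
        -((2 * (π : ℂ) * Complex.I * (N : ℂ)) * ft G (k1, k2)) := by
      linear_combination (-1 : ℂ) * hI
    rw [h3]
    generalize (2 * (π : ℂ) * Complex.I * (N : ℂ)) = P at hpi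
    field_simp
  exact hfin

end Pool.Agent.Helper22.AE
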