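import Pool.Agent.Helper22.AE.X1

/-!
# AE-X4: the exponents in the large values estimate (paper 4g)

PROOF. `r = log R₀/log x` (`1 ≤ r ≤ 1/ε`), `R₀ = x^r`, `d = (s+1)/(2m) ∈ (0, 1/2]`, `η = R₀^(-1+e3)`. `C` denotes constants depending on
`ε, e1, e3, m, Jm` only.
* `M ≤ x^(1/(2m))`, `M^s ≤ x^(s/(2m)) ≤ x^d`, `Dc ≤ C x^(2-d)` (`Dc_le`), `Dc ≥ 1`.
* `exp(-(π/4) R₀² η²) = exp(-(π/4) R₀^(2 e3))` and `Dc^J exp(...) ≤ (C R₀²)^Jm exp(-(π/4) R₀^(2 e3)) ≤ 1` for `R₀ ≥ R₁`, so the bracket is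
  `≤ Dc^J ((2 rr + 1)² + 1) ≤ 2 Dc^J (2 rr + 1)²`.
* `rr = 25 J 4^J η (2M^(s+1))^(2J-1) ≤ C R₀^(-1+e3) x^((2J-1)d) = C R₀^(e3) x^((2J-1)d - r)`; `(2 rr + 1)² ≤ 8 rr² + 2 ≤
  C R₀^(2 e3) (x^(2((2J-1)d - r)) + 1)`.
* Altogether the left side is `≤ C x^(2J/(2m)) x^(-3J-2J e1) x^d x^(J/(2m)) x^(J(2-d)) R₀^(2 e3) (1 + x^(2((2J-1)d-r)))`
  `= C x^(3J/(2m) - 2J e1) R₀^(2 e3) (x^(-(J(1+d)-d)) + x^(-(J(1+d) - d - 2((2J-1)d - r))))`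
  `≤ C x^(3J/(2m) - 2J e1 + 2 e3 r + 4 e2) x^(-(1+r))` by the two hypotheses, and `x^(-(1+r)) = (R₀ x)⁻¹`.
* `3J/(2m) ≤ J e1/2` (`m ≥ 3/e1`), `2 e3 r ≤ 2 e3/ε ≤ e1/4`, `4 e2 ≤ e1/2`, `J ≥ 2`: the exponent is `≤ -(3/2) J e1 + (3/4) e1 ≤ -e1`.
-/

open Real Set Filter Topology

set_option autoImplicit false

namespace Pool.Agent.Helper22.AE

private theorem h27_thr {ε e3 : ℝ} (hε : 0 < ε) (he3 : 0 < e3) (m Jm : ℕ) (c : ℝ) :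
    ∃ R₁ : ℝ, 1 ≤ R₁ ∧ ∀ R₀ : ℝ, R₁ ≤ R₀ → (2 : ℝ) ^ (2 * m) ≤ R₀ ^ ε ∧
      (c * R₀ ^ 2) ^ Jm * exp (-(π / 4) * R₀ ^ (2 * e3)) ≤ 1 := by
  have h1 : ∀ᶠ R : ℝ in atTop, (2 : ℝ) ^ (2 * m) ≤ R ^ ε :=
    (tendsto_rpow_atTop hε).eventually_ge_atTop _
  have h2 : Tendsto (fun y : ℝ => y ^ ((2 * (Jm : ℝ)) / (2 * e3)) * exp (-(π / 4) * y)) atTop (𝓝 0) :=
    tendsto_rpow_mul_exp_neg_mul_atTop_nhds_zero _ _ (by positivity)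
  have h3 : Tendsto (fun R : ℝ => c ^ Jm * ((R ^ (2 * e3)) ^ ((2 * (Jm : ℝ)) / (2 * e3)) *
      exp (-(π / 4) * R ^ (2 * e3)))) atTop (𝓝 (c ^ Jm * 0)) :=
    (h2.comp (tendsto_rpow_atTop (by positivity : 0 < 2 * e3))).const_mul _
  rw [mul_zero] at h3
  have h4 : ∀ᶠ R : ℝ in atTop, c ^ Jm * ((R ^ (2 * e3)) ^ ((2 * (Jm : ℝ)) / (2 * e3)) *
      exp (-(π / 4) * R ^ (2 * e3))) < 1 := h3.eventually_lt_const one_pos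
  obtain ⟨R₁, hR⟩ := eventually_atTop.1 ((h1.and h4).and (eventually_ge_atTop (1 : ℝ)))
  refine ⟨max 1 R₁, le_max_left _ _, fun R hRR => ?_⟩
  obtain ⟨⟨ha, hb⟩, hc⟩ := hR R ((le_max_right _ _).trans hRR)
  refine ⟨ha, ?_⟩
  have hR0 : 0 ≤ R := by linarith
  have he : (R ^ (2 * e3)) ^ ((2 * (Jm : ℝ)) / (2 * e3)) = (R ^ 2) ^ Jm := by
    rw [← rpow_mul hR0, mul_div_cancel₀ _ (by positivity : (2 * e3) ≠ 0), ← pow_mul, ← rpow_natCast]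
    push_cast
    rfl
  rw [he] at hb
  rw [mul_pow, mul_assoc]
  exact hb.le

private theorem h27_sum {a b : ℝ} (hb : 0 ≤ b) (D E : ℝ) (hD : 0 ≤ D) (hDE : D * E ≤ 1)
    (ha : a = 2 * b + 1) : D * a ^ 2 + D * D * E ≤ 2 * D * (8 * b ^ 2 + 2) := by
  have h1 : 1 ≤ a ^ 2 := by rw [ha]; nlinarith
  have h2 : D * D * E ≤ D * a ^ 2 := by
    calc D * D * E = D * (D * E) := by ring
      _ ≤ D * 1 := by gcongr
      _ ≤ D * a ^ 2 := by gcongr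
  have h3 : a ^ 2 ≤ 8 * b ^ 2 + 2 := by rw [ha]; nlinarith [sq_nonneg (2 * b - 1)]
  calc D * a ^ 2 + D * D * E ≤ D * a ^ 2 + D * a ^ 2 := by linarith
    _ = 2 * D * a ^ 2 := by ring
    _ ≤ _ := by gcongr

/-- the power count -/
private theorem h27_count {x d r e1 e2 P Q : ℝ} (hx : 1 ≤ x) {J : ℝ}
    (h1 : 1 + r ≤ J * (1 + d) - d) (h2 : 1 + r - 4 * e2 ≤ J * (1 + d) - d - 2 * ((2 * J - 1) * d - r))
    (he2 : 0 ≤ e2) (hQ : 1 ≤ Q) {u : ℝ} :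
    x ^ (2 * J * u - 3 * J - 2 * J * e1) * (x ^ d * x ^ (J * u) * (x ^ (J * (2 - d)) *
      (8 * P ^ 2 * Q * x ^ (2 * ((2 * J - 1) * d - r)) + 2))) ≤
      (8 * P ^ 2 + 2) * Q * (x ^ (3 * J * u - 2 * J * e1 + 4 * e2) * x ^ (-(1 + r))) := by
  have hx0 : 0 < x := by linarith
  have e : x ^ (2 * J * u - 3 * J - 2 * J * e1) * (x ^ d * x ^ (J * u) * (x ^ (J * (2 - d)) *
      (8 * P ^ 2 * Q * x ^ (2 * ((2 * J - 1) * d - r)) + 2))) =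
      8 * P ^ 2 * Q * x ^ (2 * J * u - 3 * J - 2 * J * e1 + d + J * u + J * (2 - d) +
        2 * ((2 * J - 1) * d - r)) +
      2 * x ^ (2 * J * u - 3 * J - 2 * J * e1 + d + J * u + J * (2 - d)) := by
    simp only [rpow_add hx0]
    ring
  rw [e, ← rpow_add hx0]
  have k1 : x ^ (2 * J * u - 3 * J - 2 * J * e1 + d + J * u + J * (2 - d) +
        2 * ((2 * J - 1) * d - r)) ≤ x ^ (3 * J * u - 2 * J * e1 + 4 * e2 + -(1 + r)) := by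
    apply rpow_le_rpow_of_exponent_le hx
    linarith
  have k2 : x ^ (2 * J * u - 3 * J - 2 * J * e1 + d + J * u + J * (2 - d)) ≤
      x ^ (3 * J * u - 2 * J * e1 + 4 * e2 + -(1 + r)) := by
    apply rpow_le_rpow_of_exponent_le hx
    linarith
  set Z := x ^ (3 * J * u - 2 * J * e1 + 4 * e2 + -(1 + r)) with hZ
  have hZ0 : 0 ≤ Z := (rpow_pos_of_pos hx0 _).le
  calc _ ≤ 8 * P ^ 2 * Q * Z + 2 * Z := by gcongr
    _ ≤ 8 * P ^ 2 * Q * Z + 2 * Q * Z := by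
        gcongr
        linarith
    _ = _ := by ring

theorem final_bound {ε e1 e2 e3 : ℝ} (hε : 0 < ε) (hε1 : ε ≤ 1) (he1 : 0 < e1) (he11 : e1 ≤ 1) (he2 : 0 < e2)
    (he2' : 8 * e2 ≤ e1) (he3 : 0 < e3) (he3' : 8 * e3 ≤ e1 * ε) {m : ℕ} (hm : 1 ≤ m) (hm' : 3 / e1 ≤ m)
    (Jm : ℕ) : ∃ C R₁ : ℝ, 0 < C ∧ 1 ≤ R₁ ∧ ∀ R₀ : ℝ, R₁ ≤ R₀ → ∀ x : ℝ, R₀ ^ ε ≤ x → x ≤ R₀ → ∀ s < m,
      ∀ J : ℕ, 2 ≤ J → J ≤ Jm →
      1 + log R₀ / log x ≤ J * (1 + ((s : ℝ) + 1) / (2 * m)) - ((s : ℝ) + 1) / (2 * m) →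
      1 + log R₀ / log x - 4 * e2 ≤ J * (1 + ((s : ℝ) + 1) / (2 * m)) - ((s : ℝ) + 1) / (2 * m) -
        2 * ((2 * (J : ℝ) - 1) * (((s : ℝ) + 1) / (2 * m)) - log R₀ / log x) →
      ∀ M : ℕ, M = ⌊x ^ (1 / (2 * (m : ℝ)))⌋₊ →
        (2 * (8 * (4 * (Jm : ℝ)) ^ m * (2 * M)) * m * 20 / x ^ (3 / 2 + e1)) ^ (2 * J) *
          (20 * (8 * (M : ℝ) ^ s * M ^ J * (Dc x M (s + 1) ^ J * (2 * rr J M (R₀ ^ (-1 + e3)) (s + 1) + 1) ^ 2 +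
            Dc x M (s + 1) ^ (2 * J) * exp (-(π / 4) * R₀ ^ 2 * (R₀ ^ (-1 + e3)) ^ 2)))) ≤
          C * (R₀ * x)⁻¹ * x ^ (-e1) := by
  obtain ⟨a, ha⟩ : ∃ a : ℝ, a = 2 * (8 * (4 * (Jm : ℝ)) ^ m * 2) * m * 20 + 1 := ⟨_, rfl⟩
  obtain ⟨c₁, hc₁⟩ : ∃ c : ℝ, c = 10 * (5 * (2 : ℝ) ^ m + 1) := ⟨_, rfl⟩
  obtain ⟨c₂, hc₂⟩ : ∃ c : ℝ, c = 25 * (Jm : ℝ) * 4 ^ Jm * 2 ^ (2 * Jm) := ⟨_, rfl⟩
  have ha1 : 1 ≤ a := by rw [ha]; have : (0 : ℝ) ≤ 2 * (8 * (4 * (Jm : ℝ)) ^ m * 2) * m * 20 := by positivity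
                         linarith
  have hc₁1 : 1 ≤ c₁ := by
    have : (0 : ℝ) ≤ (2 : ℝ) ^ m := by positivity
    rw [hc₁]; linarith
  have hc₂0 : 0 ≤ c₂ := by rw [hc₂]; positivity
  obtain ⟨R₁, hR₁, hthr⟩ := h27_thr hε he3 m Jm c₁
  refine ⟨a ^ (2 * Jm) * (20 * 8 * 2 * c₁ ^ Jm * (8 * c₂ ^ 2 + 2)), R₁, by positivity, hR₁, ?_⟩
  intro R₀ hR x hx1 hx2 s hs J hJ hJm H1 H2 M hM
  obtain ⟨t1, t2⟩ := hthr R₀ hR
  have hR0 : 0 < R₀ := by linarith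
  have hR1 : 1 ≤ R₀ := by linarith
  have hm0 : (0 : ℝ) < m := by exact_mod_cast hm
  have hxb : (2 : ℝ) ^ (2 * m) ≤ x := t1.trans hx1
  have hx2' : (2 : ℝ) ≤ x := by
    calc (2 : ℝ) = 2 ^ 1 := by norm_num
      _ ≤ 2 ^ (2 * m) := pow_le_pow_right₀ (by norm_num) (by omega)
      _ ≤ x := hxb
  have hx : 1 ≤ x := by linarith
  have hx0 : 0 < x := by linarith
  have hlogx : 0 < log x := log_pos (by linarith)
  obtain ⟨r, hr⟩ : ∃ r : ℝ, r = log R₀ / log x := ⟨_, rfl⟩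
  obtain ⟨d, hd⟩ : ∃ d : ℝ, d = ((s : ℝ) + 1) / (2 * m) := ⟨_, rfl⟩
  obtain ⟨u, hu⟩ : ∃ u : ℝ, u = 1 / (2 * (m : ℝ)) := ⟨_, rfl⟩
  rw [← hr, ← hd] at H1 H2
  have hRx : x ^ r = R₀ := by
    rw [hr, rpow_def_of_pos hx0, mul_div_cancel₀ _ hlogx.ne', exp_log hR0]
  obtain ⟨M2, -, -⟩ := floor_pow hm hxb hM 0
  have Ms : (M : ℝ) ^ s ≤ x ^ d := by
    refine (floor_pow hm hxb hM s).2.1.trans (rpow_le_rpow_of_exponent_le hx ?_)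
    rw [hd]; gcongr; linarith
  have Ms1 : (M : ℝ) ^ (s + 1) ≤ x ^ d := by
    refine (floor_pow hm hxb hM (s + 1)).2.1.trans (le_of_eq ?_)
    rw [hd]; push_cast; rfl
  have M1 : (M : ℝ) ≤ x ^ u := by
    have := (floor_pow hm hxb hM 1).2.1
    rw [pow_one] at this
    rw [hu]; exact_mod_cast this
  have hM0 : (0 : ℝ) ≤ M := Nat.cast_nonneg _
  have hMp : (0 : ℝ) < M := by exact_mod_cast (by omega : 0 < M)
  -- the arc count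
  have D1 : Dc x M (s + 1) ≤ c₁ * x ^ (2 - d) := by
    have := Dc_le hm hxb hM (t := s + 1) (by omega)
    rw [hc₁, hd]; push_cast at this; exact this
  have D0 : 1 ≤ Dc x M (s + 1) := one_le_Dc hx hM0 _
  have hd0 : 0 ≤ d := by rw [hd]; positivity
  have D2 : Dc x M (s + 1) ≤ c₁ * R₀ ^ 2 := by
    refine D1.trans ?_
    have : x ^ (2 - d) ≤ x ^ (2 : ℝ) := rpow_le_rpow_of_exponent_le hx (by linarith)
    have h' : x ^ (2 : ℝ) = x ^ 2 := by exact_mod_cast rpow_natCast x 2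
    rw [h'] at this
    calc c₁ * x ^ (2 - d) ≤ c₁ * x ^ 2 := by gcongr
      _ ≤ c₁ * R₀ ^ 2 := by gcongr
  have DJ : Dc x M (s + 1) ^ J ≤ c₁ ^ Jm * x ^ ((J : ℝ) * (2 - d)) := by
    calc Dc x M (s + 1) ^ J ≤ (c₁ * x ^ (2 - d)) ^ J := by gcongr
      _ = c₁ ^ J * x ^ ((J : ℝ) * (2 - d)) := by
          rw [mul_pow, ← rpow_natCast (x ^ (2 - d)) J, ← rpow_mul hx0.le, mul_comm (2 - d)]
      _ ≤ c₁ ^ Jm * x ^ ((J : ℝ) * (2 - d)) := by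
          gcongr
  have hexp : R₀ ^ 2 * (R₀ ^ (-1 + e3)) ^ 2 = R₀ ^ (2 * e3) := by
    rw [← mul_pow, ← rpow_natCast, ← rpow_one_add' hR0.le (by linarith), ← rpow_mul hR0.le]
    congr 1; push_cast; ring
  have DE : Dc x M (s + 1) ^ J * exp (-(π / 4) * R₀ ^ 2 * (R₀ ^ (-1 + e3)) ^ 2) ≤ 1 := by
    rw [mul_assoc, hexp]
    refine le_trans ?_ t2
    gcongr
    calc Dc x M (s + 1) ^ J ≤ (c₁ * R₀ ^ 2) ^ J := by gcongr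
      _ ≤ (c₁ * R₀ ^ 2) ^ Jm := by
          exact pow_le_pow_right₀ (one_le_mul_of_one_le_of_one_le hc₁1 (one_le_pow₀ hR1)) hJm
  -- rr
  have hrr0 : 0 ≤ rr J M (R₀ ^ (-1 + e3)) (s + 1) := by
    unfold rr; positivity
  have hrr : rr J M (R₀ ^ (-1 + e3)) (s + 1) ≤ c₂ * (R₀ ^ (-1 + e3) * x ^ ((2 * (J : ℝ) - 1) * d)) := by
    have e1' : rr J M (R₀ ^ (-1 + e3)) (s + 1) =
        25 * J * 4 ^ J * R₀ ^ (-1 + e3) * (2 * (M : ℝ) ^ (s + 1)) ^ (2 * J - 1) := by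
      unfold rr
      rw [one_div, inv_pow, div_inv_eq_mul]
    have e2'' : (2 * (M : ℝ) ^ (s + 1)) ^ (2 * J - 1) ≤ 2 ^ (2 * Jm) * x ^ ((2 * (J : ℝ) - 1) * d) := by
      calc (2 * (M : ℝ) ^ (s + 1)) ^ (2 * J - 1) ≤ (2 * x ^ d) ^ (2 * J - 1) := by gcongr
        _ = 2 ^ (2 * J - 1) * x ^ ((2 * (J : ℝ) - 1) * d) := by
            rw [mul_pow, ← rpow_natCast (x ^ d), ← rpow_mul hx0.le, mul_comm d,
              Nat.cast_sub (by omega)]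
            push_cast; rfl
        _ ≤ _ := by
            gcongr
            · norm_num
            · omega
    rw [e1', hc₂]
    calc 25 * (J : ℝ) * 4 ^ J * R₀ ^ (-1 + e3) * (2 * (M : ℝ) ^ (s + 1)) ^ (2 * J - 1)
        ≤ 25 * (Jm : ℝ) * 4 ^ Jm * R₀ ^ (-1 + e3) * (2 ^ (2 * Jm) * x ^ ((2 * (J : ℝ) - 1) * d)) := by
          gcongr
          norm_num
      _ = _ := by ring
  have hRr : (R₀ ^ (-1 + e3)) ^ 2 = R₀ ^ (2 * e3) * x ^ (-2 * r) := by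
    have : x ^ (-2 * r) = R₀ ^ (-2 : ℝ) := by
      rw [mul_comm, rpow_mul hx0.le, hRx]
    rw [this, ← rpow_natCast, ← rpow_mul hR0.le, ← rpow_add hR0]
    congr 1; push_cast; ring
  have hrr2 : 8 * rr J M (R₀ ^ (-1 + e3)) (s + 1) ^ 2 + 2 ≤
      8 * c₂ ^ 2 * R₀ ^ (2 * e3) * x ^ (2 * ((2 * (J : ℝ) - 1) * d - r)) + 2 := by
    have : rr J M (R₀ ^ (-1 + e3)) (s + 1) ^ 2 ≤
        (c₂ * (R₀ ^ (-1 + e3) * x ^ ((2 * (J : ℝ) - 1) * d))) ^ 2 := by gcongr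
    have e : (c₂ * (R₀ ^ (-1 + e3) * x ^ ((2 * (J : ℝ) - 1) * d))) ^ 2 =
        c₂ ^ 2 * R₀ ^ (2 * e3) * x ^ (2 * ((2 * (J : ℝ) - 1) * d - r)) := by
      have : x ^ (2 * ((2 * (J : ℝ) - 1) * d - r)) = x ^ (-2 * r) * (x ^ ((2 * (J : ℝ) - 1) * d)) ^ 2 := by
        rw [← rpow_natCast (x ^ ((2 * (J : ℝ) - 1) * d)), ← rpow_mul hx0.le, ← rpow_add hx0]
        congr 1; push_cast; ring
      rw [mul_pow, mul_pow, hRr, this]; ring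
    rw [e] at this
    linarith
  -- first factor
  have F1 : (2 * (8 * (4 * (Jm : ℝ)) ^ m * (2 * M)) * m * 20 / x ^ (3 / 2 + e1)) ^ (2 * J) ≤
      a ^ (2 * Jm) * x ^ (2 * (J : ℝ) * u - 3 * J - 2 * J * e1) := by
    have h1 : 2 * (8 * (4 * (Jm : ℝ)) ^ m * (2 * M)) * m * 20 / x ^ (3 / 2 + e1) ≤
        a * x ^ (u - (3 / 2 + e1)) := by
      rw [rpow_sub hx0, ← mul_div_assoc]
      refine div_le_div_of_nonneg_right ?_ (rpow_pos_of_pos hx0 _).le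
      calc 2 * (8 * (4 * (Jm : ℝ)) ^ m * (2 * M)) * m * 20 =
          (2 * (8 * (4 * (Jm : ℝ)) ^ m * 2) * m * 20) * M := by ring
        _ ≤ a * x ^ u := by
            gcongr
            rw [ha]; linarith
    calc _ ≤ (a * x ^ (u - (3 / 2 + e1))) ^ (2 * J) := by gcongr
      _ = a ^ (2 * J) * x ^ (2 * (J : ℝ) * u - 3 * J - 2 * J * e1) := by
          rw [mul_pow, ← rpow_natCast (x ^ (u - (3 / 2 + e1))), ← rpow_mul hx0.le]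
          congr 2; push_cast; ring
      _ ≤ _ := by
          gcongr
  -- second factor
  have hE0 : 0 ≤ exp (-(π / 4) * R₀ ^ 2 * (R₀ ^ (-1 + e3)) ^ 2) := (exp_pos _).le
  have hDJ0 : 0 ≤ Dc x M (s + 1) ^ J := by positivity
  have F2 : Dc x M (s + 1) ^ J * (2 * rr J M (R₀ ^ (-1 + e3)) (s + 1) + 1) ^ 2 +
            Dc x M (s + 1) ^ (2 * J) * exp (-(π / 4) * R₀ ^ 2 * (R₀ ^ (-1 + e3)) ^ 2) ≤
      2 * (c₁ ^ Jm * x ^ ((J : ℝ) * (2 - d))) *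
        (8 * c₂ ^ 2 * R₀ ^ (2 * e3) * x ^ (2 * ((2 * (J : ℝ) - 1) * d - r)) + 2) := by
    have := h27_sum hrr0 _ _ hDJ0 DE rfl
    rw [two_mul J, pow_add]
    refine this.trans ?_
    gcongr
  have MJ : (M : ℝ) ^ J ≤ x ^ ((J : ℝ) * u) := by
    calc (M : ℝ) ^ J ≤ (x ^ u) ^ J := by gcongr
      _ = _ := by rw [← rpow_natCast, ← rpow_mul hx0.le, mul_comm]
  have hJr : (2 : ℝ) ≤ J := by exact_mod_cast hJ
  have hQ : 1 ≤ R₀ ^ (2 * e3) := one_le_rpow hR1 (by positivity)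
  have hcount := h27_count (e1 := e1) (u := u) (P := c₂) hx H1 H2 he2.le hQ
  calc _ ≤ a ^ (2 * Jm) * x ^ (2 * (J : ℝ) * u - 3 * J - 2 * J * e1) *
        (20 * (8 * x ^ d * x ^ ((J : ℝ) * u) * (2 * (c₁ ^ Jm * x ^ ((J : ℝ) * (2 - d))) *
        (8 * c₂ ^ 2 * R₀ ^ (2 * e3) * x ^ (2 * ((2 * (J : ℝ) - 1) * d - r)) + 2)))) := by
        gcongr
    _ = a ^ (2 * Jm) * (20 * 8 * 2 * c₁ ^ Jm) * (x ^ (2 * (J : ℝ) * u - 3 * J - 2 * J * e1) *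
        (x ^ d * x ^ ((J : ℝ) * u) * (x ^ ((J : ℝ) * (2 - d)) *
        (8 * c₂ ^ 2 * R₀ ^ (2 * e3) * x ^ (2 * ((2 * (J : ℝ) - 1) * d - r)) + 2)))) := by ring
    _ ≤ a ^ (2 * Jm) * (20 * 8 * 2 * c₁ ^ Jm) * ((8 * c₂ ^ 2 + 2) * R₀ ^ (2 * e3) *
        (x ^ (3 * (J : ℝ) * u - 2 * J * e1 + 4 * e2) * x ^ (-(1 + r)))) := by gcongr
    _ ≤ a ^ (2 * Jm) * (20 * 8 * 2 * c₁ ^ Jm * (8 * c₂ ^ 2 + 2)) * (R₀ * x)⁻¹ * x ^ (-e1) := by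
        have g1 : x ^ (-(1 + r)) = (R₀ * x)⁻¹ := by
          rw [rpow_neg hx0.le, rpow_add hx0, rpow_one, hRx, mul_comm]
        have g2 : R₀ ^ (2 * e3) ≤ x ^ (2 * e3 / ε) := by
          calc R₀ ^ (2 * e3) = (R₀ ^ ε) ^ (2 * e3 / ε) := by
                rw [← rpow_mul hR0.le, mul_div_cancel₀ _ hε.ne']
            _ ≤ _ := by gcongr
        have g3 : R₀ ^ (2 * e3) * x ^ (3 * (J : ℝ) * u - 2 * J * e1 + 4 * e2) ≤ x ^ (-e1) := by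
          calc _ ≤ x ^ (2 * e3 / ε) * x ^ (3 * (J : ℝ) * u - 2 * J * e1 + 4 * e2) := by gcongr
            _ = x ^ (2 * e3 / ε + (3 * (J : ℝ) * u - 2 * J * e1 + 4 * e2)) := by
                rw [rpow_add hx0 (2 * e3 / ε) (3 * (J : ℝ) * u - 2 * J * e1 + 4 * e2)]
            _ ≤ x ^ (-e1) := by
                apply rpow_le_rpow_of_exponent_le hx
                have q1 : 2 * e3 / ε ≤ e1 / 4 := by
                  rw [div_le_iff₀ hε]; linarith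
                have q2 : 3 * u ≤ e1 / 2 := by
                  rw [hu]
                  rw [div_le_iff₀ he1] at hm'
                  rw [← mul_div_assoc, mul_one, div_le_iff₀ (by positivity)]
                  linarith
                have q3 : 3 * (J : ℝ) * u ≤ J * (e1 / 2) := by
                  calc 3 * (J : ℝ) * u = J * (3 * u) := by ring
                    _ ≤ _ := by gcongr
                have q4 : 2 * e1 ≤ J * e1 := by gcongr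
                linarith
        rw [g1]
        have hB : 0 ≤ a ^ (2 * Jm) * (20 * 8 * 2 * c₁ ^ Jm) * (8 * c₂ ^ 2 + 2) * (R₀ * x)⁻¹ := by positivity
        calc a ^ (2 * Jm) * (20 * 8 * 2 * c₁ ^ Jm) * ((8 * c₂ ^ 2 + 2) * R₀ ^ (2 * e3) *
              (x ^ (3 * (J : ℝ) * u - 2 * J * e1 + 4 * e2) * (R₀ * x)⁻¹))
            = a ^ (2 * Jm) * (20 * 8 * 2 * c₁ ^ Jm) * (8 * c₂ ^ 2 + 2) * (R₀ * x)⁻¹ *
              (R₀ ^ (2 * e3) * x ^ (3 * (J : ℝ) * u - 2 * J * e1 + 4 * e2)) := by ring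
          _ ≤ a ^ (2 * Jm) * (20 * 8 * 2 * c₁ ^ Jm) * (8 * c₂ ^ 2 + 2) * (R₀ * x)⁻¹ * x ^ (-e1) := by gcongr
          _ = _ := by ring

end Pool.Agent.Helper22.AE
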