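import Pool.Agent.Helper22.AE.X3
import Pool.Agent.Helper22.AE.X4
import Pool.Agent.Helper22.AE.D5

/-!
# AE-X5: choice of all parameters

PROOF. `e2 = e1/80` (so `4 e2 ≤ 1/10`, `8 e2 ≤ e1`, `e2 ≤ 1/4`), `e3 = min (ε/20) (e1 ε/8)`, i.e. e.g. `e3 = e1 ε/20`, `m = ⌈3/e1⌉₊`,
`Jm = ⌊1/ε⌋₊ + 3`. For `R₀ ≥ R₁ > 1` and `R₀^ε ≤ x ≤ R₀^(1/2+e2)`: `r = log R₀/log x` satisfies `r ≤ 1/ε` and
`r ≥ 1/(1/2+e2) = 2/(1+2e2) ≥ 2 - 4 e2`. For `s < m` take `J` from `choose_J` with `d = (s+1)/(2m)`, `e = 4 e2`; `J ≤ r + 3 ≤ 1/ε + 3`, so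
`J ≤ Jm` (`Nat.le_floor`). Use `hyp_ok`, `final_bound`. The condition on `D`: `2·8 (4Jm)^m Dc x M m · 20 ≤ C x^(3/2) ≤ x^(3/2+e1)` by `Dc_le`
with `t = m` (`2 - m/(2m) = 3/2`) for `x^(e1) ≥ C`, true for `R₀` large since `x ≥ R₀^ε`.
-/

open Real Set Filter Topology

set_option autoImplicit false

namespace Pool.Agent.Helper22.AE

theorem exponents {ε e1 : ℝ} (hε : 0 < ε) (hε1 : ε ≤ 1) (he1 : 0 < e1) (he11 : e1 ≤ 1) :
    ∃ (m : ℕ) (e2 e3 C R₁ : ℝ), 1 ≤ m ∧ 0 < e2 ∧ e2 ≤ 1 / 4 ∧ 0 < e3 ∧ 0 < C ∧ 1 ≤ R₁ ∧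
      ∀ R₀ : ℝ, R₁ ≤ R₀ → ∀ x : ℝ, R₀ ^ ε ≤ x → x ≤ R₀ ^ (1 / 2 + e2) →
      ∀ M : ℕ, M = ⌊x ^ (1 / (2 * (m : ℝ)))⌋₊ → ∀ Jm : ℕ, Jm = ⌊1 / ε⌋₊ + 3 →
        1 ≤ M ∧ 2 * (8 * (4 * (Jm : ℝ)) ^ m * Dc x M m) * 20 ≤ x ^ (3 / 2 + e1) ∧
        ∀ s < m, ∃ J : ℕ, 2 ≤ J ∧ J ≤ Jm ∧
          J * 4 ^ J * (2 * R₀ ^ (-1 + e3)) ≤ x * (1 / (2 * (M : ℝ) ^ (s + 1))) ^ (2 * J - 1) ∧
          50 * J * 4 ^ J * R₀ ^ (-1 + e3) < (1 / (2 * (M : ℝ) ^ (s + 1))) ^ (2 * J - 3) ∧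
          (2 * (8 * (4 * (Jm : ℝ)) ^ m * (2 * M)) * m * 20 / x ^ (3 / 2 + e1)) ^ (2 * J) *
            (20 * (8 * (M : ℝ) ^ s * M ^ J * (Dc x M (s + 1) ^ J * (2 * rr J M (R₀ ^ (-1 + e3)) (s + 1) + 1) ^ 2 +
              Dc x M (s + 1) ^ (2 * J) * exp (-(π / 4) * R₀ ^ 2 * (R₀ ^ (-1 + e3)) ^ 2)))) ≤
            C * (R₀ * x)⁻¹ * x ^ (-e1) := by
  set e2 : ℝ := e1 / 80 with he2
  set e3 : ℝ := e1 * ε / 20 with he3
  set m : ℕ := ⌈3 / e1⌉₊ with hm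
  set Jm0 : ℕ := ⌊1 / ε⌋₊ + 3 with hJm0
  have he2p : 0 < e2 := by positivity
  have he3p : 0 < e3 := by positivity
  have hm1 : 1 ≤ m := Nat.one_le_iff_ne_zero.mpr (Nat.ceil_pos.mpr (by positivity)).ne'
  have hm3 : 3 / e1 ≤ m := Nat.le_ceil _
  have hmR : (1:ℝ) ≤ m := by exact_mod_cast hm1
  obtain ⟨Ra, hRa1, hRa⟩ := hyp_ok hε hε1 he3p (by rw [he3]; nlinarith) hm1 Jm0
  obtain ⟨C, Rb, hC, hRb1, hRb⟩ := final_bound (e2 := e2) (e3 := e3) hε hε1 he1 he11 he2p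
    (by rw [he2]; linarith) he3p (by rw [he3]; nlinarith) hm1 hm3 Jm0
  set C' : ℝ := 2 * (8 * (4 * (Jm0 : ℝ)) ^ m * (10 * (5 * 2 ^ m + 1))) * 20 with hC'
  have hC'0 : 0 ≤ C' := by positivity
  set X0 : ℝ := max ((2:ℝ) ^ (2 * m)) (max (C' ^ (1 / e1)) 2) with hX0
  have hX02 : (2:ℝ) ≤ X0 := (le_max_right _ _).trans (le_max_right _ _)
  refine ⟨m, e2, e3, C, max (max Ra Rb) (max (X0 ^ (1 / ε)) 2), hm1, he2p, by rw [he2]; linarith, he3p, hC,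
    le_trans (by norm_num) ((le_max_right _ _).trans (le_max_right _ _)), ?_⟩
  intro R₀ hR₀ x hx1 hx2 M hM Jm hJm
  have hR2 : (2:ℝ) ≤ R₀ := ((le_max_right _ _).trans (le_max_right _ _)).trans hR₀
  have hRaR : Ra ≤ R₀ := ((le_max_left _ _).trans (le_max_left _ _)).trans hR₀
  have hRbR : Rb ≤ R₀ := ((le_max_right _ _).trans (le_max_left _ _)).trans hR₀
  have hRc : X0 ^ (1 / ε) ≤ R₀ := ((le_max_left _ _).trans (le_max_right _ _)).trans hR₀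
  have hR0 : (0:ℝ) < R₀ := by linarith
  have hxX : X0 ≤ x := by
    refine le_trans ?_ hx1
    calc X0 = (X0 ^ (1 / ε)) ^ ε := by
          rw [← Real.rpow_mul (by linarith), one_div_mul_cancel hε.ne', Real.rpow_one]
      _ ≤ R₀ ^ ε := Real.rpow_le_rpow (by positivity) hRc hε.le
  have hx2' : (2:ℝ) ≤ x := hX02.trans hxX
  have hx0 : (0:ℝ) < x := by linarith
  have hxpow : (2:ℝ) ^ (2 * m) ≤ x := (le_max_left _ _).trans hxX
  have hlogR : 0 < Real.log R₀ := Real.log_pos (by linarith)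
  have hlogx : 0 < Real.log x := Real.log_pos (by linarith)
  have hxR : x ≤ R₀ := by
    refine hx2.trans ?_
    calc R₀ ^ (1 / 2 + e2) ≤ R₀ ^ (1:ℝ) :=
          Real.rpow_le_rpow_of_exponent_le (by linarith) (by rw [he2]; linarith)
      _ = R₀ := Real.rpow_one _
  set r : ℝ := Real.log R₀ / Real.log x with hr
  have hr1 : r ≤ 1 / ε := by
    rw [hr, div_le_div_iff₀ hlogx hε, one_mul]
    have := Real.log_le_log (by positivity) hx1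
    rw [Real.log_rpow hR0] at this
    linarith
  have hr2 : 2 - 4 * e2 ≤ r := by
    rw [hr, le_div_iff₀ hlogx]
    have := Real.log_le_log hx0 hx2
    rw [Real.log_rpow hR0] at this
    have h2 : 0 ≤ 2 - 4 * e2 := by rw [he2]; linarith
    calc (2 - 4 * e2) * Real.log x ≤ (2 - 4 * e2) * ((1 / 2 + e2) * Real.log R₀) :=
          mul_le_mul_of_nonneg_left this h2
      _ = (1 - 4 * e2 ^ 2) * Real.log R₀ := by ring
      _ ≤ 1 * Real.log R₀ := mul_le_mul_of_nonneg_right (by nlinarith [sq_nonneg e2]) hlogR.le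
      _ = Real.log R₀ := one_mul _
  have hJeq : Jm = Jm0 := hJm
  have hfp := floor_pow hm1 hxpow hM 1
  refine ⟨by omega, ?_, ?_⟩
  · have hD := Dc_le hm1 hxpow hM (le_refl m)
    have e1' : (2:ℝ) - (m : ℝ) / (2 * m) = 3 / 2 := by
      have : (m : ℝ) ≠ 0 := by positivity
      field_simp
      norm_num
    rw [e1'] at hD
    have hxe : C' ≤ x ^ e1 := by
      have h1 : C' ^ (1 / e1) ≤ x := ((le_max_left _ _).trans (le_max_right _ _)).trans hxX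
      calc C' = (C' ^ (1 / e1)) ^ e1 := by
            rw [← Real.rpow_mul hC'0, one_div_mul_cancel he1.ne', Real.rpow_one]
        _ ≤ x ^ e1 := Real.rpow_le_rpow (by positivity) h1 he1.le
    rw [hJeq]
    calc 2 * (8 * (4 * (Jm0 : ℝ)) ^ m * Dc x M m) * 20
        ≤ 2 * (8 * (4 * (Jm0 : ℝ)) ^ m * (10 * (5 * 2 ^ m + 1) * x ^ ((3:ℝ) / 2))) * 20 := by
          refine mul_le_mul_of_nonneg_right (mul_le_mul_of_nonneg_left
            (mul_le_mul_of_nonneg_left hD (by positivity)) (by norm_num)) (by norm_num)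
      _ = C' * x ^ ((3:ℝ) / 2) := by rw [hC']; ring
      _ ≤ x ^ e1 * x ^ ((3:ℝ) / 2) := mul_le_mul_of_nonneg_right hxe (by positivity)
      _ = x ^ (3 / 2 + e1) := by
          rw [← Real.rpow_add hx0]
          congr 1
          ring
  · intro s hs
    have hd0 : 0 < ((s : ℝ) + 1) / (2 * m) := by positivity
    have hd1 : ((s : ℝ) + 1) / (2 * m) ≤ 1 / 2 := by
      rw [div_le_div_iff₀ (by positivity) (by norm_num)]
      have : ((s : ℝ) + 1) ≤ m := by exact_mod_cast hs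
      linarith
    obtain ⟨J, hJ2, hJ3, hJ4, hJ5, hJ6⟩ := choose_J (r := r) (d := ((s : ℝ) + 1) / (2 * m)) (e := 4 * e2)
      (by positivity) (by rw [he2]; linarith) hr2 hd0 hd1
    have hJJm : J ≤ Jm0 := by
      have h1 : (J : ℝ) ≤ 1 / ε + 3 := by linarith
      have h2 : J ≤ ⌊1 / ε + (3:ℕ)⌋₊ := Nat.le_floor (by push_cast; exact h1)
      rwa [Nat.floor_add_natCast (by positivity)] at h2
    have hh := hRa R₀ hRaR x hx1 s hs J hJ2 hJJm hJ4 M hM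
    have hf := hRb R₀ hRbR x hx1 hxR s hs J hJ2 hJJm hJ5 hJ6 M hM
    refine ⟨J, hJ2, by rw [hJeq]; exact hJJm, hh.1, hh.2, ?_⟩
    rw [hJeq]
    exact hf

end Pool.Agent.Helper22.AE
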