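import Pool.Agent.Helper22.AE.E2
import Pool.Agent.Helper22.AE.E3
import Pool.Agent.Helper22.AE.D4
import Pool.Agent.Helper22.AE.X5
import Pool.Agent.Helper22.AE.C1

/-!
# AE-K1: the key proposition (paper, section 4)

`nuM β n Ra` is the measure `2^n k0 β α dα dR` on `Icc Ra (Ra + 2^(-n)) × {α ∈ [-π, π], |cos α| ≥ 1/2}`.

PROOF of `nu_mass`: `∫ k0 ≤ 20` (`k0_int`; restriction to a subset, `k0 ≥ 0`), interval of length `2^(-n)`.
PROOF of `Zf_nu`: `integral_withDensity_eq_integral_smul`/`setIntegral_prod` (continuous integrand: `Tsum_cont`, bounded set).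
PROOF of `key`. Parameters from `exponents`; `x = 2^n`, `η = R₀^(-1+e3)`. For fixed `(R, α)` (in the support of `nuM`, so `R ≥ R₀`,
`|cos α| ≥ 1/2`) and `w`, `multiscale` with `B = blk n`, `f k = v R α k * ee (-(R nk k lform k α w))` (then
`∑_{k ∈ arcSet} f k = Tsum (arcSet ..) (v R α) R α w` by definition and the sums are `Xs (blk n) (v R α) R α M s (J s) w`), `D = Dc x M m`
(`arc_card` with `N = 8M^m`, `‖f k‖ ≤ 1`), gives
`‖Tsum (blk n) ..‖ ≤ 8 (4Jm)^m Dc x M m + 8 (4Jm)^m (2M) ∑_{s<m} Xs^(1/(2 J s))`. This holds for ALL `(R, α)`, as `markov_holder` wants it.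
`Xs_mean`: for `nuM`-almost all `(R, α)` the mean of `Xs` is at most the bracket in `exponents` (`R ≥ R₀` in the exponential). Apply
`markov_holder` with `γ = gm L`, `ν = nuM β n Ra`, `Cν = 20`, `c0 = 8 (4Jm)^m Dc x M m`, `c1 = 8 (4Jm)^m (2M)`, `lam = x^(3/2+e1)`,
`e s =` the bracket, and the last inequality of `exponents` for each of the `m` terms. `J s` for `s ≥ m`: any value, e.g. `2` (`Jm ≥ 3`).
Measurability from `Tsum_cont`. `2 J ≤ 2 Jm ≤ 2/ε + 6 ≤ L`.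
-/

open MeasureTheory Real Set Filter Topology

set_option autoImplicit false

namespace Pool.Agent.Helper22.AE

/-- the measure `2^n k0 β α dα dR` -/
noncomputable def nuM (β : ℝ) (n : ℕ) (Ra : ℝ) : Measure (ℝ × ℝ) :=
  (volume.restrict (Icc Ra (Ra + 1 / 2 ^ n) ×ˢ (Icc (-π) π ∩ {α | 1 / 2 ≤ |cos α|}))).withDensity
    (fun p => ENNReal.ofReal (2 ^ n * k0 β p.2))

private lemma k0_cont {β : ℝ} (hβ : 0 < β) : Continuous (fun α : ℝ => k0 β α) := by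
  unfold k0
  refine continuous_const.div (by fun_prop) ?_
  intro α
  positivity

private lemma k0_nonneg {β : ℝ} (hβ : 0 < β) (α : ℝ) : 0 ≤ k0 β α := by
  unfold k0
  positivity

private lemma measS : MeasurableSet (Icc (-π) π ∩ {α : ℝ | 1 / 2 ≤ |cos α|}) := by
  refine measurableSet_Icc.inter ?_
  exact measurableSet_le measurable_const (by fun_prop)

theorem nu_mass {β : ℝ} (hβ : 0 < β) (n : ℕ) (Ra : ℝ) :
    IsFiniteMeasure (nuM β n Ra) ∧ (nuM β n Ra).real univ ≤ 20 := by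
  have hle : (nuM β n Ra) univ ≤ ENNReal.ofReal 20 := by
    unfold nuM
    rw [withDensity_apply _ MeasurableSet.univ, Measure.restrict_univ]
    have hsub : Icc Ra (Ra + 1 / 2 ^ n) ×ˢ (Icc (-π) π ∩ {α : ℝ | 1 / 2 ≤ |cos α|}) ⊆
        Icc Ra (Ra + 1 / 2 ^ n) ×ˢ Icc (-π) π := prod_mono subset_rfl inter_subset_left
    refine (lintegral_mono_set hsub).trans ?_
    have hc : Continuous (fun p : ℝ × ℝ => (2 : ℝ) ^ n * k0 β p.2) :=
      continuous_const.mul ((k0_cont hβ).comp continuous_snd)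
    have hint : IntegrableOn (fun p : ℝ × ℝ => (2 : ℝ) ^ n * k0 β p.2) (Icc Ra (Ra + 1 / 2 ^ n) ×ˢ Icc (-π) π) :=
      hc.continuousOn.integrableOn_compact (isCompact_Icc.prod isCompact_Icc)
    rw [← ofReal_integral_eq_lintegral_ofReal hint
      (ae_of_all _ fun p => mul_nonneg (by positivity) (k0_nonneg hβ _))]
    apply ENNReal.ofReal_le_ofReal
    have h1 : ∫ p in Icc Ra (Ra + 1 / 2 ^ n) ×ˢ Icc (-π) π, (2 : ℝ) ^ n * k0 β p.2 =
        (∫ _x in Icc Ra (Ra + 1 / 2 ^ n), (2 : ℝ) ^ n) * ∫ y in Icc (-π) π, k0 β y := by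
      rw [Measure.volume_eq_prod]
      exact setIntegral_prod_mul (fun _ => (2 : ℝ) ^ n) (fun y => k0 β y) _ _
    rw [h1, setIntegral_const]
    have h2 : volume.real (Icc Ra (Ra + 1 / 2 ^ n)) = 1 / 2 ^ n := by
      rw [Real.volume_real_Icc_of_le (by
        have : (0 : ℝ) ≤ 1 / 2 ^ n := by positivity
        linarith)]
      ring
    rw [h2, smul_eq_mul]
    have h3 : ∫ y in Icc (-π) π, k0 β y = ∫ y in (-π)..π, k0 β y := by
      rw [intervalIntegral.integral_of_le (by linarith [pi_pos]), integral_Icc_eq_integral_Ioc]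
    rw [h3]
    have h4 : (1 / 2 ^ n * 2 ^ n : ℝ) = 1 := by
      field_simp
    rw [h4, one_mul]
    exact k0_int hβ
  refine ⟨⟨lt_of_le_of_lt hle ENNReal.ofReal_lt_top⟩, ?_⟩
  rw [measureReal_def]
  calc ((nuM β n Ra) univ).toReal ≤ (ENNReal.ofReal 20).toReal := ENNReal.toReal_mono ENNReal.ofReal_ne_top hle
    _ = 20 := ENNReal.toReal_ofReal (by norm_num)

theorem Zf_nu {L : ℕ} {β : ℝ} (hβ : 0 < β) (n : ℕ) (Ra : ℝ) (v : ℝ → ℝ → ℤ × ℤ → ℂ)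
    (hv : ∀ k, Continuous (fun p : ℝ × ℝ => v p.1 p.2 k)) (w : (Fin L → ℝ) × (Fin L → ℝ)) :
    Zf β n Ra v w = ∫ p, ‖Tsum (blk n) (v p.1 p.2) p.1 p.2 w‖ ∂(nuM β n Ra) := by
  have hc : Continuous (fun p : ℝ × ℝ => (2 : ℝ) ^ n * k0 β p.2) :=
    continuous_const.mul ((k0_cont hβ).comp continuous_snd)
  have hT : Continuous (fun p : ℝ × ℝ => Tsum (blk n) (v p.1 p.2) p.1 p.2 w) :=
    (Tsum_cont (blk n) v hv).comp (Continuous.prodMk continuous_id continuous_const)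
  unfold nuM
  rw [integral_withDensity_eq_integral_toReal_smul hc.measurable.ennreal_ofReal (ae_of_all _ fun p => ENNReal.ofReal_lt_top)]
  have h1 : ∀ p : ℝ × ℝ, (ENNReal.ofReal (2 ^ n * k0 β p.2)).toReal • ‖Tsum (blk n) (v p.1 p.2) p.1 p.2 w‖ =
      2 ^ n * k0 β p.2 * ‖Tsum (blk n) (v p.1 p.2) p.1 p.2 w‖ := by
    intro p
    rw [ENNReal.toReal_ofReal (mul_nonneg (by positivity) (k0_nonneg hβ _)), smul_eq_mul]
  simp_rw [h1]
  have hg : Continuous (fun p : ℝ × ℝ => 2 ^ n * k0 β p.2 * ‖Tsum (blk n) (v p.1 p.2) p.1 p.2 w‖) := hc.mul hT.norm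
  rw [Measure.volume_eq_prod, setIntegral_prod]
  · rfl
  · have hsub : Icc Ra (Ra + 1 / 2 ^ n) ×ˢ (Icc (-π) π ∩ {α : ℝ | 1 / 2 ≤ |cos α|}) ⊆
        Icc Ra (Ra + 1 / 2 ^ n) ×ˢ Icc (-π) π := prod_mono subset_rfl inter_subset_left
    exact (hg.continuousOn.integrableOn_compact (isCompact_Icc.prod isCompact_Icc)).mono_set hsub

private lemma gapT_card (J M : ℕ) : ((gapT J M).card : ℝ) ≤ (M : ℝ) ^ J := by
  have h : (gapT J M).card ≤ M ^ J := by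
    refine (Finset.card_filter_le _ _).trans ?_
    simp
  exact_mod_cast h

private lemma Xs_nonneg {L : ℕ} (B : Finset (ℤ × ℤ)) (v : ℤ × ℤ → ℂ) (R α : ℝ) (M s J : ℕ)
    (w : (Fin L → ℝ) × (Fin L → ℝ)) : 0 ≤ Xs B v R α M s J w := by
  unfold Xs
  exact Finset.sum_nonneg fun j _ => Finset.sum_nonneg fun I _ => Finset.prod_nonneg fun t _ => by positivity

private lemma Xs_le {L : ℕ} (B : Finset (ℤ × ℤ)) (v : ℤ × ℤ → ℂ) (hv : ∀ k, ‖v k‖ ≤ 1) (R α : ℝ) (M s J : ℕ)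
    (w : (Fin L → ℝ) × (Fin L → ℝ)) :
    Xs B v R α M s J w ≤ (8 * (M : ℝ) ^ s) * ((M : ℝ) ^ J * ((B.card : ℝ) ^ 2) ^ J) := by
  unfold Xs
  have h1 : ∀ j ∈ Finset.range (8 * M ^ s), ∑ I ∈ gapT J M,
      ∏ t, ‖Tsum (arcSet B (8 * M ^ (s + 1)) (M * j + I t)) v R α w‖ ^ 2 ≤ (M : ℝ) ^ J * ((B.card : ℝ) ^ 2) ^ J := by
    intro j _
    have h2 : ∀ I ∈ gapT J M, ∏ t, ‖Tsum (arcSet B (8 * M ^ (s + 1)) (M * j + I t)) v R α w‖ ^ 2 ≤
        ((B.card : ℝ) ^ 2) ^ J := by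
      intro I _
      calc ∏ t, ‖Tsum (arcSet B (8 * M ^ (s + 1)) (M * j + I t)) v R α w‖ ^ 2 ≤ ∏ _t : Fin J, (B.card : ℝ) ^ 2 := by
            apply Finset.prod_le_prod
            · intro t _; positivity
            · intro t _
              have h3 := Tsum_norm_le (arcSet B (8 * M ^ (s + 1)) (M * j + I t)) v hv R α w
              have h4 : ((arcSet B (8 * M ^ (s + 1)) (M * j + I t)).card : ℝ) ≤ B.card := by
                exact_mod_cast Finset.card_filter_le _ _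
              have h5 := norm_nonneg (Tsum (arcSet B (8 * M ^ (s + 1)) (M * j + I t)) v R α w)
              exact pow_le_pow_left₀ h5 (h3.trans h4) 2
        _ = ((B.card : ℝ) ^ 2) ^ J := by simp
    calc _ ≤ ∑ _I ∈ gapT J M, ((B.card : ℝ) ^ 2) ^ J := Finset.sum_le_sum h2
      _ = (gapT J M).card * ((B.card : ℝ) ^ 2) ^ J := by rw [Finset.sum_const, nsmul_eq_mul]
      _ ≤ _ := mul_le_mul_of_nonneg_right (gapT_card J M) (by positivity)
  calc _ ≤ ∑ _j ∈ Finset.range (8 * M ^ s), (M : ℝ) ^ J * ((B.card : ℝ) ^ 2) ^ J := Finset.sum_le_sum h1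
    _ = _ := by rw [Finset.sum_const, nsmul_eq_mul, Finset.card_range]; push_cast; ring

private lemma Xs_cont {L : ℕ} (B : Finset (ℤ × ℤ)) (v : ℝ → ℝ → ℤ × ℤ → ℂ)
    (hv : ∀ k, Continuous (fun p : ℝ × ℝ => v p.1 p.2 k)) (M s J : ℕ) :
    Continuous (fun q : (ℝ × ℝ) × ((Fin L → ℝ) × (Fin L → ℝ)) => Xs B (v q.1.1 q.1.2) q.1.1 q.1.2 M s J q.2) := by
  unfold Xs
  refine continuous_finsetSum _ fun j _ => continuous_finsetSum _ fun I _ => continuous_finsetProd _ fun t _ => ?_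
  exact (Tsum_cont _ v hv).norm.pow 2

theorem key {ε e1 : ℝ} (hε : 0 < ε) (hε1 : ε ≤ 1) (he1 : 0 < e1) (he11 : e1 ≤ 1) {L : ℕ} (hL : 2 / ε + 8 ≤ L) :
    ∃ (e2 C R₁ : ℝ), 0 < e2 ∧ e2 ≤ 1 / 4 ∧ 0 < C ∧ 1 ≤ R₁ ∧ ∀ R₀ : ℝ, R₁ ≤ R₀ → ∀ n : ℕ,
      R₀ ^ ε ≤ (2 : ℝ) ^ n → (2 : ℝ) ^ n ≤ R₀ ^ (1 / 2 + e2) → ∀ Ra : ℝ, R₀ ≤ Ra → ∀ β : ℝ, 0 < β →
      ∀ v : ℝ → ℝ → ℤ × ℤ → ℂ, (∀ k, Continuous (fun p : ℝ × ℝ => v p.1 p.2 k)) → (∀ R α k, ‖v R α k‖ ≤ 1) →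
        (gm L).real {w | ((2 : ℝ) ^ n) ^ (3 / 2 + e1) < Zf β n Ra v w} ≤
          C * (R₀ * 2 ^ n)⁻¹ * ((2 : ℝ) ^ n) ^ (-e1) := by
  obtain ⟨m, e2, e3, C, R₁, hm, he2, he2', he3, hC, hR₁, hexp⟩ := exponents hε hε1 he1 he11
  have hm0 : (0 : ℝ) < m := by exact_mod_cast (by omega : 0 < m)
  refine ⟨e2, m * C, R₁, he2, he2', by positivity, hR₁, ?_⟩
  intro R₀ hR₀ n hn1 hn2 Ra hRa β hβ v hv hv1
  have hR₀0 : 0 < R₀ := by linarith
  obtain ⟨x, hx⟩ : ∃ x : ℝ, x = 2 ^ n := ⟨_, rfl⟩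
  have hx1 : 1 ≤ x := by rw [hx]; exact one_le_pow₀ (by norm_num)
  have hx0 : 0 < x := by linarith
  obtain ⟨M, hM⟩ : ∃ M : ℕ, M = ⌊x ^ (1 / (2 * (m : ℝ)))⌋₊ := ⟨_, rfl⟩
  obtain ⟨Jm, hJm⟩ : ∃ Jm : ℕ, Jm = ⌊1 / ε⌋₊ + 3 := ⟨_, rfl⟩
  obtain ⟨hM1, hD, hs⟩ := hexp R₀ hR₀ x (by rw [hx]; exact hn1) (by rw [hx]; exact hn2) M hM Jm hJm
  have hJL : 2 * Jm ≤ L := by
    have h1 : ((⌊1 / ε⌋₊ : ℕ) : ℝ) ≤ 1 / ε := Nat.floor_le (by positivity)
    have h2 : ((2 * Jm : ℕ) : ℝ) ≤ L := by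
      rw [hJm]
      push_cast
      have h3 : 2 * (1 / ε) = 2 / ε := by ring
      linarith
    exact_mod_cast h2
  have hJm1 : (1 : ℝ) ≤ 4 * (Jm : ℝ) := by
    rw [hJm]
    push_cast
    have : (0 : ℝ) ≤ (⌊1 / ε⌋₊ : ℝ) := by positivity
    linarith
  choose! J hJ using hs
  obtain ⟨J', hJ'⟩ : ∃ J' : ℕ → ℕ, J' = fun s => if s < m then J s else 2 := ⟨_, rfl⟩
  have hJ's : ∀ s, s < m → J' s = J s := fun s hs => by rw [hJ']; exact if_pos hs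
  have hJ'b : ∀ s, 1 ≤ J' s ∧ J' s ≤ Jm := by
    intro s
    by_cases h : s < m
    · rw [hJ's s h]
      exact ⟨by have := (hJ s h).1; omega, (hJ s h).2.1⟩
    · rw [hJ']
      simp only [h, if_false]
      constructor
      · norm_num
      · omega
  -- the pointwise bound
  obtain ⟨F, hF⟩ : ∃ F : (ℝ × ℝ) → ((Fin L → ℝ) × (Fin L → ℝ)) → ℝ,
      F = fun a w => ‖Tsum (blk n) (v a.1 a.2) a.1 a.2 w‖ := ⟨_, rfl⟩
  obtain ⟨X, hX⟩ : ∃ X : ℕ → (ℝ × ℝ) → ((Fin L → ℝ) × (Fin L → ℝ)) → ℝ,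
      X = fun s a w => if s < m then Xs (blk n) (v a.1 a.2) a.1 a.2 M s (J' s) w else 0 := ⟨_, rfl⟩
  obtain ⟨c0, hc0⟩ : ∃ c0 : ℝ, c0 = 8 * (4 * (Jm : ℝ)) ^ m * Dc x M m := ⟨_, rfl⟩
  obtain ⟨c1, hc1⟩ : ∃ c1 : ℝ, c1 = 8 * (4 * (Jm : ℝ)) ^ m * (2 * M) := ⟨_, rfl⟩
  have hM0 : (0 : ℝ) < M := by exact_mod_cast (by omega : 0 < M)
  have hDc0 : 0 ≤ Dc x M m := by
    unfold Dc
    positivity
  have hpw : ∀ a w, F a w ≤ c0 + c1 * ∑ s ∈ Finset.range m, X s a w ^ (1 / (2 * (J' s : ℝ))) := by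
    intro a w
    have h1 := multiscale (blk n) (fun k => v a.1 a.2 k * ee (-(a.1 * nk k * lform k a.2 w))) hM1 J' hJ'b
      (D := Dc x M m) (m := m) (by
        intro j
        calc ‖∑ k ∈ arcSet (blk n) (8 * M ^ m) j, v a.1 a.2 k * ee (-(a.1 * nk k * lform k a.2 w))‖ ≤
            ((arcSet (blk n) (8 * M ^ m) j).card : ℝ) := Tsum_norm_le _ (v a.1 a.2) (hv1 a.1 a.2) a.1 a.2 w
          _ ≤ 2 * (4 * 2 ^ n + 1) * (6 * 2 ^ n * (2 * π / ((8 * M ^ m : ℕ) : ℝ)) + 1) :=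
              arc_card n (by
                have : 1 ≤ M ^ m := Nat.one_le_pow _ _ hM1
                omega) j
          _ = Dc x M m := by
              rw [hx]
              unfold Dc
              push_cast
              ring)
    rw [hF, hc0, hc1, Finset.mul_sum]
    refine le_trans h1 (add_le_add le_rfl (Finset.sum_le_sum ?_))
    intro s hs
    have hs' : s < m := Finset.mem_range.mp hs
    have h2 : X s a w = ∑ j ∈ Finset.range (8 * M ^ s), ∑ I ∈ gapT (J' s) M,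
        ∏ t, ‖∑ k ∈ arcSet (blk n) (8 * M ^ (s + 1)) (M * j + I t),
          v a.1 a.2 k * ee (-(a.1 * nk k * lform k a.2 w))‖ ^ 2 := by
      rw [hX]
      simp only [hs', if_true]
      rfl
    rw [← h2]
    have h3 : 0 ≤ X s a w := by
      rw [hX]
      simp only [hs', if_true]
      exact Xs_nonneg _ _ _ _ _ _ _ _
    apply mul_le_mul_of_nonneg_right _ (Real.rpow_nonneg h3 _)
    have h4 : (4 * (Jm : ℝ)) ^ s ≤ (4 * (Jm : ℝ)) ^ m := pow_le_pow_right₀ hJm1 hs'.le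
    have h5 : (0 : ℝ) ≤ 2 * M := by positivity
    exact mul_le_mul_of_nonneg_right (mul_le_mul_of_nonneg_left h4 (by norm_num)) h5
  -- bounds
  obtain ⟨Bd, hBd⟩ : ∃ Bd : ℝ, Bd = (blk n).card +
      ∑ s ∈ Finset.range m, (8 * (M : ℝ) ^ s) * ((M : ℝ) ^ (J' s) * (((blk n).card : ℝ) ^ 2) ^ (J' s)) := ⟨_, rfl⟩
  have hsum0 : ∀ s ∈ Finset.range m, 0 ≤ (8 * (M : ℝ) ^ s) * ((M : ℝ) ^ (J' s) * (((blk n).card : ℝ) ^ 2) ^ (J' s)) := by
    intro s _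
    positivity
  have hF0 : ∀ a w, 0 ≤ F a w ∧ F a w ≤ Bd := by
    intro a w
    rw [hF]
    refine ⟨norm_nonneg _, ?_⟩
    rw [hBd]
    have h1 := Tsum_norm_le (blk n) (v a.1 a.2) (hv1 a.1 a.2) a.1 a.2 w
    have h2 := Finset.sum_nonneg hsum0
    linarith
  have hX0 : ∀ s a w, 0 ≤ X s a w ∧ X s a w ≤ Bd := by
    intro s a w
    rw [hX]
    by_cases h : s < m
    · simp only [h, if_true]
      refine ⟨Xs_nonneg _ _ _ _ _ _ _ _, ?_⟩
      have h1 := Xs_le (blk n) (v a.1 a.2) (hv1 a.1 a.2) a.1 a.2 M s (J' s) w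
      have h2 := Finset.single_le_sum hsum0 (Finset.mem_range.mpr h)
      have h3 : (0 : ℝ) ≤ (blk n).card := by positivity
      rw [hBd]
      linarith
    · simp only [h, if_false]
      refine ⟨le_rfl, ?_⟩
      rw [hBd]
      have h2 := Finset.sum_nonneg hsum0
      positivity
  have hFm : Measurable (Function.uncurry F) := by
    rw [hF]
    exact (Tsum_cont (blk n) v hv).norm.measurable
  have hXm : ∀ s, Measurable (Function.uncurry (X s)) := by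
    intro s
    rw [hX]
    by_cases h : s < m
    · simp only [h, if_true]
      exact (Xs_cont (blk n) v hv M s (J' s)).measurable
    · simp only [h, if_false]
      exact measurable_const
  obtain ⟨e, he⟩ : ∃ e : ℕ → ℝ, e = fun s => 8 * (M : ℝ) ^ s * M ^ (J' s) * (Dc x M (s + 1) ^ (J' s) *
      (2 * rr (J' s) M (R₀ ^ (-1 + e3)) (s + 1) + 1) ^ 2 +
        Dc x M (s + 1) ^ (2 * (J' s)) * exp (-(π / 4) * R₀ ^ 2 * (R₀ ^ (-1 + e3)) ^ 2)) := ⟨_, rfl⟩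
  have he0 : ∀ s < m, 0 ≤ e s := by
    intro s _
    rw [he]
    have h1 : 0 ≤ Dc x M (s + 1) := by
      unfold Dc
      positivity
    positivity
  have hmean : ∀ s < m, ∀ᵐ a ∂(nuM β n Ra), ∫ w, X s a w ∂(gm L) ≤ e s := by
    intro s hs
    have hac : nuM β n Ra ≪ volume.restrict (Icc Ra (Ra + 1 / 2 ^ n) ×ˢ (Icc (-π) π ∩ {α : ℝ | 1 / 2 ≤ |cos α|})) :=
      withDensity_absolutelyContinuous _ _
    refine hac.ae_le ?_
    have hmS : MeasurableSet (Icc Ra (Ra + 1 / 2 ^ n) ×ˢ (Icc (-π) π ∩ {α : ℝ | 1 / 2 ≤ |cos α|})) :=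
      measurableSet_Icc.prod measS
    filter_upwards [ae_restrict_mem hmS] with a ha
    have ha1 : R₀ ≤ a.1 := hRa.trans ha.1.1
    have ha2 : 1 / 2 ≤ |cos a.2| := ha.2.2
    have hη : 0 < R₀ ^ (-1 + e3) := Real.rpow_pos_of_pos hR₀0 _
    obtain ⟨hJ2, hJJm, hh1, hh2, -⟩ := hJ s hs
    have h1 := Xs_mean (L := L) (J := J' s) (M := M) (s := s) (n := n) (by rw [hJ's s hs]; exact hJ2)
      (by rw [hJ's s hs]; omega) hM1 (v a.1 a.2) (hv1 a.1 a.2) (R := a.1) (α := a.2) (η := R₀ ^ (-1 + e3))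
      (by linarith) ha2 hη (by rw [hJ's s hs, ← hx]; exact hh1) (by rw [hJ's s hs]; exact hh2)
    have h2 : ∫ w, X s a w ∂(gm L) = ∫ w, Xs (blk n) (v a.1 a.2) a.1 a.2 M s (J' s) w ∂(gm L) := by
      rw [hX]
      simp only [hs, if_true]
    rw [h2, he]
    refine h1.trans ?_
    have h3 : exp (-(π / 4) * a.1 ^ 2 * (R₀ ^ (-1 + e3)) ^ 2) ≤
        exp (-(π / 4) * R₀ ^ 2 * (R₀ ^ (-1 + e3)) ^ 2) := by
      apply exp_le_exp.mpr
      have h4 : R₀ ^ 2 ≤ a.1 ^ 2 := pow_le_pow_left₀ hR₀0.le ha1 2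
      have h5 : 0 ≤ (π / 4) * (R₀ ^ (-1 + e3)) ^ 2 := by positivity
      nlinarith [mul_le_mul_of_nonneg_left h4 h5]
    rw [← hx]
    have h6 : 0 ≤ Dc x M (s + 1) := by
      unfold Dc
      positivity
    beta_reduce
    gcongr
  have hfin := (nu_mass hβ n Ra).1
  have hmass := (nu_mass hβ n Ra).2
  have hc1p : 0 < c1 := by
    rw [hc1]
    have : (0 : ℝ) < (4 * (Jm : ℝ)) ^ m := by positivity
    positivity
  have hmain := markov_holder (gm L) (nuM β n Ra) (Cν := 20) (by norm_num) hmass hm F X hFm hXm hF0 hX0 J'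
    (fun s => (hJ'b s).1) (c0 := c0) (c1 := c1) (by rw [hc0]; positivity) hc1p hpw e hmean he0
    (lam := x ^ (3 / 2 + e1)) (by rw [hc0]; exact hD) (Real.rpow_pos_of_pos hx0 _)
  have hset : {w : (Fin L → ℝ) × (Fin L → ℝ) | ((2 : ℝ) ^ n) ^ (3 / 2 + e1) < Zf β n Ra v w} =
      {w | x ^ (3 / 2 + e1) < ∫ a, F a w ∂(nuM β n Ra)} := by
    ext w
    rw [mem_ofPred_eq, mem_ofPred_eq, Zf_nu hβ n Ra v hv w, hF, hx]
  rw [hset, ← hx]
  refine hmain.trans ?_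
  have hterm : ∀ s ∈ Finset.range m, (2 * c1 * m * 20 / x ^ (3 / 2 + e1)) ^ (2 * J' s) * (20 * e s) ≤
      C * (R₀ * x)⁻¹ * x ^ (-e1) := by
    intro s hs
    have hs' : s < m := Finset.mem_range.mp hs
    obtain ⟨-, -, -, -, hh⟩ := hJ s hs'
    rw [hc1, he]
    simp only
    rw [hJ's s hs']
    exact hh
  calc _ ≤ ∑ _s ∈ Finset.range m, C * (R₀ * x)⁻¹ * x ^ (-e1) := Finset.sum_le_sum hterm
    _ = m * C * (R₀ * x)⁻¹ * x ^ (-e1) := by
        rw [Finset.sum_const, Finset.card_range, nsmul_eq_mul]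
        ring

end Pool.Agent.Helper22.AE
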