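import Pool.Agent.Helper22.AE.G5
import Pool.Agent.Helper52.Circle.Poisson

/-!
# AE-P2: Poisson summation for the smoothed indicator function of the domain

`smf φ δ G p = ∫_{q ∈ dom G} δ⁻² φ ((p - q) / δ) dq` is the smoothed indicator, `smc` its sum over the lattice.

PROOF of `poisson_dom`. `f p = smf φ δ G p` is continuous (convolution of an integrable function with a continuous compactly supported one;
or `continuous_of_dominated`, `dom G` compact by `dom_compact`), zero for large `|p|`. Its Fourier transform at `k`: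
`∫ e(-k·p) f p dp = ft G k * fhat φ (δ k.1) (δ k.2)` (Fubini, substitution `p = q + δ x`). Summability:
`‖ft G k‖ ≤ area`, `‖fhat φ (δ k.1) (δ k.2)‖ ≤ C (1 + δ |k|)^(-4)` (`IsBump.decay`), and `∑ (1 + δ |k|)^(-4) < ∞` over `ℤ²`
(`(1 + δ|k|)^4 ≥ (1 + δ|k.1|)^2 (1 + δ|k.2|)^2`, product of two convergent sums). Apply `Helper52.Circle.poisson` (stated for functions on
`d → ℝ`, with `d = Fin 2`) and transport along `MeasurableEquiv.finTwoArrow` / `finTwoArrowEquiv` (`volume_preserving_finTwoArrow`); the index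
set `Fin 2 → ℤ` is equivalent to `ℤ × ℤ` (`finTwoArrowEquiv ℤ`), `HasSum` along an `Equiv`.
-/

open MeasureTheory Real Set Filter Topology

set_option autoImplicit false

namespace Pool.Agent.Helper22.AE

/-- the smoothed indicator function of `dom G` -/
noncomputable def smf (φ : ℝ × ℝ → ℝ) (δ : ℝ) (G : ℝ → ℝ) (p : ℝ × ℝ) : ℝ :=
  ∫ q in dom G, (δ ^ 2)⁻¹ * φ ((p.1 - q.1) / δ, (p.2 - q.2) / δ)

/-- the smoothed number of lattice points -/
noncomputable def smc (φ : ℝ × ℝ → ℝ) (δ : ℝ) (G : ℝ → ℝ) : ℝ :=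
  ∑' k : ℤ × ℤ, smf φ δ G ((k.1 : ℝ), (k.2 : ℝ))

private lemma ee_cont2 (x y : ℝ) : Continuous fun p : ℝ × ℝ => ee (-(x * p.1 + y * p.2)) := by
  apply ee_cont.comp
  fun_prop

private lemma sum_nat12 {δ : ℝ} (hδ : 0 < δ) : Summable (fun n : ℕ => ((1 + δ * |((n : ℤ) : ℝ)|) ^ 2)⁻¹) := by
  have h0 : Summable (fun n : ℕ => ((min 1 δ) ^ 2)⁻¹ * (1 / ((n + 1 : ℕ) : ℝ) ^ 2)) :=
    ((summable_nat_add_iff 1).mpr (Real.summable_one_div_nat_pow.mpr (by norm_num : 1 < 2))).mul_left _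
  refine Summable.of_nonneg_of_le (fun n => by positivity) (fun n => ?_) h0
  have hm : 0 < min 1 δ := lt_min one_pos hδ
  have hn : (0 : ℝ) ≤ n := Nat.cast_nonneg n
  have h1 : min 1 δ * ((n + 1 : ℕ) : ℝ) ≤ 1 + δ * |((n : ℤ) : ℝ)| := by
    have e : |((n : ℤ) : ℝ)| = n := by
      rw [Int.cast_natCast, abs_of_nonneg hn]
    rw [e]
    push_cast
    have h2 : min 1 δ * (n : ℝ) ≤ δ * n := mul_le_mul_of_nonneg_right (min_le_right _ _) hn
    have h3 := min_le_left 1 δ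
    linarith
  have h4 : (min 1 δ * ((n + 1 : ℕ) : ℝ)) ^ 2 ≤ (1 + δ * |((n : ℤ) : ℝ)|) ^ 2 :=
    pow_le_pow_left₀ (by positivity) h1 2
  have h5 : ((min 1 δ) ^ 2)⁻¹ * (1 / ((n + 1 : ℕ) : ℝ) ^ 2) = ((min 1 δ * ((n + 1 : ℕ) : ℝ)) ^ 2)⁻¹ := by
    rw [mul_pow, mul_inv, one_div]
  rw [h5]
  exact inv_anti₀ (by positivity) h4

private lemma sum_int12 {δ : ℝ} (hδ : 0 < δ) : Summable (fun n : ℤ => ((1 + δ * |(n : ℝ)|) ^ 2)⁻¹) := by
  apply Summable.of_nat_of_neg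
  · exact sum_nat12 hδ
  · have h := sum_nat12 hδ
    refine h.congr (fun n => ?_)
    push_cast
    rw [abs_neg]

private lemma norm_ft12 {G : ℝ → ℝ} (hG : IsSupp G) (k : ℤ × ℤ) : ‖ft G k‖ ≤ volume.real (dom G) := by
  unfold ft
  have h := norm_setIntegral_le_of_norm_le_const (μ := (volume : Measure (ℝ × ℝ))) (s := dom G)
    (f := fun p : ℝ × ℝ => ee (-((k.1 : ℝ) * p.1 + (k.2 : ℝ) * p.2))) (C := 1)
    (dom_compact hG).measure_lt_top (fun x _ => (ee_norm _).le)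
  rwa [one_mul] at h

theorem ft_fhat_summable {G : ℝ → ℝ} (hG : IsSupp G) {φ : ℝ × ℝ → ℝ} (hφ : IsBump φ) {δ : ℝ} (hδ : 0 < δ) :
    Summable (fun k : ℤ × ℤ => ‖ft G k * fhat φ (δ * k.1) (δ * k.2)‖) := by
  obtain ⟨C, hC⟩ := hφ.decay 4
  have hC0 : 0 ≤ C := le_trans (by positivity) (hC 0 0)
  have hs : Summable (fun k : ℤ × ℤ =>
      (volume.real (dom G) * C) * (((1 + δ * |(k.1 : ℝ)|) ^ 2)⁻¹ * ((1 + δ * |(k.2 : ℝ)|) ^ 2)⁻¹)) := by
    apply Summable.mul_left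
    exact Summable.mul_of_nonneg (sum_int12 hδ) (sum_int12 hδ) (fun n => by positivity)
      (fun n => by positivity)
  refine Summable.of_nonneg_of_le (fun k => norm_nonneg _) (fun k => ?_) hs
  rw [norm_mul, mul_assoc]
  apply mul_le_mul (norm_ft12 hG k) _ (norm_nonneg _) measureReal_nonneg
  have h := hC (δ * k.1) (δ * k.2)
  set r := sqrt ((δ * (k.1 : ℝ)) ^ 2 + (δ * (k.2 : ℝ)) ^ 2) with hr
  have h1 : δ * |(k.1 : ℝ)| ≤ r := by
    rw [hr]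
    apply Real.le_sqrt_of_sq_le
    have : (δ * |(k.1 : ℝ)|) ^ 2 = (δ * (k.1 : ℝ)) ^ 2 := by rw [mul_pow, sq_abs, mul_pow]
    rw [this]
    have := sq_nonneg (δ * (k.2 : ℝ))
    linarith
  have h2 : δ * |(k.2 : ℝ)| ≤ r := by
    rw [hr]
    apply Real.le_sqrt_of_sq_le
    have : (δ * |(k.2 : ℝ)|) ^ 2 = (δ * (k.2 : ℝ)) ^ 2 := by rw [mul_pow, sq_abs, mul_pow]
    rw [this]
    have := sq_nonneg (δ * (k.1 : ℝ))
    linarith
  have p1 : 0 ≤ δ * |(k.1 : ℝ)| := by positivity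
  have p2 : 0 ≤ δ * |(k.2 : ℝ)| := by positivity
  have h3 : (1 + δ * |(k.1 : ℝ)|) ^ 2 * (1 + δ * |(k.2 : ℝ)|) ^ 2 ≤ (1 + r) ^ 4 := by
    have e : (1 + r) ^ 4 = (1 + r) ^ 2 * (1 + r) ^ 2 := by ring
    rw [e]
    apply mul_le_mul
    · exact pow_le_pow_left₀ (by linarith) (by linarith) 2
    · exact pow_le_pow_left₀ (by linarith) (by linarith) 2
    · positivity
    · positivity
  rw [← mul_inv, ← div_eq_mul_inv, le_div_iff₀ (by positivity)]
  exact (mul_le_mul_of_nonneg_left h3 (norm_nonneg _)).trans h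

private lemma smf_cont12 {G : ℝ → ℝ} (hG : IsSupp G) {φ : ℝ × ℝ → ℝ} (hφ : IsBump φ) (δ : ℝ) :
    Continuous (smf φ δ G) := by
  unfold smf
  refine continuous_parametric_integral_of_continuous (f := fun p q : ℝ × ℝ =>
    (δ ^ 2)⁻¹ * φ ((p.1 - q.1) / δ, (p.2 - q.2) / δ)) ?_ (dom_compact hG)
  apply Continuous.mul continuous_const
  apply hφ.cont.comp
  fun_prop

/-- the domain lies in a square -/
private lemma box12 {G : ℝ → ℝ} (hG : IsSupp G) : ∃ B : ℝ, 0 ≤ B ∧ ∀ q ∈ dom G, |q.1| ≤ B ∧ |q.2| ≤ B := by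
  obtain ⟨B, hB⟩ := (dom_compact hG).isBounded.exists_norm_le
  refine ⟨max B 0, le_max_right _ _, fun q hq => ?_⟩
  have h := hB q hq
  rw [Prod.norm_def] at h
  constructor
  · exact (le_max_left _ _).trans (h.trans (le_max_left _ _))
  · exact (le_max_right _ _).trans (h.trans (le_max_left _ _))

private lemma bump_zero12 {φ : ℝ × ℝ → ℝ} (hφ : IsBump φ) {δ : ℝ} (hδ : 0 < δ) {B : ℝ} {p q : ℝ × ℝ}
    (hq : |q.1| ≤ B ∧ |q.2| ≤ B) (hp : B + δ < |p.1| ∨ B + δ < |p.2|) :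
    φ ((p.1 - q.1) / δ, (p.2 - q.2) / δ) = 0 := by
  apply hφ.supp
  have key : ∀ a b : ℝ, |b| ≤ B → B + δ < |a| → 1 < ((a - b) / δ) ^ 2 := by
    intro a b hb ha
    have h1 : δ < |a - b| := by
      have := abs_sub_abs_le_abs_sub a b
      linarith
    have h2 : 1 < |(a - b) / δ| := by
      rw [abs_div, abs_of_pos hδ, lt_div_iff₀ hδ, one_mul]
      exact h1
    rw [← sq_abs]
    exact one_lt_pow₀ h2 (by norm_num)
  rcases hp with hp | hp
  · have := key p.1 q.1 hq.1 hp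
    have h2 := sq_nonneg ((p.2 - q.2) / δ)
    show 1 < ((p.1 - q.1) / δ) ^ 2 + ((p.2 - q.2) / δ) ^ 2
    linarith
  · have := key p.2 q.2 hq.2 hp
    have h2 := sq_nonneg ((p.1 - q.1) / δ)
    show 1 < ((p.1 - q.1) / δ) ^ 2 + ((p.2 - q.2) / δ) ^ 2
    linarith

private lemma inner12 (φ : ℝ × ℝ → ℝ) {δ : ℝ} (hδ : 0 < δ) (x y : ℝ) (q : ℝ × ℝ) :
    ∫ p : ℝ × ℝ, ee (-(x * p.1 + y * p.2)) *
      (((δ ^ 2)⁻¹ * φ ((p.1 - q.1) / δ, (p.2 - q.2) / δ) : ℝ) : ℂ) =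
    ee (-(x * q.1 + y * q.2)) * fhat φ (δ * x) (δ * y) := by
  have h1 := integral_add_left_eq_self (μ := (volume : Measure (ℝ × ℝ)))
    (fun p : ℝ × ℝ => ee (-(x * p.1 + y * p.2)) *
      (((δ ^ 2)⁻¹ * φ ((p.1 - q.1) / δ, (p.2 - q.2) / δ) : ℝ) : ℂ)) q
  have h2 := Measure.integral_comp_smul (volume : Measure (ℝ × ℝ))
    (fun p : ℝ × ℝ => ee (-(x * (q + p).1 + y * (q + p).2)) *
      (((δ ^ 2)⁻¹ * φ (((q + p).1 - q.1) / δ, ((q + p).2 - q.2) / δ) : ℝ) : ℂ)) δ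
  rw [← h1]
  have hfin : Module.finrank ℝ (ℝ × ℝ) = 2 := by simp
  rw [hfin, abs_of_pos (by positivity : 0 < (δ ^ 2)⁻¹)] at h2
  have h3 : (∫ p : ℝ × ℝ, ee (-(x * (q + p).1 + y * (q + p).2)) *
      (((δ ^ 2)⁻¹ * φ (((q + p).1 - q.1) / δ, ((q + p).2 - q.2) / δ) : ℝ) : ℂ)) =
      (δ ^ 2 : ℝ) • ∫ p : ℝ × ℝ, ee (-(x * (q + δ • p).1 + y * (q + δ • p).2)) *
      (((δ ^ 2)⁻¹ * φ (((q + δ • p).1 - q.1) / δ, ((q + δ • p).2 - q.2) / δ) : ℝ) : ℂ) := by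
    rw [h2, smul_smul, mul_inv_cancel₀ (by positivity), one_smul]
  rw [h3]
  unfold fhat
  rw [← integral_const_mul, ← integral_smul]
  congr 1
  funext p
  have e1 : ((q + δ • p).1 - q.1) / δ = p.1 := by
    simp only [Prod.fst_add, Prod.smul_fst, smul_eq_mul]
    field_simp
    ring
  have e2 : ((q + δ • p).2 - q.2) / δ = p.2 := by
    simp only [Prod.snd_add, Prod.smul_snd, smul_eq_mul]
    field_simp
    ring
  have e3 : -(x * (q + δ • p).1 + y * (q + δ • p).2) =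
      -(x * q.1 + y * q.2) + -(δ * x * p.1 + δ * y * p.2) := by
    simp only [Prod.fst_add, Prod.smul_fst, Prod.snd_add, Prod.smul_snd, smul_eq_mul]
    ring
  rw [e1, e2, e3, ee_add]
  have e4 : (((δ ^ 2)⁻¹ * φ (p.1, p.2) : ℝ) : ℂ) = ((δ ^ 2 : ℝ) : ℂ)⁻¹ * (φ p : ℂ) := by
    rw [Complex.ofReal_mul, Complex.ofReal_inv]
  rw [e4, Complex.real_smul]
  have h0 : ((δ ^ 2 : ℝ) : ℂ) ≠ 0 := by
    rw [Complex.ofReal_ne_zero]
    positivity
  field_simp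

private lemma four12 {G : ℝ → ℝ} (hG : IsSupp G) {φ : ℝ × ℝ → ℝ} (hφ : IsBump φ) {δ : ℝ} (hδ : 0 < δ)
    (k : ℤ × ℤ) :
    ∫ p : ℝ × ℝ, ee (-((k.1 : ℝ) * p.1 + (k.2 : ℝ) * p.2)) * ((smf φ δ G p : ℝ) : ℂ) =
      ft G k * fhat φ (δ * k.1) (δ * k.2) := by
  set F : (ℝ × ℝ) → (ℝ × ℝ) → ℂ := fun p q => ee (-((k.1 : ℝ) * p.1 + (k.2 : ℝ) * p.2)) *
      (((δ ^ 2)⁻¹ * φ ((p.1 - q.1) / δ, (p.2 - q.2) / δ) : ℝ) : ℂ) with hF
  have hFc : Continuous (Function.uncurry F) := by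
    rw [hF]
    unfold Function.uncurry
    apply Continuous.mul
    · exact (ee_cont2 (k.1 : ℝ) (k.2 : ℝ)).comp continuous_fst
    · apply Complex.continuous_ofReal.comp
      apply Continuous.mul continuous_const
      apply hφ.cont.comp
      fun_prop
  have h1 : ∀ p : ℝ × ℝ, ee (-((k.1 : ℝ) * p.1 + (k.2 : ℝ) * p.2)) * ((smf φ δ G p : ℝ) : ℂ) =
      ∫ q in dom G, F p q := by
    intro p
    rw [hF]
    unfold smf
    rw [← integral_complex_ofReal, ← integral_const_mul]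
  simp_rw [h1]
  obtain ⟨B, hB0, hB⟩ := box12 hG
  have hint : Integrable (Function.uncurry F) ((volume : Measure (ℝ × ℝ)).prod (volume.restrict (dom G))) := by
    have e : ((volume : Measure (ℝ × ℝ)).prod (volume.restrict (dom G))) =
        ((volume : Measure (ℝ × ℝ)).prod volume).restrict (Set.univ ×ˢ dom G) := by
      rw [← Measure.prod_restrict, Measure.restrict_univ]
    rw [e]
    have hK : IsCompact ((Icc (-(B + δ)) (B + δ) ×ˢ Icc (-(B + δ)) (B + δ)) ×ˢ dom G) :=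
      (isCompact_Icc.prod isCompact_Icc).prod (dom_compact hG)
    have h2 : IntegrableOn (Function.uncurry F)
        ((Icc (-(B + δ)) (B + δ) ×ˢ Icc (-(B + δ)) (B + δ)) ×ˢ dom G)
        ((volume : Measure (ℝ × ℝ)).prod volume) := hFc.continuousOn.integrableOn_compact hK
    refine h2.of_forall_sdiff_eq_zero (MeasurableSet.univ.prod (dom_compact hG).measurableSet) ?_
    rintro ⟨p, q⟩ ⟨hx1, hx2⟩
    have hq : q ∈ dom G := hx1.2
    have hp : ¬ (p ∈ Icc (-(B + δ)) (B + δ) ×ˢ Icc (-(B + δ)) (B + δ)) := fun hp => hx2 ⟨hp, hq⟩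
    have hp2 : B + δ < |p.1| ∨ B + δ < |p.2| := by
      by_contra hcon
      rw [not_or, not_lt, not_lt, abs_le, abs_le] at hcon
      exact hp ⟨hcon.1, hcon.2⟩
    show F p q = 0
    rw [hF]
    simp only [bump_zero12 hφ hδ (hB q hq) hp2, mul_zero, Complex.ofReal_zero]
  rw [integral_integral_swap hint]
  have h3 : ∀ q : ℝ × ℝ, ∫ p : ℝ × ℝ, F p q =
      ee (-((k.1 : ℝ) * q.1 + (k.2 : ℝ) * q.2)) * fhat φ (δ * k.1) (δ * k.2) :=
    fun q => inner12 φ hδ (k.1 : ℝ) (k.2 : ℝ) q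
  simp_rw [h3]
  rw [integral_mul_const]
  rfl

theorem poisson_dom {G : ℝ → ℝ} (hG : IsSupp G) {φ : ℝ × ℝ → ℝ} (hφ : IsBump φ) {δ : ℝ} (hδ : 0 < δ) :
    HasSum (fun k : ℤ × ℤ => ft G k * fhat φ (δ * k.1) (δ * k.2)) ((smc φ δ G : ℝ) : ℂ) := by
  obtain ⟨B, hB0, hB⟩ := box12 hG
  set f : (Fin 2 → ℝ) → ℂ := fun y => ((smf φ δ G (y 0, y 1) : ℝ) : ℂ) with hf
  have hfc : Continuous f := by
    rw [hf]
    apply Complex.continuous_ofReal.comp
    apply (smf_cont12 hG hφ δ).comp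
    fun_prop
  have hf0 : ∀ y : Fin 2 → ℝ, (∃ i, B + δ < |y i|) → f y = 0 := by
    rintro y ⟨i, hi⟩
    rw [hf]
    have h1 : smf φ δ G (y 0, y 1) = 0 := by
      unfold smf
      apply setIntegral_eq_zero_of_forall_eq_zero
      intro q hq
      have hp : B + δ < |(y 0, y 1).1| ∨ B + δ < |(y 0, y 1).2| := by
        fin_cases i
        · exact Or.inl hi
        · exact Or.inr hi
      rw [bump_zero12 hφ hδ (hB q hq) hp, mul_zero]
    simp only [h1, Complex.ofReal_zero]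
  have hcoef : ∀ k : Fin 2 → ℤ, ∫ y, Helper52.Circle.chr k y * f y =
      ft G (k 0, k 1) * fhat φ (δ * k 0) (δ * k 1) := by
    intro k
    rw [← four12 hG hφ hδ (k 0, k 1)]
    have hmp := (volume_preserving_finTwoArrow ℝ).integral_comp' (f := MeasurableEquiv.finTwoArrow)
      (fun p : ℝ × ℝ => ee (-(((k 0, k 1).1 : ℝ) * p.1 + ((k 0, k 1).2 : ℝ) * p.2)) *
        ((smf φ δ G p : ℝ) : ℂ))
    rw [← hmp]
    congr 1
    funext y
    rw [hf]
    have e1 : (MeasurableEquiv.finTwoArrow y : ℝ × ℝ) = (y 0, y 1) := rfl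
    rw [e1, Helper52.Circle.chr_eq]
    unfold ee
    congr 2
    rw [Fin.sum_univ_two]
    push_cast
    ring
  have hs : Summable (fun k : Fin 2 → ℤ => ∫ y, Helper52.Circle.chr k y * f y) := by
    simp_rw [hcoef]
    have h1 : Summable (fun k : ℤ × ℤ => ft G k * fhat φ (δ * k.1) (δ * k.2)) :=
      (ft_fhat_summable hG hφ hδ).of_norm
    exact (finTwoArrowEquiv ℤ).summable_iff.mpr h1
  have hP := Helper52.Circle.poisson f hfc (B + δ) hf0 hs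
  simp_rw [hcoef] at hP
  have h2 : (∑' v : Fin 2 → ℤ, f (Helper52.Circle.toR v)) = ((smc φ δ G : ℝ) : ℂ) := by
    unfold smc
    rw [Complex.ofReal_tsum]
    exact (finTwoArrowEquiv ℤ).tsum_eq (fun k : ℤ × ℤ => ((smf φ δ G ((k.1 : ℝ), (k.2 : ℝ)) : ℝ) : ℂ))
  rw [h2] at hP
  exact (finTwoArrowEquiv ℤ).hasSum_iff.mp hP

end Pool.Agent.Helper22.AE
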