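import Pool.Agent.Helper22.AE.E2

/-!
# AE-X1: the number `M = ⌊x^(1/(2m))⌋` and the arc counts

PROOF of `floor_pow`. `y = x^(1/(2m)) ≥ 2`, so `M = ⌊y⌋ ≥ 2`, `M ≤ y ≤ M + 1 ≤ 2M`; raise to the power `t`; `y^t = x^(t/(2m))`.
PROOF of `Dc_le`. `4x + 1 ≤ 5x`; `6x·2π/(8M^t) ≤ 5x/M^t ≤ 5·2^t x^(1-t/(2m))` (`π ≤ 3.15`), `1 ≤ x^(1-t/(2m))` (`t ≤ m`, `x ≥ 1`).
`one_le_Dc`: `Dc ≥ 2·(4x+1) ≥ 1` for `x ≥ 1`.
-/

open Real Set Filter Topology

set_option autoImplicit false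

namespace Pool.Agent.Helper22.AE

theorem floor_pow {m : ℕ} (hm : 1 ≤ m) {x : ℝ} (hx : (2 : ℝ) ^ (2 * m) ≤ x) {M : ℕ}
    (hM : M = ⌊x ^ (1 / (2 * (m : ℝ)))⌋₊) (t : ℕ) :
    2 ≤ M ∧ (M : ℝ) ^ t ≤ x ^ ((t : ℝ) / (2 * m)) ∧ x ^ ((t : ℝ) / (2 * m)) ≤ 2 ^ t * (M : ℝ) ^ t := by
  have hm0 : (0 : ℝ) < 2 * (m : ℝ) := by
    have : (1 : ℝ) ≤ m := by exact_mod_cast hm
    linarith
  have hx0 : 0 < x := lt_of_lt_of_le (by positivity) hx
  set y : ℝ := x ^ (1 / (2 * (m : ℝ))) with hy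
  have hy2 : 2 ≤ y := by
    have h1 : ((2 : ℝ) ^ (2 * m)) ^ (1 / (2 * (m : ℝ))) ≤ y :=
      Real.rpow_le_rpow (by positivity) hx (by positivity)
    have h2 : ((2 : ℝ) ^ (2 * m)) ^ (1 / (2 * (m : ℝ))) = 2 := by
      rw [← Real.rpow_natCast, ← Real.rpow_mul (by norm_num)]
      push_cast
      rw [mul_one_div_cancel hm0.ne', Real.rpow_one]
    rw [h2] at h1
    exact h1
  have hy0 : 0 ≤ y := by linarith
  have hM2 : 2 ≤ M := by
    rw [hM]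
    exact Nat.le_floor (by exact_mod_cast hy2)
  have hMy : (M : ℝ) ≤ y := by
    rw [hM]
    exact Nat.floor_le hy0
  have hyM : y ≤ 2 * M := by
    have h1 : y < M + 1 := by
      rw [hM]
      exact Nat.lt_floor_add_one y
    have h2 : (2 : ℝ) ≤ M := by exact_mod_cast hM2
    linarith
  have hyt : y ^ t = x ^ ((t : ℝ) / (2 * m)) := by
    rw [hy, ← Real.rpow_natCast, ← Real.rpow_mul hx0.le]
    congr 1
    ring
  refine ⟨hM2, ?_, ?_⟩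
  · rw [← hyt]
    exact pow_le_pow_left₀ (Nat.cast_nonneg _) hMy t
  · rw [← hyt, ← mul_pow]
    exact pow_le_pow_left₀ hy0 hyM t

theorem Dc_le {m : ℕ} (hm : 1 ≤ m) {x : ℝ} (hx : (2 : ℝ) ^ (2 * m) ≤ x) {M : ℕ}
    (hM : M = ⌊x ^ (1 / (2 * (m : ℝ)))⌋₊) {t : ℕ} (ht : t ≤ m) :
    Dc x M t ≤ 10 * (5 * 2 ^ m + 1) * x ^ (2 - (t : ℝ) / (2 * m)) := by
  obtain ⟨hM2, h1, h2⟩ := floor_pow hm hx hM t
  have hm1 : (1 : ℝ) ≤ m := by exact_mod_cast hm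
  have hm0 : (0 : ℝ) < 2 * (m : ℝ) := by linarith
  have hx1 : 1 ≤ x := le_trans (one_le_pow₀ (by norm_num)) hx
  have hx0 : 0 < x := by linarith
  have hMt : (0 : ℝ) < (M : ℝ) ^ t := by
    have : (2 : ℝ) ≤ M := by exact_mod_cast hM2
    positivity
  have htm : (t : ℝ) ≤ m := by exact_mod_cast ht
  set z : ℝ := x ^ (1 - (t : ℝ) / (2 * m)) with hz
  have hz1 : 1 ≤ z := by
    apply Real.one_le_rpow hx1
    have : (t : ℝ) / (2 * m) ≤ 1 := by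
      rw [div_le_one hm0]
      linarith
    linarith
  have hz2 : z = x / x ^ ((t : ℝ) / (2 * m)) := by
    rw [hz, Real.rpow_sub hx0, Real.rpow_one]
  have hxt : 0 < x ^ ((t : ℝ) / (2 * m)) := Real.rpow_pos_of_pos hx0 _
  have h3 : x / (M : ℝ) ^ t ≤ 2 ^ m * z := by
    have h4 : x / (M : ℝ) ^ t ≤ 2 ^ t * z := by
      rw [hz2, div_le_iff₀ hMt, ← mul_div_assoc, div_mul_eq_mul_div, le_div_iff₀ hxt]
      calc x * x ^ ((t : ℝ) / (2 * m)) ≤ x * (2 ^ t * (M : ℝ) ^ t) :=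
            mul_le_mul_of_nonneg_left h2 hx0.le
        _ = 2 ^ t * x * (M : ℝ) ^ t := by ring
    refine h4.trans (mul_le_mul_of_nonneg_right ?_ (by linarith))
    exact pow_le_pow_right₀ (by norm_num) ht
  have h5 : 6 * x * (2 * π / (8 * (M : ℝ) ^ t)) ≤ 5 * (2 ^ m * z) := by
    have h6 : 6 * x * (2 * π / (8 * (M : ℝ) ^ t)) = (3 / 2 * π) * (x / (M : ℝ) ^ t) := by
      field_simp
      ring
    rw [h6]
    have h7 : 3 / 2 * π ≤ 5 := by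
      have := Real.pi_lt_d2
      linarith
    exact mul_le_mul h7 h3 (by positivity) (by norm_num)
  unfold Dc
  have h8 : x ^ (2 - (t : ℝ) / (2 * m)) = x * z := by
    rw [hz, ← Real.rpow_one_add' hx0.le]
    · congr 1
      ring
    · have : (t : ℝ) / (2 * m) ≤ 1 := by
        rw [div_le_one hm0]
        linarith
      linarith
  rw [h8]
  have h9 : (0 : ℝ) ≤ 2 ^ m * z := by positivity
  calc 2 * (4 * x + 1) * (6 * x * (2 * π / (8 * (M : ℝ) ^ t)) + 1) ≤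
      2 * (5 * x) * (5 * (2 ^ m * z) + z) := by
        refine mul_le_mul (by linarith) (by linarith) ?_ (by positivity)
        have : 0 ≤ 6 * x * (2 * π / (8 * (M : ℝ) ^ t)) := by
          have := Real.pi_pos
          positivity
        linarith
    _ = 10 * (5 * 2 ^ m + 1) * (x * z) := by ring

theorem one_le_Dc {x M : ℝ} (hx : 1 ≤ x) (hM : 0 ≤ M) (t : ℕ) : 1 ≤ Dc x M t := by
  unfold Dc
  have h1 : 0 ≤ 6 * x * (2 * π / (8 * M ^ t)) := by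
    have := Real.pi_pos
    positivity
  nlinarith

end Pool.Agent.Helper22.AE
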