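import Pool.Agent.Helper22.AE.X1

/-!
# AE-X3: the two hypotheses of `Xs_mean` hold for large radii

PROOF. `x ≥ R₀^ε` is large. `d = (s+1)/(2m) ≤ 1/2`, `τ = 1/(2M^(s+1)) ≥ x^(-d)/2` (`floor_pow`). Put `r = log R₀ / log x`, so `R₀ = x^r`.
`(2J-1)d ≤ (2J-3)d + 1 ≤ r + 9/10`. Hence `x τ^(2J-1) ≥ x 2^(-(2J-1)) x^(-(r+9/10)) = 2^(-(2J-1)) R₀⁻¹ x^(1/10)` and
`τ^(2J-3) ≥ 2^(-(2J-3)) x^(-(r-1/10)) = 2^(-(2J-3)) R₀⁻¹ x^(1/10)`. As `x^(1/10) ≥ R₀^(ε/10)` and `e3 ≤ ε/20`,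
`R₀⁻¹ x^(1/10) ≥ R₀^(-1+e3) R₀^(ε/20)`, and `R₀^(ε/20) ≥ 100 Jm 16^Jm` for `R₀ ≥ R₁`.
-/

open Real Set Filter Topology

set_option autoImplicit false

namespace Pool.Agent.Helper22.AE

/-- `x^(1/10 - r) ≥ R₀^(-1+e3) * C` once `R₀^(ε/20) ≥ C`. -/
private theorem hyp_base {ε e3 : ℝ} (he3' : e3 ≤ ε / 20) {R₀ x C : ℝ} (hR : 1 ≤ R₀)
    (hx1 : 1 < x) (hx : R₀ ^ ε ≤ x) (hC : C ≤ R₀ ^ (ε / 20)) :
    R₀ ^ (-1 + e3) * C ≤ x ^ (1 / 10 - log R₀ / log x) := by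
  have hR0 : 0 < R₀ := by linarith
  have hx0 : 0 < x := by linarith
  have hL : 0 < log x := log_pos hx1
  have h1 : x ^ (log R₀ / log x) = R₀ := by
    rw [rpow_def_of_pos hx0, mul_div_cancel₀ _ hL.ne', exp_log hR0]
  have h2 : R₀ ^ (ε / 10) ≤ x ^ ((1 : ℝ) / 10) := by
    have h := rpow_le_rpow (rpow_nonneg hR0.le ε) hx (by norm_num : (0 : ℝ) ≤ 1 / 10)
    rw [← rpow_mul hR0.le] at h
    rwa [mul_one_div] at h
  rw [rpow_sub hx0, h1, le_div_iff₀ hR0]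
  calc R₀ ^ (-1 + e3) * C * R₀ ≤ R₀ ^ (-1 + e3) * R₀ ^ (ε / 20) * R₀ := by
        gcongr
    _ = R₀ ^ (e3 + ε / 20) := by
        rw [← rpow_add hR0]
        nth_rewrite 2 [← rpow_one R₀]
        rw [← rpow_add hR0]
        congr 1
        ring
    _ ≤ R₀ ^ (ε / 10) := rpow_le_rpow_of_exponent_le hR (by linarith)
    _ ≤ _ := h2

/-- Lower bound for a power of `τ`. -/
private theorem tau_pow {x τ d : ℝ} (hx0 : 0 < x) (hτ : x ^ (-d) / 2 ≤ τ) (k : ℕ) :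
    x ^ (-(d * k)) ≤ 2 ^ k * τ ^ k := by
  have h0 : 0 ≤ x ^ (-d) := rpow_nonneg hx0.le _
  have h1 : x ^ (-d) ≤ 2 * τ := by linarith
  have h2 := pow_le_pow_left₀ h0 h1 k
  rw [mul_pow] at h2
  rwa [← neg_mul, rpow_mul_natCast hx0.le]

private theorem J_bound {J Jm : ℕ} (hJ : J ≤ Jm) :
    (J : ℝ) * 16 ^ J ≤ Jm * 16 ^ Jm := by
  have h1 : (J : ℝ) ≤ Jm := by exact_mod_cast hJ
  have h2 : (16 : ℝ) ^ J ≤ 16 ^ Jm := pow_le_pow_right₀ (by norm_num) hJ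
  exact mul_le_mul h1 h2 (by positivity) (by positivity)

theorem hyp_ok {ε e3 : ℝ} (hε : 0 < ε) (hε1 : ε ≤ 1) (he3 : 0 < e3) (he3' : e3 ≤ ε / 20) {m : ℕ} (hm : 1 ≤ m)
    (Jm : ℕ) : ∃ R₁ : ℝ, 1 ≤ R₁ ∧ ∀ R₀ : ℝ, R₁ ≤ R₀ → ∀ x : ℝ, R₀ ^ ε ≤ x → ∀ s < m, ∀ J : ℕ, 2 ≤ J → J ≤ Jm →
      (2 * (J : ℝ) - 3) * (((s : ℝ) + 1) / (2 * m)) ≤ log R₀ / log x - 1 / 10 →
      ∀ M : ℕ, M = ⌊x ^ (1 / (2 * (m : ℝ)))⌋₊ →
        J * 4 ^ J * (2 * R₀ ^ (-1 + e3)) ≤ x * (1 / (2 * (M : ℝ) ^ (s + 1))) ^ (2 * J - 1) ∧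
        50 * J * 4 ^ J * R₀ ^ (-1 + e3) < (1 / (2 * (M : ℝ) ^ (s + 1))) ^ (2 * J - 3) := by
  have hE1 := (tendsto_rpow_atTop hε).eventually_ge_atTop ((2 : ℝ) ^ (2 * m))
  have hE2 := (tendsto_rpow_atTop (by linarith : 0 < ε / 20)).eventually_ge_atTop
    (100 * ((Jm : ℝ) * 16 ^ Jm) + 1)
  obtain ⟨R₁, hR₁⟩ := (hE1.and (hE2.and (eventually_ge_atTop (1 : ℝ)))).exists_forall_of_atTop
  refine ⟨max R₁ 1, le_max_right _ _, ?_⟩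
  intro R₀ hR₀ x hx s hs J hJ2 hJm hd M hM
  obtain ⟨h1, h2, h3⟩ := hR₁ R₀ (le_trans (le_max_left _ _) hR₀)
  have hR0 : 0 < R₀ := by linarith
  have hx2 : (2 : ℝ) ^ (2 * m) ≤ x := h1.trans hx
  have h22 : (2 : ℝ) ≤ 2 ^ (2 * m) := by
    calc (2 : ℝ) = 2 ^ 1 := by norm_num
      _ ≤ 2 ^ (2 * m) := pow_le_pow_right₀ (by norm_num) (by omega)
  have hx1 : 1 < x := by linarith
  have hx0 : 0 < x := by linarith
  obtain ⟨hM2, hMle, -⟩ := floor_pow hm hx2 hM (s + 1)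
  have hM0 : (0 : ℝ) < M := by
    have : (2 : ℝ) ≤ M := by exact_mod_cast hM2
    linarith
  set d : ℝ := ((s : ℝ) + 1) / (2 * m) with hdd
  have hmR : (1 : ℝ) ≤ m := by exact_mod_cast hm
  have hsR : (s : ℝ) + 1 ≤ m := by exact_mod_cast hs
  have hd2 : d ≤ 1 / 2 := by
    rw [hdd, div_le_iff₀ (by linarith)]
    linarith
  have hd0 : 0 ≤ d := by rw [hdd]; positivity
  have hMle' : (M : ℝ) ^ (s + 1) ≤ x ^ d := by
    rw [hdd]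
    have h := hMle
    push_cast at h
    exact h
  set τ : ℝ := 1 / (2 * (M : ℝ) ^ (s + 1)) with hτd
  have hMp : 0 < (M : ℝ) ^ (s + 1) := pow_pos hM0 _
  have hτ : x ^ (-d) / 2 ≤ τ := by
    have hxd : 0 < x ^ d := rpow_pos_of_pos hx0 _
    rw [hτd, rpow_neg hx0.le, div_le_div_iff₀ (by norm_num) (by positivity), one_mul,
      inv_mul_le_iff₀ hxd]
    linarith
  have hτ0 : 0 < τ := by rw [hτd]; positivity
  have hbase := hyp_base he3' h3 hx1 hx h2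
  have hJb := J_bound hJm
  have hRp : 0 < R₀ ^ (-1 + e3) := rpow_pos_of_pos hR0 _
  have hJR : (2 : ℝ) ≤ J := by exact_mod_cast hJ2
  have h4J : (0 : ℝ) < 4 ^ J := by positivity
  obtain ⟨j, rfl⟩ : ∃ j, J = j + 2 := ⟨J - 2, by omega⟩
  have e1 : 2 * (j + 2) - 1 = 2 * j + 3 := by omega
  have e2 : 2 * (j + 2) - 3 = 2 * j + 1 := by omega
  rw [e1, e2]
  have hpow16 : (16 : ℝ) ^ (j + 2) = 4 ^ (j + 2) * 4 ^ (j + 2) := by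
    rw [← mul_pow]; norm_num
  have hp3 : (2 : ℝ) ^ (2 * j + 3) = 4 ^ (j + 2) / 2 := by
    rw [pow_add, pow_mul, pow_add]; norm_num; ring
  have hp1 : (2 : ℝ) ^ (2 * j + 1) = 4 ^ (j + 2) / 8 := by
    rw [pow_add, pow_mul, pow_add]; norm_num; ring
  push_cast at hd hJb hJR ⊢
  set A : ℝ := R₀ ^ (-1 + e3) with hA
  set Q : ℝ := (4 : ℝ) ^ (j + 2) with hQ
  have hQ0 : 0 < Q := h4J
  constructor
  · have ht := tau_pow hx0 hτ (2 * j + 3)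
    rw [hp3] at ht
    have h5 : x ^ (1 / 10 - log R₀ / log x) ≤ x * x ^ (-(d * ((2 * j + 3 : ℕ) : ℝ))) := by
      have hxx : x * x ^ (-(d * ((2 * j + 3 : ℕ) : ℝ))) = x ^ (1 + -(d * ((2 * j + 3 : ℕ) : ℝ))) := by
        rw [rpow_add hx0, rpow_one]
      rw [hxx]
      refine rpow_le_rpow_of_exponent_le hx1.le ?_
      push_cast
      linarith
    have h6 : x * x ^ (-(d * ((2 * j + 3 : ℕ) : ℝ))) ≤ x * (Q / 2 * τ ^ (2 * j + 3)) :=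
      mul_le_mul_of_nonneg_left ht hx0.le
    have h7 : A * (((j : ℝ) + 2) * (Q * Q)) ≤ x * (Q / 2 * τ ^ (2 * j + 3)) := by
      refine le_trans ?_ (hbase.trans (h5.trans h6))
      refine mul_le_mul_of_nonneg_left ?_ hRp.le
      rw [hpow16] at hJb
      have : (0 : ℝ) ≤ ((j : ℝ) + 2) * (Q * Q) := by positivity
      linarith
    have h8 : Q * (((j : ℝ) + 2) * Q * (2 * A)) ≤ Q * (x * τ ^ (2 * j + 3)) := by
      linarith [h7]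
    exact le_of_mul_le_mul_left h8 hQ0
  · have ht := tau_pow hx0 hτ (2 * j + 1)
    rw [hp1] at ht
    have h5 : x ^ (1 / 10 - log R₀ / log x) ≤ x ^ (-(d * ((2 * j + 1 : ℕ) : ℝ))) := by
      refine rpow_le_rpow_of_exponent_le hx1.le ?_
      push_cast
      linarith
    rw [hpow16] at hJb
    have h0 : (0 : ℝ) < ((j : ℝ) + 2) * (Q * Q) := by positivity
    have h7 : A * (50 / 8 * (((j : ℝ) + 2) * (Q * Q))) < Q / 8 * τ ^ (2 * j + 1) := by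
      refine lt_of_lt_of_le ?_ (hbase.trans (h5.trans ht))
      refine mul_lt_mul_of_pos_left ?_ hRp
      linarith
    have h8 : Q * (50 * ((j : ℝ) + 2) * Q * A) < Q * τ ^ (2 * j + 1) := by
      linarith [h7]
    exact lt_of_mul_lt_mul_left h8 hQ0.le

end Pool.Agent.Helper22.AE
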